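import Mathlib

open Cardinal Set

namespace Run7.h77.Galvin

universe u

variable {X : Type u} {κ : Cardinal.{u}}

/-- a well-order on `X` all of whose initial segments have size at most `κ` -/
theorem exists_wo (hX : #X = Order.succ κ) :
    ∃ (r : X → X → Prop) (_ : IsWellOrder X r), ∀ a, #{b // r b a} ≤ κ := by
  obtain ⟨r, wo, h⟩ := Cardinal.ord_eq X
  refine ⟨r, wo, fun a => ?_⟩
  have h1 := Cardinal.card_typein_lt (r := r) a h
  rw [hX, Order.lt_succ_iff] at h1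
  refine le_trans (le_of_eq ?_) h1
  rfl

theorem iUnion_le (hκ : ℵ₀ ≤ κ) {ι : Type u} (hι : #ι ≤ κ) (s : ι → Set X) (hs : ∀ i, #(s i) ≤ κ) :
    #(⋃ i, s i) ≤ κ := by
  refine (Cardinal.mk_iUnion_le_sum_mk).trans ?_
  refine (Cardinal.sum_le_sum _ (fun _ => κ) hs).trans ?_
  rw [Cardinal.sum_const']
  calc #ι * κ ≤ κ * κ := by gcongr
    _ = κ := Cardinal.mul_eq_self hκ

theorem exists_ED (hκ : ℵ₀ ≤ κ) (hX : #X = Order.succ κ) :
    ∃ F : Set (X → X), #F = Order.succ (Order.succ κ) ∧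
      ∀ f ∈ F, ∀ g ∈ F, f ≠ g → #{x // f x = g x} ≤ κ := by
  obtain ⟨r, wo, hr⟩ := exists_wo hX
  obtain ⟨F, hF⟩ := zorn_subset {F : Set (X → X) | ∀ f ∈ F, ∀ g ∈ F, f ≠ g → #{x // f x = g x} ≤ κ}
    (by
      intro c hc hch
      refine ⟨⋃₀ c, ?_, fun s hs => subset_sUnion_of_mem hs⟩
      rintro f ⟨s, hs, hfs⟩ g ⟨t, ht, hgt⟩ hne
      rcases hch.total hs ht with h | h
      · exact hc ht f (h hfs) g hgt hne
      · exact hc hs f hfs g (h hgt) hne)
  have hF1 : ∀ f ∈ F, ∀ g ∈ F, f ≠ g → #{x // f x = g x} ≤ κ := hF.prop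
  have key : Order.succ (Order.succ κ) ≤ #F := by
    by_contra hlt
    rw [not_le, Order.lt_succ_iff, ← hX] at hlt
    obtain ⟨e⟩ := Cardinal.le_def _ _ |>.1 hlt
    have hex : ∀ δ : X, ∃ y : X, ∀ g : F, r (e g) δ → g.1 δ ≠ y := by
      intro δ
      by_contra hcon
      push_neg at hcon
      choose G hG1 hG2 using hcon
      have : #X ≤ #{b // r b δ} := by
        refine Cardinal.mk_le_of_injective (f := fun y => ⟨e (G y), hG1 y⟩) ?_
        intro y y' hyy
        have h1 : e (G y) = e (G y') := congrArg Subtype.val hyy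
        have h2 := e.injective h1
        rw [← hG2 y, ← hG2 y', h2]
      have h3 := this.trans (hr δ)
      rw [hX] at h3
      exact absurd h3 (not_le.2 (Order.lt_succ κ))
    choose f hf using hex
    have hED : ∀ g : F, #{x // f x = g.1 x} ≤ κ := by
      intro g
      have hsub : {x | f x = g.1 x} ⊆ insert (e g) {x | r x (e g)} := by
        intro x hx
        rcases trichotomous_of r x (e g) with h | h | h
        · exact Or.inr h
        · exact Or.inl h
        · exact absurd hx.symm (hf x g h)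
      have h1 : #{x | f x = g.1 x} ≤ #(insert (e g) {x | r x (e g)} : Set X) := Cardinal.mk_le_mk_of_subset hsub
      have h2 : #(insert (e g) {x | r x (e g)} : Set X) ≤ #{x | r x (e g)} + 1 := Cardinal.mk_insert_le
      have h3 : #{x | r x (e g)} ≤ κ := hr (e g)
      have h4 : κ + 1 = κ := Cardinal.add_one_eq hκ
      calc #{x // f x = g.1 x} ≤ _ := h1
        _ ≤ _ := h2
        _ ≤ κ + 1 := by gcongr
        _ = κ := h4
    have hfF : f ∉ F := by
      intro hmem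
      have h1 := hED ⟨f, hmem⟩
      have h2 : #X ≤ κ := by
        refine le_trans ?_ h1
        refine Cardinal.mk_le_of_injective (f := fun x => ⟨x, rfl⟩) ?_
        intro a b hab
        exact congrArg Subtype.val hab
      rw [hX] at h2
      exact absurd h2 (not_le.2 (Order.lt_succ κ))
    have hins : insert f F ∈ {F : Set (X → X) | ∀ f ∈ F, ∀ g ∈ F, f ≠ g → #{x // f x = g x} ≤ κ} := by
      rintro a (rfl | ha) b (rfl | hb) hne
      · exact absurd rfl hne
      · exact hED ⟨b, hb⟩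
      · have h1 := hED ⟨a, ha⟩
        refine le_trans (le_of_eq ?_) h1
        exact Cardinal.mk_congr (Equiv.subtypeEquivRight (fun x => eq_comm))
      · exact hF1 a ha b hb hne
    exact hfF (hF.le_of_ge hins (subset_insert f F) (mem_insert f F))
  obtain ⟨p, hp, hpc⟩ := Cardinal.le_mk_iff_exists_subset.1 key
  exact ⟨p, hpc, fun f hf g hg => hF1 f (hp hf) g (hp hg)⟩

/-- A map `h : Set X → X → X → X` separating any `κ` many sets at one pair of points. -/
theorem exists_sep (hκ : ℵ₀ ≤ κ) (hX : #X = Order.succ κ) (h2 : (2 : Cardinal.{u}) ^ κ ≤ Order.succ (Order.succ κ)) :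
    ∃ h : Set X → X → X → X, ∀ 𝒥 : Set (Set X), #𝒥 ≤ κ → ∃ ξ ζ : X, InjOn (fun B => h B ξ ζ) 𝒥 := by
  classical
  obtain ⟨r, wo, hr⟩ := exists_wo hX
  obtain ⟨F, hFc, hF⟩ := exists_ED hκ hX
  have hcount : #{S : Set X // #S ≤ κ} ≤ #F := by
    rw [hFc]
    refine (Cardinal.mk_bounded_set_le X κ).trans ?_
    have h3 : max #X ℵ₀ ≤ 2 ^ κ := by
      refine max_le ?_ ?_
      · rw [hX]; exact Order.succ_le_of_lt (Cardinal.cantor κ)
      · exact hκ.trans (Cardinal.cantor κ).le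
    calc (max #X ℵ₀) ^ κ ≤ (2 ^ κ) ^ κ := Cardinal.power_le_power_right h3
      _ = 2 ^ κ := by rw [← Cardinal.power_mul, Cardinal.mul_eq_self hκ]
      _ ≤ _ := h2
  obtain ⟨c⟩ := Cardinal.le_def _ _ |>.1 hcount
  have hI : ∀ (B : Set X) (ξ : X), #(B ∩ {y | r y ξ} : Set X) ≤ κ := fun B ξ =>
    (Cardinal.mk_le_mk_of_subset inter_subset_right).trans (hr ξ)
  refine ⟨fun B ξ ζ => (c ⟨B ∩ {y | r y ξ}, hI B ξ⟩).1 ζ, fun 𝒥 hJ => ?_⟩
  have hprod : #(𝒥 × 𝒥) ≤ κ := by
    rw [Cardinal.mk_prod, Cardinal.lift_id]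
    calc #𝒥 * #𝒥 ≤ κ * κ := by gcongr
      _ = κ := Cardinal.mul_eq_self hκ
  haveI : Nonempty X := by
    rw [← Cardinal.mk_ne_zero_iff, hX]
    exact (Order.succ_ne_bot κ)
  -- separating points
  have hd : ∀ p : 𝒥 × 𝒥, ∃ d : X, p.1.1 ≠ p.2.1 → ¬ (d ∈ p.1.1 ↔ d ∈ p.2.1) := by
    intro p
    by_cases hp : p.1.1 = p.2.1
    · exact ⟨Classical.arbitrary X, fun h => absurd hp h⟩
    · by_contra hcon
      push_neg at hcon
      exact hp (Set.ext fun d => (hcon d).2)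
  choose d hd using hd
  have hξ : ∃ ξ : X, ∀ p, r (d p) ξ := by
    by_contra hcon
    push_neg at hcon
    have huniv : (univ : Set X) ⊆ ⋃ p : 𝒥 × 𝒥, insert (d p) {x | r x (d p)} := by
      intro x _
      obtain ⟨p, hp⟩ := hcon x
      rw [mem_iUnion]
      refine ⟨p, ?_⟩
      rcases trichotomous_of r x (d p) with h | h | h
      · exact Or.inr h
      · exact Or.inl h
      · exact absurd h hp
    have h1 := Cardinal.mk_le_mk_of_subset huniv
    have h3 : #(⋃ p : 𝒥 × 𝒥, insert (d p) {x | r x (d p)} : Set X) ≤ κ := by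
      refine iUnion_le hκ hprod _ fun p => ?_
      calc #(insert (d p) {x | r x (d p)} : Set X) ≤ #{x | r x (d p)} + 1 := Cardinal.mk_insert_le
        _ ≤ κ + 1 := by gcongr; exact hr (d p)
        _ = κ := Cardinal.add_one_eq hκ
    rw [Cardinal.mk_univ, hX] at h1
    exact absurd (h1.trans h3) (not_le.2 (Order.lt_succ κ))
  obtain ⟨ξ, hξ⟩ := hξ
  -- the trace map is injective on `𝒥`
  let t : 𝒥 → F := fun B => c ⟨B.1 ∩ {y | r y ξ}, hI B.1 ξ⟩
  have ht : Function.Injective t := by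
    intro B B' hBB
    have h1 := c.injective hBB
    have h3 : B.1 ∩ {y | r y ξ} = B'.1 ∩ {y | r y ξ} := congrArg Subtype.val h1
    by_contra hne
    have hne' : B.1 ≠ B'.1 := fun h => hne (Subtype.ext h)
    refine hd (B, B') hne' ?_
    have h4 := hξ (B, B')
    constructor
    · intro h
      have : d (B, B') ∈ B.1 ∩ {y | r y ξ} := ⟨h, h4⟩
      rw [h3] at this
      exact this.1
    · intro h
      have : d (B, B') ∈ B'.1 ∩ {y | r y ξ} := ⟨h, h4⟩
      rw [← h3] at this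
      exact this.1
  have hζ : ∃ ζ : X, ∀ p : 𝒥 × 𝒥, p.1 ≠ p.2 → (t p.1).1 ζ ≠ (t p.2).1 ζ := by
    by_contra hcon
    push_neg at hcon
    have huniv : (univ : Set X) ⊆ ⋃ p : 𝒥 × 𝒥, (if p.1 ≠ p.2 then {ζ | (t p.1).1 ζ = (t p.2).1 ζ} else ∅) := by
      intro x _
      obtain ⟨p, hp, hp2⟩ := hcon x
      rw [mem_iUnion]
      refine ⟨p, ?_⟩
      rw [if_pos hp]
      exact hp2
    have h1 := Cardinal.mk_le_mk_of_subset huniv
    have h3 : #(⋃ p : 𝒥 × 𝒥, (if p.1 ≠ p.2 then {ζ | (t p.1).1 ζ = (t p.2).1 ζ} else ∅) : Set X) ≤ κ := by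
      refine iUnion_le hκ hprod _ fun p => ?_
      split_ifs with hp
      · refine hF (t p.1).1 (t p.1).2 (t p.2).1 (t p.2).2 ?_
        intro h
        exact hp (ht (Subtype.ext h))
      · simp
    rw [Cardinal.mk_univ, hX] at h1
    exact absurd (h1.trans h3) (not_le.2 (Order.lt_succ κ))
  obtain ⟨ζ, hζ⟩ := hζ
  refine ⟨ξ, ζ, fun B hB B' hB' hBB => ?_⟩
  by_contra hne
  exact hζ (⟨B, hB⟩, ⟨B', hB'⟩) (fun h => hne (congrArg Subtype.val h)) hBB

theorem main (hκ : ℵ₀ < κ) (hX : #X = Order.succ κ)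
    (h2 : (2 : Cardinal.{u}) ^ κ ≤ Order.succ (Order.succ κ))
    (U : Ultrafilter {x : Set X // #x < κ})
    (hfine : ∀ a : X, {x : {x : Set X // #x < κ} | a ∈ x.1} ∈ U)
    (hnormal : ∀ f : {x : Set X // #x < κ} → X,
        {x : {x : Set X // #x < κ} | f x ∈ x.1} ∈ U →
        ∃ a : X, {x : {x : Set X // #x < κ} | f x = a} ∈ U) :
    ∃ S : Set (Set {x : Set X // #x < κ}),
      (∀ s ∈ S, s ∈ U) ∧ #S = (2 : Cardinal.{u}) ^ Order.succ κ ∧
      ∀ T ⊆ S, #T = κ → ⋂₀ T ∉ U := by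
  classical
  obtain ⟨h, hh⟩ := exists_sep hκ.le hX h2
  haveI : Nonempty X := by
    rw [← Cardinal.mk_ne_zero_iff, hX]
    exact (Order.succ_ne_bot κ)
  let A : Set X → Set {x : Set X // #x < κ} := fun B => {x | ∀ ξ ∈ x.1, ∀ ζ ∈ x.1, h B ξ ζ ∈ x.1}
  have hA : ∀ B, A B ∈ U := by
    intro B
    by_contra hcon
    rw [← Ultrafilter.compl_mem_iff_notMem] at hcon
    have hex : ∀ x : {x : Set X // #x < κ}, ∃ ξ ζ : X, x ∉ A B → ξ ∈ x.1 ∧ ζ ∈ x.1 ∧ h B ξ ζ ∉ x.1 := by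
      intro x
      by_cases hx : x ∈ A B
      · exact ⟨Classical.arbitrary X, Classical.arbitrary X, fun h => absurd hx h⟩
      · have : ¬ ∀ ξ ∈ x.1, ∀ ζ ∈ x.1, h B ξ ζ ∈ x.1 := hx
        push_neg at this
        obtain ⟨ξ, h1, ζ, h2, h3⟩ := this
        exact ⟨ξ, ζ, fun _ => ⟨h1, h2, h3⟩⟩
    choose f g hfg using hex
    obtain ⟨a, ha⟩ := hnormal f (Filter.mem_of_superset hcon fun x hx => (hfg x hx).1)
    obtain ⟨b, hb⟩ := hnormal g (Filter.mem_of_superset hcon fun x hx => (hfg x hx).2.1)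
    have h3 := Filter.inter_mem (Filter.inter_mem hcon (Filter.inter_mem ha hb)) (hfine (h B a b))
    obtain ⟨x, ⟨hx1, hx2, hx3⟩, hx4⟩ := U.nonempty_of_mem h3
    have h4 := (hfg x hx1).2.2
    rw [show f x = a from hx2, show g x = b from hx3] at h4
    exact h4 hx4
  have hbad : ∀ 𝒥 : Set (Set X), #𝒥 = κ → ∀ Y ∈ U, ∃ x ∈ Y, ∃ B ∈ 𝒥, x ∉ A B := by
    intro 𝒥 hJ Y hY
    by_contra hcon
    push_neg at hcon
    obtain ⟨ξ, ζ, hinj⟩ := hh 𝒥 hJ.le
    obtain ⟨x, hx1, hx2, hx3⟩ := U.nonempty_of_mem (Filter.inter_mem hY (Filter.inter_mem (hfine ξ) (hfine ζ)))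
    have : #𝒥 ≤ #x.1 := by
      refine Cardinal.mk_le_of_injective (f := fun B : 𝒥 => ⟨h B.1 ξ ζ, hcon x hx1 B.1 B.2 ξ hx2 ζ hx3⟩) ?_
      intro B B' hBB
      exact Subtype.ext (hinj B.2 B'.2 (congrArg Subtype.val hBB))
    rw [hJ] at this
    exact absurd x.2 (not_lt.2 this)
  refine ⟨range A, ?_, ?_, ?_⟩
  · rintro s ⟨B, rfl⟩
    exact hA B
  · -- cardinality
    have hpow : #(Set X) = (2 : Cardinal.{u}) ^ Order.succ κ := by rw [Cardinal.mk_set, hX]
    have hle : #(range A) ≤ (2 : Cardinal.{u}) ^ Order.succ κ := by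
      rw [← hpow]; exact Cardinal.mk_range_le
    refine le_antisymm hle ?_
    have hfib : ∀ s : range A, #{B // (⟨A B, mem_range_self B⟩ : range A) = s} ≤ κ := by
      intro s
      by_contra hcon
      rw [not_le] at hcon
      have hcon' : κ ≤ #({B | (⟨A B, mem_range_self B⟩ : range A) = s} : Set (Set X)) := hcon.le
      obtain ⟨p, hp, hpc⟩ := Cardinal.le_mk_iff_exists_subset.1 hcon'
      have hsU : s.1 ∈ U := by
        obtain ⟨B, hB⟩ := s.2
        rw [← hB]; exact hA B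
      obtain ⟨x, hx, B, hB, hxB⟩ := hbad p hpc s.1 hsU
      refine hxB ?_
      have := hp hB
      have h5 : A B = s.1 := congrArg Subtype.val this
      rw [h5]; exact hx
    have hsum : #(Set X) ≤ #(range A) * κ := by
      have e : Set X ≃ Σ s : range A, {B // (⟨A B, mem_range_self B⟩ : range A) = s} :=
        (Equiv.sigmaFiberEquiv _).symm
      rw [Cardinal.mk_congr e, Cardinal.mk_sigma]
      refine (Cardinal.sum_le_sum _ (fun _ => κ) hfib).trans ?_
      rw [Cardinal.sum_const']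
    rw [hpow] at hsum
    have hκ2 : κ < (2 : Cardinal.{u}) ^ Order.succ κ :=
      (Order.lt_succ κ).trans (Cardinal.cantor _)
    by_contra hlt
    rw [not_le] at hlt
    have hinf : ℵ₀ ≤ (2 : Cardinal.{u}) ^ Order.succ κ := hκ.le.trans hκ2.le
    have := Cardinal.mul_lt_of_lt hinf hlt hκ2
    exact absurd hsum (not_le.2 this)
  · intro T hT hTc hTU
    choose! b hb using fun (s : Set {x : Set X // #x < κ}) (hs : s ∈ T) => hT hs
    have hinj : InjOn b T := by
      intro s hs t ht hst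
      rw [← hb s hs, ← hb t ht, hst]
    have hcard : #(b '' T) = κ := by
      rw [Cardinal.mk_image_eq_of_injOn _ _ hinj, hTc]
    obtain ⟨x, hx, B, ⟨s, hs, rfl⟩, hxB⟩ := hbad (b '' T) hcard _ hTU
    refine hxB ?_
    rw [hb s hs]
    exact hx s hs

end Run7.h77.Galvin
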