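import Mathlib

/-!
# Completion properties
-/

set_option autoImplicit false

namespace Run7.h77

open FirstOrder FirstOrder.Language FirstOrder.Language.Structure

/-- The map `f : V → M` preserves and reflects the relations of `L` on the tuple `t` of `V`. -/
def Faithful (L : FirstOrder.Language.{0, 0}) {V M : Type} [L.Structure V] [L.Structure M]
    (f : V → M) {n : ℕ} (t : Fin n → V) : Prop :=
  ∀ r : L.Relations n, RelMap r (f ∘ t) ↔ RelMap r t

/-- The relative clique completion property of `M`, which carries an `L₀`-structure and an
`L`-structure, over the `L₀`-structure `N`.  Let a finite set `V` carry an `L₀`-structure that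
embeds into `N`, a graph `E` and an `L`-structure, such that for every clique `J` of `E` there is a
map `V → M` that is injective on `J` and faithful, for both languages, on all tuples of elements
of `J`.  Then there is an injective map `V → M` that is faithful for `L₀` on all tuples, and
faithful for `L` on all tuples whose entries form a clique of `E`. -/
def CliqueCompletion (L₀ L : FirstOrder.Language.{0, 0}) (N M : Type) [L₀.Structure N]
    [L₀.Structure M] [L.Structure M] : Prop :=
  ∀ (V : Type) [Finite V] [L₀.Structure V] [L.Structure V] (E : SimpleGraph V),
    Nonempty (V ↪[L₀] N) →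
    (∀ J : Set V, E.IsClique J → ∃ h : V → M, Set.InjOn h J ∧
      ∀ (n : ℕ) (t : Fin n → V), (∀ j, t j ∈ J) → Faithful L₀ h t ∧ Faithful L h t) →
    ∃ f : V → M, Function.Injective f ∧ (∀ (n : ℕ) (t : Fin n → V), Faithful L₀ f t) ∧
      ∀ (n : ℕ) (t : Fin n → V), E.IsClique (Set.range t) → Faithful L f t

end Run7.h77
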