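import Pool.Agent.Run7.h77.FRD2

/-!
# Minimal Ramsey expansions of structures without algebraicity have no algebraicity
-/

set_option autoImplicit false

namespace Run7.h77

open Function

section

variable {I : Type} {ar : I → ℕ} {I₀ : Type} {ar₀ : I₀ → ℕ} {M : Type}

theorem HCond.ext_lit {S : RS I ar M} {b : RS I₀ ar₀ M} (hE : Ext1 S) (p : HCond S b) (m : M) :
    ∃ q : HCond S b, (∀ a ∈ p.F, a ∈ q.F ∧ q.h a = p.h a) ∧ m ∈ q.F := by
  by_cases hm : m ∈ p.F
  · exact ⟨p, fun a ha => ⟨ha, rfl⟩, hm⟩
  · obtain ⟨y, hy, hyp⟩ := hE p.F inferInstance (fun a : p.F => p.h a) (fun a : p.F => a.1) m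
      p.c.1 Subtype.val_injective (fun v hv => hm (hv ▸ v.2)) p.c.2
    obtain ⟨q, hq1, hq2, hq3, -⟩ := HCond.mk' (b := b) p.F m hm (fun a : p.F => p.h a) y
      (opt_inj p.c.1 hy) hyp
    exact ⟨q, fun a ha => ⟨hq1 a ha, hq3 ⟨a, ha⟩⟩, hq2⟩

theorem HCond.ext_lit_finset {S : RS I ar M} {b : RS I₀ ar₀ M} (hE : Ext1 S) (p : HCond S b)
    (G : Finset M) : ∃ q : HCond S b, (∀ a ∈ p.F, a ∈ q.F ∧ q.h a = p.h a) ∧ G ⊆ q.F := by
  classical
  induction G using Finset.induction_on with
  | empty => exact ⟨p, fun a ha => ⟨ha, rfl⟩, by simp⟩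
  | insert m G hm ih =>
    obtain ⟨q, hq, hqG⟩ := ih
    obtain ⟨r, hr, hrm⟩ := q.ext_lit hE m
    exact ⟨r, fun a ha => ⟨(hr a (hq a ha).1).1, ((hr a (hq a ha).1).2).trans (hq a ha).2⟩,
      Finset.insert_subset hrm (fun a ha => (hr a (hqG ha)).1)⟩

/-- transport of finite sets of realisations -/
theorem realisations_le {Ψ : RS I₀ ar₀ M} (hE : Ext1 Ψ) {k : ℕ} (w w' : Fin k → M)
    (hw : Injective w) (hw' : Injective w') (hww : pull Ψ w = pull Ψ w') (F Y : Finset M)
    (x : Fin (k + 1) → M)
    (hF : ∀ y, (∀ j, w j ≠ y) → pull Ψ (Fin.snoc (α := fun _ => M) w y) = pull Ψ x → y ∈ F)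
    (hY : ∀ y ∈ Y, (∀ j, w' j ≠ y) ∧ pull Ψ (Fin.snoc (α := fun _ => M) w' y) = pull Ψ x) :
    Y.card ≤ F.card := by
  classical
  let A : Finset M := (Set.finite_range w').toFinset
  have hA : ∀ m, m ∈ A ↔ ∃ v, w' v = m := fun m => by simp [A]
  let h : M → M := fun m => if hm : ∃ v, w' v = m then w hm.choose else m
  have hh : ∀ v, h (w' v) = w v := by
    intro v
    have hm : ∃ v', w' v' = w' v := ⟨v, rfl⟩
    simp only [h, dif_pos hm]
    rw [hw' hm.choose_spec]
  have hc : Copy Ψ (fun a : A => a.1) (fun a : A => h a) := by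
    have h1 : ∀ a : A, ∃ v, w' v = a.1 := fun a => (hA a.1).1 a.2
    choose s hs using h1
    have hsi : Injective s := fun a b hab => Subtype.ext (by rw [← hs a, ← hs b, hab])
    have e1 : (fun a : A => a.1) = w' ∘ s := funext fun a => (hs a).symm
    have e2 : (fun a : A => h a) = w ∘ s := funext fun a => by
      show h a.1 = w (s a)
      rw [← hs a, hh]
    rw [e1, e2]
    exact ⟨hw.comp hsi, by rw [pull_comp, hww, ← pull_comp]⟩
  let p : HCond Ψ Ψ := ⟨A, h, hc⟩
  obtain ⟨q, hq, hqY⟩ := p.ext_lit_finset hE Y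
  have hqw : ∀ j, w' j ∈ q.F ∧ q.h (w' j) = w j := fun j => by
    obtain ⟨h1, h2⟩ := hq (w' j) ((hA _).2 ⟨j, rfl⟩)
    exact ⟨h1, h2.trans (hh j)⟩
  have hinj : Set.InjOn q.h (q.F : Set M) := by
    intro a ha b hb hab
    exact congrArg (fun z : q.F => z.1) (q.c.1 (a₁ := ⟨a, ha⟩) (a₂ := ⟨b, hb⟩) hab)
  have hsub : Y.image q.h ⊆ F := by
    intro z hz
    obtain ⟨y, hy, rfl⟩ := Finset.mem_image.1 hz
    obtain ⟨h1, h2⟩ := hY y hy
    have hyF := hqY hy
    apply hF
    · intro j hj
      apply h1 j
      apply hinj (hqw j).1 hyF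
      rw [(hqw j).2, hj]
    · have e1 : Fin.snoc (α := fun _ => M) w (q.h y) =
          q.h ∘ Fin.snoc (α := fun _ => M) w' y := by
        funext j
        induction j using Fin.lastCases with
        | last => simp
        | cast j => simp [(hqw j).2]
      have h3 : ∀ j, Fin.snoc (α := fun _ => M) w' y j ∈ q.F := by
        intro j
        induction j using Fin.lastCases with
        | last => simpa using hyF
        | cast j => simpa using (hqw j).1
      have h4 := q.c.restrict h3 (snoc_injective hw' h1)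
      rw [e1, ← h2]
      exact h4.2
  rw [← Finset.card_image_of_injOn (hinj.mono (fun a ha => hqY ha))]
  exact Finset.card_le_card hsub

theorem extT_of_ep {S : RS I ar M} {Ψ : RS I₀ ar₀ M} (hS : ExtT S) (hE : Ext1 Ψ)
    (hEP : ∀ (V : Type) (_ : Finite V) (v : V → M), Injective v → ∃ D : Finset M,
      ∀ g : D → M, Copy S (fun a : D => a.1) g → ∃ e : V → D, Injective e ∧
        pull Ψ (g ∘ e) = pull Ψ v) : ExtT Ψ := by
  classical
  by_contra hcon
  simp only [ExtT, not_forall] at hcon
  obtain ⟨k, w, x, hw, hx, hwx, F, hno⟩ := hcon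
  have hF : ∀ y, (∀ j, w j ≠ y) → pull Ψ (Fin.snoc (α := fun _ => M) w y) = pull Ψ x →
      y ∈ F := by
    intro y h1 h2
    by_contra h3
    exact hno ⟨y, h3, h1, h2⟩
  obtain ⟨D, hD⟩ := hEP (Fin (k + 1)) inferInstance x hx
  -- numbers
  let K : ℕ := Fintype.card (Fin (k + 1) → D)
  let n : ℕ := K * F.card + 1
  obtain ⟨ι, hι, hιS⟩ := blowUp_of_ext hS (D × Fin n) inferInstance (fun z => z.1.1)
  let g : (D → Fin n) → D → M := fun s d => ι (d, s d)
  have hg : ∀ s, Copy S (fun a : D => a.1) (g s) := by
    intro s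
    refine ⟨fun a a' haa => congrArg Prod.fst (hι haa), ?_⟩
    funext i t
    apply propext
    exact hιS i (fun j => (t j, s (t j))) (fun j l hjl => by
      have : t j = t l := Subtype.ext hjl
      rw [this])
  have hex : ∀ s : D → Fin n, ∃ e : Fin (k + 1) → D, Injective e ∧
      pull Ψ (g s ∘ e) = pull Ψ x := fun s => hD (g s) (hg s)
  choose e he hep using hex
  -- count for fixed `e`
  have hcount : ∀ e₀ : Fin (k + 1) → D,
      (Finset.univ.filter (fun s : D → Fin n => e s = e₀)).card ≤
        F.card * n ^ (Fintype.card D - 1) := by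
    intro e₀
    let R : (D → Fin n) → ({d : D // d ≠ e₀ (Fin.last k)} → Fin n) := fun s d => s d.1
    have h1 := Finset.card_le_mul_card_image (f := R)
      (Finset.univ.filter (fun s : D → Fin n => e s = e₀)) F.card (by
        intro r hr
        -- the fibre over `r`
        obtain ⟨s₀, hs₀, rfl⟩ := Finset.mem_image.1 hr
        have hs₀e : e s₀ = e₀ := (Finset.mem_filter.1 hs₀).2
        let w' : Fin k → M := fun j => g s₀ (e₀ j.castSucc)
        have hinj₀ : Injective e₀ := hs₀e ▸ he s₀
        have hw' : Injective w' := (hg s₀).1.comp (hinj₀.comp (Fin.castSucc_injective k))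
        have key : ∀ s : D → Fin n, e s = e₀ → R s = R s₀ →
            pull Ψ (Fin.snoc (α := fun _ => M) w' (g s (e₀ (Fin.last k)))) = pull Ψ x ∧
            (∀ j, w' j ≠ g s (e₀ (Fin.last k))) := by
          intro s hs hR
          have h2 : ∀ j : Fin k, s (e₀ j.castSucc) = s₀ (e₀ j.castSucc) := by
            intro j
            have h3 : e₀ j.castSucc ≠ e₀ (Fin.last k) := fun h =>
              (Fin.castSucc_lt_last j).ne (hinj₀ h)
            exact congrFun hR ⟨_, h3⟩
          have h4 : ∀ j : Fin k, w' j = g s (e₀ j.castSucc) := by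
            intro j
            show ι (e₀ j.castSucc, s₀ (e₀ j.castSucc)) = ι (e₀ j.castSucc, s (e₀ j.castSucc))
            rw [h2]
          have h5 : Fin.snoc (α := fun _ => M) w' (g s (e₀ (Fin.last k))) = g s ∘ e₀ := by
            funext j
            induction j using Fin.lastCases with
            | last => simp
            | cast j => simp [h4]
          refine ⟨?_, fun j hj => ?_⟩
          · rw [h5, ← hs]
            exact hep s
          · rw [h4] at hj
            exact (Fin.castSucc_lt_last j).ne (hinj₀ ((hg s).1 hj))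
        have hww : pull Ψ w = pull Ψ w' := by
          have h2 := (key s₀ hs₀e rfl).1
          have h3 : w' = (Fin.snoc (α := fun _ => M) w' (g s₀ (e₀ (Fin.last k)))) ∘
              Fin.castSucc := by
            funext j
            simp
          rw [hwx, h3, pull_comp, pull_comp, h2]
        let fib := (Finset.univ.filter (fun s : D → Fin n => e s = e₀)).filter
          (fun s => R s = R s₀)
        have h6 : (fib.image (fun s => g s (e₀ (Fin.last k)))).card ≤ F.card := by
          refine realisations_le hE w w' hw hw' hww F _ x hF ?_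
          intro y hy
          obtain ⟨s, hs, rfl⟩ := Finset.mem_image.1 hy
          have hs1 := Finset.mem_filter.1 hs
          have hs2 := (Finset.mem_filter.1 hs1.1).2
          obtain ⟨h7, h8⟩ := key s hs2 hs1.2
          exact ⟨h8, h7⟩
        have h7 : (fib.image (fun s => g s (e₀ (Fin.last k)))).card = fib.card := by
          apply Finset.card_image_of_injOn
          intro s hs s' hs' hss
          have hs1 := (Finset.mem_filter.1 (by exact_mod_cast hs : s ∈ fib)).2
          have hs2 := (Finset.mem_filter.1 (by exact_mod_cast hs' : s' ∈ fib)).2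
          funext d
          by_cases hd : d = e₀ (Fin.last k)
          · have h8 : (e₀ (Fin.last k), s (e₀ (Fin.last k))) =
                (e₀ (Fin.last k), s' (e₀ (Fin.last k))) := hι hss
            rw [hd]
            exact congrArg Prod.snd h8
          · exact congrFun (hs1.trans hs2.symm) ⟨d, hd⟩
        rw [← h7]
        exact h6)
    refine h1.trans ?_
    apply Nat.mul_le_mul_left
    refine (Finset.card_le_univ _).trans ?_
    rw [Fintype.card_fun, Fintype.card_fin, Fintype.card_subtype_compl,
      Fintype.card_subtype_eq]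
  -- total count
  have htotal : n ^ Fintype.card D ≤ K * (F.card * n ^ (Fintype.card D - 1)) := by
    have h1 := Finset.card_le_mul_card_image (f := e) (Finset.univ : Finset (D → Fin n))
      (F.card * n ^ (Fintype.card D - 1)) (by
        intro e₀ _
        exact hcount e₀)
    have h2 : (Finset.univ : Finset (D → Fin n)).card = n ^ Fintype.card D := by
      rw [Finset.card_univ, Fintype.card_fun, Fintype.card_fin]
    have h3 : ((Finset.univ : Finset (D → Fin n)).image e).card ≤ K := Finset.card_le_univ _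
    rw [← h2]
    refine h1.trans ?_
    rw [mul_comm]
    exact Nat.mul_le_mul_right _ h3
  have hDpos : 0 < Fintype.card D := by
    have hne : Nonempty D := ⟨e (fun _ => ⟨0, by omega⟩) 0⟩
    exact Fintype.card_pos
  have hpow : n ^ Fintype.card D = n * n ^ (Fintype.card D - 1) := by
    rw [← pow_succ']
    congr 1
    omega
  have hnpos : 0 < n ^ (Fintype.card D - 1) := Nat.pow_pos (by omega)
  rw [hpow, ← mul_assoc] at htotal
  have h5 := Nat.le_of_mul_le_mul_right htotal hnpos
  omega

end

end Run7.h77
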