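import Mathlib

/-!
# Generic superpositions
-/

set_option autoImplicit false

namespace Run7.h77

open FirstOrder FirstOrder.Language

/-- `M`, with its `L₁`-structure and its `L₂`-structure, is the generic superposition of `M₁` and
`M₂`: it is ultrahomogeneous in the joint language, and a finite set with an `L₁`-structure and an
`L₂`-structure embeds into `M` if and only if its two reducts embed into `M₁` and `M₂`. -/
structure IsGenericSuperposition (L₁ L₂ : FirstOrder.Language.{0, 0}) (M₁ M₂ M : Type)
    [L₁.Structure M₁] [L₂.Structure M₂] [L₁.Structure M] [L₂.Structure M] : Prop where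
  ultrahomogeneous : (L₁.sum L₂).IsUltrahomogeneous M
  age : ∀ (V : Type) [Finite V] [L₁.Structure V] [L₂.Structure V],
    Nonempty (V ↪[L₁.sum L₂] M) ↔ Nonempty (V ↪[L₁] M₁) ∧ Nonempty (V ↪[L₂] M₂)

end Run7.h77
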