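import Pool.Agent.Run7.h77.Deg

/-!
# Infinite vertex degree gives infinitely many disjoint unavoidable sets
-/

set_option autoImplicit false

namespace Run7.h77

open Function

section

variable {I : Type} {ar : I → ℕ} {N : Type}

/-- `T` contains copies of all finite sets. -/
def Thick (S : RS I ar N) (T : Set N) : Prop :=
  ∀ F : Finset N, ∃ g : F → N, Copy S (fun a : F => a.1) g ∧ ∀ a, g a ∈ T

/-- Some finite set all copies of which meet `X`. -/
def Unav (S : RS I ar N) (X : Set N) : Prop :=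
  ∃ F : Finset N, ∀ g : F → N, Copy S (fun a : F => a.1) g → ∃ a, g a ∈ X

theorem Thick.mono {S : RS I ar N} {T T' : Set N} (h : Thick S T) (hT : T ⊆ T') : Thick S T' := by
  intro F
  obtain ⟨g, hg, hgT⟩ := h F
  exact ⟨g, hg, fun a => hT (hgT a)⟩

theorem Thick.fam {S : RS I ar N} {T : Set N} (h : Thick S T) {V : Type} [Finite V] (v : V → N)
    (hv : Injective v) : ∃ g : V → N, Copy S v g ∧ ∀ a, g a ∈ T := by
  classical
  let F : Finset N := (Set.finite_range v).toFinset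
  have hF : ∀ a, v a ∈ F := fun a => by simp [F]
  obtain ⟨g, hg, hgT⟩ := h F
  refine ⟨fun a => g ⟨v a, hF a⟩, ⟨fun a a' haa => hv (congrArg Subtype.val (hg.1 haa)), ?_⟩,
    fun a => hgT _⟩
  have h1 := (hg.comp (fun a : V => (⟨v a, hF a⟩ : F)) (fun a a' haa => hv (congrArg Subtype.val haa))).2
  exact h1

/-- A maximal filter of thick sets. -/
theorem exists_max_filter (S : RS I ar N) : ∃ 𝒯 : Filter N, (∀ T ∈ 𝒯, Thick S T) ∧
    ∀ X : Set N, Xᶜ ∈ 𝒯 ∨ ∃ T ∈ 𝒯, ∃ F : Finset N, ∀ g : F → N,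
      Copy S (fun a : F => a.1) g → (∀ a, g a ∈ T) → ∃ a, g a ∈ X := by
  classical
  let 𝔉 : Set (Filter N)ᵒᵈ := {f | ∀ T ∈ (OrderDual.ofDual f : Filter N), Thick S T}
  have hz : ∃ m, Maximal (fun f => f ∈ 𝔉) m := by
    apply zorn_le₀
    intro c hc hchain
    by_cases hne : c.Nonempty
    · let c' : Set (Filter N) := OrderDual.ofDual '' c
      have hne' : c'.Nonempty := hne.image _
      have hdir : DirectedOn (· ≥ ·) c' := by
        rintro _ ⟨a, ha, rfl⟩ _ ⟨b, hb, rfl⟩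
        rcases hchain.total ha hb with h | h
        · exact ⟨OrderDual.ofDual b, ⟨b, hb, rfl⟩, h, le_refl _⟩
        · exact ⟨OrderDual.ofDual a, ⟨a, ha, rfl⟩, le_refl _, h⟩
      refine ⟨OrderDual.toDual (sInf c'), ?_, ?_⟩
      · intro T hT
        have hT' : T ∈ sInf c' := hT
        rw [sInf_eq_iInf, Filter.mem_biInf_of_directed (f := fun f : Filter N => f) hdir hne'] at hT'
        obtain ⟨f, ⟨a, ha, rfl⟩, hfT⟩ := hT'
        exact hc ha T hfT
      · intro a ha
        show sInf c' ≤ OrderDual.ofDual a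
        exact sInf_le ⟨a, ha, rfl⟩
    · rw [Set.not_nonempty_iff_eq_empty] at hne
      subst hne
      refine ⟨OrderDual.toDual ⊤, ?_, by simp⟩
      intro T hT
      have hT' : T ∈ (⊤ : Filter N) := hT
      rw [Filter.mem_top] at hT'
      subst hT'
      intro F
      exact ⟨fun a => a.1, Copy.refl Subtype.val_injective, fun a => trivial⟩
  obtain ⟨m, hm⟩ := hz
  let 𝒯 : Filter N := OrderDual.ofDual m
  refine ⟨𝒯, hm.1, fun X => ?_⟩
  by_cases h : OrderDual.toDual (𝒯 ⊓ Filter.principal Xᶜ) ∈ 𝔉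
  · left
    have h1 : m ≤ OrderDual.toDual (𝒯 ⊓ Filter.principal Xᶜ) := by
      show 𝒯 ⊓ Filter.principal Xᶜ ≤ 𝒯
      exact inf_le_left
    have h2 := hm.2 h h1
    have h3 : 𝒯 ≤ 𝒯 ⊓ Filter.principal Xᶜ := h2
    exact h3 (Filter.mem_inf_of_right (Filter.mem_principal_self _))
  · right
    have h' : ∃ T' ∈ 𝒯 ⊓ Filter.principal Xᶜ, ¬ Thick S T' := by
      by_contra hcon
      push Not at hcon
      exact h hcon
    obtain ⟨T', hT', hnT⟩ := h'
    rw [Filter.mem_inf_principal] at hT'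
    refine ⟨_, hT', ?_⟩
    simp only [Thick, not_forall, not_exists, not_and] at hnT
    obtain ⟨F, hF⟩ := hnT
    refine ⟨F, fun g hg hgT => ?_⟩
    obtain ⟨a, ha⟩ := hF g hg
    refine ⟨a, ?_⟩
    by_contra hcon
    exact ha (hgT a hcon)

theorem exists_unav_seq [Infinite N] (S : RS I ar N)
    (hN : ∀ t : ℕ, ∃ (V : Type) (_ : Finite V) (v : V → N) (κ : Type) (_ : Finite κ) (χ : N → κ),
      Injective v ∧ ∀ g : V → N, Copy S v g → t < (Set.range (χ ∘ g)).ncard) :
    ∃ X : ℕ → Set N, Pairwise (fun i j => Disjoint (X i) (X j)) ∧ ∀ n, Unav S (X n) := by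
  classical
  obtain ⟨𝒯, hthick, hmax⟩ := exists_max_filter S
  let NN : Set N → Prop := fun X => Xᶜ ∉ 𝒯
  have NN_mono : ∀ {X Y : Set N}, NN X → X ⊆ Y → NN Y := fun h1 h2 h3 =>
    h1 (Filter.mem_of_superset h3 (Set.compl_subset_compl.2 h2))
  have NN_union : ∀ {X Y : Set N}, NN (X ∪ Y) → NN X ∨ NN Y := by
    intro X Y h
    by_contra hcon
    simp only [NN, not_or, not_not] at hcon
    exact h (by rw [Set.compl_union]; exact Filter.inter_mem hcon.1 hcon.2)
  let Rich : Set N → Prop := fun Y => ∀ t : ℕ, ∃ P : Fin t → Set N,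
    Pairwise (fun i j => Disjoint (P i) (P j)) ∧ ∀ i, P i ⊆ Y ∧ NN (P i)
  have hrich : Rich Set.univ := by
    intro t
    obtain ⟨V, hV, v, κ, hκ, χ, hv, hχ⟩ := hN t
    let K : Set κ := {c | NN (χ ⁻¹' {c})}
    have hT : (⋂ c : κ, if c ∈ K then Set.univ else (χ ⁻¹' {c})ᶜ) ∈ 𝒯 := by
      rw [Filter.iInter_mem]
      intro c
      by_cases hc : c ∈ K
      · rw [if_pos hc]
        exact Filter.univ_mem
      · rw [if_neg hc]
        have hc' : ¬ ¬ (χ ⁻¹' {c})ᶜ ∈ 𝒯 := hc
        exact not_not.1 hc'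
    obtain ⟨g, hg, hgT⟩ := (hthick _ hT).fam v hv
    have h1 := hχ g hg
    have h2 : Set.range (χ ∘ g) ⊆ K := by
      rintro c ⟨a, rfl⟩
      by_contra hcon
      have h3 := Set.mem_iInter.1 (hgT a) ((χ ∘ g) a)
      rw [if_neg hcon] at h3
      exact h3 rfl
    have h3 : t ≤ Nat.card K := by
      have := Set.ncard_le_ncard h2 (Set.toFinite _)
      have h4 : K.ncard = Nat.card K := rfl
      omega
    obtain ⟨k, ⟨e⟩⟩ := Finite.exists_equiv_fin K
    have hk : t ≤ k := by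
      rw [Nat.card_congr e, Nat.card_fin] at h3
      exact h3
    refine ⟨fun i => χ ⁻¹' {(e.symm (Fin.castLE hk i)).1}, ?_, fun i => ⟨Set.subset_univ _, ?_⟩⟩
    · intro i j hij
      rw [Set.disjoint_left]
      intro m hm hm'
      apply hij
      have h5 : (e.symm (Fin.castLE hk i)).1 = (e.symm (Fin.castLE hk j)).1 :=
        (show χ m = _ from hm).symm.trans hm'
      exact Fin.castLE_injective hk (e.symm.injective (Subtype.ext h5))
    · exact (e.symm (Fin.castLE hk i)).2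
  -- a rich set can be split
  have hsplit : ∀ Y : {Y : Set N // Rich Y}, ∃ Y' : {Y : Set N // Rich Y}, Y'.1 ⊆ Y.1 ∧
      NN (Y.1 \ Y'.1) := by
    rintro ⟨Y, hY⟩
    obtain ⟨P, hP, hP'⟩ := hY 2
    have hA' : NN (Y \ P 0) := by
      refine NN_mono (hP' 1).2 ?_
      intro m hm
      exact ⟨(hP' 1).1 hm, fun hm' => Set.disjoint_left.1 (hP (show (0 : Fin 2) ≠ 1 by decide))
        hm' hm⟩
    have key : Rich (P 0) ∨ Rich (Y \ P 0) := by
      by_contra hcon
      have h1 : (∃ t, ¬ ∃ Q : Fin t → Set N, Pairwise (fun i j => Disjoint (Q i) (Q j)) ∧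
          ∀ i, Q i ⊆ P 0 ∧ NN (Q i)) ∧ (∃ t, ¬ ∃ Q : Fin t → Set N,
          Pairwise (fun i j => Disjoint (Q i) (Q j)) ∧ ∀ i, Q i ⊆ Y \ P 0 ∧ NN (Q i)) := by
        simp only [Rich, not_or, not_forall] at hcon
        exact hcon
      obtain ⟨⟨t₁, h₁⟩, ⟨t₂, h₂⟩⟩ := h1
      obtain ⟨Q, hQ, hQ'⟩ := hY (t₁ + t₂)
      let J₁ : Finset (Fin (t₁ + t₂)) := Finset.univ.filter (fun i => NN (Q i ∩ P 0))
      let J₂ : Finset (Fin (t₁ + t₂)) := Finset.univ.filter (fun i => ¬ NN (Q i ∩ P 0))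
      have hJ : J₁.card + J₂.card = t₁ + t₂ := by
        have := Finset.card_filter_add_card_filter_not
          (s := (Finset.univ : Finset (Fin (t₁ + t₂)))) (fun i => NN (Q i ∩ P 0))
        rw [Finset.card_univ, Fintype.card_fin] at this
        exact this
      rcases Nat.lt_or_ge J₁.card t₁ with hlt | hge
      · have hJ₂ : t₂ ≤ J₂.card := by omega
        apply h₂
        let en := J₂.equivFin
        refine ⟨fun i => Q (en.symm (Fin.castLE hJ₂ i)).1 ∩ (Y \ P 0), ?_, fun i =>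
          ⟨Set.inter_subset_right, ?_⟩⟩
        · intro i j hij
          refine (hQ ?_).mono Set.inter_subset_left Set.inter_subset_left
          intro h
          exact hij (Fin.castLE_injective hJ₂ (en.symm.injective (Subtype.ext h)))
        · have h3 := (en.symm (Fin.castLE hJ₂ i)).2
          have h4 : ¬ NN (Q (en.symm (Fin.castLE hJ₂ i)).1 ∩ P 0) := (Finset.mem_filter.1 h3).2
          have h5 := hQ' (en.symm (Fin.castLE hJ₂ i)).1
          have h6 : NN ((Q (en.symm (Fin.castLE hJ₂ i)).1 ∩ P 0) ∪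
              (Q (en.symm (Fin.castLE hJ₂ i)).1 ∩ (Y \ P 0))) := by
            refine NN_mono h5.2 ?_
            intro m hm
            by_cases hm0 : m ∈ P 0
            · exact Or.inl ⟨hm, hm0⟩
            · exact Or.inr ⟨hm, h5.1 hm, hm0⟩
          exact (NN_union h6).resolve_left h4
      · apply h₁
        let en := J₁.equivFin
        refine ⟨fun i => Q (en.symm (Fin.castLE hge i)).1 ∩ P 0, ?_, fun i =>
          ⟨Set.inter_subset_right, ?_⟩⟩
        · intro i j hij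
          refine (hQ ?_).mono Set.inter_subset_left Set.inter_subset_left
          intro h
          exact hij (Fin.castLE_injective hge (en.symm.injective (Subtype.ext h)))
        · exact (Finset.mem_filter.1 (en.symm (Fin.castLE hge i)).2).2
    rcases key with h | h
    · exact ⟨⟨P 0, h⟩, (hP' 0).1, hA'⟩
    · refine ⟨⟨Y \ P 0, h⟩, Set.sdiff_subset, NN_mono (hP' 0).2 ?_⟩
      intro m hm
      exact ⟨(hP' 0).1 hm, fun h' => h'.2 hm⟩
  choose sp hsp1 hsp2 using hsplit
  let Y : ℕ → {Y : Set N // Rich Y} := fun n => Nat.rec ⟨Set.univ, hrich⟩ (fun _ Y => sp Y) n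
  have hYs : ∀ n, Y (n + 1) = sp (Y n) := fun n => rfl
  have hYmono : ∀ {m n : ℕ}, m ≤ n → (Y n).1 ⊆ (Y m).1 := by
    intro m n hmn
    induction n, hmn using Nat.le_induction with
    | base => exact Set.Subset.refl _
    | succ n _ ih => exact (hsp1 (Y n)).trans ih
  let X : ℕ → Set N := fun n => (Y n).1 \ (Y (n + 1)).1
  have hXNN : ∀ n, NN (X n) := fun n => hsp2 (Y n)
  have hXdisj : ∀ {m n : ℕ}, m < n → ∀ x, x ∈ X m → x ∈ X n → False := by
    intro m n hmn x hxm hxn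
    exact hxm.2 (hYmono (Nat.succ_le_of_lt hmn) hxn.1)
  have h1 : ∀ n, ∃ T ∈ 𝒯, ∃ F : Finset N, ∀ g : F → N,
      Copy S (fun a : F => a.1) g → (∀ a, g a ∈ T) → ∃ a, g a ∈ X n := fun n =>
    (hmax (X n)).resolve_left (hXNN n)
  choose T hT F hF using h1
  have h2 : ∀ G : Finset N, ∃ g : G → N, Copy S (fun a : G => a.1) g ∧
      ∀ n ≤ G.card, ∀ a, g a ∈ T n := by
    intro G
    have h3 : (⋂ n ∈ Finset.range (G.card + 1), T n) ∈ 𝒯 := by
      rw [Filter.biInter_finset_mem]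
      intro n _
      exact hT n
    obtain ⟨g, hg, hgT⟩ := hthick _ h3 G
    refine ⟨g, hg, fun n hn a => ?_⟩
    have h4 := hgT a
    simp only [Set.mem_iInter] at h4
    exact h4 n (Finset.mem_range.2 (by omega))
  choose g hg hgT using h2
  have hcard : ∀ n : ℕ, ∀ᶠ G in (uf N : Filter (Finset N)), n ≤ G.card := by
    intro n
    obtain ⟨G₀, hG₀⟩ := Infinite.exists_subset_card_eq N n
    have h3 : ∀ᶠ G in (Filter.atTop : Filter (Finset N)), n ≤ G.card := by
      filter_upwards [Filter.eventually_ge_atTop G₀] with G hG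
      rw [← hG₀]
      exact Finset.card_le_card hG
    exact Ultrafilter.of_le _ h3
  let X' : ℕ → Set N := fun n => {m | ∀ᶠ G in (uf N : Filter (Finset N)),
    ∃ h : m ∈ G, g G ⟨m, h⟩ ∈ X n}
  refine ⟨X', ?_, fun n => ⟨F n, fun w hw => ?_⟩⟩
  · have h3 : ∀ {m n : ℕ}, m < n → Disjoint (X' m) (X' n) := by
      intro m n hmn
      rw [Set.disjoint_left]
      intro x hx hx'
      obtain ⟨G, ⟨h4, h5⟩, ⟨h6, h7⟩⟩ := (hx.and hx').exists
      exact hXdisj hmn _ h5 h7
    intro m n hmn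
    rcases lt_or_gt_of_ne hmn with h | h
    · exact h3 h
    · exact (h3 h).symm
  · have h3 : ∀ᶠ G in (uf N : Filter (Finset N)), ∃ a, ∃ h : w a ∈ G, g G ⟨w a, h⟩ ∈ X n := by
      filter_upwards [uf_mem_all w, hcard n] with G h4 h5
      have h6 : Copy S (fun a : F n => a.1) (fun a => g G ⟨w a, h4 a⟩) := by
        have h7 := (hg G).comp (fun a : F n => (⟨w a, h4 a⟩ : G))
          (fun a a' haa => hw.1 (congrArg Subtype.val haa))
        exact ⟨h7.1, h7.2.trans hw.2⟩
      obtain ⟨a, ha⟩ := hF n _ h6 (fun a => hgT G n h5 _)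
      exact ⟨a, h4 a, ha⟩
    rw [Ultrafilter.eventually_exists_iff] at h3
    exact h3

end

end Run7.h77
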