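import Pool.Agent.Run7.h77.PRE
import Pool.Agent.Run7.h77.Unav

/-!
# Reduction of Ramsey degrees to vertex colourings
-/

set_option autoImplicit false

namespace Run7.h77

open Function FirstOrder Language Structure CategoryTheory
open Pool.Agent.V1130.RelStr

/-- The language of the structure of copies. -/
def LN (L : FirstOrder.Language.{0, 0}) (k : ℕ) : FirstOrder.Language.{0, 0} :=
  ⟨fun _ => Empty, fun n => (L.Relations n × (Fin n → Fin k)) ⊕ {_p : Fin k × Fin k // n = 2}⟩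

instance (L : FirstOrder.Language.{0, 0}) (k : ℕ) : (LN L k).IsRelational :=
  fun _ => inferInstanceAs (IsEmpty Empty)

theorem finite_LN (L : FirstOrder.Language.{0, 0}) [Finite (Σ n, L.Relations n)] (k : ℕ) :
    Finite (Σ n, (LN L k).Relations n) := by
  let f : (Σ r : (Σ n, L.Relations n), (Fin r.1 → Fin k)) ⊕ (Fin k × Fin k) →
      Σ n, (LN L k).Relations n := fun x =>
    match x with
    | Sum.inl ⟨⟨n, R⟩, s⟩ => ⟨n, Sum.inl (R, s)⟩
    | Sum.inr p => ⟨2, Sum.inr ⟨p, rfl⟩⟩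
  apply Finite.of_surjective f
  rintro ⟨n, r⟩
  rcases r with ⟨R, s⟩ | ⟨p, hp⟩
  · exact ⟨Sum.inl ⟨⟨n, R⟩, s⟩, rfl⟩
  · subst hp
    exact ⟨Sum.inr p, rfl⟩

section

variable {L : FirstOrder.Language.{0, 0}} {M : Type} [L.Structure M] {k : ℕ}

/-- The set of pairs of a copy of `u` and a natural number. -/
abbrev NT (L : FirstOrder.Language.{0, 0}) {M : Type} [L.Structure M] {k : ℕ} (u : Fin k → M) :
    Type := {e : Fin k → M // Injective e ∧ pull (rs L M) e = pull (rs L M) u} × ℕ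

instance structNT (u : Fin k → M) : (LN L k).Structure (NT L u) where
  funMap := fun {n} f => Empty.elim f
  RelMap := fun {n} r x => Sum.elim
    (fun p : L.Relations n × (Fin n → Fin k) => RelMap p.1 (fun j => (x j).1.1 (p.2 j)))
    (fun q : {_p : Fin k × Fin k // n = 2} =>
      (x ⟨0, by have := q.2; omega⟩).1.1 q.1.1 = (x ⟨1, by have := q.2; omega⟩).1.1 q.1.2) r

theorem pullN_of {u : Fin k → M} {V : Type} {f f' : V → NT L u} (σ : M ≃[L] M)
    (h : ∀ a i, σ ((f a).1.1 i) = (f' a).1.1 i) :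
    pull (rs (LN L k) (NT L u)) f = pull (rs (LN L k) (NT L u)) f' := by
  funext r t
  obtain ⟨n, r⟩ := r
  rcases r with ⟨R, s⟩ | ⟨⟨i, j⟩, hn⟩
  · show RelMap R (fun j => (f (t j)).1.1 (s j)) = RelMap R (fun j => (f' (t j)).1.1 (s j))
    have h1 : (fun j => (f' (t j)).1.1 (s j)) = σ ∘ (fun j => (f (t j)).1.1 (s j)) :=
      funext fun j => (h _ _).symm
    rw [h1]
    exact propext (σ.map_rel R _).symm
  · subst hn
    show ((f (t 0)).1.1 i = (f (t 1)).1.1 j) = ((f' (t 0)).1.1 i = (f' (t 1)).1.1 j)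
    rw [← h, ← h]
    exact propext ⟨fun h => congrArg σ h, fun h => σ.injective h⟩

theorem exists_aut_of_pullN [L.IsRelational] (hu : L.IsUltrahomogeneous M) {u : Fin k → M}
    {V : Type} [Finite V] {f f' : V → NT L u}
    (h : pull (rs (LN L k) (NT L u)) f = pull (rs (LN L k) (NT L u)) f') :
    ∃ σ : M ≃[L] M, ∀ a i, σ ((f a).1.1 i) = (f' a).1.1 i := by
  classical
  have hR : ∀ (n : ℕ) (R : L.Relations n) (s : Fin n → Fin k) (t : Fin n → V),
      RelMap R (fun j => (f (t j)).1.1 (s j)) ↔ RelMap R (fun j => (f' (t j)).1.1 (s j)) := by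
    intro n R s t
    exact pull_iff h ⟨n, Sum.inl (R, s)⟩ t
  have hE : ∀ a b i j, (f a).1.1 i = (f b).1.1 j ↔ (f' a).1.1 i = (f' b).1.1 j := by
    intro a b i j
    exact pull_iff h ⟨2, Sum.inr ⟨(i, j), rfl⟩⟩ ![a, b]
  let D := Set.range (fun p : V × Fin k => (f p.1).1.1 p.2)
  have hD : Finite D := (Set.finite_range _).to_subtype
  have hch : ∀ m : D, ∃ p : V × Fin k, (f p.1).1.1 p.2 = m.1 := fun m => m.2
  choose p hp using hch
  let d' : D → M := fun m => (f' (p m).1).1.1 (p m).2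
  have hd' : Injective d' := by
    intro m m' hmm
    apply Subtype.ext
    rw [← hp m, ← hp m']
    exact (hE _ _ _ _).2 hmm
  obtain ⟨σ, hσ⟩ := exists_aut hu (V := D) (f := Subtype.val) (f' := d') Subtype.val_injective hd'
    (by
      funext r t
      apply propext
      have h1 := hR r.1 r.2 (fun j => (p (t j)).2) (fun j => (p (t j)).1)
      have h2 : (fun j => (f (p (t j)).1).1.1 (p (t j)).2) = fun j => (t j).1 :=
        funext fun j => hp (t j)
      rw [h2] at h1
      exact h1)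
  refine ⟨σ, fun a i => ?_⟩
  have h1 := hσ ⟨(f a).1.1 i, (a, i), rfl⟩
  refine h1.trans ?_
  exact (hE _ _ _ _).1 (hp ⟨(f a).1.1 i, (a, i), rfl⟩)

theorem extT_N [L.IsRelational] (hu : L.IsUltrahomogeneous M) (u : Fin k → M) :
    ExtT (rs (LN L k) (NT L u)) := by
  classical
  intro m w x hw hx hwx F
  obtain ⟨σ, hσ⟩ := exists_aut_of_pullN hu hwx.symm
  have hfin : ((Prod.snd '' (F : Set (NT L u))) ∪ Prod.snd '' Set.range w).Finite :=
    ((Finset.finite_toSet F).image _).union ((Set.finite_range w).image _)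
  obtain ⟨n, hn⟩ := hfin.infinite_compl.nonempty
  have hn1 : ∀ y ∈ F, y.2 ≠ n := fun y hy h => hn (Or.inl ⟨y, hy, h⟩)
  have hn2 : ∀ j, (w j).2 ≠ n := fun j h => hn (Or.inr ⟨w j, ⟨j, rfl⟩, h⟩)
  let e := (x (Fin.last m)).1
  have hσe : pull (rs L M) (σ ∘ e.1) = pull (rs L M) e.1 := by
    funext r t
    exact propext (σ.map_rel r.2 (e.1 ∘ t))
  let y : NT L u := (⟨σ ∘ e.1, σ.injective.comp e.2.1, hσe.trans e.2.2⟩, n)
  refine ⟨y, fun hy => hn1 y hy rfl, fun j hj => hn2 j (by rw [hj]), ?_⟩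
  symm
  apply pullN_of σ
  intro a i
  induction a using Fin.lastCases with
  | last => simp [y, e]
  | cast a =>
    rw [Fin.snoc_castSucc]
    exact hσ a i

theorem noAlg_of_extT {L : FirstOrder.Language.{0, 0}} [L.IsRelational] {N : Type}
    [L.Structure N] (hu : L.IsUltrahomogeneous N) (h : ExtT (rs L N)) : NoAlgebraicity L N := by
  classical
  intro F x hx hfin
  obtain ⟨y, hy, hyF, hp⟩ := h.gen (V := F) (fun a => a.1) (fun a => a.1) x
    Subtype.val_injective Subtype.val_injective (fun v hv => hx (hv ▸ v.2)) rfl hfin.toFinset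
  apply hy
  rw [Set.Finite.mem_toFinset]
  have h1 : Injective (fun o : Option F => o.elim y (fun a => a.1)) :=
    opt_inj (w := fun a : F => a.1) Subtype.val_injective hyF
  have h2 : Injective (fun o : Option F => o.elim x (fun a => a.1)) :=
    opt_inj (w := fun a : F => a.1) Subtype.val_injective (fun v hv => hx (hv ▸ v.2))
  obtain ⟨σ, hσ⟩ := exists_aut hu h2 h1 hp.symm
  exact ⟨σ, fun a ha => hσ (some ⟨a, ha⟩), hσ none⟩

theorem transitive_N [L.IsRelational] (hu : L.IsUltrahomogeneous M) (u : Fin k → M)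
    (huN : (LN L k).IsUltrahomogeneous (NT L u)) : PointTransitive (LN L k) (NT L u) := by
  intro x y
  have hx : pull (rs L M) x.1.1 = pull (rs L M) y.1.1 := by rw [x.1.2.2, y.1.2.2]
  obtain ⟨σ, hσ⟩ := exists_aut hu x.1.2.1 y.1.2.1 hx
  have h1 : pull (rs (LN L k) (NT L u)) (fun _ : Fin 1 => x) =
      pull (rs (LN L k) (NT L u)) (fun _ : Fin 1 => y) := pullN_of σ (fun a i => hσ i)
  obtain ⟨τ, hτ⟩ := exists_aut huN (V := Fin 1) (injective_of_subsingleton _)
    (injective_of_subsingleton _) h1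
  exact ⟨τ, hτ 0⟩

theorem unavoidable_of_unav {L : FirstOrder.Language.{0, 0}} [L.IsRelational] {N : Type}
    [L.Structure N] {X : Set N} (h : Unav (rs L N) X) : Unavoidable L N X := by
  obtain ⟨F, hF⟩ := h
  refine ⟨subOf (F : Set N), Substructure.fg_iff_finite.2 F.finite_toSet, fun g => ?_⟩
  obtain ⟨a, ha⟩ := hF (fun a => g ⟨a.1, a.2⟩) ⟨fun a a' haa =>
    Subtype.ext (congrArg (fun z : (subOf (F : Set N) : L.Substructure N) => z.1)
      (g.injective haa)), by
      funext r t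
      exact propext (g.map_rel r.2 (fun j => ⟨(t j).1, (t j).2⟩))⟩
  exact ⟨_, ha⟩

/-- If all structures of copies have no infinite sequence of pairwise disjoint unavoidable sets,
then `M` has finite Ramsey degrees. -/
theorem fd_of_vertex [L.IsRelational] (hu : L.IsUltrahomogeneous M)
    (hN : ∀ (k : ℕ) (u : Fin k → M), Injective u → ¬ ∃ X : ℕ → Set (NT L u),
      Pairwise (fun i j => Disjoint (X i) (X j)) ∧ ∀ n, Unav (rs (LN L k) (NT L u)) (X n)) :
    FD (rs L M) := by
  classical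
  intro k u hui
  by_contra hcon
  push Not at hcon
  apply hN k u hui
  have hinf : Infinite (NT L u) := by
    have : Nonempty {e : Fin k → M // Injective e ∧ pull (rs L M) e = pull (rs L M) u} :=
      ⟨⟨u, hui, rfl⟩⟩
    exact Prod.infinite_of_right
  apply exists_unav_seq
  intro t
  have h1 := hcon t
  simp only [DegLE, not_forall] at h1
  obtain ⟨V, hV, v, hv, κ, hκ, χ, h1⟩ := h1
  push Not at h1
  let V' := {e : Fin k → V // Injective e ∧ pull (rs L M) (v ∘ e) = pull (rs L M) u}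
  let v' : V' → NT L u := fun e => (⟨v ∘ e.1, hv.comp e.2.1, e.2.2⟩, 0)
  refine ⟨V', inferInstance, v', κ, hκ, fun n => χ n.1.1, ?_, fun g' hg' => ?_⟩
  · intro e e' hee
    apply Subtype.ext
    funext i
    have h2 : v ∘ e.1 = v ∘ e'.1 := congrArg (fun z : NT L u => z.1.1) hee
    exact hv (congrFun h2 i)
  · obtain ⟨σ, hσ⟩ := exists_aut_of_pullN hu hg'.2.symm
    have h2 := h1 (σ ∘ v) ⟨σ.injective.comp hv, by
      funext r s
      exact propext (σ.map_rel r.2 (v ∘ s))⟩
    refine lt_of_lt_of_le h2 (Set.ncard_le_ncard ?_ (Set.toFinite _))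
    rintro c ⟨e, he, hes, rfl⟩
    refine ⟨⟨e, he, hes⟩, ?_⟩
    show χ (g' ⟨e, he, hes⟩).1.1 = χ ((σ ∘ v) ∘ e)
    congr 1
    funext i
    exact (hσ ⟨e, he, hes⟩ i).symm

/-- Finite vertex degree bounds the number of disjoint unavoidable sets. -/
theorem no_seq_of_fd {L : FirstOrder.Language.{0, 0}} [L.IsRelational] {M : Type}
    [L.Structure M] (hF : FD (rs L M)) (htr : PointTransitive L M) :
    ¬ ∃ X : ℕ → Set M, Pairwise (fun i j => Disjoint (X i) (X j)) ∧ ∀ n, Unavoidable L M (X n) := by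
  classical
  rintro ⟨X, hX, hun⟩
  choose B hB hBX using hun
  obtain ⟨b₀, -⟩ := hBX 0 (B 0).subtype
  obtain ⟨t, ht⟩ := hF 1 (fun _ => b₀.1) (injective_of_subsingleton _)
  let V : Set M := ⋃ i : Fin (t + 1), (B i : Set M)
  have hVfin : V.Finite := Set.finite_iUnion fun i => Substructure.fg_iff_finite.1 (hB i)
  have hV : Finite V := hVfin
  -- the colouring
  have hcol : ∀ m : M, ∃ c : Fin (t + 2), ∀ i : Fin (t + 1), m ∈ X i → c = i.castSucc := by
    intro m
    by_cases h : ∃ i : Fin (t + 1), m ∈ X i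
    · obtain ⟨i, hi⟩ := h
      refine ⟨i.castSucc, fun j hj => ?_⟩
      by_contra hne
      have hij : (i : ℕ) ≠ (j : ℕ) := fun h => hne (by rw [Fin.ext h])
      exact Set.disjoint_left.1 (hX hij) hi hj
    · exact ⟨0, fun i hi => absurd ⟨i, hi⟩ h⟩
  choose c hc using hcol
  obtain ⟨g, hg, hgt⟩ := ht V hV Subtype.val Subtype.val_injective (Fin (t + 2)) inferInstance
    (fun x => c (x 0))
  have hmem : ∀ (i : Fin (t + 1)) (m : B i), m.1 ∈ V := fun i m =>
    Set.mem_iUnion.2 ⟨i, m.2⟩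
  have hsub : (fun i : Fin (t + 1) => i.castSucc) '' Set.univ ⊆
      Seen (rs L M) (fun _ : Fin 1 => b₀.1) (Subtype.val : V → M) g (fun x => c (x 0)) := by
    rintro _ ⟨i, -, rfl⟩
    let gi : B i ↪[L] M :=
      { toFun := fun m => g ⟨m.1, hmem i m⟩
        inj' := fun a a' haa => Subtype.ext (congrArg (fun z : V => z.1) (hg.1 haa))
        map_fun' := fun {n} f => isEmptyElim f
        map_rel' := fun {n} r x => by
          have h1 := pull_iff hg.2 ⟨n, r⟩ (fun j => (⟨(x j).1, hmem i (x j)⟩ : V))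
          exact h1 }
    obtain ⟨m, hm⟩ := hBX i gi
    refine ⟨fun _ => ⟨m.1, hmem i m⟩, injective_of_subsingleton _, ?_, hc _ i hm⟩
    obtain ⟨σ, hσ⟩ := htr b₀.1 m.1
    have h1 : (Subtype.val ∘ fun _ : Fin 1 => (⟨m.1, hmem i m⟩ : V)) = σ ∘ fun _ => b₀.1 :=
      funext fun _ => hσ.symm
    rw [h1]
    funext r x
    exact propext (σ.map_rel r.2 ((fun _ => b₀.1) ∘ x))
  have h1 := Set.ncard_le_ncard hsub (Set.toFinite _)
  have h2 : ((fun i : Fin (t + 1) => i.castSucc) '' Set.univ).ncard = t + 1 := by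
    rw [Set.ncard_image_of_injective _ (Fin.castSucc_injective _), Set.ncard_univ, Nat.card_fin]
  omega

end

end Run7.h77
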