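import Pool.Agent.Run7.h77.Sup
import Pool.Agent.Run7.h77.NoAlg
import Pool.Agent.Run7.h77.VR
import Pool.Agent.Run7.h77.SupDefs

/-!
# Superpositions, language version
-/

set_option autoImplicit false

namespace Run7.h77

open Function FirstOrder Language Structure CategoryTheory
open Pool.Agent.V1130.RelStr

theorem extT_of_noAlg {L : FirstOrder.Language.{0, 0}} [L.IsRelational] {M : Type}
    [L.Structure M] (hu : L.IsUltrahomogeneous M) (h : NoAlgebraicity L M) : ExtT (rs L M) := by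
  classical
  intro k w x hw hx hwx F
  obtain ⟨σ, hσ⟩ := exists_aut hu (hx.comp (Fin.castSucc_injective k)) hw hwx.symm
  let y₀ := σ (x (Fin.last k))
  let A : Finset M := Finset.univ.image w
  have hy₀ : y₀ ∉ A := by
    intro hy
    obtain ⟨j, -, hj⟩ := Finset.mem_image.1 hy
    rw [← hσ j] at hj
    exact (Fin.castSucc_lt_last j).ne (hx (σ.injective hj))
  have hinf := h A y₀ hy₀
  obtain ⟨y, ⟨τ, hτ, hτy⟩, hyF⟩ := hinf.exists_notMem_finset F
  have hne : ∀ j, w j ≠ y := by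
    intro j hj
    have h1 : τ (w j) = w j := hτ _ (Finset.mem_image.2 ⟨j, Finset.mem_univ _, rfl⟩)
    have h2 : τ (w j) = τ y₀ := by rw [h1, hτy, hj]
    exact hy₀ (Finset.mem_image.2 ⟨j, Finset.mem_univ _, τ.injective h2⟩)
  refine ⟨y, hyF, hne, ?_⟩
  have h3 : Fin.snoc (α := fun _ => M) w y = (τ ∘ σ) ∘ x := by
    funext j
    induction j using Fin.lastCases with
    | last =>
      simp only [Fin.snoc_last, comp_apply]
      exact hτy.symm
    | cast j =>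
      simp only [Fin.snoc_castSucc, comp_apply]
      rw [show σ (x j.castSucc) = w j from hσ j]
      exact (hτ _ (Finset.mem_image.2 ⟨j, Finset.mem_univ _, rfl⟩)).symm
  rw [h3]
  funext r t
  apply propext
  have h4 := (τ.map_rel r.2 (σ ∘ (x ∘ t))).trans (σ.map_rel r.2 (x ∘ t))
  exact h4

/-- In the absence of algebraicity a precompact Ramsey expansion without algebraicity exists. -/
theorem exists_min_pre {L : FirstOrder.Language.{0, 0}} [L.IsRelational]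
    [Finite (Σ n, L.Relations n)] {M : Type} [L.Structure M] [Countable M]
    (hu : L.IsUltrahomogeneous M) (hn : NoAlgebraicity L M) (hP : HasPRE L M) :
    ∃ Ψ : RS ((Σ n, L.Relations n) ⊕ (ℕ × ℕ)) (arStar fun r => r.1) M, ExtT Ψ ∧ FinTypes Ψ ∧
      RamseyF Ψ ∧ Det Ψ (rs L M) := by
  obtain ⟨Ψ, h1, h2, h3, h4, h5, h6⟩ := frd (ext1_of_ultra hu (fun V hV f f' hf hf' => Iff.rfl))
    (fd_of_hasPRE hP) finTypes_rs
  exact ⟨Ψ, extT_of_ep (extT_of_noAlg hu hn) h2 h6, h3, h4, h5⟩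

section

variable {L₁ L₂ : FirstOrder.Language.{0, 0}} {M₁ M₂ M : Type} [L₁.Structure M₁]
  [L₂.Structure M₂] [L₁.Structure M] [L₂.Structure M]

theorem finite_sum (L₁ L₂ : FirstOrder.Language.{0, 0}) [h1 : Finite (Σ n, L₁.Relations n)]
    [h2 : Finite (Σ n, L₂.Relations n)] : Finite (Σ n, (L₁.sum L₂).Relations n) := by
  let f : (Σ n, L₁.Relations n) ⊕ (Σ n, L₂.Relations n) → Σ n, (L₁.sum L₂).Relations n := fun x =>
    match x with
    | Sum.inl ⟨n, R⟩ => ⟨n, Sum.inl R⟩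
    | Sum.inr ⟨n, R⟩ => ⟨n, Sum.inr R⟩
  apply Finite.of_surjective f
  rintro ⟨n, r⟩
  rcases r with R | R
  · exact ⟨Sum.inl ⟨n, R⟩, rfl⟩
  · exact ⟨Sum.inr ⟨n, R⟩, rfl⟩

/-- structures from relation systems -/
@[instance_reducible]
def strOf {L : FirstOrder.Language.{0, 0}} [L.IsRelational] {V : Type}
    (T : RS (Σ n, L.Relations n) (fun r => r.1) V) : L.Structure V where
  funMap := fun {n} f => isEmptyElim f
  RelMap := fun {n} r x => T ⟨n, r⟩ x

theorem pull_sum {V : Type} {f f' : V → M} (h1 : pull (rs L₁ M) f = pull (rs L₁ M) f')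
    (h2 : pull (rs L₂ M) f = pull (rs L₂ M) f') :
    pull (rs (L₁.sum L₂) M) f = pull (rs (L₁.sum L₂) M) f' := by
  funext r t
  obtain ⟨n, r⟩ := r
  rcases r with R | R
  · exact congrFun (congrFun h1 ⟨n, R⟩) t
  · exact congrFun (congrFun h2 ⟨n, R⟩) t

theorem pull_sum_left {V W : Type} {N : Type} [L₁.Structure N] [L₂.Structure N] {f : V → M}
    {f' : V → N} (h : pull (rs (L₁.sum L₂) M) f = pull (rs (L₁.sum L₂) N) f') :
    pull (rs L₁ M) f = pull (rs L₁ N) f' ∧ pull (rs L₂ M) f = pull (rs L₂ N) f' := by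
  constructor
  · funext r t
    exact congrFun (congrFun h ⟨r.1, Sum.inl r.2⟩) t
  · funext r t
    exact congrFun (congrFun h ⟨r.1, Sum.inr r.2⟩) t

/-- embeddings of relational structures from maps -/
theorem emb_iff {L : FirstOrder.Language.{0, 0}} [L.IsRelational] {V N : Type} [L.Structure V]
    [L.Structure N] : Nonempty (V ↪[L] N) ↔ ∃ f : V → N, Injective f ∧
      pull (rs L N) f = rs L V := by
  constructor
  · rintro ⟨f⟩
    exact ⟨f, f.injective, pull_rs_eq f⟩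
  · rintro ⟨f, hf, hp⟩
    exact ⟨⟨⟨f, hf⟩, fun {n} g => isEmptyElim g, fun {n} r x =>
      iff_of_eq (congrFun (congrFun hp ⟨n, r⟩) x)⟩⟩

variable [L₁.IsRelational] [L₂.IsRelational]

theorem sup_left (h : IsGenericSuperposition L₁ L₂ M₁ M₂ M) (V : Type) (hV : Finite V)
    (v : V → M) (hv : Injective v) : (∃ v₁ : V → M₁, Injective v₁ ∧
      pull (rs L₁ M₁) v₁ = pull (rs L₁ M) v) ∧ ∃ v₂ : V → M₂, Injective v₂ ∧
      pull (rs L₂ M₂) v₂ = pull (rs L₂ M) v := by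
  letI s1 : L₁.Structure V := strOf (pull (rs L₁ M) v)
  letI s2 : L₂.Structure V := strOf (pull (rs L₂ M) v)
  have h1 : Nonempty (V ↪[L₁.sum L₂] M) := by
    rw [emb_iff]
    refine ⟨v, hv, ?_⟩
    funext r t
    obtain ⟨n, r⟩ := r
    rcases r with R | R <;> rfl
  obtain ⟨h2, h3⟩ := (h.age V).1 h1
  rw [emb_iff] at h2 h3
  exact ⟨h2, h3⟩

theorem sup_right (h : IsGenericSuperposition L₁ L₂ M₁ M₂ M) (V : Type) (hV : Finite V)
    (w₁ : V → M₁) (w₂ : V → M₂) (hw₁ : Injective w₁) (hw₂ : Injective w₂) :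
    ∃ w : V → M, Injective w ∧ pull (rs L₁ M) w = pull (rs L₁ M₁) w₁ ∧
      pull (rs L₂ M) w = pull (rs L₂ M₂) w₂ := by
  letI s1 : L₁.Structure V := strOf (pull (rs L₁ M₁) w₁)
  letI s2 : L₂.Structure V := strOf (pull (rs L₂ M₂) w₂)
  have h1 : Nonempty (V ↪[L₁.sum L₂] M) := (h.age V).2 ⟨emb_iff.2 ⟨w₁, hw₁, rfl⟩,
    emb_iff.2 ⟨w₂, hw₂, rfl⟩⟩
  rw [emb_iff] at h1
  obtain ⟨w, hw, hp⟩ := h1
  have h2 : pull (rs (L₁.sum L₂) M) w = pull (rs (L₁.sum L₂) V) id := hp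
  obtain ⟨h3, h4⟩ := pull_sum_left (W := V) h2
  exact ⟨w, hw, h3, h4⟩

theorem hasPRE_superposition [Finite (Σ n, L₁.Relations n)] [Finite (Σ n, L₂.Relations n)]
    [Countable M₁] [Countable M₂] [Countable M]
    (hu₁ : L₁.IsUltrahomogeneous M₁) (hu₂ : L₂.IsUltrahomogeneous M₂)
    (hn₁ : NoAlgebraicity L₁ M₁) (hn₂ : NoAlgebraicity L₂ M₂)
    (hP₁ : HasPRE L₁ M₁) (hP₂ : HasPRE L₂ M₂) (h : IsGenericSuperposition L₁ L₂ M₁ M₂ M) :
    HasPRE (L₁.sum L₂) M := by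
  have hfin := finite_sum L₁ L₂
  rw [hasPRE_iff_fd h.ultrahomogeneous]
  obtain ⟨Ψ₁, a1, a2, a3, a4⟩ := exists_min_pre hu₁ hn₁ hP₁
  obtain ⟨Ψ₂, b1, b2, b3, b4⟩ := exists_min_pre hu₂ hn₂ hP₂
  exact fd_superposition a3 b3 (blowUp_of_ext a1) (blowUp_of_ext b1) a2 b2 a4 b4
    (fun V hV v hv => (sup_left h V hV v hv).1) (fun V hV v hv => (sup_left h V hV v hv).2)
    (fun V hV w₁ w₂ hw₁ hw₂ => sup_right h V hV w₁ w₂ hw₁ hw₂)
    (fun V hV f f' hf hf' h1 h2 => pull_sum h1 h2)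

theorem extT_superposition (h : IsGenericSuperposition L₁ L₂ M₁ M₂ M)
    (hE₁ : ExtT (rs L₁ M₁)) (hE₂ : ExtT (rs L₂ M₂)) : ExtT (rs (L₁.sum L₂) M) := by
  classical
  intro k w x hw hx hwx F
  -- the set `V` of the points of `w` and of `F`
  let V : Finset M := Finset.univ.image w ∪ F
  have hwV : ∀ j, w j ∈ V := fun j => Finset.mem_union_left _ (by simp)
  have hFV : ∀ a ∈ F, a ∈ V := fun a ha => Finset.mem_union_right _ ha
  obtain ⟨v₁, hv₁, hp₁⟩ := (sup_left h V inferInstance (fun a => a.1) Subtype.val_injective).1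
  obtain ⟨v₂, hv₂, hp₂⟩ := (sup_left h V inferInstance (fun a => a.1) Subtype.val_injective).2
  obtain ⟨x₁, hx₁, hq₁⟩ := (sup_left h _ inferInstance x hx).1
  obtain ⟨x₂, hx₂, hq₂⟩ := (sup_left h _ inferInstance x hx).2
  obtain ⟨hwx₁, hwx₂⟩ := pull_sum_left (W := M) hwx
  let wV : Fin k → V := fun j => ⟨w j, hwV j⟩
  have hwVi : Injective wV := fun a b hab => hw (congrArg (fun z : V => z.1) hab)
  have e₁ : pull (rs L₁ M₁) (v₁ ∘ wV) = pull (rs L₁ M₁) (x₁ ∘ Fin.castSucc) := by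
    rw [pull_comp, hp₁, pull_comp _ x₁, hq₁]
    exact hwx₁
  have e₂ : pull (rs L₂ M₂) (v₂ ∘ wV) = pull (rs L₂ M₂) (x₂ ∘ Fin.castSucc) := by
    rw [pull_comp, hp₂, pull_comp _ x₂, hq₂]
    exact hwx₂
  obtain ⟨y₁, hy₁, -, hyp₁⟩ := hE₁ k (v₁ ∘ wV) x₁ (hv₁.comp hwVi) hx₁ e₁ (Finset.univ.image v₁)
  obtain ⟨y₂, hy₂, -, hyp₂⟩ := hE₂ k (v₂ ∘ wV) x₂ (hv₂.comp hwVi) hx₂ e₂ (Finset.univ.image v₂)
  have hy₁' : ∀ a, v₁ a ≠ y₁ := fun a ha => hy₁ (Finset.mem_image.2 ⟨a, Finset.mem_univ _, ha⟩)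
  have hy₂' : ∀ a, v₂ a ≠ y₂ := fun a ha => hy₂ (Finset.mem_image.2 ⟨a, Finset.mem_univ _, ha⟩)
  obtain ⟨f, hf, hf₁, hf₂⟩ := sup_right h (Option V) inferInstance (opt y₁ v₁) (opt y₂ v₂)
    (opt_inj hv₁ hy₁') (opt_inj hv₂ hy₂')
  -- move `f` so that it is the identity on `V`
  have hfV : pull (rs (L₁.sum L₂) M) (fun a : V => f (some a)) =
      pull (rs (L₁.sum L₂) M) (fun a : V => a.1) := by
    apply pull_sum
    · rw [← hp₁]
      exact congrArg (fun T => pull T (some : V → Option V)) hf₁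
    · rw [← hp₂]
      exact congrArg (fun T => pull T (some : V → Option V)) hf₂
  obtain ⟨σ, hσ⟩ := exists_aut h.ultrahomogeneous
    (f := fun a : V => f (some a)) (f' := fun a : V => a.1)
    (fun a b hab => Option.some_injective _ (hf hab)) Subtype.val_injective hfV
  let y := σ (f none)
  have hyV : ∀ a : V, a.1 ≠ y := by
    intro a ha
    rw [← hσ a] at ha
    have := hf (σ.injective ha)
    cases this
  refine ⟨y, fun hyF => hyV ⟨y, hFV y hyF⟩ rfl, fun j hj => hyV ⟨w j, hwV j⟩ hj, ?_⟩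
  -- the type
  let s : Fin (k + 1) → Option V := Fin.snoc (α := fun _ => Option V) (fun j => some (wV j)) none
  have hs : Fin.snoc (α := fun _ => M) w y = σ ∘ (f ∘ s) := by
    funext j
    induction j using Fin.lastCases with
    | last => simp [s, y]
    | cast j =>
      simp only [Fin.snoc_castSucc, comp_apply, s]
      exact (hσ (wV j)).symm
  have hs₁ : opt y₁ v₁ ∘ s = Fin.snoc (α := fun _ => M₁) (v₁ ∘ wV) y₁ := by
    funext j
    induction j using Fin.lastCases with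
    | last => simp [s, opt]
    | cast j => simp [s, opt]
  have hs₂ : opt y₂ v₂ ∘ s = Fin.snoc (α := fun _ => M₂) (v₂ ∘ wV) y₂ := by
    funext j
    induction j using Fin.lastCases with
    | last => simp [s, opt]
    | cast j => simp [s, opt]
  have hσp : pull (rs (L₁.sum L₂) M) (σ ∘ (f ∘ s)) = pull (rs (L₁.sum L₂) M) (f ∘ s) := by
    funext r t
    exact propext (σ.map_rel r.2 ((f ∘ s) ∘ t))
  rw [hs, hσp]
  apply pull_sum
  · rw [pull_comp, hf₁, ← pull_comp, hs₁, hyp₁, hq₁]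
  · rw [pull_comp, hf₂, ← pull_comp, hs₂, hyp₂, hq₂]

end

end Run7.h77
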