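import Pool.Agent.Run7.h77.ComplFD
import Pool.Agent.Run7.h77.ComplDefs
import Pool.Agent.Run7.h77.SupLang

/-!
# Completion properties, language version
-/

set_option autoImplicit false

namespace Run7.h77

open Function FirstOrder Language Structure CategoryTheory
open Pool.Agent.V1130.RelStr

section

variable {L₀ L : FirstOrder.Language.{0, 0}} {N M : Type} [L₀.Structure N]
  [L₀.Structure M] [L.Structure M] [L₀.IsRelational] [L.IsRelational]

theorem compl_of_cliqueCompletion (h : CliqueCompletion L₀ L N M) :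
    Compl (rs L M) (rs L₀ M) (rs L₀ N) := by
  classical
  intro V hV ι E T hι hEs hEi hcl
  let s0 : L₀.Structure V := strOf (pull (rs L₀ N) ι)
  let s1 : L.Structure V := strOf T
  let G : SimpleGraph V :=
    { Adj := E
      symm := ⟨fun x y h => hEs x y h⟩
      loopless := ⟨fun x h => hEi x h⟩ }
  by_cases hM : Nonempty M
  · obtain ⟨f, hf, hf0, hf1⟩ := h V G (emb_iff.2 ⟨ι, hι, rfl⟩) (by
      intro J hJ
      obtain ⟨g, hg, hg0, hg1⟩ := hcl J Subtype.val Subtype.val_injective (by
        intro a a' haa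
        exact hJ a.2 a'.2 (fun h => haa (Subtype.ext h)))
      let h' : V → M := fun v => if hv : v ∈ J then g ⟨v, hv⟩ else Classical.arbitrary M
      have hh' : ∀ (v : V) (hv : v ∈ J), h' v = g ⟨v, hv⟩ := fun v hv => by simp [h', hv]
      refine ⟨h', ?_, ?_⟩
      · intro a ha b hb hab
        rw [hh' a ha, hh' b hb] at hab
        exact congrArg Subtype.val (hg hab)
      · intro n t ht
        have e1 : h' ∘ t = g ∘ fun j => (⟨t j, ht j⟩ : J) := funext fun j => hh' _ (ht j)
        constructor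
        · intro r
          rw [e1]
          exact pull_iff hg0 ⟨n, r⟩ (fun j => (⟨t j, ht j⟩ : J))
        · intro r
          rw [e1]
          exact pull_iff hg1 ⟨n, r⟩ (fun j => (⟨t j, ht j⟩ : J)))
    refine ⟨f, hf, ?_, ?_⟩
    · funext r t
      exact propext (hf0 r.1 t r.2)
    · intro i t ht
      refine hf1 i.1 t ?_ i.2
      rintro _ ⟨j, rfl⟩ _ ⟨l, rfl⟩ hjl
      exact ht j l hjl
  · -- `M` is empty
    have hVe : IsEmpty V := by
      constructor
      intro v
      obtain ⟨g, -⟩ := hcl Unit (fun _ => v) (injective_of_subsingleton _) (by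
        intro a a' haa
        exact absurd (Subsingleton.elim a a') haa)
      exact hM ⟨g ()⟩
    obtain ⟨g, hg, hg0, hg1⟩ := hcl V id injective_id (fun a => isEmptyElim a)
    exact ⟨g, hg, hg0, fun i t _ => iff_of_eq (congrFun (congrFun hg1 i) t)⟩

theorem hasPRE_of_cliqueCompletion [Finite (Σ n, L₀.Relations n)] [Finite (Σ n, L.Relations n)]
    [Countable N] [Countable M] (hu₀ : L₀.IsUltrahomogeneous N) (hn₀ : NoAlgebraicity L₀ N)
    (hP₀ : HasPRE L₀ N) (hu : L.IsUltrahomogeneous M) (hage : L₀.age M ⊆ L₀.age N)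
    (hC : CliqueCompletion L₀ L N M) : HasPRE L M := by
  classical
  rw [hasPRE_iff_fd hu]
  obtain ⟨Ψ, a1, a2, a3, a4⟩ := exists_min_pre hu₀ hn₀ hP₀
  refine fd_of_compl a3 (blowUp_of_ext a1) a2 a4 ?_ (compl_of_cliqueCompletion hC)
  intro V hV v hv
  let s0 : L₀.Structure V := strOf (pull (rs L₀ M) v)
  have h1 : (⟨V, s0⟩ : Bundled.{0} L₀.Structure) ∈ L₀.age M :=
    ⟨Structure.fg_iff_finite.2 hV, emb_iff.2 ⟨v, hv, rfl⟩⟩
  obtain ⟨-, h2⟩ := hage h1
  rw [emb_iff] at h2
  obtain ⟨ι, hι, hp⟩ := h2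
  exact ⟨ι, hι, hp.symm⟩

end

end Run7.h77
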