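import Pool.Agent.Run7.h77.Comb

/-!
# Completion by adding one edge at a time
-/

set_option autoImplicit false

namespace Run7.h77

open Function

section

variable {I : Type} {ar : I → ℕ} {I₂ : Type} {ar₂ : I₂ → ℕ}
variable {M N : Type} {S : RS I ar M} {c : RS I₂ ar₂ M} {d : RS I₂ ar₂ N}

/-- All cliques of `E` embed into `(M, S)` compatibly with the base. -/
def Cliques {I I₂ : Type} {ar : I → ℕ} {ar₂ : I₂ → ℕ} {M N : Type} (S : RS I ar M)
    (c : RS I₂ ar₂ M) (d : RS I₂ ar₂ N) {V : Type} (ι : V → N) (E : V → V → Prop)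
    (T : RS I ar V) : Prop :=
  ∀ (J : Type) (y : J → V), Injective y → (∀ a a', a ≠ a' → E (y a) (y a')) →
      ∃ h : J → M, Injective h ∧ pull c h = pull d (ι ∘ y) ∧ pull S h = pull T y

/-- A missing edge can be added. -/
def OneEdge {I I₂ : Type} {ar : I → ℕ} {ar₂ : I₂ → ℕ} {M N : Type} (S : RS I ar M)
    (c : RS I₂ ar₂ M) (d : RS I₂ ar₂ N) : Prop :=
  ∀ (V : Type) (_ : Finite V) (ι : V → N) (E : V → V → Prop) (T : RS I ar V), Injective ι →
    (∀ x y, E x y → E y x) → (∀ x, ¬ E x x) → Cliques S c d ι E T →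
    ∀ x y : V, x ≠ y → ¬ E x y → ∃ T' : RS I ar V,
      (∀ i (t : Fin (ar i) → V), (∀ j k, t j ≠ t k → E (t j) (t k)) → (T' i t ↔ T i t)) ∧
      Cliques S c d ι (fun u v => E u v ∨ (u = x ∧ v = y) ∨ (u = y ∧ v = x)) T'

theorem compl_of_oneEdge (h : OneEdge S c d) : Compl S c d := by
  classical
  have main : ∀ (n : ℕ) (V : Type) (_ : Fintype V) (ι : V → N) (E : V → V → Prop)
      (T : RS I ar V), Injective ι → (∀ x y, E x y → E y x) → (∀ x, ¬ E x x) →
      Cliques S c d ι E T → (Finset.univ.filter (fun p : V × V => p.1 ≠ p.2 ∧ ¬ E p.1 p.2)).card ≤ n →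
      ∃ f : V → M, Injective f ∧ pull c f = pull d ι ∧
        ∀ i (t : Fin (ar i) → V), (∀ j k, t j ≠ t k → E (t j) (t k)) → (S i (f ∘ t) ↔ T i t) := by
    intro n
    induction n with
    | zero =>
      intro V _ ι E T hι hEs hEi hcl hn
      have hall : ∀ x y : V, x ≠ y → E x y := by
        intro x y hxy
        by_contra hE
        have : (x, y) ∈ (Finset.univ.filter (fun p : V × V => p.1 ≠ p.2 ∧ ¬ E p.1 p.2)) := by
          simp [hxy, hE]
        rw [Finset.card_eq_zero.1 (Nat.le_zero.1 hn)] at this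
        exact Finset.notMem_empty _ this
      obtain ⟨f, hf, hfc, hfS⟩ := hcl V id injective_id (fun a a' haa => hall _ _ haa)
      exact ⟨f, hf, hfc, fun i t _ => iff_of_eq (congrFun (congrFun hfS i) t)⟩
    | succ n ih =>
      intro V _ ι E T hι hEs hEi hcl hn
      by_cases hall : ∀ x y : V, x ≠ y → E x y
      · obtain ⟨f, hf, hfc, hfS⟩ := hcl V id injective_id (fun a a' haa => hall _ _ haa)
        exact ⟨f, hf, hfc, fun i t _ => iff_of_eq (congrFun (congrFun hfS i) t)⟩
      · push Not at hall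
        obtain ⟨x, y, hxy, hE⟩ := hall
        obtain ⟨T', hT', hcl'⟩ := h V inferInstance ι E T hι hEs hEi hcl x y hxy hE
        let E' : V → V → Prop := fun u v => E u v ∨ (u = x ∧ v = y) ∨ (u = y ∧ v = x)
        obtain ⟨f, hf, hfc, hfS⟩ := ih V inferInstance ι E' T' hι (by
          rintro u v (h | h | h)
          · exact Or.inl (hEs _ _ h)
          · exact Or.inr (Or.inr ⟨h.2, h.1⟩)
          · exact Or.inr (Or.inl ⟨h.2, h.1⟩)) (by
          rintro u (h | h | h)
          · exact hEi _ h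
          · exact hxy (h.1.symm.trans h.2)
          · exact hxy (h.2.symm.trans h.1)) hcl' (by
          refine Nat.le_of_lt_succ (lt_of_lt_of_le (Finset.card_lt_card ?_) hn)
          rw [Finset.ssubset_iff_of_subset]
          · refine ⟨(x, y), by simp [hxy, hE], by simp [E']⟩
          · intro p hp
            simp only [Finset.mem_filter, Finset.mem_univ, true_and] at hp ⊢
            exact ⟨hp.1, fun h => hp.2 (Or.inl h)⟩)
        refine ⟨f, hf, hfc, fun i t ht => ?_⟩
        exact (hfS i t (fun j k hjk => Or.inl (ht j k hjk))).trans (hT' i t ht)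
  intro V hV ι E T hι hEs hEi hcl
  have := Fintype.ofFinite V
  exact main _ V inferInstance ι E T hι hEs hEi hcl le_rfl

end

end Run7.h77
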