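import Pool.Agent.Run7.h77.PatDefs
import Pool.Agent.Run7.h77.SupLang
import Pool.Agent.Run7.h77.Edge

/-!
# Amalgamation patterns and Ramsey expansions by linear orders
-/

set_option autoImplicit false

namespace Run7.h77

open Function FirstOrder Language Structure CategoryTheory
open Pool.Agent.V1130.RelStr

/-- no common reduct -/
abbrev triv (A : Type) : RS Empty (fun _ => 0) A := fun i => i.elim

theorem triv_eq {A : Type} (f : RS Empty (fun _ => 0) A) (g : RS Empty (fun _ => 0) A) :
    f = g := funext fun i => i.elim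

section

variable {L : FirstOrder.Language.{0, 0}} {M P : Type} [L.Structure M] [L.Structure P]
  [L.IsRelational]

theorem exists_inj_pair [Infinite P] {V : Type} [Finite V] {x y : V} (hxy : x ≠ y) {p q : P}
    (hpq : p ≠ q) : ∃ o : V → P, Injective o ∧ o x = p ∧ o y = q := by
  classical
  let X := {z : P // z ≠ p ∧ z ≠ q}
  have hX : Infinite X := by
    have h1 : ({p, q} : Set P)ᶜ.Infinite := (Set.toFinite {p, q}).infinite_compl
    have h2 : {z : P | z ≠ p ∧ z ≠ q}.Infinite := by
      refine h1.mono ?_
      intro z hz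
      simp only [Set.mem_compl_iff, Set.mem_insert_iff, Set.mem_singleton_iff, not_or] at hz
      exact hz
    exact h2.to_subtype
  obtain ⟨n, ⟨e⟩⟩ := Finite.exists_equiv_fin V
  let j : V → X := fun v => Infinite.natEmbedding X (e v)
  have hj : Injective j := by
    intro a b hab
    have h1 : ((e a : Fin n) : ℕ) = (e b : Fin n) := (Infinite.natEmbedding X).injective hab
    exact e.injective (Fin.ext h1)
  refine ⟨fun v => if v = x then p else if v = y then q else (j v).1, ?_, by simp, by
    simp [hxy.symm]⟩
  intro a b hab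
  by_cases ha : a = x
  · by_cases hb : b = x
    · rw [ha, hb]
    · by_cases hb' : b = y
      · simp only [ha, if_true, hb', if_neg hxy.symm] at hab
        exact absurd hab hpq
      · simp only [ha, if_true, if_neg hb, if_neg hb'] at hab
        exact absurd hab.symm (j b).2.1
  · by_cases ha' : a = y
    · by_cases hb : b = x
      · simp only [ha', if_neg hxy.symm, if_true, hb] at hab
        exact absurd hab.symm hpq
      · by_cases hb' : b = y
        · rw [ha', hb']
        · simp only [ha', if_neg hxy.symm, if_true, if_neg hb, if_neg hb'] at hab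
          exact absurd hab.symm (j b).2.2
    · by_cases hb : b = x
      · simp only [if_neg ha, if_neg ha', hb, if_true] at hab
        exact absurd hab (j a).2.1
      · by_cases hb' : b = y
        · simp only [if_neg ha, if_neg ha', hb', if_neg hxy.symm, if_true] at hab
          exact absurd hab (j a).2.2
        · simp only [if_neg ha, if_neg ha', if_neg hb, if_neg hb'] at hab
          exact hj (Subtype.ext hab)

theorem oneEdge_of_pattern {N : Type} [Infinite P] {p q : P} (hpq : p ≠ q)
    (hP : AmalgPattern L M P p q) :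
    OneEdge (rs L M) (triv M) (triv N) := by
  classical
  intro V hV ι E T hι hEs hEi hcl x y hxy hE
  obtain ⟨o, ho, hox, hoy⟩ := exists_inj_pair (P := P) hxy hpq
  let T' : RS (Σ n, L.Relations n) (fun r => r.1) V := fun i t =>
    if x ∈ Set.range t ∧ y ∈ Set.range t then RelMap i.2 (o ∘ t) else T i t
  have hT' : ∀ (i : Σ n, L.Relations n) (t : Fin i.1 → V),
      ¬ (x ∈ Set.range t ∧ y ∈ Set.range t) → (T' i t ↔ T i t) := by
    intro i t ht
    simp only [T', if_neg ht]
  refine ⟨T', ?_, ?_⟩
  · intro i t ht
    apply hT'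
    rintro ⟨⟨j, hj⟩, ⟨l, hl⟩⟩
    exact hE (hj ▸ hl ▸ ht j l (by rw [hj, hl]; exact hxy))
  · intro J y' hy' hadj
    have hJ : Finite J := Finite.of_injective y' hy'
    -- a part of `J` not containing both `x` and `y`
    have part : ∀ (K : Type) (z : K → J), Injective z →
        (∀ a b : K, ¬ (y' (z a) = x ∧ y' (z b) = y)) →
        ∃ h : K → M, Injective h ∧ pull (rs L M) h = pull T' (y' ∘ z) := by
      intro K z hz hno
      obtain ⟨h, hh, -, hS⟩ := hcl K (y' ∘ z) (hy'.comp hz) (by
        intro a a' haa
        rcases hadj (z a) (z a') (fun h => haa (hz h)) with h | h | h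
        · exact h
        · exact absurd h (hno a a')
        · exact absurd ⟨h.2, h.1⟩ (hno a' a))
      refine ⟨h, hh, ?_⟩
      rw [hS]
      funext i t
      refine propext (hT' i _ ?_).symm
      rintro ⟨⟨j, hj⟩, ⟨l, hl⟩⟩
      exact hno _ _ ⟨hj, hl⟩
    by_cases hboth : (∃ a, y' a = x) ∧ (∃ b, y' b = y)
    · obtain ⟨⟨a, ha⟩, ⟨b, hb⟩⟩ := hboth
      have hab : a ≠ b := fun h => hxy (by rw [← ha, ← hb, h])
      let sJ : L.Structure J := strOf (pull T' y')
      have key : Nonempty (J ↪[L] M) := by
        apply hP J a b (o ∘ y') hab (ho.comp hy') (by rw [comp_apply, ha, hox])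
          (by rw [comp_apply, hb, hoy])
        · rintro n t ⟨j, hj⟩ ⟨l, hl⟩ r
          have h1 : x ∈ Set.range (y' ∘ t) ∧ y ∈ Set.range (y' ∘ t) :=
            ⟨⟨j, by rw [comp_apply, hj, ha]⟩, ⟨l, by rw [comp_apply, hl, hb]⟩⟩
          show RelMap r ((o ∘ y') ∘ t) ↔ T' ⟨n, r⟩ (y' ∘ t)
          simp only [T', if_pos h1]
          rfl
        · obtain ⟨h, hh, hp⟩ := part {j : J // j ≠ a} Subtype.val Subtype.val_injective (by
            rintro ⟨c, hc⟩ d ⟨h1, -⟩
            exact hc (hy' (by rw [ha]; exact h1)))
          let h' : J → M := fun j => if hj : j ≠ a then h ⟨j, hj⟩ else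
            h ⟨b, hab.symm⟩
          have hh' : ∀ (j : J) (hj : j ≠ a), h' j = h ⟨j, hj⟩ := fun j hj => by simp [h', hj]
          refine ⟨h', ?_, ?_⟩
          · intro c hc d hd hcd
            rw [hh' c hc, hh' d hd] at hcd
            exact congrArg Subtype.val (hh hcd)
          · intro n t ht r
            have e1 : h' ∘ t = h ∘ fun j => (⟨t j, ht j⟩ : {j : J // j ≠ a}) :=
              funext fun j => hh' _ (ht j)
            rw [e1]
            exact pull_iff hp ⟨n, r⟩ (fun j => (⟨t j, ht j⟩ : {j : J // j ≠ a}))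
        · obtain ⟨h, hh, hp⟩ := part {j : J // j ≠ b} Subtype.val Subtype.val_injective (by
            rintro c ⟨d, hd⟩ ⟨-, h2⟩
            exact hd (hy' (by rw [hb]; exact h2)))
          let h' : J → M := fun j => if hj : j ≠ b then h ⟨j, hj⟩ else
            h ⟨a, hab⟩
          have hh' : ∀ (j : J) (hj : j ≠ b), h' j = h ⟨j, hj⟩ := fun j hj => by simp [h', hj]
          refine ⟨h', ?_, ?_⟩
          · intro c hc d hd hcd
            rw [hh' c hc, hh' d hd] at hcd
            exact congrArg Subtype.val (hh hcd)
          · intro n t ht r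
            have e1 : h' ∘ t = h ∘ fun j => (⟨t j, ht j⟩ : {j : J // j ≠ b}) :=
              funext fun j => hh' _ (ht j)
            rw [e1]
            exact pull_iff hp ⟨n, r⟩ (fun j => (⟨t j, ht j⟩ : {j : J // j ≠ b}))
      rw [emb_iff] at key
      obtain ⟨f, hf, hp⟩ := key
      exact ⟨f, hf, triv_eq _ _, hp⟩
    · obtain ⟨h, hh, hp⟩ := part J id injective_id (by
        rintro a b ⟨h1, h2⟩
        exact hboth ⟨⟨a, h1⟩, ⟨b, h2⟩⟩)
      exact ⟨h, hh, triv_eq _ _, hp⟩

/-- The linear order on `M` pulled back along an injection into `ℚ`. -/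
@[instance_reducible]
noncomputable def ordOf {M : Type} (g : M → ℚ) (hg : Function.Injective g) : LinearOrder M :=
  LinearOrder.lift' g hg

theorem sameType_ord (g : M → ℚ) (hg : Function.Injective g) :
    letI : LinearOrder M := ordOf g hg
    letI : Language.order.Structure M := orderStructure M
    SameType (comb (rs L M) ratLT g) (rs (L.sum Language.order) M) := by
  let o : LinearOrder M := ordOf g hg
  let o' : Language.order.Structure M := orderStructure M
  intro V _ f f' hf hf'
  rw [pull_comb]
  have hle : ∀ a b : M, a ≤ b ↔ g a ≤ g b := fun a b => Iff.rfl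
  constructor
  · rintro ⟨h1, h2⟩
    have h3 : ∀ a b : V, g (f a) < g (f b) ↔ g (f' a) < g (f' b) := by
      intro a b
      exact pull_iff h1 () ![a, b]
    funext r t
    obtain ⟨n, r⟩ := r
    rcases r with R | R
    · exact congrFun (congrFun h2 ⟨n, R⟩) t
    · cases R
      apply propext
      show f (t 0) ≤ f (t 1) ↔ f' (t 0) ≤ f' (t 1)
      rw [hle, hle, ← not_lt, ← not_lt, h3]
  · intro h
    have h3 : ∀ a b : V, g (f a) ≤ g (f b) ↔ g (f' a) ≤ g (f' b) := by
      intro a b
      have := pull_iff h ⟨2, Sum.inr orderRel.le⟩ ![a, b]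
      exact this
    constructor
    · funext i t
      apply propext
      show g (f (t 0)) < g (f (t 1)) ↔ g (f' (t 0)) < g (f' (t 1))
      rw [← not_le, ← not_le, h3]
    · funext r t
      exact congrFun (congrFun h ⟨r.1, Sum.inl r.2⟩) t

instance finite_order : Finite (Σ n, Language.order.Relations n) := by
  apply Finite.of_surjective (fun _ : Unit => (⟨2, orderRel.le⟩ : Σ n, Language.order.Relations n))
  rintro ⟨n, r⟩
  cases r
  exact ⟨(), rfl⟩

theorem hasOrdered_of_compl [Finite (Σ n, L.Relations n)] [Countable M]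
    (hu : L.IsUltrahomogeneous M) (hC : Compl (rs L M) (triv M) (triv ℚ)) :
    RamseyByOrder L M := by
  classical
  have hDS : Det (rs L M) (triv M) := fun V _ f f' _ _ _ => triv_eq _ _
  have hDb : Det ratLT (triv ℚ) := fun V _ f f' _ _ _ => triv_eq _ _
  have hM : Match (triv M) (triv ℚ) := by
    intro V hV f ι hf hι _ x hx
    obtain ⟨n, hn⟩ := Infinite.exists_notMem_finset (Set.finite_range ι).toFinset
    exact ⟨n, fun v hv => hn (by simp [← hv]), triv_eq _ _⟩
  obtain ⟨g, hg, hgc, hG⟩ := exists_generic ratLT_ext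
    (ext1_of_ultra hu (fun V hV f f' hf hf' => Iff.rfl)) hDS hDb hC hM (fun i => i.elim)
  have hext : ExtT (comb (rs L M) ratLT g) := comb_ext hg hgc hG
  have hram : RamseyF (comb (rs L M) ratLT g) :=
    comb_ramsey ratLT_ramsey ratLT_ext hC hDb hg hgc hG
  let o : LinearOrder M := ordOf g hg
  let o' : Language.order.Structure M := orderStructure M
  have hs := sameType_ord (L := L) g hg
  have hu' : (L.sum Language.order).IsUltrahomogeneous M := ultrahomogeneous_of_extT hext hs
  have hfin := finite_sum L Language.order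
  exact ⟨ordOf g hg, hu', fun n => orbits_of_finTypes hu' finTypes_rs n,
    ramseyForm_of_embRamsey (embRamsey_of_ramseyF hram hs)⟩

end

end Run7.h77
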