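import Mathlib

/-!
# Definitions for statements about precompact Ramsey expansions
-/

set_option autoImplicit false

namespace Run7.h77

open FirstOrder FirstOrder.Language

/-- `M` has a precompact Ramsey expansion: there is a relational, ultrahomogeneous expansion of `M`
(possibly with infinitely many new symbols) whose automorphism group has finitely many orbits on
`n`-tuples for every `n`, and whose finite substructures have the Ramsey property for embeddings. -/
def HasPRE (L : FirstOrder.Language.{0, 0}) (M : Type) [L.Structure M] : Prop :=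
  ∃ (L' : FirstOrder.Language.{0, 0}) (_ : ∀ n, IsEmpty (L'.Functions n)) (φ : L →ᴸ L')
      (_ : L'.Structure M),
      φ.IsExpansionOn M ∧ L'.IsUltrahomogeneous M ∧
      (∀ n : ℕ, ∃ F : Finset (Fin n → M), ∀ x : Fin n → M,
        ∃ y ∈ F, ∃ σ : M ≃[L'] M, ∀ i, σ (y i) = x i) ∧
      (∀ (A B : L'.Substructure M), A.FG → B.FG → ∀ k : ℕ,
        ∃ C : L'.Substructure M, C.FG ∧ ∀ c : (A ↪[L'] C) → Fin k,
          ∃ g : B ↪[L'] C, ∃ i : Fin k, ∀ f : A ↪[L'] B, c (g.comp f) = i)

/-- A set `X` of points of `M` is unavoidable if there is a finite substructure of `M` such that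
every copy of it in `M` meets `X`. -/
def Unavoidable (L : FirstOrder.Language.{0, 0}) (M : Type) [L.Structure M] (X : Set M) : Prop :=
  ∃ B : L.Substructure M, B.FG ∧ ∀ g : B ↪[L] M, ∃ b : B, g b ∈ X

/-- The automorphism group is transitive on points. -/
def PointTransitive (L : FirstOrder.Language.{0, 0}) (M : Type) [L.Structure M] : Prop :=
  ∀ x y : M, ∃ σ : M ≃[L] M, σ x = y

/-- The pointwise stabiliser of a finite set has no finite orbit outside of that set. -/
def NoAlgebraicity (L : FirstOrder.Language.{0, 0}) (M : Type) [L.Structure M] : Prop :=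
  ∀ (F : Finset M) (x : M), x ∉ F → {y | ∃ σ : M ≃[L] M, (∀ a ∈ F, σ a = a) ∧ σ x = y}.Infinite

end Run7.h77
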