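import Mathlib

/-!
# Lachlan–Woodrow for twin-closed amalgamation classes

A hereditary class of finite graphs which contains the one-vertex graph, is closed under adding
(true and false) twins of vertices and has the one-point amalgamation property for distinct
one-point types contains every finite graph.

A class is given by a predicate `Q Y G S` (the subgraph of `G` induced on the finite set `S`
belongs to the class).
-/

open scoped Classical

namespace Run7.h77.LW

/-- flip the adjacency of the pair `{x, y}`. -/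
def tog {Y : Type} (G : SimpleGraph Y) (x y : Y) : SimpleGraph Y where
  Adj a b := a ≠ b ∧ (if (a = x ∧ b = y) ∨ (a = y ∧ b = x) then ¬ G.Adj a b else G.Adj a b)
  symm := ⟨by
    intro a b ⟨h1, h2⟩
    refine ⟨h1.symm, ?_⟩
    by_cases h : (a = x ∧ b = y) ∨ (a = y ∧ b = x)
    · have h' : (b = x ∧ a = y) ∨ (b = y ∧ a = x) := by tauto
      rw [if_pos h] at h2
      rw [if_pos h', G.adj_comm]
      exact h2
    · have h' : ¬ ((b = x ∧ a = y) ∨ (b = y ∧ a = x)) := by tauto
      rw [if_neg h] at h2
      rw [if_neg h', G.adj_comm]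
      exact h2⟩
  loopless := ⟨fun a h => h.1 rfl⟩

theorem tog_other {Y : Type} (G : SimpleGraph Y) {x y a b : Y} (h : ¬ ((a = x ∧ b = y) ∨ (a = y ∧ b = x))) :
    (tog G x y).Adj a b ↔ G.Adj a b := by
  simp only [tog, if_neg h]
  exact ⟨fun h => h.2, fun h => ⟨h.ne, h⟩⟩

theorem tog_self {Y : Type} (G : SimpleGraph Y) {x y : Y} (h : x ≠ y) :
    (tog G x y).Adj x y ↔ ¬ G.Adj x y := by
  simp [tog, h]

/-- remove a vertex. -/
noncomputable def del {Y : Type} (S : Finset Y) (x : Y) : Finset Y := S.filter (fun a => a ≠ x)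

@[simp] theorem mem_del {Y : Type} {S : Finset Y} {x a : Y} : a ∈ del S x ↔ a ∈ S ∧ a ≠ x := by
  simp [del]

/-- the properties of the class. -/
structure Good (Q : ∀ (Y : Type), SimpleGraph Y → Finset Y → Prop) : Prop where
  her : ∀ {Y Z : Type} (G : SimpleGraph Y) (H : SimpleGraph Z) (S : Finset Y) (T : Finset Z)
    (f : Y → Z), (∀ a ∈ S, f a ∈ T) →
    (∀ a ∈ S, ∀ b ∈ S, a ≠ b → f a ≠ f b ∧ (H.Adj (f a) (f b) ↔ G.Adj a b)) → Q Z H T → Q Y G S
  one : ∀ {Y : Type} (G : SimpleGraph Y) (a : Y), Q Y G {a}
  tw : ∀ {Y : Type} (G : SimpleGraph Y) (S : Finset Y) (x y : Y), x ∈ S → y ∈ S → x ≠ y →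
    (∀ z ∈ S, z ≠ x → z ≠ y → (G.Adj x z ↔ G.Adj y z)) → Q Y G (del S x) → Q Y G S
  ap : ∀ {Y : Type} (G : SimpleGraph Y) (S : Finset Y) (x y : Y), x ∈ S → y ∈ S → x ≠ y →
    (∃ z ∈ S, z ≠ x ∧ z ≠ y ∧ ¬ (G.Adj x z ↔ G.Adj y z)) → Q Y G (del S x) →
    Q Y G (del S y) → Q Y G S ∨ Q Y (tog G x y) S

variable {Q : ∀ (Y : Type), SimpleGraph Y → Finset Y → Prop}

/-- a convenient form of the amalgamation property: `A` on `S₀` embeds whichever adjacency of
`x, y` is chosen. -/
theorem Good.ap' (hQ : Good Q) {Y : Type} (G : SimpleGraph Y) (S : Finset Y) {x y : Y} (hx : x ∈ S)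
    (hy : y ∈ S) (hxy : x ≠ y) (hd : ∃ z ∈ S, z ≠ x ∧ z ≠ y ∧ ¬ (G.Adj x z ↔ G.Adj y z))
    (h1 : Q Y G (del S x)) (h2 : Q Y G (del S y)) :
    ∃ H : SimpleGraph Y, (∀ a b, ¬ ((a = x ∧ b = y) ∨ (a = y ∧ b = x)) → (H.Adj a b ↔ G.Adj a b)) ∧
      Q Y H S := by
  rcases hQ.ap G S x y hx hy hxy hd h1 h2 with h | h
  · exact ⟨G, fun _ _ _ => Iff.rfl, h⟩
  · exact ⟨tog G x y, fun _ _ h => tog_other G h, h⟩

/-- the graph of the proof of `S2`. -/
def G2 {Y : Type} (G : SimpleGraph Y) (x y v : Y) : SimpleGraph (Option Y) where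
  Adj p q := match p, q with
    | some a, some b => (tog G x y).Adj a b
    | none, some b => if b = x ∨ b = y then G.Adj x y else if b = v then False else G.Adj x b
    | some a, none => if a = x ∨ a = y then G.Adj x y else if a = v then False else G.Adj x a
    | none, none => False
  symm := ⟨by
    rintro (_ | a) (_ | b) h
    · exact h
    · exact h
    · exact h
    · exact SimpleGraph.Adj.symm h⟩
  loopless := ⟨by
    rintro (_ | a) h
    · exact h
    · exact (tog G x y).loopless.irrefl a h⟩

theorem S2 (hQ : Good Q) {Y : Type} (G : SimpleGraph Y) (S : Finset Y) {x y v : Y} (hx : x ∈ S)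
    (hy : y ∈ S) (hxy : x ≠ y) (hvx : v ≠ x) (hvy : v ≠ y)
    (hag : ∀ z ∈ S, z ≠ x → z ≠ y → z ≠ v → (G.Adj x z ↔ G.Adj y z))
    (h1 : Q Y G (del S x)) (h2 : Q Y G (del S y)) : Q Y G S := by
  by_cases hv : v ∈ S ∧ ¬ (G.Adj x v ↔ G.Adj y v)
  swap
  · apply hQ.tw G S x y hx hy hxy _ h1
    intro z hz hzx hzy
    by_cases hzv : z = v
    · subst hzv; by_contra hc; exact hv ⟨hz, hc⟩
    · exact hag z hz hzx hzy hzv
  obtain ⟨hvS, hv⟩ := hv
  rcases hQ.ap G S x y hx hy hxy ⟨v, hvS, hvx, hvy, hv⟩ h1 h2 with h | htog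
  · exact h
  set H := G2 G x y v with hH
  let T : Finset (Option Y) := insert none (S.image some)
  have memT : ∀ c, some c ∈ T ↔ c ∈ S := by intro c; simp [T]
  have hHn : ∀ c, c ≠ x → c ≠ y → c ≠ v → (H.Adj none (some c) ↔ G.Adj x c) := by
    intro c h1 h2 h3
    simp [hH, G2, h1, h2, h3]
  have hHn' : ∀ c, c ≠ x → c ≠ y → c ≠ v → (H.Adj (some c) none ↔ G.Adj x c) := by
    intro c h1 h2 h3
    simp [hH, G2, h1, h2, h3]
  have hHx : H.Adj none (some x) ↔ G.Adj x y := by simp [hH, G2]
  have hHy : H.Adj none (some y) ↔ G.Adj x y := by simp [hH, G2]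
  have hHs : ∀ a b, ¬ ((a = x ∧ b = y) ∨ (a = y ∧ b = x)) → (H.Adj (some a) (some b) ↔ G.Adj a b) := by
    intro a b h
    exact tog_other G h
  -- `H - v`
  have e1 : Q _ H (del T (some v)) := by
    apply hQ.tw H _ (some x) (some y)
    · simp [T, hx, hvx.symm]
    · simp [T, hy, hvy.symm]
    · simpa using hxy
    · rintro (_ | c) hc hcx hcy
      · rw [H.adj_comm, hHx, H.adj_comm, hHy]
      · have hc' : c ∈ S ∧ c ≠ v := by simpa [T, and_comm] using hc
        have hcx' : c ≠ x := by simpa using hcx
        have hcy' : c ≠ y := by simpa using hcy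
        rw [hHs _ _ (by tauto), hHs _ _ (by tauto)]
        exact hag c hc'.1 hcx' hcy' hc'.2
    · apply hQ.tw H _ (some y) none
      · simp [T, hy, hvy.symm, hxy.symm]
      · simp [T]
      · simp
      · rintro (_ | c) hc hcx hcy
        · exact absurd rfl hcy
        · have hc' : c ≠ x ∧ c ≠ v ∧ c ∈ S := by
            have : ((c ∈ S ∧ ¬c = v) ∧ ¬c = x) := by simpa [T] using hc
            tauto
          have hcy' : c ≠ y := by simpa using hcx
          rw [hHs _ _ (by tauto), hHn c hc'.1 hcy' hc'.2.1]
          exact (hag c hc'.2.2 hc'.1 hcy' hc'.2.1).symm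
      · apply hQ.her H G _ (del S y) (fun p => p.getD x) _ _ h2
        · rintro (_ | c) hc
          · simp [hx, hxy]
          · have hc' : c ≠ y ∧ c ≠ x ∧ c ≠ v ∧ c ∈ S := by
              have : (((c ∈ S ∧ ¬c = v) ∧ ¬c = x) ∧ ¬c = y) := by simpa [T] using hc
              tauto
            simp [hc'.1, hc'.2.2.2]
        · rintro (_ | c) hc (_ | d) hd hcd
          · exact absurd rfl hcd
          · have hd' : d ≠ y ∧ d ≠ x ∧ d ≠ v ∧ d ∈ S := by
              have : (((d ∈ S ∧ ¬d = v) ∧ ¬d = x) ∧ ¬d = y) := by simpa [T] using hd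
              tauto
            refine ⟨by simpa using hd'.2.1.symm, ?_⟩
            rw [hHn d hd'.2.1 hd'.1 hd'.2.2.1]; simp
          · have hc' : c ≠ y ∧ c ≠ x ∧ c ≠ v ∧ c ∈ S := by
              have : (((c ∈ S ∧ ¬c = v) ∧ ¬c = x) ∧ ¬c = y) := by simpa [T] using hc
              tauto
            refine ⟨by simpa using hc'.2.1, ?_⟩
            rw [hHn' c hc'.2.1 hc'.1 hc'.2.2.1, G.adj_comm]; simp
          · have hc' : c ≠ y ∧ c ≠ x ∧ c ≠ v ∧ c ∈ S := by
              have : (((c ∈ S ∧ ¬c = v) ∧ ¬c = x) ∧ ¬c = y) := by simpa [T] using hc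
              tauto
            have hd' : d ≠ y ∧ d ≠ x ∧ d ≠ v ∧ d ∈ S := by
              have : (((d ∈ S ∧ ¬d = v) ∧ ¬d = x) ∧ ¬d = y) := by simpa [T] using hd
              tauto
            refine ⟨by simpa using hcd, ?_⟩
            rw [hHs _ _ (by tauto)]; simp
  have e2 : Q _ H (del T none) := by
    apply hQ.her H (tog G x y) _ S (fun p => p.getD x) _ _ htog
    · rintro (_ | c) hc
      · simp at hc
      · simpa [T] using hc
    · rintro (_ | c) hc (_ | d) hd hcd
      · simp at hc
      · simp at hc
      · simp at hd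
      · exact ⟨by simpa using hcd, Iff.rfl⟩
  obtain ⟨H', hH', hQ'⟩ := hQ.ap' H T (x := some v) (y := none) (by simp [T, hvS]) (by simp [T])
    (by simp) (by
      by_cases hc : (G.Adj v x ↔ G.Adj x y)
      · refine ⟨some y, by simp [T, hy], by simpa using hvy.symm, by simp, ?_⟩
        rw [hHs _ _ (by tauto), hHy]
        intro hc2
        apply hv
        rw [G.adj_comm x v, G.adj_comm y v, hc, hc2]
      · refine ⟨some x, by simp [T, hx], by simpa using hvx.symm, by simp, ?_⟩
        rw [hHs _ _ (by tauto), hHx]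
        exact hc) e1 e2
  have hss : ∀ a b, H'.Adj (some a) (some b) ↔ H.Adj (some a) (some b) := by
    intro a b
    exact hH' _ _ (by simp)
  by_cases hb : (H'.Adj (some v) none ↔ G.Adj y v)
  · -- `y ↦ none`
    apply hQ.her G H' S T (fun c => if c = y then none else some c) _ _ hQ'
    · intro a ha
      by_cases h : a = y
      · simp [h, T]
      · simp only [h, if_false]; exact (memT a).2 ha
    · have key : ∀ b ∈ S, b ≠ y → (H'.Adj none (some b) ↔ G.Adj y b) := by
        intro b hb' hby
        by_cases hbv : b = v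
        · rw [hbv, H'.adj_comm, hb]
        · rw [hH' _ _ (by simp [hbv])]
          by_cases hbx : b = x
          · rw [hbx, hHx, G.adj_comm]
          · rw [hHn b hbx hby hbv]
            exact hag b hb' hbx hby hbv
      intro a ha b hb' hab
      by_cases h : a = y
      · have hby : b ≠ y := fun h2 => hab (h.trans h2.symm)
        simp only [h, hby, if_true, if_false]
        exact ⟨by simp, key b hb' hby⟩
      · by_cases h2 : b = y
        · simp only [h, h2, if_true, if_false]
          refine ⟨by simp, ?_⟩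
          rw [H'.adj_comm, key a ha h, G.adj_comm]
        · simp only [h, h2, if_false]
          refine ⟨by simpa using hab, ?_⟩
          rw [hss, hHs _ _ (by tauto)]
  · -- `x ↦ none`
    have hb' : (H'.Adj (some v) none ↔ G.Adj x v) := by tauto
    apply hQ.her G H' S T (fun c => if c = x then none else some c) _ _ hQ'
    · intro a ha
      by_cases h : a = x
      · simp [h, T]
      · simp only [h, if_false]; exact (memT a).2 ha
    · have key : ∀ b ∈ S, b ≠ x → (H'.Adj none (some b) ↔ G.Adj x b) := by
        intro b _ hbx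
        by_cases hbv : b = v
        · rw [hbv, H'.adj_comm, hb']
        · rw [hH' _ _ (by simp [hbv])]
          by_cases hby : b = y
          · rw [hby, hHy]
          · rw [hHn b hbx hby hbv]
      intro a ha b hb' hab
      by_cases h : a = x
      · have hbx : b ≠ x := fun h2 => hab (h.trans h2.symm)
        simp only [h, hbx, if_true, if_false]
        exact ⟨by simp, key b hb' hbx⟩
      · by_cases h2 : b = x
        · simp only [h, h2, if_true, if_false]
          refine ⟨by simp, ?_⟩
          rw [H'.adj_comm, key a ha h, G.adj_comm]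
        · simp only [h, h2, if_false]
          refine ⟨by simpa using hab, ?_⟩
          rw [hss, hHs _ _ (by tauto)]

/-- reduction of a graph in which vertices with the same role differ at `v` only. -/
theorem red (hQ : Good Q) {Y Z : Type} {N : ℕ}
    (hN : ∀ (W : Type) (G : SimpleGraph W) (S : Finset W), S.card ≤ N → Q W G S)
    (H : SimpleGraph Z) (v : Z) (r : Z → Y) :
    ∀ (k : ℕ) (T : Finset Z), T.card = k → (T.image r).card ≤ N →
      (∀ z ∈ T, ∀ w ∈ T, z ≠ w → r z = r w → z ≠ v ∧ w ≠ v ∧
        ∀ p ∈ T, p ≠ z → p ≠ w → p ≠ v → (H.Adj z p ↔ H.Adj w p)) → Q Z H T := by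
  intro k
  induction k with
  | zero =>
    intro T hT _ _
    exact hN _ _ _ (by omega)
  | succ k ih =>
    intro T hT hc h
    by_cases hinj : ∀ z ∈ T, ∀ w ∈ T, r z = r w → z = w
    · apply hN
      rw [← Finset.card_image_of_injOn (f := r) (s := T) (fun z hz w hw hzw => hinj z hz w hw hzw)]
      exact hc
    · push Not at hinj
      obtain ⟨z, hz, w, hw, hr, hne⟩ := hinj
      obtain ⟨h1, h2, h3⟩ := h z hz w hw hne hr
      have step : ∀ a ∈ T, Q Z H (del T a) := by
        intro a ha
        apply ih
        · have : del T a = T.erase a := by ext b; simp [and_comm]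
          rw [this, Finset.card_erase_of_mem ha]; omega
        · refine le_trans (Finset.card_le_card ?_) hc
          apply Finset.image_subset_image
          intro b hb; exact (mem_del.1 hb).1
        · intro z hz w hw hne hr
          obtain ⟨h1, h2, h3⟩ := h z (mem_del.1 hz).1 w (mem_del.1 hw).1 hne hr
          exact ⟨h1, h2, fun p hp => h3 p (mem_del.1 hp).1⟩
      exact S2 hQ H T hz hw hne h1.symm h2.symm (fun p hp hpz hpw hpv => h3 p hp hpz hpw hpv)
        (step z hz) (step w hw)

/-- replace the adjacencies of `u` by the predicate `g`. -/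
def md {Y : Type} (G : SimpleGraph Y) (u : Y) (g : Y → Prop) : SimpleGraph Y where
  Adj a b := a ≠ b ∧ (if a = u then g b else if b = u then g a else G.Adj a b)
  symm := ⟨by
    intro a b ⟨h1, h2⟩
    refine ⟨h1.symm, ?_⟩
    by_cases ha : a = u
    · have hb : b ≠ u := fun h => h1 (ha.trans h.symm)
      simpa [ha, hb] using h2
    · by_cases hb : b = u
      · simpa [ha, hb] using h2
      · simp only [ha, hb, if_false] at h2 ⊢
        exact h2.symm⟩
  loopless := ⟨fun a h => h.1 rfl⟩

theorem md_self {Y : Type} (G : SimpleGraph Y) {u b : Y} (g : Y → Prop) (h : b ≠ u) :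
    (md G u g).Adj u b ↔ g b := by
  simp [md, h.symm]

theorem md_other {Y : Type} (G : SimpleGraph Y) {u a b : Y} (g : Y → Prop) (ha : a ≠ u)
    (hb : b ≠ u) : (md G u g).Adj a b ↔ G.Adj a b := by
  simp only [md, ha, hb, if_false]
  exact ⟨fun h => h.2, fun h => ⟨h.ne, h⟩⟩

/-- the doubled graph. -/
def Dbl {Y : Type} (G : SimpleGraph Y) (u u' : Y) (ε : Prop) : SimpleGraph (Y ⊕ Y) where
  Adj p q := match p, q with
    | .inl a, .inl b => G.Adj a b
    | .inl a, .inr b => if a = b then ε else G.Adj (Equiv.swap u u' a) b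
    | .inr a, .inl b => if b = a then ε else G.Adj (Equiv.swap u u' b) a
    | .inr a, .inr b => G.Adj a b
  symm := ⟨by
    rintro (a | a) (b | b) h
    · exact SimpleGraph.Adj.symm h
    · exact h
    · exact h
    · exact SimpleGraph.Adj.symm h⟩
  loopless := ⟨by
    rintro (a | a) h
    · exact G.irrefl h
    · exact G.irrefl h⟩

theorem dbl_ll {Y : Type} (G : SimpleGraph Y) (u u' : Y) (ε : Prop) (a b : Y) :
    (Dbl G u u' ε).Adj (.inl a) (.inl b) ↔ G.Adj a b := Iff.rfl

theorem dbl_rr {Y : Type} (G : SimpleGraph Y) (u u' : Y) (ε : Prop) (a b : Y) :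
    (Dbl G u u' ε).Adj (.inr a) (.inr b) ↔ G.Adj a b := Iff.rfl

theorem dbl_same {Y : Type} (G : SimpleGraph Y) (u u' : Y) (ε : Prop) (a : Y) :
    (Dbl G u u' ε).Adj (.inl a) (.inr a) ↔ ε := by simp [Dbl]

theorem dbl_u {Y : Type} (G : SimpleGraph Y) {u u' : Y} (ε : Prop) {b : Y} (h : b ≠ u) :
    (Dbl G u u' ε).Adj (.inl u) (.inr b) ↔ G.Adj u' b := by simp [Dbl, h.symm]

theorem dbl_u' {Y : Type} (G : SimpleGraph Y) {u u' : Y} (ε : Prop) {b : Y} (h : b ≠ u') :
    (Dbl G u u' ε).Adj (.inl u') (.inr b) ↔ G.Adj u b := by simp [Dbl, h.symm]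

theorem dbl_lr {Y : Type} (G : SimpleGraph Y) {u u' : Y} (ε : Prop) {a b : Y} (h : a ≠ b)
    (h1 : a ≠ u) (h2 : a ≠ u') :
    (Dbl G u u' ε).Adj (.inl a) (.inr b) ↔ G.Adj a b := by
  simp [Dbl, h, Equiv.swap_apply_of_ne_of_ne h1 h2]

/-- the doubled graph with a further twin of `u'`, which is adjacent to `x` iff `u` is. -/
def HG {Y : Type} (G : SimpleGraph Y) (u u' x : Y) (ε : Prop) : SimpleGraph (Option (Y ⊕ Y)) where
  Adj p q := match p, q with
    | some a, some b => (Dbl G u u' ε).Adj a b
    | none, some b => if b = .inl u' then False else if b = .inl x then G.Adj x u else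
        (Dbl G u u' ε).Adj (.inl u') b
    | some b, none => if b = .inl u' then False else if b = .inl x then G.Adj x u else
        (Dbl G u u' ε).Adj (.inl u') b
    | none, none => False
  symm := ⟨by
    rintro (_ | a) (_ | b) h
    · exact h
    · exact h
    · exact h
    · exact SimpleGraph.Adj.symm h⟩
  loopless := ⟨by
    rintro (_ | a) h
    · exact h
    · exact (Dbl G u u' ε).irrefl h⟩

theorem hg_ss {Y : Type} (G : SimpleGraph Y) (u u' x : Y) (ε : Prop) (a b : Y ⊕ Y) :
    (HG G u u' x ε).Adj (some a) (some b) ↔ (Dbl G u u' ε).Adj a b := Iff.rfl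

theorem hg_nx {Y : Type} (G : SimpleGraph Y) {u u' x : Y} (ε : Prop) (h : x ≠ u') :
    (HG G u u' x ε).Adj none (some (.inl x)) ↔ G.Adj x u := by simp [HG, h]

theorem hg_nu {Y : Type} (G : SimpleGraph Y) {u u' x : Y} (ε : Prop) :
    ¬ (HG G u u' x ε).Adj none (some (.inl u')) := by simp [HG]

theorem hg_n {Y : Type} (G : SimpleGraph Y) {u u' x : Y} (ε : Prop) {b : Y ⊕ Y}
    (h : b ≠ .inl u') (h2 : b ≠ .inl x) :
    (HG G u u' x ε).Adj none (some b) ↔ (Dbl G u u' ε).Adj (.inl u') b := by
  simp [HG, h, h2]

/-- the vertex set of the doubled graph. -/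
noncomputable def TD {Y : Type} (S D : Finset Y) : Finset (Y ⊕ Y) :=
  S.image Sum.inl ∪ D.image Sum.inr

@[simp] theorem mem_TD_l {Y : Type} {S D : Finset Y} {a : Y} : Sum.inl a ∈ TD S D ↔ a ∈ S := by
  simp [TD]

@[simp] theorem mem_TD_r {Y : Type} {S D : Finset Y} {a : Y} : Sum.inr a ∈ TD S D ↔ a ∈ D := by
  simp [TD]

/-- the vertex set of `HG`. -/
noncomputable def TH {Y : Type} (S D : Finset Y) : Finset (Option (Y ⊕ Y)) :=
  insert none ((TD S D).image some)

@[simp] theorem mem_TH_n {Y : Type} {S D : Finset Y} : none ∈ TH S D := by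
  simp [TH]

@[simp] theorem mem_TH_s {Y : Type} {S D : Finset Y} {a : Y ⊕ Y} : some a ∈ TH S D ↔ a ∈ TD S D := by
  simp [TH]

/-- the common step. -/
theorem core (hQ : Good Q) {Y : Type} (G : SimpleGraph Y) (S D : Finset Y) {u u' x : Y} (ε : Prop)
    (hxS : x ∈ S) (huS : u ∈ S) (huS' : u' ∈ S) (hxu : x ≠ u) (hxu' : x ≠ u') (huu : u ≠ u')
    (hD : ∀ d ∈ D, d ∈ S ∧ d ≠ x ∧ d ≠ u ∧ d ≠ u')
    (hdiff : ¬ (G.Adj x u ↔ G.Adj x u'))
    (hB : ∀ b ∈ S, b ∉ D → b ≠ x → b ≠ u → b ≠ u' → (G.Adj u b ↔ G.Adj u' b))
    (h1 : Q _ (Dbl G u u' ε) (TD (del S x) D))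
    (h2 : Q _ (HG G u u' x ε) (del (TH S D) (some (.inl u)))) : Q Y G S := by
  set H := HG G u u' x ε with hH
  have hru : ∀ d ∈ D, (Dbl G u u' ε).Adj (.inl u) (.inr d) ↔ G.Adj u' d :=
    fun d hd => dbl_u G ε (hD d hd).2.2.1
  have hru' : ∀ d ∈ D, (Dbl G u u' ε).Adj (.inl u') (.inr d) ↔ G.Adj u d :=
    fun d hd => dbl_u' G ε (hD d hd).2.2.2
  have hnx : H.Adj none (some (.inl x)) ↔ G.Adj x u := hg_nx G ε hxu'
  -- `H` minus `x`
  have e1 : Q _ H (del (TH S D) (some (.inl x))) := by
    apply hQ.tw H _ none (some (.inl u'))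
    · simp
    · simp [huS', hxu'.symm]
    · simp
    · rintro (_ | z) hz hzn hzu
      · exact absurd rfl hzn
      · have hz' : z ≠ .inl x := by simpa using (mem_del.1 hz).2
        rw [hg_n G ε (by simpa using hzu) hz', hg_ss]
    · refine hQ.her H (Dbl G u u' ε) _ _ (fun p => p.getD (.inl u)) ?_ ?_ h1
      · rintro (_ | z) hz
        · simp at hz
        · rcases z with z | z
          · simpa using hz
          · simpa using hz
      · rintro (_ | a) ha (_ | b) hb hab
        · simp at ha
        · simp at ha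
        · simp at hb
        · exact ⟨by simpa using hab, Iff.rfl⟩
  obtain ⟨H', hH', hQ'⟩ := hQ.ap' H (TH S D) (x := some (.inl x)) (y := some (.inl u))
    (by simp [hxS]) (by simp [huS]) (by simp [hxu]) (by
      by_cases hc : (G.Adj x u' ↔ G.Adj u u')
      · refine ⟨none, by simp, by simp, by simp, ?_⟩
        rw [H.adj_comm, hnx, H.adj_comm (some (.inl u)) none,
          hg_n G ε (by simp [huu]) (by simp [hxu.symm]), dbl_ll]
        intro hc2
        apply hdiff
        rw [hc, hc2, G.adj_comm]
      · refine ⟨some (.inl u'), by simp [huS'], by simp [hxu'.symm], by simp [huu.symm], ?_⟩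
        rw [hg_ss, hg_ss, dbl_ll, dbl_ll]
        exact hc) e1 h2
  have hss : ∀ a b, ¬ ((a = .inl x ∧ b = .inl u) ∨ (a = .inl u ∧ b = .inl x)) →
      (H'.Adj (some a) (some b) ↔ (Dbl G u u' ε).Adj a b) := by
    intro a b h
    rw [hH' _ _ (by simpa using h)]; rfl
  have hnn : ∀ b, H'.Adj none b ↔ H.Adj none b := by
    intro b; exact hH' _ _ (by simp)
  by_cases hb : (H'.Adj (some (.inl x)) (some (.inl u)) ↔ G.Adj x u)
  · refine hQ.her G H' S (TH S D) (fun a => some (.inl a)) (fun a ha => by simpa using ha) ?_ hQ'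
    intro a ha b hb' hab
    refine ⟨by simpa using hab, ?_⟩
    by_cases h : ((Sum.inl a : Y ⊕ Y) = .inl x ∧ (Sum.inl b : Y ⊕ Y) = .inl u) ∨
      ((Sum.inl a : Y ⊕ Y) = .inl u ∧ (Sum.inl b : Y ⊕ Y) = .inl x)
    · rcases h with ⟨h3, h4⟩ | ⟨h3, h4⟩
      · have h3' := Sum.inl_injective h3
        have h4' := Sum.inl_injective h4
        subst h3' h4'
        exact hb
      · have h3' := Sum.inl_injective h3
        have h4' := Sum.inl_injective h4
        subst h3' h4'
        rw [H'.adj_comm, hb, G.adj_comm]
    · rw [hss _ _ h, dbl_ll]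
  · have hb' : H'.Adj (some (.inl x)) (some (.inl u)) ↔ G.Adj x u' := by tauto
    let f : Y → Option (Y ⊕ Y) := fun a =>
      if a = u then none else if a = u' then some (.inl u) else if a ∈ D then some (.inr a)
        else some (.inl a)
    have hxD : x ∉ D := fun h => (hD x h).2.1 rfl
    have huD : u ∉ D := fun h => (hD u h).2.2.1 rfl
    have huD' : u' ∉ D := fun h => (hD u' h).2.2.2 rfl
    have fu : f u = none := by simp [f]
    have fu' : f u' = some (.inl u) := by simp [f, huu.symm]
    have fx : f x = some (.inl x) := by simp [f, hxu, hxu', hxD]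
    have fD : ∀ d ∈ D, f d = some (.inr d) := by
      intro d hd; simp [f, hd, (hD d hd).2.2.1, (hD d hd).2.2.2]
    have fB : ∀ b, b ∉ D → b ≠ u → b ≠ u' → f b = some (.inl b) := by
      intro b h1 h2 h3; simp [f, h1, h2, h3]
    -- adjacencies with `u`
    have ku : ∀ b ∈ S, b ≠ u → f b ≠ none ∧ (H'.Adj none (f b) ↔ G.Adj u b) := by
      intro b hbS hbu
      by_cases h1 : b = u'
      · rw [h1, fu']
        refine ⟨by simp, ?_⟩
        rw [hnn, hg_n G ε (by simp [huu]) (by simp [hxu.symm]), dbl_ll, G.adj_comm]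
      · by_cases h2 : b ∈ D
        · rw [fD b h2]
          refine ⟨by simp, ?_⟩
          rw [hnn, hg_n G ε (by simp) (by simp), hru' b h2]
        · rw [fB b h2 hbu h1]
          refine ⟨by simp, ?_⟩
          rw [hnn]
          by_cases h3 : b = x
          · rw [h3, hnx, G.adj_comm]
          · rw [hg_n G ε (by simp [h1]) (by simp [h3]), dbl_ll]
            exact (hB b hbS h2 h3 hbu h1).symm
    have ku' : ∀ b ∈ S, b ≠ u → b ≠ u' → f b ≠ some (.inl u) ∧
        (H'.Adj (some (.inl u)) (f b) ↔ G.Adj u' b) := by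
      intro b hbS hbu h1
      by_cases h2 : b ∈ D
      · rw [fD b h2]
        refine ⟨by simp, ?_⟩
        rw [hss _ _ (by simp), hru b h2]
      · rw [fB b h2 hbu h1]
        refine ⟨by simp [hbu], ?_⟩
        by_cases h3 : b = x
        · rw [h3, H'.adj_comm, hb', G.adj_comm]
        · rw [hss _ _ (by simp [h3, hbu]), dbl_ll]
          exact hB b hbS h2 h3 hbu h1
    refine hQ.her G H' S (TH S D) f ?_ ?_ hQ'
    · intro a ha
      by_cases h1 : a = u
      · rw [h1, fu]; simp
      · by_cases h2 : a = u'
        · rw [h2, fu']; simp [huS]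
        · by_cases h3 : a ∈ D
          · rw [fD a h3]; simp [h3]
          · rw [fB a h3 h1 h2]; simp [ha]
    · intro a ha b hbS hab
      by_cases h1 : a = u
      · have hbu : b ≠ u := fun h => hab (h1.trans h.symm)
        rw [h1, fu]
        exact ⟨(ku b hbS hbu).1.symm, (ku b hbS hbu).2⟩
      by_cases h1' : b = u
      · rw [h1', fu, H'.adj_comm, G.adj_comm]
        exact ku a ha h1
      by_cases h2 : a = u'
      · have hbu : b ≠ u' := fun h => hab (h2.trans h.symm)
        rw [h2, fu']
        exact ⟨(ku' b hbS h1' hbu).1.symm, (ku' b hbS h1' hbu).2⟩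
      by_cases h2' : b = u'
      · rw [h2', fu', H'.adj_comm, G.adj_comm]
        exact ku' a ha h1 h2
      by_cases h3 : a ∈ D
      · rw [fD a h3]
        by_cases h4 : b ∈ D
        · rw [fD b h4]
          refine ⟨by simpa using hab, ?_⟩
          rw [hss _ _ (by simp), dbl_rr]
        · rw [fB b h4 h1' h2']
          refine ⟨by simp, ?_⟩
          rw [hss _ _ (by simp), (Dbl G u u' ε).adj_comm, dbl_lr G ε hab.symm h1' h2', G.adj_comm]
      · rw [fB a h3 h1 h2]
        by_cases h4 : b ∈ D
        · rw [fD b h4]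
          refine ⟨by simp, ?_⟩
          rw [hss _ _ (by simp), dbl_lr G ε hab h1 h2]
        · rw [fB b h4 h1' h2']
          refine ⟨by simpa using hab, ?_⟩
          rw [hss _ _ (by simp [h1, h1']), dbl_ll]

theorem S2' (hQ : Good Q) {Y : Type} (G : SimpleGraph Y) (S : Finset Y) {x y u u' : Y}
    (hxS : x ∈ S) (hyS : y ∈ S) (huS : u ∈ S) (huS' : u' ∈ S) (hxy : x ≠ y) (hxu : x ≠ u)
    (hxu' : x ≠ u') (hyu : y ≠ u) (hyu' : y ≠ u') (huu : u ≠ u')
    (hdx : ¬ (G.Adj x u ↔ G.Adj x u')) (hdy : ¬ (G.Adj y u ↔ G.Adj y u'))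
    (hB : ∀ b ∈ S, b ≠ x → b ≠ y → b ≠ u → b ≠ u' → (G.Adj u b ↔ G.Adj u' b))
    (ha : ∀ g : Y → Prop, (∀ p ∈ S, p ≠ x → p ≠ y → p ≠ u → p ≠ u' → (g p ↔ G.Adj u p)) →
      Q Y (md G u g) (del S u'))
    (hb : Q Y G (del S x))
    (hb' : Q Y (md G y (fun p => G.Adj y (Equiv.swap u u' p))) (del S x)) : Q Y G S := by
  -- the value of `ε`
  have hε : ∃ ε : Prop, Q _ (Dbl G u u' ε) (TD (del S x) {y}) := by
    have e1 : Q _ (Dbl G u u' True) (del (TD (del S x) {y}) (.inr y)) := by
      refine hQ.her _ G _ (del S x) (Sum.elim id id) ?_ ?_ hb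
      · rintro (a | a) haT
        · have := (mem_del.1 haT).1
          simpa using this
        · have h1 := (mem_del.1 haT).1
          have h2 := (mem_del.1 haT).2
          simp only [mem_TD_r, Finset.mem_singleton] at h1
          exact absurd (by rw [h1]) h2
      · rintro (a | a) haT (b | b) hbT hab
        · exact ⟨by simpa using hab, Iff.rfl⟩
        all_goals
          exfalso
          simp only [mem_del, mem_TD_r, Finset.mem_singleton] at haT hbT
          first
          | exact hbT.2 (by rw [hbT.1])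
          | exact haT.2 (by rw [haT.1])
    have e2 : Q _ (Dbl G u u' True) (del (TD (del S x) {y}) (.inl y)) := by
      refine hQ.her _ _ _ (del S x) (Sum.elim id id) ?_ ?_ hb'
      · rintro (a | a) haT
        · have := (mem_del.1 haT).1
          simpa using this
        · have h1 := (mem_del.1 haT).1
          simp only [mem_TD_r, Finset.mem_singleton] at h1
          simp [h1, hyS, hxy.symm]
      · rintro (a | a) haT (b | b) hbT hab
        · have h1 : a ≠ y := by simpa using (mem_del.1 haT).2
          have h2 : b ≠ y := by simpa using (mem_del.1 hbT).2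
          refine ⟨by simpa using hab, ?_⟩
          simp only [Sum.elim_inl, id]
          rw [md_other G _ h1 h2, dbl_ll]
        · have h1 : a ≠ y := by simpa using (mem_del.1 haT).2
          have h2 : b = y := by simpa using (mem_del.1 hbT).1
          subst h2
          refine ⟨by simpa using h1, ?_⟩
          simp only [Sum.elim_inl, Sum.elim_inr, id]
          rw [SimpleGraph.adj_comm, md_self G _ h1, G.adj_comm]
          simp [Dbl, h1]
        · have h1 : b ≠ y := by simpa using (mem_del.1 hbT).2
          have h2 : a = y := by simpa using (mem_del.1 haT).1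
          subst h2
          refine ⟨by simpa using h1.symm, ?_⟩
          simp only [Sum.elim_inl, Sum.elim_inr, id]
          rw [md_self G _ h1, G.adj_comm]
          simp [Dbl, h1]
        · have h1 : a = y := by simpa using (mem_del.1 haT).1
          have h2 : b = y := by simpa using (mem_del.1 hbT).1
          exact absurd (by rw [h1, h2]) hab
    obtain ⟨H', hH', hQ'⟩ := hQ.ap' (Dbl G u u' True) (TD (del S x) {y}) (x := .inl y) (y := .inr y)
      (by simp [hyS, hxy.symm]) (by simp) (by simp)
      ⟨.inl u, by simp [huS, hxu.symm], by simp [hyu.symm], by simp, by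
        rw [dbl_ll, (Dbl G u u' True).adj_comm, dbl_u G _ hyu, G.adj_comm u']; exact hdy⟩ e2 e1
    refine ⟨H'.Adj (.inl y) (.inr y), ?_⟩
    refine hQ.her _ H' _ _ id (fun a ha => ha) ?_ hQ'
    rintro a haT b hbT hab
    refine ⟨hab, ?_⟩
    have key : ∀ p q : Y ⊕ Y, ¬ ((p = .inl y ∧ q = .inr y) ∨ (p = .inr y ∧ q = .inl y)) →
        p ∈ TD (del S x) {y} → q ∈ TD (del S x) {y} → p ≠ q →
        (H'.Adj p q ↔ (Dbl G u u' (H'.Adj (.inl y) (.inr y))).Adj p q) := by
      rintro (p | p) (q | q) h hp hq hpq
      · rw [hH' _ _ h]; rfl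
      · rw [hH' _ _ h]
        have h1 : p ≠ q := by
          intro h1
          have h2 : q = y := by simpa using hq
          apply h; left; rw [h1, h2]; exact ⟨rfl, rfl⟩
        simp [Dbl, h1]
      · rw [hH' _ _ h]
        have h1 : q ≠ p := by
          intro h1
          have h2 : p = y := by simpa using hp
          apply h; right; rw [h1, h2]; exact ⟨rfl, rfl⟩
        simp [Dbl, h1]
      · rw [hH' _ _ h]; rfl
    by_cases h : ((a = .inl y ∧ b = .inr y) ∨ (a = .inr y ∧ b = .inl y))
    · rcases h with ⟨h1, h2⟩ | ⟨h1, h2⟩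
      · rw [h1, h2, dbl_same]; rfl
      · rw [h1, h2, SimpleGraph.adj_comm _ (Sum.inr y), dbl_same]
        exact H'.adj_comm _ _
    · exact key a b h haT hbT hab
  obtain ⟨ε, h1⟩ := hε
  refine core hQ G S {y} ε hxS huS huS' hxu hxu' huu (by simp [hyS, hxy.symm, hyu, hyu']) hdx
    (fun b hb h1 h2 h3 h4 => hB b hb h2 (by simpa using h1) h3 h4) h1 ?_
  -- the four types
  set H := HG G u u' x ε with hH
  set T := del (TH S {y}) (some (.inl u)) with hT
  -- generic embedding: `w` plays `u'`, `z` plays `y`
  have key : ∀ w z : Option (Y ⊕ Y), (w = none ∨ w = some (.inl u')) →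
      (z = some (.inl y) ∨ z = some (.inr y)) →
      ∀ T' : Finset (Option (Y ⊕ Y)), (∀ p ∈ T', p = w ∨ p = z ∨
        ∃ a ∈ S, a ≠ u ∧ a ≠ u' ∧ a ≠ y ∧ p = some (.inl a)) → Q _ H T' := by
    intro w z hw hz T' hT'
    have hwz : w ≠ z := by
      rcases hw with rfl | rfl <;> rcases hz with rfl | rfl <;> simp [hyu'.symm]
    have hwa : ∀ a, a ≠ u' → w ≠ some (.inl a) := by
      intro a h; rcases hw with rfl | rfl <;> simp [h.symm]
    have hza : ∀ a, a ≠ y → z ≠ some (.inl a) := by
      intro a h; rcases hz with rfl | rfl <;> simp [h.symm]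
    have hza' : ∀ a ∈ S, a ≠ y → a ≠ u → a ≠ u' → (H.Adj z (some (.inl a)) ↔ G.Adj y a) := by
      intro a _ h1 h2 h3
      rcases hz with rfl | rfl
      · rfl
      · rw [hg_ss, SimpleGraph.adj_comm, dbl_lr G ε h1 h2 h3, G.adj_comm]
    have hwa' : ∀ a ∈ S, a ≠ x → a ≠ y → a ≠ u → a ≠ u' →
        (H.Adj w (some (.inl a)) ↔ G.Adj u a) := by
      intro a haS h0 h1 h2 h3
      rcases hw with rfl | rfl
      · rw [hg_n G ε (by simp [h3]) (by simp [h0]), dbl_ll]
        exact (hB a haS h0 h1 h2 h3).symm
      · rw [hg_ss, dbl_ll]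
        exact (hB a haS h0 h1 h2 h3).symm
    let g : Y → Prop := fun p => if p = y then H.Adj w z else if p = x then
      H.Adj w (some (.inl x)) else G.Adj u p
    let f : Option (Y ⊕ Y) → Y := fun p => if p = w then u else if p = z then y else
      (p.getD (.inl u)).elim id id
    have fw : f w = u := by simp [f]
    have fz : f z = y := by simp [f, hwz.symm]
    have fa : ∀ a, a ≠ u' → a ≠ y → f (some (.inl a)) = a := by
      intro a h1 h2
      simp [f, (hwa a h1).symm, (hza a h2).symm]
    -- adjacency with `w`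
    have kw : ∀ p ∈ T', p ≠ w → f p ≠ u ∧ ((md G u g).Adj u (f p) ↔ H.Adj w p) := by
      intro p hp hpw
      rcases hT' p hp with h3 | h3 | ⟨a, haS, hau, hau', hay, rfl⟩
      · exact absurd h3 hpw
      · rw [h3, fz]
        refine ⟨hyu, ?_⟩
        rw [md_self G g hyu]; simp [g]
      · rw [fa a hau' hay]
        refine ⟨hau, ?_⟩
        rw [md_self G g hau]
        by_cases hax : a = x
        · simp [g, hax, hxy]
        · simp only [g, hay, hax, if_false]
          exact (hwa' a haS hax hay hau hau').symm
    have kz : ∀ p ∈ T', p ≠ w → p ≠ z → f p ≠ y ∧ ((md G u g).Adj y (f p) ↔ H.Adj z p) := by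
      intro p hp hpw hpz
      rcases hT' p hp with h3 | h3 | ⟨a, haS, hau, hau', hay, rfl⟩
      · exact absurd h3 hpw
      · exact absurd h3 hpz
      · rw [fa a hau' hay]
        refine ⟨hay, ?_⟩
        rw [md_other G g hyu hau]
        exact (hza' a haS hay hau hau').symm
    refine hQ.her _ _ T' (del S u') f ?_ ?_ (ha g ?_)
    · intro p hp
      rcases hT' p hp with rfl | rfl | ⟨a, haS, hau, hau', hay, rfl⟩
      · rw [fw]; simp [huS, huu]
      · rw [fz]; simp [hyS, hyu']
      · rw [fa a hau' hay]; simp [haS, hau']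
    · intro p hp q hq hpq
      by_cases h1 : p = w
      · have h1' : q ≠ w := fun h => hpq (h1.trans h.symm)
        rw [h1, fw]
        exact ⟨(kw q hq h1').1.symm, (kw q hq h1').2⟩
      by_cases h2 : q = w
      · rw [h2, fw, SimpleGraph.adj_comm, H.adj_comm]
        exact kw p hp h1
      by_cases h3 : p = z
      · have h1' : q ≠ z := fun h => hpq (h3.trans h.symm)
        rw [h3, fz]
        exact ⟨(kz q hq h2 h1').1.symm, (kz q hq h2 h1').2⟩
      by_cases h4 : q = z
      · rw [h4, fz, SimpleGraph.adj_comm, H.adj_comm]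
        exact kz p hp h1 h3
      rcases hT' p hp with h5 | h5 | ⟨a, haS, hau, hau', hay, rfl⟩
      · exact absurd h5 h1
      · exact absurd h5 h3
      rcases hT' q hq with h6 | h6 | ⟨b, hbS, hbu, hbu', hby, rfl⟩
      · exact absurd h6 h2
      · exact absurd h6 h4
      rw [fa a hau' hay, fa b hbu' hby]
      refine ⟨by simpa using hpq, ?_⟩
      rw [md_other G g hau hbu]; rfl
    · intro p _ hpx hpy _ _
      simp [g, hpx, hpy]
  have memT : ∀ p ∈ T, p = none ∨ p = some (.inl u') ∨ p = some (.inl y) ∨ p = some (.inr y) ∨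
      ∃ a ∈ S, a ≠ u ∧ a ≠ u' ∧ a ≠ y ∧ p = some (.inl a) := by
    rintro (_ | p | p) hp
    · left; rfl
    · have h1 : p ∈ S := by simpa using (mem_del.1 hp).1
      have h2 : p ≠ u := by simpa using (mem_del.1 hp).2
      by_cases h3 : p = u'
      · right; left; rw [h3]
      by_cases h4 : p = y
      · right; right; left; rw [h4]
      · right; right; right; right; exact ⟨p, h1, h2, h3, h4, rfl⟩
    · have h1 : p = y := by simpa using (mem_del.1 hp).1
      right; right; right; left; rw [h1]
  -- second reduction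
  have red2 : ∀ w w', (w = none ∨ w = some (.inl u')) → (w' = none ∨ w' = some (.inl u')) →
      w ≠ w' → Q _ H (del T w') := by
    intro w w' hw hw' hne
    have hww : ∀ p, (p = none ∨ p = some (.inl u')) → p ≠ w' → p = w := by
      rcases hw with rfl | rfl <;> rcases hw' with rfl | rfl <;> simp at hne ⊢
    refine S2 hQ H (del T w') (x := some (.inl y)) (y := some (.inr y)) (v := w) ?_ ?_ (by simp)
      ?_ ?_ ?_ ?_ ?_
    · rcases hw' with rfl | rfl <;> simp [hT, hyS, hyu, hyu']
    · rcases hw' with rfl | rfl <;> simp [hT]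
    · rcases hw with rfl | rfl <;> simp [hyu'.symm]
    · rcases hw with rfl | rfl <;> simp
    · intro z hz hz1 hz2 hz3
      have hzT := (mem_del.1 hz).1
      have hzw := (mem_del.1 hz).2
      rcases memT z hzT with h | h | h | h | ⟨a, haS, hau, hau', hay, rfl⟩
      · exact absurd (hww z (Or.inl h) hzw) hz3
      · exact absurd (hww z (Or.inr h) hzw) hz3
      · exact absurd h hz1
      · exact absurd h hz2
      · rw [hg_ss, hg_ss, dbl_ll, SimpleGraph.adj_comm _ (Sum.inr y), dbl_lr G ε hay hau hau',
          G.adj_comm]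
    · apply key w (some (.inr y)) hw (Or.inr rfl)
      intro p hp
      have hp1 := (mem_del.1 hp).2
      have hp2 := (mem_del.1 (mem_del.1 hp).1).2
      rcases memT p (mem_del.1 (mem_del.1 hp).1).1 with h | h | h | h | h
      · left; exact hww p (Or.inl h) hp2
      · left; exact hww p (Or.inr h) hp2
      · exact absurd h hp1
      · right; left; exact h
      · right; right; exact h
    · apply key w (some (.inl y)) hw (Or.inl rfl)
      intro p hp
      have hp1 := (mem_del.1 hp).2
      have hp2 := (mem_del.1 (mem_del.1 hp).1).2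
      rcases memT p (mem_del.1 (mem_del.1 hp).1).1 with h | h | h | h | h
      · left; exact hww p (Or.inl h) hp2
      · left; exact hww p (Or.inr h) hp2
      · right; left; exact h
      · exact absurd h hp1
      · right; right; exact h
  refine S2 hQ H T (x := none) (y := some (.inl u')) (v := some (.inl x)) (by simp [hT])
    (by simp [hT, huS', huu.symm]) (by simp) (by simp) (by simp [hxu']) ?_
    (red2 (some (.inl u')) none (Or.inr rfl) (Or.inl rfl) (by simp))
    (red2 none (some (.inl u')) (Or.inl rfl) (Or.inr rfl) (by simp))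
  rintro (_ | z) _ h1 h2 h3
  · exact absurd rfl h1
  · rw [hg_n G ε (by simpa using h2) (by simpa using h3), hg_ss]

theorem S3 (hQ : Good Q) {N : ℕ}
    (hN : ∀ (W : Type) (G : SimpleGraph W) (S : Finset W), S.card ≤ N → Q W G S) {Y : Type}
    (S : Finset Y) {u u' : Y} (ε : Prop) (huS : u ∈ S) (huS' : u' ∈ S) (huu : u ≠ u')
    (hSN : S.card ≤ N) :
    ∀ (k : ℕ) (D : Finset Y), D.card = k → ∀ G : SimpleGraph Y,
      (∀ d ∈ D, d ∈ S ∧ d ≠ u ∧ d ≠ u' ∧ ¬ (G.Adj d u ↔ G.Adj d u')) →
      Q _ (Dbl G u u' ε) (TD S D) := by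
  intro k
  induction k with
  | zero =>
    intro D hD G _
    have hD0 : D = ∅ := Finset.card_eq_zero.1 hD
    subst hD0
    refine hQ.her _ G _ S (Sum.elim id id) ?_ ?_ (hN _ _ _ hSN)
    · rintro (a | a) ha
      · simpa using ha
      · simp at ha
    · rintro (a | a) ha (b | b) hb hab
      · exact ⟨by simpa using hab, Iff.rfl⟩
      all_goals
        exfalso
        simp at ha hb
  | succ k ih =>
    intro D hD G hdist
    obtain ⟨d, hd⟩ : D.Nonempty := Finset.card_pos.1 (by omega)
    obtain ⟨hdS, hdu, hdu', hdd⟩ := hdist d hd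
    set H := Dbl G u u' ε with hH
    have hdd2 : ¬ (G.Adj u d ↔ G.Adj u' d) := by
      rw [G.adj_comm u d, G.adj_comm u' d]; exact hdd
    refine S2' hQ H (TD S D) (x := .inl u) (y := .inl u') (u := .inl d) (u' := .inr d)
      (by simpa using huS) (by simpa using huS') (by simpa using hdS) (by simpa using hd)
      (by simpa using huu) (by simpa using hdu.symm) (by simp) (by simpa using hdu'.symm) (by simp)
      (by simp) ?_ ?_ ?_ ?_ ?_ ?_
    · rw [dbl_ll, dbl_u G ε hdu]; exact hdd2
    · rw [dbl_ll, dbl_u' G ε hdu']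
      intro h; exact hdd2 h.symm
    · rintro (b | b) hb h1 h2 h3 h4
      · have h1' : b ≠ u := by simpa using h1
        have h2' : b ≠ u' := by simpa using h2
        have h3' : b ≠ d := by simpa using h3
        rw [dbl_ll, H.adj_comm (.inr d), dbl_lr G ε h3' h1' h2', G.adj_comm]
      · have h4' : b ≠ d := by simpa using h4
        rw [dbl_rr, dbl_lr G ε h4'.symm hdu hdu']
    · intro g hg
      have key := ih (del D d) (by
        have : del D d = D.erase d := by ext b; simp [and_comm]
        rw [this, Finset.card_erase_of_mem hd]; omega) (md G d (fun p => g (.inl p))) (by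
        intro e he
        obtain ⟨heD, hed⟩ := mem_del.1 he
        obtain ⟨h1, h2, h3, h4⟩ := hdist e heD
        refine ⟨h1, h2, h3, ?_⟩
        rw [md_other G _ hed hdu.symm, md_other G _ hed hdu'.symm]
        exact h4)
      refine hQ.her _ _ _ _ id ?_ ?_ key
      · rintro (a | a) ha
        · simpa using (mem_del.1 ha).1
        · have h1 := (mem_del.1 ha).1
          have h2 := (mem_del.1 ha).2
          simp only [mem_TD_r] at h1
          simp only [id, mem_TD_r, mem_del]
          exact ⟨h1, by simpa using h2⟩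
      · -- adjacency
        have kd : ∀ q ∈ del (TD S D) (.inr d), q ≠ .inl d →
            ((Dbl (md G d (fun p => g (.inl p))) u u' ε).Adj (.inl d) q ↔
              (md H (.inl d) g).Adj (.inl d) q) := by
          rintro (q | q) hq hqd
          · have hqd' : q ≠ d := by simpa using hqd
            rw [dbl_ll, md_self G _ hqd', md_self H _ hqd]
          · have hqD : q ∈ D := by simpa using (mem_del.1 hq).1
            have hqd' : q ≠ d := by simpa using (mem_del.1 hq).2
            obtain ⟨hqS, hqu, hqu', -⟩ := hdist q hqD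
            rw [dbl_lr _ ε hqd'.symm hdu hdu', md_self G _ hqd', md_self H _ hqd]
            rw [hg (.inl q) (by simpa using hqS) (by simpa using hqu) (by simpa using hqu')
              (by simpa using hqd') (by simp), dbl_ll]
            rw [hg (.inr q) (by simpa using hqD) (by simp) (by simp) (by simp)
              (by simpa using hqd'), dbl_lr G ε hqd'.symm hdu hdu']
        intro p hp q hq hpq
        refine ⟨hpq, ?_⟩
        simp only [id]
        by_cases h1 : p = .inl d
        · subst h1
          exact kd q hq (Ne.symm hpq)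
        by_cases h2 : q = .inl d
        · subst h2
          rw [SimpleGraph.adj_comm, SimpleGraph.adj_comm _ p]
          exact kd p hp hpq
        rw [md_other H _ h1 h2]
        rcases p with p | p <;> rcases q with q | q
        · rw [dbl_ll, dbl_ll, md_other G _ (by simpa using h1) (by simpa using h2)]
        · have hqd' : q ≠ d := by simpa using (mem_del.1 hq).2
          have hpd' : p ≠ d := by simpa using h1
          by_cases hpq' : p = q
          · subst hpq'
            rw [dbl_same, dbl_same]
          · simp only [hH, Dbl, hpq', if_false]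
            rw [md_other G _ _ hqd']
            intro h
            rw [Equiv.swap_apply_eq_iff, Equiv.swap_apply_of_ne_of_ne hdu hdu'] at h
            exact hpd' h
        · have hpd' : p ≠ d := by simpa using (mem_del.1 hp).2
          have hqd' : q ≠ d := by simpa using h2
          by_cases hpq' : q = p
          · subst hpq'
            rw [SimpleGraph.adj_comm, dbl_same, SimpleGraph.adj_comm, dbl_same]
          · simp only [hH, Dbl, hpq', if_false]
            rw [md_other G _ _ hpd']
            intro h
            rw [Equiv.swap_apply_eq_iff, Equiv.swap_apply_of_ne_of_ne hdu hdu'] at h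
            exact hqd' h
        · have hpd' : p ≠ d := by simpa using (mem_del.1 hp).2
          have hqd' : q ≠ d := by simpa using (mem_del.1 hq).2
          rw [dbl_rr, dbl_rr, md_other G _ hpd' hqd']
    all_goals
      have gen : ∀ K : SimpleGraph (Y ⊕ Y), (∀ p q, p ≠ .inl u' → q ≠ .inl u' →
          (K.Adj p q ↔ H.Adj p q)) → Q _ K (del (TD S D) (.inl u)) := by
        intro K hK
        refine red hQ hN K (.inl u') (Sum.elim id id) _ (del (TD S D) (.inl u)) rfl ?_ ?_
        · refine le_trans (Finset.card_le_card ?_) hSN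
          intro a ha
          obtain ⟨p, hp, rfl⟩ := Finset.mem_image.1 ha
          rcases p with p | p
          · simpa using (mem_del.1 hp).1
          · have : p ∈ D := by simpa using (mem_del.1 hp).1
            exact (hdist p this).1
        · have two : ∀ e ∈ D, (∀ p ∈ del (TD S D) (.inl u), p ≠ .inl e → p ≠ .inr e →
              p ≠ .inl u' → (K.Adj (.inl e) p ↔ K.Adj (.inr e) p)) := by
            intro e he p hp h1 h2 h3
            obtain ⟨heS, heu, heu', -⟩ := hdist e he
            rw [hK _ _ (by simpa using heu') h3, hK _ _ (by simp) h3]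
            rcases p with p | p
            · have hpu : p ≠ u := by simpa using (mem_del.1 hp).2
              have hpu' : p ≠ u' := by simpa using h3
              have hpe : p ≠ e := by simpa using h1
              rw [dbl_ll, H.adj_comm (.inr e), dbl_lr G ε hpe hpu hpu', G.adj_comm]
            · have hpe : p ≠ e := by simpa using h2
              rw [dbl_rr, dbl_lr G ε hpe.symm heu heu']
          rintro (z | z) hz (w | w) hw hzw hr
          · exact absurd (by simpa using hr) (by simpa using hzw)
          · have hr' : z = w := by simpa using hr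
            subst hr'
            have hzD : z ∈ D := by simpa using (mem_del.1 hw).1
            refine ⟨by simpa using (hdist z hzD).2.2.1, by simp, ?_⟩
            exact two z hzD
          · have hr' : z = w := by simpa using hr
            subst hr'
            have hzD : z ∈ D := by simpa using (mem_del.1 hz).1
            refine ⟨by simp, by simpa using (hdist z hzD).2.2.1, ?_⟩
            intro p hp h1 h2 h3
            exact (two z hzD p hp h2 h1 h3).symm
          · exact absurd (by simpa using hr) (by simpa using hzw)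
    · exact gen H (fun _ _ _ _ => Iff.rfl)
    · exact gen _ (fun p q hp hq => md_other H _ hp hq)

/-- **Lachlan–Woodrow for twin-closed classes**: such a class contains every finite graph. -/
theorem all (hQ : Good Q) : ∀ (N : ℕ) (W : Type) (G : SimpleGraph W) (S : Finset W),
    S.card ≤ N → Q W G S := by
  have h0 : ∀ (W : Type) (G : SimpleGraph W), Q W G ∅ := by
    intro W G
    exact hQ.her G (⊥ : SimpleGraph Unit) ∅ {()} (fun _ => ()) (by simp) (by simp) (hQ.one _ _)
  intro N
  induction N with
  | zero =>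
    intro W G S hS
    have : S = ∅ := Finset.card_eq_zero.1 (by omega)
    subst this; exact h0 W G
  | succ N ih =>
    intro Y G S hS
    rcases Nat.lt_or_ge S.card (N + 1) with h | h
    · exact ih Y G S (by omega)
    have hcard : S.card = N + 1 := le_antisymm hS h
    by_cases h1 : S.card ≤ 1
    · obtain ⟨a, ha⟩ := Finset.card_eq_one.1 (by omega : S.card = 1)
      rw [ha]; exact hQ.one G a
    obtain ⟨u, huS, u', huS', huu⟩ := Finset.one_lt_card.1 (by omega : 1 < S.card)
    have hdel : ∀ a ∈ S, (del S a).card ≤ N := by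
      intro a ha
      have : del S a = S.erase a := by ext b; simp [and_comm]
      rw [this, Finset.card_erase_of_mem ha]; omega
    by_cases htw : ∀ z ∈ S, z ≠ u → z ≠ u' → (G.Adj u z ↔ G.Adj u' z)
    · exact hQ.tw G S u u' huS huS' huu htw (ih _ _ _ (hdel u huS))
    push Not at htw
    obtain ⟨x, hxS, hxu, hxu', hdiff⟩ := htw
    have hdiff' : ¬ (G.Adj x u ↔ G.Adj x u') := by
      rw [G.adj_comm x u, G.adj_comm x u']
      rcases hdiff with h | h <;> tauto
    let D : Finset Y := S.filter (fun d => d ≠ x ∧ d ≠ u ∧ d ≠ u' ∧ ¬ (G.Adj d u ↔ G.Adj d u'))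
    have hD : ∀ d ∈ D, d ∈ S ∧ d ≠ x ∧ d ≠ u ∧ d ≠ u' := by
      intro d hd
      have := (Finset.mem_filter.1 hd)
      exact ⟨this.1, this.2.1, this.2.2.1, this.2.2.2.1⟩
    refine core hQ G S D True hxS huS huS' hxu hxu' huu hD hdiff' ?_ ?_ ?_
    · intro b hb hbD hbx hbu hbu'
      by_contra hc
      apply hbD
      refine Finset.mem_filter.2 ⟨hb, hbx, hbu, hbu', ?_⟩
      rw [G.adj_comm b u, G.adj_comm b u']; exact hc
    · refine S3 hQ ih (del S x) True (by simp [huS, hxu.symm]) (by simp [huS', hxu'.symm]) huu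
        (hdel x hxS) _ D rfl G ?_
      intro d hd
      have := (Finset.mem_filter.1 hd)
      refine ⟨by simp [this.1, this.2.1], this.2.2.1, this.2.2.2.1, this.2.2.2.2⟩
    · set H := HG G u u' x True with hH
      set T := del (TH S D) (some (.inl u)) with hT
      let r : Option (Y ⊕ Y) → Y := fun p => (p.getD (.inl u')).elim id id
      have rim : ∀ p ∈ T, r p ∈ del S u := by
        rintro (_ | p | p) hp
        · simp [r, huS', huu.symm]
        · have h1 : p ∈ S := by simpa using (mem_del.1 hp).1
          have h2 : p ≠ u := by simpa using (mem_del.1 hp).2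
          simp [r, h1, h2]
        · have h1 : p ∈ D := by simpa using (mem_del.1 hp).1
          have h2 := hD p h1
          simp [r, h2.1, h2.2.2.1]
      -- the pairs `d, d₂` agree except at `u'` and its twin
      have two : ∀ e ∈ D, ∀ p ∈ T, p ≠ some (.inl e) → p ≠ some (.inr e) →
          p ≠ some (.inl u') → p ≠ none → (H.Adj (some (.inl e)) p ↔ H.Adj (some (.inr e)) p) := by
        rintro e he (_ | p | p) hp h1 h2 h3 h4
        · exact absurd rfl h4
        · have hpu : p ≠ u := by simpa using (mem_del.1 hp).2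
          have hpu' : p ≠ u' := by simpa using h3
          have hpe : p ≠ e := by simpa using h1
          rw [hg_ss, hg_ss, dbl_ll, SimpleGraph.adj_comm _ (Sum.inr e), dbl_lr G _ hpe hpu hpu',
            G.adj_comm]
        · have hpe : p ≠ e := by simpa using h2
          obtain ⟨-, -, heu, heu'⟩ := hD e he
          rw [hg_ss, hg_ss, dbl_rr, dbl_lr G _ hpe.symm heu heu']
      have gen : ∀ w w', (w = none ∨ w = some (.inl u')) → (w' = none ∨ w' = some (.inl u')) →
          w ≠ w' → Q _ H (del T w') := by
        intro w w' hw hw' hne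
        have hww : ∀ p, (p = none ∨ p = some (.inl u')) → p ≠ w' → p = w := by
          rcases hw with rfl | rfl <;> rcases hw' with rfl | rfl <;> simp at hne ⊢
        have hrw : ∀ p, (p = none ∨ p = some (.inl u')) → r p = u' := by
          rintro p (rfl | rfl) <;> simp [r]
        refine red hQ ih H w r _ (del T w') rfl ?_ ?_
        · refine le_trans (Finset.card_le_card ?_) (hdel u huS)
          intro a ha
          obtain ⟨p, hp, rfl⟩ := Finset.mem_image.1 ha
          exact rim p (mem_del.1 hp).1
        · have aux : ∀ e ∈ D, ∀ p ∈ del T w', p ≠ some (.inl e) → p ≠ some (.inr e) → p ≠ w →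
              (H.Adj (some (.inl e)) p ↔ H.Adj (some (.inr e)) p) := by
            intro e he p hp h1 h2 h3
            have hpw := (mem_del.1 hp).2
            refine two e he p (mem_del.1 hp).1 h1 h2 ?_ ?_
            · intro h4; exact h3 (hww p (Or.inr h4) hpw)
            · intro h4; exact h3 (hww p (Or.inl h4) hpw)
          have hwl : ∀ e ∈ D, some (.inl e) ≠ w := by
            intro e he h
            have := (hD e he).2.2.2
            rcases hw with rfl | rfl
            · simp at h
            · exact this (by simpa using h)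
          have hwr : ∀ e, (some (.inr e) : Option (Y ⊕ Y)) ≠ w := by
            intro e h
            rcases hw with rfl | rfl <;> simp at h
          -- an element of role `u'` is `w`
          have uniq : ∀ z ∈ del T w', ∀ q ∈ del T w', z ≠ q → r z = r q →
              ∃ e ∈ D, (z = some (.inl e) ∧ q = some (.inr e)) ∨
                (z = some (.inr e) ∧ q = some (.inl e)) := by
            intro z hz q hq hzq hr
            have hzT := (mem_del.1 hz).1
            have hqT := (mem_del.1 hq).1
            have hzw := (mem_del.1 hz).2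
            have hqw := (mem_del.1 hq).2
            have cls : ∀ p ∈ T, (p = none ∨ p = some (.inl u')) ∨
                (∃ a, a ≠ u' ∧ p = some (.inl a)) ∨ (∃ a ∈ D, p = some (.inr a)) := by
              rintro (_ | p | p) hp
              · left; left; rfl
              · by_cases h : p = u'
                · left; right; rw [h]
                · right; left; exact ⟨p, h, rfl⟩
              · right; right
                exact ⟨p, by simpa using (mem_del.1 hp).1, rfl⟩
            have hne' : ∀ p ∈ T, r p = u' → (p = none ∨ p = some (.inl u')) := by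
              intro p hp hrp
              rcases cls p hp with h | ⟨a, ha, rfl⟩ | ⟨a, ha, rfl⟩
              · exact h
              · exact absurd (by simpa [r] using hrp) ha
              · exact absurd (by simpa [r] using hrp) (hD a ha).2.2.2
            rcases cls z hzT with h | ⟨a, ha, rfl⟩ | ⟨a, ha, rfl⟩
            · have h2 := hne' q hqT (by rw [← hr]; exact hrw z h)
              exact absurd ((hww z h hzw).trans (hww q h2 hqw).symm) hzq
            · rcases cls q hqT with h | ⟨b, hb, rfl⟩ | ⟨b, hb, rfl⟩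
              · have h2 := hne' _ hzT (by rw [hr]; exact hrw q h)
                exact absurd ((hww _ h2 hzw).trans (hww q h hqw).symm) hzq
              · have : a = b := by simpa [r] using hr
                exact absurd (by rw [this]) hzq
              · have : a = b := by simpa [r] using hr
                subst this
                exact ⟨a, hb, Or.inl ⟨rfl, rfl⟩⟩
            · rcases cls q hqT with h | ⟨b, hb, rfl⟩ | ⟨b, hb, rfl⟩
              · have h2 := hne' _ hzT (by rw [hr]; exact hrw q h)
                exact absurd ((hww _ h2 hzw).trans (hww q h hqw).symm) hzq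
              · have : a = b := by simpa [r] using hr
                subst this
                exact ⟨a, ha, Or.inr ⟨rfl, rfl⟩⟩
              · have : a = b := by simpa [r] using hr
                exact absurd (by rw [this]) hzq
          intro z hz q hq hzq hr
          obtain ⟨e, he, h | h⟩ := uniq z hz q hq hzq hr
          · obtain ⟨rfl, rfl⟩ := h
            exact ⟨hwl e he, hwr e, fun p hp h1 h2 h3 => aux e he p hp h1 h2 h3⟩
          · obtain ⟨rfl, rfl⟩ := h
            exact ⟨hwr e, hwl e he, fun p hp h1 h2 h3 => (aux e he p hp h2 h1 h3).symm⟩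
      refine S2 hQ H T (x := none) (y := some (.inl u')) (v := some (.inl x)) (by simp [hT])
        (by simp [hT, huS', huu.symm]) (by simp) (by simp) (by simp [hxu']) ?_
        (gen (some (.inl u')) none (Or.inr rfl) (Or.inl rfl) (by simp))
        (gen none (some (.inl u')) (Or.inl rfl) (Or.inr rfl) (by simp))
      rintro (_ | z) _ h1 h2 h3
      · exact absurd rfl h1
      · rw [hg_n G _ (by simpa using h2) (by simpa using h3), hg_ss]

theorem all' (hQ : Good Q) (W : Type) (G : SimpleGraph W) (S : Finset W) : Q W G S :=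
  all hQ S.card W G S le_rfl

end Run7.h77.LW
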