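import Pool.Agent.Run7.h901.Basics
import Pool.Agent.Run7.h901.Cog
import Pool.Agent.Run7.h77.LWtwin

/-!
Amalgamation of blow-ups in a set-homogeneous graph.
-/

open scoped Classical

namespace Run7.h77.BL

open Run7.h901 Run7.h77.LW

universe u v w
variable {V : Type u} {H : SimpleGraph V}

/-- the class of `v` with respect to adjacent twins. -/
def TC {α : Type v} (A : SimpleGraph α) (v : α) : Set α :=
  {w | w = v ∨ (A.Adj v w ∧ ∀ u, u ≠ v → u ≠ w → (A.Adj v u ↔ A.Adj w u))}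

/-- all classes of adjacent twins have size `m`, no vertex is adjacent to all the others. -/
def Uni {α : Type v} (A : SimpleGraph α) (m : ℕ) : Prop :=
  (∀ v, (TC A v).ncard = m) ∧ ∀ v, ∃ w, w ≠ v ∧ ¬ A.Adj v w

/-- the families of finite graphs which can be used for blow-ups. -/
structure Fml {M : Type w} (ty : M → Type) (gr : ∀ m, SimpleGraph (ty m)) : Prop where
  fin : ∀ m, Finite (ty m)
  ne : ∀ m, Nonempty (ty m)
  dir : ∀ a b, ∃ c, Nonempty (gr a ↪g gr c) ∧ Nonempty (gr b ↪g gr c)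
  ram : ∀ a, ∃ b, ∀ χ : ty b → Prop, ∃ e : gr a ↪g gr b, (∀ v, χ (e v)) ∨ (∀ v, ¬ χ (e v))
  uni : ∀ a, ∃ k, ∀ m, k ≤ m → ∃ b, Nonempty (gr a ↪g gr b) ∧ Uni (gr b) m

variable {M : Type w} {ty : M → Type} {gr : ∀ m, SimpleGraph (ty m)}

/-- a copy in `H` of the blow-up of the graph induced by `G` on `S` by the graphs `gr (c y)`. -/
def Blow (gr : ∀ m, SimpleGraph (ty m)) (H : SimpleGraph V) {Y : Type} (G : SimpleGraph Y)
    (S : Finset Y) (c : Y → M) : Prop :=
  ∃ f : (y : Y) → ty (c y) → V,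
    (∀ y ∈ S, ∀ a b, f y a = f y b → a = b) ∧
    (∀ y ∈ S, ∀ a b, H.Adj (f y a) (f y b) ↔ (gr (c y)).Adj a b) ∧
    (∀ y ∈ S, ∀ z ∈ S, y ≠ z → ∀ a b, f y a ≠ f z b ∧ (H.Adj (f y a) (f z b) ↔ G.Adj y z))

/-- the class of graphs with all blow-ups. -/
def QB (gr : ∀ m, SimpleGraph (ty m)) (H : SimpleGraph V) (Y : Type) (G : SimpleGraph Y)
    (S : Finset Y) : Prop := ∀ c : Y → M, Blow gr H G S c

theorem Blow.mono {Y : Type} {G : SimpleGraph Y} {S : Finset Y} {c c' : Y → M}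
    (h : Blow gr H G S c') (he : ∀ y, Nonempty (gr (c y) ↪g gr (c' y))) : Blow gr H G S c := by
  obtain ⟨f, h1, h2, h3⟩ := h
  have he' : ∀ y, ∃ _ : gr (c y) ↪g gr (c' y), True := fun y => ⟨(he y).some, trivial⟩
  choose e _ using he'
  refine ⟨fun y a => f y (e y a), ?_, ?_, ?_⟩
  · intro y hy a b hab
    exact (e y).injective (h1 y hy _ _ hab)
  · intro y hy a b
    rw [h2 y hy]
    exact (e y).map_adj_iff
  · intro y hy z hz hyz a b
    exact h3 y hy z hz hyz _ _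

/-- Ramsey for finitely many colours. -/
theorem Fml.ramK (hF : Fml ty gr) (n : ℕ) : ∀ a : M, ∃ b, ∀ χ : ty b → Fin n → Prop,
    ∃ e : gr a ↪g gr b, ∀ v w i, χ (e v) i ↔ χ (e w) i := by
  induction n with
  | zero => exact fun a => ⟨a, fun χ => ⟨SimpleGraph.Embedding.refl, fun v w i => i.elim0⟩⟩
  | succ n ih =>
    intro a
    obtain ⟨b, hb⟩ := ih a
    obtain ⟨c, hc⟩ := hF.ram b
    refine ⟨c, fun χ => ?_⟩
    obtain ⟨e, he⟩ := hc (fun v => χ v (Fin.last n))
    obtain ⟨e', he'⟩ := hb (fun v i => χ (e v) i.castSucc)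
    refine ⟨e'.trans e, fun v w i => ?_⟩
    simp only [RelEmbedding.coe_trans, Function.comp_apply]
    refine Fin.lastCases ?_ (fun j => ?_) i
    · rcases he with he | he
      · exact ⟨fun _ => he _, fun _ => he _⟩
      · exact ⟨fun h => absurd h (he _), fun h => absurd h (he _)⟩
    · exact he' v w j

theorem Fml.ramT (hF : Fml ty gr) (κ : Type v) [Finite κ] (a : M) :
    ∃ b, ∀ χ : ty b → κ → Prop,
    ∃ e : gr a ↪g gr b, ∀ v w i, χ (e v) i ↔ χ (e w) i := by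
  obtain ⟨b, hb⟩ := hF.ramK (Nat.card κ) a
  refine ⟨b, fun χ => ?_⟩
  let en : κ ≃ Fin (Nat.card κ) := Finite.equivFin κ
  obtain ⟨e, he⟩ := hb (fun v i => χ v (en.symm i))
  refine ⟨e, fun v w i => ?_⟩
  have := he v w (en i)
  simpa using this

/-- the twin classes in a blow-up. -/
theorem TC_sigma {R : Type} {t : R → Type} (A : ∀ r, SimpleGraph (t r))
    (B : SimpleGraph (Σ r, t r)) (hB1 : ∀ r a b, B.Adj ⟨r, a⟩ ⟨r, b⟩ ↔ (A r).Adj a b)
    (E : R → R → Prop)
    (hB2 : ∀ r s a b, r ≠ s → (B.Adj ⟨r, a⟩ ⟨s, b⟩ ↔ E r s))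
    (hA : ∀ r, ∀ v, ∃ w, w ≠ v ∧ ¬ (A r).Adj v w) (r : R) (v : t r) :
    TC B ⟨r, v⟩ = (fun w => (⟨r, w⟩ : Σ r, t r)) '' TC (A r) v := by
  ext ⟨s, w⟩
  constructor
  · intro h
    have hrs : s = r := by
      by_contra hne
      rcases h with h | ⟨h1, h2⟩
      · exact hne (congrArg Sigma.fst h)
      · obtain ⟨x, hx, hvx⟩ := hA r v
        have h3 := h2 ⟨r, x⟩ (by
          intro he
          rw [Sigma.mk.injEq] at he
          exact hx (eq_of_heq he.2)) (by
          intro he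
          exact hne (congrArg Sigma.fst he).symm)
        rw [hB1, B.adj_comm ⟨s, w⟩, hB2 _ _ _ _ (Ne.symm hne)] at h3
        rw [hB2 _ _ _ _ (Ne.symm hne)] at h1
        exact hvx (h3.2 h1)
    subst hrs
    refine ⟨w, ?_, rfl⟩
    rcases h with h | ⟨h1, h2⟩
    · rw [Sigma.mk.injEq] at h
      exact Or.inl (eq_of_heq h.2)
    · refine Or.inr ⟨(hB1 _ _ _).1 h1, fun x hx1 hx2 => ?_⟩
      have h3 := h2 ⟨s, x⟩ (by
          intro he
          rw [Sigma.mk.injEq] at he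
          exact hx1 (eq_of_heq he.2)) (by
          intro he
          rw [Sigma.mk.injEq] at he
          exact hx2 (eq_of_heq he.2))
      rwa [hB1, hB1] at h3
  · rintro ⟨w', hw', he⟩
    rw [← he]
    rcases hw' with rfl | ⟨h1, h2⟩
    · exact Or.inl rfl
    · refine Or.inr ⟨(hB1 _ _ _).2 h1, ?_⟩
      rintro ⟨x, y⟩ hx1 hx2
      by_cases hxr : x = r
      · subst hxr
        rw [hB1, hB1]
        exact h2 y (fun h => hx1 (by rw [h])) (fun h => hx2 (by rw [h]))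
      · rw [hB2 _ _ _ _ (Ne.symm hxr), hB2 _ _ _ _ (Ne.symm hxr)]

/-- twin classes are preserved by automorphisms. -/
theorem TC_perm {α : Type v} (B : SimpleGraph α) (σ : Equiv.Perm α)
    (hσ : ∀ a b, B.Adj (σ a) (σ b) ↔ B.Adj a b) (a : α) : TC B (σ a) = σ '' TC B a := by
  ext w
  constructor
  · intro h
    refine ⟨σ.symm w, ?_, by simp⟩
    rcases h with rfl | ⟨h1, h2⟩
    · left; simp
    · right
      refine ⟨?_, fun x hx1 hx2 => ?_⟩
      · rw [← hσ]; simpa using h1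
      · have := h2 (σ x) (fun h => hx1 (σ.injective h)) (fun h => hx2 (by rw [← h]; simp))
        rw [hσ, ← hσ (σ.symm w), Equiv.apply_symm_apply] at *
        exact this
  · rintro ⟨w, h, rfl⟩
    rcases h with rfl | ⟨h1, h2⟩
    · left; rfl
    · right
      refine ⟨(hσ _ _).2 h1, fun x hx1 hx2 => ?_⟩
      have := h2 (σ.symm x) (fun h => hx1 (by rw [← h]; simp)) (fun h => hx2 (by rw [← h]; simp))
      rw [← hσ, ← hσ w] at this
      simpa using this

theorem ap_single (hH : SetHomogeneous H) (hF : Fml ty gr) {Y : Type} (G : SimpleGraph Y)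
    (S : Finset Y) (x y : Y) (hx : x ∈ S) (hy : y ∈ S) (hxy : x ≠ y)
    (hd : ∃ z ∈ S, z ≠ x ∧ z ≠ y ∧ ¬ (G.Adj x z ↔ G.Adj y z)) (h1 : QB gr H Y G (del S x))
    (h2 : QB gr H Y G (del S y)) (c : Y → M) :
    Blow gr H G S c ∨ Blow gr H (tog G x y) S c := by
  -- ranks
  obtain ⟨r, hr⟩ : ∃ r : Y → ℕ, ∀ a ∈ S, ∀ b ∈ S, r a = r b → a = b := by
    refine ⟨fun a => if h : a ∈ S then (S.equivFin ⟨a, h⟩ : ℕ) else 0, fun a ha b hb hab => ?_⟩
    simp only [ha, hb, dif_pos] at hab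
    have := S.equivFin.injective (Fin.ext hab)
    exact congrArg Subtype.val this
  choose k hk using hF.uni
  have hN : ∀ a, ∃ b, Nonempty (gr (c a) ↪g gr b) ∧
      (a ∈ S → Uni (gr b) (S.sup (fun a => k (c a)) + r a)) := by
    intro a
    by_cases ha : a ∈ S
    · obtain ⟨b, hb1, hb2⟩ := hk (c a) (S.sup (fun a => k (c a)) + r a)
        (le_add_right (Finset.le_sup (f := fun a => k (c a)) ha))
      exact ⟨b, hb1, fun _ => hb2⟩
    · exact ⟨c a, ⟨SimpleGraph.Embedding.refl⟩, fun h => absurd h ha⟩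
  generalize S.sup (fun a => k (c a)) = K at hN
  choose N hN1 hN2 using hN
  obtain ⟨b_y, hby⟩ := hF.ram (c y)
  have := hF.fin b_y
  obtain ⟨b_x, hbx⟩ := hF.ramT (ty b_y) (c x)
  obtain ⟨c', e1, e2, e3⟩ : ∃ c' : Y → M, c' x = b_x ∧ c' y = b_y ∧
      ∀ a, a ≠ x → a ≠ y → c' a = N a := by
    refine ⟨fun a => if a = x then b_x else if a = y then b_y else N a, by simp, ?_, ?_⟩
    · simp [hxy.symm]
    · intro a h1 h2; simp [h1, h2]
  subst e1
  subst e2
  have hfin := hF.fin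
  obtain ⟨f1, p1, p2, p3⟩ := h2 c'
  obtain ⟨f2, q1, q2, q3⟩ := h1 c'
  let R : Type := {a : Y // a ∈ S ∧ a ≠ x ∧ a ≠ y}
  have hR : Finite R := Finite.of_injective (fun a : R => (⟨a.1, a.2.1⟩ : S)) (by
    intro a b hab
    exact Subtype.ext (by simpa using hab))
  let y1 : (Σ a : R, ty (c' a.1)) → V := fun i => f1 i.1.1 i.2
  let y2 : (Σ a : R, ty (c' a.1)) → V := fun i => f2 i.1.1 i.2
  have m1 : ∀ a : R, a.1 ∈ del S y := fun a => mem_del.2 ⟨a.2.1, a.2.2.2⟩
  have m2 : ∀ a : R, a.1 ∈ del S x := fun a => mem_del.2 ⟨a.2.1, a.2.2.1⟩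
  have inj1 : Function.Injective y1 := by
    rintro ⟨a, v⟩ ⟨b, w⟩ hab
    by_cases h : a = b
    · subst h
      rw [p1 a.1 (m1 a) v w hab]
    · exact absurd hab (p3 a.1 (m1 a) b.1 (m1 b) (fun h' => h (Subtype.ext h')) v w).1
  have inj2 : Function.Injective y2 := by
    rintro ⟨a, v⟩ ⟨b, w⟩ hab
    by_cases h : a = b
    · subst h
      rw [q1 a.1 (m2 a) v w hab]
    · exact absurd hab (q3 a.1 (m2 a) b.1 (m2 b) (fun h' => h (Subtype.ext h')) v w).1
  have hB1 : ∀ (a : R) v w, H.Adj (y2 ⟨a, v⟩) (y2 ⟨a, w⟩) ↔ (gr (c' a.1)).Adj v w :=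
    fun a v w => q2 a.1 (m2 a) v w
  have hB2 : ∀ (a b : R) v w, a ≠ b → (H.Adj (y2 ⟨a, v⟩) (y2 ⟨b, w⟩) ↔ G.Adj a.1 b.1) :=
    fun a b v w h => (q3 a.1 (m2 a) b.1 (m2 b) (fun h' => h (Subtype.ext h')) v w).2
  have hadj : ∀ i j, H.Adj (y1 i) (y1 j) ↔ H.Adj (y2 i) (y2 j) := by
    rintro ⟨a, v⟩ ⟨b, w⟩
    by_cases h : a = b
    · subst h
      rw [hB1]
      exact p2 a.1 (m1 a) v w
    · rw [hB2 _ _ _ _ h]
      exact (p3 a.1 (m1 a) b.1 (m1 b) (fun h' => h (Subtype.ext h')) v w).2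
  obtain ⟨φ, σ, hσ⟩ := T0 hH inj1 inj2 hadj
  -- the permutation preserves the blobs
  have hσB : ∀ i j, (H.comap y2).Adj (σ i) (σ j) ↔ (H.comap y2).Adj i j := by
    intro i j
    show H.Adj (y2 (σ i)) (y2 (σ j)) ↔ H.Adj (y2 i) (y2 j)
    rw [← hσ, ← hσ, φ.map_adj_iff, hadj]
  have huni : ∀ a : R, Uni (gr (c' a.1)) (K + r a.1) := by
    intro a
    rw [e3 a.1 a.2.2.1 a.2.2.2]
    exact hN2 a.1 a.2.1
  have hcard : ∀ i : (Σ a : R, ty (c' a.1)), (TC (H.comap y2) i).ncard = K + r i.1.1 := by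
    rintro ⟨a, v⟩
    rw [TC_sigma (fun a : R => gr (c' a.1)) (H.comap y2) (fun a v w => hB1 a v w)
      (fun a b => G.Adj a.1 b.1) (fun a b v w h => hB2 a b v w h) (fun a => (huni a).2) a v,
      Set.ncard_image_of_injective _ (fun v w hvw => by
        rw [Sigma.mk.injEq] at hvw
        exact eq_of_heq hvw.2)]
    exact (huni a).1 v
  have hblob : ∀ i, (σ i).1 = i.1 := by
    intro i
    have h3 := hcard (σ i)
    rw [TC_perm _ σ hσB, Set.ncard_image_of_injective _ σ.injective, hcard] at h3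
    exact Subtype.ext (hr _ (σ i).1.2.1 _ i.1.2.1 (by omega))
  -- the blob of `x`
  let X : ty (c' x) → V := fun u => φ (f1 x u)
  have hxm : x ∈ del S y := mem_del.2 ⟨hx, hxy⟩
  have hym : y ∈ del S x := mem_del.2 ⟨hy, hxy.symm⟩
  have hX : ∀ (u : ty (c' x)) (a : R) (w : ty (c' a.1)),
      X u ≠ f2 a.1 w ∧ (H.Adj (X u) (f2 a.1 w) ↔ G.Adj x a.1) := by
    intro u a w
    have h3 := hσ (σ.symm ⟨a, w⟩)
    rw [Equiv.apply_symm_apply] at h3
    have h4 := hblob (σ.symm ⟨a, w⟩)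
    rw [Equiv.apply_symm_apply] at h4
    rcases hi : σ.symm ⟨a, w⟩ with ⟨b, w'⟩
    rw [hi] at h3 h4
    have h4' : a = b := h4
    subst h4'
    have h5 : f2 a.1 w = φ (f1 a.1 w') := h3.symm
    have h6 := p3 x hxm a.1 (m1 a) (fun h => a.2.2.1 h.symm) u w'
    rw [h5]
    refine ⟨fun h => h6.1 (φ.injective h), ?_⟩
    rw [show X u = φ (f1 x u) from rfl, φ.map_adj_iff]
    exact h6.2
  let f3 : (a : Y) → ty (c' a) → V := Function.update f2 x X
  have g1 : f3 x = X := Function.update_self _ _ _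
  have g2 : ∀ a, a ≠ x → f3 a = f2 a := fun a ha => Function.update_of_ne ha _ _
  have r1 : ∀ a ∈ S, ∀ v w, f3 a v = f3 a w → v = w := by
    intro a ha v w
    by_cases hax : a = x
    · subst hax
      rw [g1]
      intro h
      exact p1 a hxm v w (φ.injective h)
    · rw [g2 a hax]
      exact q1 a (mem_del.2 ⟨ha, hax⟩) v w
  have r2 : ∀ a ∈ S, ∀ v w, H.Adj (f3 a v) (f3 a w) ↔ (gr (c' a)).Adj v w := by
    intro a ha v w
    by_cases hax : a = x
    · subst hax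
      rw [g1]
      show H.Adj (φ _) (φ _) ↔ _
      rw [φ.map_adj_iff]
      exact p2 a hxm v w
    · rw [g2 a hax]
      exact q2 a (mem_del.2 ⟨ha, hax⟩) v w
  have r3 : ∀ a ∈ S, ∀ b ∈ S, a ≠ b → ¬ ((a = x ∧ b = y) ∨ (a = y ∧ b = x)) → ∀ v w,
      f3 a v ≠ f3 b w ∧ (H.Adj (f3 a v) (f3 b w) ↔ G.Adj a b) := by
    intro a ha b hb hab hn v w
    by_cases hax : a = x
    · subst hax
      have hby' : b ≠ y := fun h => hn (Or.inl ⟨rfl, h⟩)
      rw [g1, g2 b hab.symm]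
      exact hX v ⟨b, hb, hab.symm, hby'⟩ w
    · by_cases hbx' : b = x
      · subst hbx'
        have hay : a ≠ y := fun h => hn (Or.inr ⟨h, rfl⟩)
        rw [g1, g2 a hax]
        have := hX w ⟨a, ha, hax, hay⟩ v
        exact ⟨this.1.symm, by rw [H.adj_comm, G.adj_comm]; exact this.2⟩
      · rw [g2 a hax, g2 b hbx']
        exact q3 a (mem_del.2 ⟨ha, hax⟩) b (mem_del.2 ⟨hb, hbx'⟩) hab v w
  have r4 : ∀ v w, f3 x v ≠ f3 y w := by
    intro v w he
    obtain ⟨z, hz, hzx, hzy, hne⟩ := hd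
    obtain ⟨w0⟩ := hF.ne (c' z)
    have h3 := (r3 x hx z hz hzx.symm (by
      rintro (⟨-, h⟩ | ⟨h, -⟩)
      · exact hzy h
      · exact hxy h) v w0).2
    have h4 := (r3 y hy z hz hzy.symm (by
      rintro (⟨h, -⟩ | ⟨-, h⟩)
      · exact hxy h.symm
      · exact hzx h) w w0).2
    rw [he] at h3
    exact hne (h3.symm.trans h4)
  -- colours
  obtain ⟨ex, hex⟩ := hbx (fun u w => H.Adj (f3 x u) (f3 y w))
  obtain ⟨v0⟩ := hF.ne (c x)
  obtain ⟨ey, hey⟩ := hby (fun w => H.Adj (f3 x (ex v0)) (f3 y w))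
  have hcol : ∀ v w, H.Adj (f3 x (ex v)) (f3 y (ey w)) ↔
      H.Adj (f3 x (ex v0)) (f3 y (ey w)) := fun v w => hex v v0 (ey w)
  obtain ⟨e, he1, he2, he3⟩ : ∃ e : (a : Y) → ty (c a) → ty (c' a),
      (∀ a ∈ S, (∀ v w, e a v = e a w → v = w) ∧
        ∀ v w, (gr (c' a)).Adj (e a v) (e a w) ↔ (gr (c a)).Adj v w) ∧
      e x = ex ∧ e y = ey := by
    have h0 : ∀ a, ∃ g : ty (c a) → ty (c' a), a ∈ S → a ≠ x → a ≠ y →
        (∀ v w, g v = g w → v = w) ∧ ∀ v w, (gr (c' a)).Adj (g v) (g w) ↔ (gr (c a)).Adj v w := by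
      intro a
      by_cases h : a ≠ x ∧ a ≠ y
      · obtain ⟨g⟩ := hN1 a
        rw [← e3 a h.1 h.2] at g
        exact ⟨g, fun _ _ _ => ⟨fun v w hvw => g.injective hvw, fun v w => g.map_adj_iff⟩⟩
      · refine ⟨fun _ => Classical.choice (hF.ne _), fun _ h1 h2 => absurd ⟨h1, h2⟩ h⟩
    choose g hg using h0
    refine ⟨Function.update (Function.update g x ex) y ey, ?_, ?_, ?_⟩
    · intro a ha
      by_cases hay : a = y
      · subst hay
        rw [Function.update_self]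
        exact ⟨fun v w hvw => ey.injective hvw, fun v w => ey.map_adj_iff⟩
      · rw [Function.update_of_ne hay]
        by_cases hax : a = x
        · subst hax
          rw [Function.update_self]
          exact ⟨fun v w hvw => ex.injective hvw, fun v w => ex.map_adj_iff⟩
        · rw [Function.update_of_ne hax]
          exact hg a ha hax hay
    · rw [Function.update_of_ne hxy, Function.update_self]
    · rw [Function.update_self]
  have fin : ∀ G' : SimpleGraph Y,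
      (∀ a b, ¬ ((a = x ∧ b = y) ∨ (a = y ∧ b = x)) → (G'.Adj a b ↔ G.Adj a b)) →
      (∀ w, H.Adj (f3 x (ex v0)) (f3 y (ey w)) ↔ G'.Adj x y) → Blow gr H G' S c := by
    intro G' hG' hw
    refine ⟨fun a v => f3 a (e a v), ?_, ?_, ?_⟩
    · intro a ha v w hvw
      exact (he1 a ha).1 _ _ (r1 a ha _ _ hvw)
    · intro a ha v w
      rw [r2 a ha, (he1 a ha).2]
    · intro a ha b hb hab v w
      by_cases hp : (a = x ∧ b = y) ∨ (a = y ∧ b = x)
      · show f3 a (e a v) ≠ f3 b (e b w) ∧ (H.Adj (f3 a (e a v)) (f3 b (e b w)) ↔ G'.Adj a b)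
        rcases hp with ⟨rfl, rfl⟩ | ⟨rfl, rfl⟩
        · rw [he2, he3]
          refine ⟨r4 _ _, ?_⟩
          rw [hcol, hw]
        · rw [he2, he3]
          refine ⟨(r4 _ _).symm, ?_⟩
          rw [H.adj_comm, hcol, hw, G'.adj_comm]
      · rw [hG' a b hp]
        exact r3 a ha b hb hab hp _ _
  by_cases hcase : (∀ w, H.Adj (f3 x (ex v0)) (f3 y (ey w))) ↔ G.Adj x y
  · left
    refine fin G (fun _ _ _ => Iff.rfl) (fun w => ?_)
    rcases hey with hey | hey
    · exact ⟨fun _ => hcase.1 hey, fun _ => hey w⟩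
    · refine ⟨fun h => absurd h (hey w), fun h => hcase.2 h w⟩
  · right
    refine fin (tog G x y) (fun a b h => tog_other G h) (fun w => ?_)
    rw [tog_self G hxy]
    rcases hey with hey | hey
    · exact ⟨fun _ h => hcase ⟨fun _ => h, fun _ => hey⟩, fun _ => hey w⟩
    · refine ⟨fun h => absurd h (hey w), fun h => ?_⟩
      exfalso
      exact hcase ⟨fun h' => absurd (h' w) (hey w), fun h' => absurd h' h⟩

/-- **the amalgamation property of the class of graphs with all blow-ups.** -/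
theorem ap (hH : SetHomogeneous H) (hF : Fml ty gr) {Y : Type} (G : SimpleGraph Y)
    (S : Finset Y) (x y : Y) (hx : x ∈ S) (hy : y ∈ S) (hxy : x ≠ y)
    (hd : ∃ z ∈ S, z ≠ x ∧ z ≠ y ∧ ¬ (G.Adj x z ↔ G.Adj y z)) (h1 : QB gr H Y G (del S x))
    (h2 : QB gr H Y G (del S y)) :
    QB gr H Y G S ∨ QB gr H Y (tog G x y) S := by
  by_contra hcon
  push Not at hcon
  obtain ⟨h3, h4⟩ := hcon
  unfold QB at h3 h4
  push Not at h3 h4
  obtain ⟨c1, hc1⟩ := h3
  obtain ⟨c2, hc2⟩ := h4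
  have hc : ∀ a, ∃ b, Nonempty (gr (c1 a) ↪g gr b) ∧ Nonempty (gr (c2 a) ↪g gr b) :=
    fun a => hF.dir _ _
  choose c hca hcb using hc
  rcases ap_single hH hF G S x y hx hy hxy hd h1 h2 c with h | h
  · exact hc1 (h.mono hca)
  · exact hc2 (h.mono hcb)

theorem her {Y Z : Type} (G : SimpleGraph Y) (G' : SimpleGraph Z) (S : Finset Y)
    (T : Finset Z) (f : Y → Z) (hf : ∀ a ∈ S, f a ∈ T)
    (hfa : ∀ a ∈ S, ∀ b ∈ S, a ≠ b → f a ≠ f b ∧ (G'.Adj (f a) (f b) ↔ G.Adj a b))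
    [Nonempty V] (h : QB gr H Z G' T) : QB gr H Y G S := by
  intro c
  by_cases hM : Nonempty M
  · -- the colouring of `Z`
    obtain ⟨m0⟩ := hM
    let c' : Z → M := fun z => if h : ∃ a ∈ S, f a = z then c h.choose else m0
    have hc' : ∀ a ∈ S, c' (f a) = c a := by
      intro a ha
      have hex : ∃ b ∈ S, f b = f a := ⟨a, ha, rfl⟩
      have h1 : c' (f a) = c hex.choose := dif_pos hex
      rw [h1]
      congr 1
      by_contra hne
      exact (hfa _ hex.choose_spec.1 a ha hne).1 hex.choose_spec.2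
    obtain ⟨F, h1, h2, h3⟩ := h c'
    have hg : ∀ a, ∃ g : ty (c a) → V, a ∈ S → ∃ e : gr (c a) ↪g gr (c' (f a)),
        ∀ v, g v = F (f a) (e v) := by
      intro a
      by_cases ha : a ∈ S
      · have e : gr (c a) ↪g gr (c' (f a)) := by
          rw [hc' a ha]
        exact ⟨fun v => F (f a) (e v), fun _ => ⟨e, fun v => rfl⟩⟩
      · exact ⟨fun _ => Classical.arbitrary V, fun h => absurd h ha⟩
    choose g hg using hg
    refine ⟨g, ?_, ?_, ?_⟩
    · intro a ha v w hvw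
      obtain ⟨e, he⟩ := hg a ha
      rw [he, he] at hvw
      exact e.injective (h1 _ (hf a ha) _ _ hvw)
    · intro a ha v w
      obtain ⟨e, he⟩ := hg a ha
      rw [he, he, h2 _ (hf a ha)]
      exact e.map_adj_iff
    · intro a ha b hb hab v w
      obtain ⟨e, he⟩ := hg a ha
      obtain ⟨e', he'⟩ := hg b hb
      rw [he, he', ← (hfa a ha b hb hab).2]
      exact h3 _ (hf a ha) _ (hf b hb) (hfa a ha b hb hab).1 _ _
  · exact ⟨fun a => absurd ⟨c a⟩ hM, fun a => absurd ⟨c a⟩ hM,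
      fun a => absurd ⟨c a⟩ hM, fun a => absurd ⟨c a⟩ hM⟩

/-- closure under twins. -/
theorem tw_step (ε : Prop) (hε : ∀ m1 m2 : M, ∃ m3, ∃ (ex : gr m1 ↪g gr m3) (ey : gr m2 ↪g gr m3),
    ∀ u v, ex u ≠ ey v ∧ ((gr m3).Adj (ex u) (ey v) ↔ ε)) [Nonempty V] {Y : Type}
    (G : SimpleGraph Y) (S : Finset Y) (x y : Y) (hx : x ∈ S) (hy : y ∈ S) (hxy : x ≠ y)
    (hadj : G.Adj x y ↔ ε) (htw : ∀ z ∈ S, z ≠ x → z ≠ y → (G.Adj x z ↔ G.Adj y z))
    (h : QB gr H Y G (del S x)) : QB gr H Y G S := by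
  intro c
  obtain ⟨m3, ex, ey, hxy3⟩ := hε (c x) (c y)
  obtain ⟨c', e1, e2⟩ : ∃ c' : Y → M, c' y = m3 ∧ ∀ a, a ≠ y → c' a = c a :=
    ⟨fun a => if a = y then m3 else c a, by simp, fun a h => by simp [h]⟩
  subst e1
  obtain ⟨f, p1, p2, p3⟩ := h c'
  have hg : ∀ a, ∃ g : ty (c a) → V, a ≠ y → ∃ e : gr (c a) ↪g gr (c' a),
      ∀ v, g v = f a (e v) := by
    intro a
    by_cases ha : a ≠ y
    · have e : gr (c a) ↪g gr (c' a) := by
        rw [e2 a ha]
      exact ⟨fun v => f a (e v), fun _ => ⟨e, fun v => rfl⟩⟩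
    · exact ⟨fun _ => Classical.arbitrary V, fun h => absurd h ha⟩
  choose g hg using hg
  obtain ⟨F, F1, F2, F3⟩ : ∃ F : (a : Y) → ty (c a) → V, (∀ v, F x v = f y (ex v)) ∧
      (∀ v, F y v = f y (ey v)) ∧
      ∀ a, a ≠ x → a ≠ y → ∃ e : gr (c a) ↪g gr (c' a), ∀ v, F a v = f a (e v) := by
    refine ⟨Function.update (Function.update g x (fun v => f y (ex v))) y (fun v => f y (ey v)),
      ?_, ?_, ?_⟩
    · rw [Function.update_of_ne hxy, Function.update_self]; exact fun v => rfl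
    · rw [Function.update_self]; exact fun v => rfl
    · intro a ha ha'
      rw [Function.update_of_ne ha', Function.update_of_ne ha]
      exact hg a ha'
  have hym : y ∈ del S x := mem_del.2 ⟨hy, hxy.symm⟩
  have k0 : ∀ v w, F x v ≠ F y w ∧ (H.Adj (F x v) (F y w) ↔ G.Adj x y) := by
    intro v w
    rw [F1, F2]
    refine ⟨fun he => (hxy3 v w).1 (p1 y hym _ _ he), ?_⟩
    rw [p2 y hym, (hxy3 v w).2, hadj]
  have k1 : ∀ a ∈ S, a ≠ x → a ≠ y → ∀ v w, F x v ≠ F a w ∧ (H.Adj (F x v) (F a w) ↔ G.Adj x a) := by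
    intro a ha hax hay v w
    obtain ⟨e, he⟩ := F3 a hax hay
    rw [F1, he, htw a ha hax hay]
    exact p3 y hym a (mem_del.2 ⟨ha, hax⟩) hay.symm _ _
  have k2 : ∀ a ∈ S, a ≠ x → a ≠ y → ∀ v w, F y v ≠ F a w ∧ (H.Adj (F y v) (F a w) ↔ G.Adj y a) := by
    intro a ha hax hay v w
    obtain ⟨e, he⟩ := F3 a hax hay
    rw [F2, he]
    exact p3 y hym a (mem_del.2 ⟨ha, hax⟩) hay.symm _ _
  have k3 : ∀ a ∈ S, ∀ b ∈ S, a ≠ x → a ≠ y → b ≠ x → b ≠ y → a ≠ b →
      ∀ v w, F a v ≠ F b w ∧ (H.Adj (F a v) (F b w) ↔ G.Adj a b) := by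
    intro a ha b hb hax hay hbx hby hab v w
    obtain ⟨e, he⟩ := F3 a hax hay
    obtain ⟨e', he'⟩ := F3 b hbx hby
    rw [he, he']
    exact p3 a (mem_del.2 ⟨ha, hax⟩) b (mem_del.2 ⟨hb, hbx⟩) hab _ _
  have sw : ∀ {a b : Y}, (∀ v w, F a v ≠ F b w ∧ (H.Adj (F a v) (F b w) ↔ G.Adj a b)) →
      ∀ v w, F b v ≠ F a w ∧ (H.Adj (F b v) (F a w) ↔ G.Adj b a) := by
    intro a b h v w
    exact ⟨(h w v).1.symm, by rw [H.adj_comm, G.adj_comm]; exact (h w v).2⟩
  refine ⟨F, ?_, ?_, ?_⟩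
  · intro a ha v w
    by_cases hax : a = x
    · subst hax
      rw [F1, F1]
      intro he
      exact ex.injective (p1 y hym _ _ he)
    · by_cases hay : a = y
      · subst hay
        rw [F2, F2]
        intro he
        exact ey.injective (p1 a hym _ _ he)
      · obtain ⟨e, he⟩ := F3 a hax hay
        rw [he, he]
        intro h'
        exact e.injective (p1 a (mem_del.2 ⟨ha, hax⟩) _ _ h')
  · intro a ha v w
    by_cases hax : a = x
    · subst hax
      rw [F1, F1, p2 y hym]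
      exact ex.map_adj_iff
    · by_cases hay : a = y
      · subst hay
        rw [F2, F2, p2 a hym]
        exact ey.map_adj_iff
      · obtain ⟨e, he⟩ := F3 a hax hay
        rw [he, he, p2 a (mem_del.2 ⟨ha, hax⟩)]
        exact e.map_adj_iff
  · intro a ha b hb hab
    by_cases hax : a = x
    · subst hax
      by_cases hby : b = y
      · subst hby; exact k0
      · exact k1 b hb hab.symm hby
    · by_cases hay : a = y
      · subst hay
        by_cases hbx : b = x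
        · subst hbx; exact sw k0
        · exact k2 b hb hbx hab.symm
      · by_cases hbx : b = x
        · subst hbx; exact sw (k1 a ha hax hay)
        · by_cases hby : b = y
          · subst hby; exact sw (k2 a ha hax hay)
          · exact k3 a ha b hb hax hay hbx hby hab

/-! ### lexicographic products -/

/-- lexicographic product -/
def lex {α : Type v} {β : Type w} (A : SimpleGraph α) (B : SimpleGraph β) :
    SimpleGraph (α × β) where
  Adj p q := A.Adj p.1 q.1 ∨ (p.1 = q.1 ∧ B.Adj p.2 q.2)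
  symm := ⟨fun p q h => by
    rcases h with h | ⟨h1, h2⟩
    · exact Or.inl h.symm
    · exact Or.inr ⟨h1.symm, h2.symm⟩⟩
  loopless := ⟨fun p h => by
    rcases h with h | ⟨h1, h2⟩
    · exact A.irrefl h
    · exact B.irrefl h2⟩

theorem lex_adj {α : Type v} {β : Type w} {A : SimpleGraph α} {B : SimpleGraph β} {p q : α × β} :
    (lex A B).Adj p q ↔ A.Adj p.1 q.1 ∨ (p.1 = q.1 ∧ B.Adj p.2 q.2) := Iff.rfl

theorem uni_lex {γ : Type v} (C : SimpleGraph γ)
    (h1 : ∀ v w, C.Adj v w → ∃ u, u ≠ v ∧ u ≠ w ∧ ¬ (C.Adj v u ↔ C.Adj w u))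
    (h2 : ∀ v, ∃ w, w ≠ v ∧ ¬ C.Adj v w) (m : ℕ) :
    Uni (lex C (⊤ : SimpleGraph (Fin m))) m := by
  constructor
  · rintro ⟨v, x⟩
    have : TC (lex C (⊤ : SimpleGraph (Fin m))) (v, x) = (fun y => (v, y)) '' Set.univ := by
      ext ⟨w, y⟩
      simp only [Set.image_univ, Set.mem_range, Prod.mk.injEq]
      constructor
      · rintro (h | ⟨h3, h4⟩)
        · exact ⟨y, (congrArg Prod.fst h).symm, rfl⟩
        · refine ⟨y, ?_, rfl⟩
          rcases h3 with h3 | h3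
          · exfalso
            obtain ⟨u, hu1, hu2, hu⟩ := h1 v w h3
            have h5 := h4 (u, x) (fun h => hu1 (congrArg Prod.fst h))
              (fun h => hu2 (congrArg Prod.fst h))
            rw [lex_adj, lex_adj] at h5
            simp only [hu1.symm, hu2.symm, false_and, or_false] at h5
            exact hu h5
          · exact h3.1
      · rintro ⟨z, rfl, rfl⟩
        by_cases hxz : z = x
        · subst hxz; exact Or.inl rfl
        · refine Or.inr ⟨Or.inr ⟨rfl, Ne.symm hxz⟩, ?_⟩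
          rintro ⟨u, t⟩ hu1 hu2
          rw [lex_adj, lex_adj]
          by_cases hu : u = v
          · subst hu
            have e1 : x ≠ t := fun h => hu1 (by rw [h])
            have e2 : z ≠ t := fun h => hu2 (by rw [h])
            simp [e1, e2]
          · simp [Ne.symm hu]
    rw [this, Set.ncard_image_of_injective _ (fun y z h => (congrArg Prod.snd h :)),
      Set.ncard_univ, Nat.card_fin]
  · rintro ⟨v, x⟩
    obtain ⟨w, hw, hn⟩ := h2 v
    refine ⟨(w, x), fun h => hw (congrArg Prod.fst h), ?_⟩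
    rw [lex_adj]
    rintro (h | h)
    · exact hn h
    · exact hw h.1.symm

end Run7.h77.BL
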