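import Pool.Agent.Run7.h77.Deg

/-!
# Canonical syndetic colourings

From finite Ramsey degrees we obtain an expansion of `(M, S)` by colours of tuples in which the
type of a tuple is determined by its colour, all colours are syndetic, and the Ramsey property holds.
-/

set_option autoImplicit false

namespace Run7.h77

open Function

section

variable {I : Type} {ar : I → ℕ} {M : Type}

/-- arities of the expansion by colours -/
abbrev arStar (ar : I → ℕ) : I ⊕ (ℕ × ℕ) → ℕ := Sum.elim ar (fun p => p.1)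

/-- The expansion of `S` by the colours `C`. -/
def star (S : RS I ar M) (C : ∀ k : ℕ, (Fin k → M) → ℕ) : RS (I ⊕ (ℕ × ℕ)) (arStar ar) M
  | Sum.inl i => fun t => S i t
  | Sum.inr p => fun t => Injective t ∧ C p.1 t = p.2

theorem pull_star_eq {S : RS I ar M} {C : ∀ k : ℕ, (Fin k → M) → ℕ} {V : Type} {f f' : V → M}
    (hf : Injective f) (hf' : Injective f') :
    pull (star S C) f = pull (star S C) f' ↔ pull S f = pull S f' ∧
      ∀ (k : ℕ) (s : Fin k → V), Injective s → C k (f ∘ s) = C k (f' ∘ s) := by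
  constructor
  · intro h
    refine ⟨?_, fun k s hs => ?_⟩
    · funext i t
      exact congrFun (congrFun h (Sum.inl i)) t
    · have h1 := (pull_iff h (Sum.inr (k, C k (f ∘ s))) s).1 ⟨hf.comp hs, rfl⟩
      exact h1.2.symm
  · rintro ⟨h1, h2⟩
    funext i
    cases i with
    | inl i =>
      funext t
      exact congrFun (congrFun h1 i) t
    | inr p =>
      obtain ⟨k, c⟩ := p
      funext t
      apply propext
      show (Injective (f ∘ t) ∧ C k (f ∘ t) = c) ↔ (Injective (f' ∘ t) ∧ C k (f' ∘ t) = c)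
      constructor
      · rintro ⟨h3, h4⟩
        have ht : Injective t := Injective.of_comp h3
        exact ⟨hf'.comp ht, by rw [← h2 k t ht]; exact h4⟩
      · rintro ⟨h3, h4⟩
        have ht : Injective t := Injective.of_comp h3
        exact ⟨hf.comp ht, by rw [h2 k t ht]; exact h4⟩

/-- Finite Ramsey degrees. -/
def FD (S : RS I ar M) : Prop :=
  ∀ (k : ℕ) (u : Fin k → M), Injective u → ∃ t, DegLE S u t

/-- finitely many types of injective tuples -/
def FinTypes (S : RS I ar M) : Prop :=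
  ∀ k : ℕ, {P : RS I ar (Fin k) | ∃ x : Fin k → M, Injective x ∧ pull S x = P}.Finite

/-- Syndetic colourings: for every injective tuple `u` there is a number `t` of colours with
Ramsey degree at most `t`, all tuples of the type of `u` have colour `< t`, and all the colours are
seen in all copies of some finite set. -/
def Synd (S : RS I ar M) (C : ∀ k : ℕ, (Fin k → M) → ℕ) : Prop :=
  ∀ (k : ℕ) (u : Fin k → M), Injective u → ∃ t : ℕ, DegLE S u t ∧
    (∀ x : Fin k → M, Injective x → pull S x = pull S u → C k x < t) ∧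
    ∃ D : Finset M, ∀ g : D → M, Copy S (fun a : D => a.1) g → ∀ c < t, ∃ e : Fin k → D,
        Injective e ∧ pull S (fun j => (e j).1) = pull S u ∧ C k (g ∘ e) = c

theorem exists_synd_all {S : RS I ar M} (h : FD S) :
    ∃ C : ∀ k : ℕ, (Fin k → M) → ℕ, Synd S C := by
  classical
  have h1 : ∀ (k : ℕ) (T : RS I ar (Fin k)), ∃ col : (Fin k → M) → ℕ,
      ∀ u : Fin k → M, Injective u → pull S u = T → ∃ t : ℕ, DegLE S u t ∧
        (∀ x, col x < t) ∧ ∃ D : Finset M, ∀ g : D → M, Copy S (fun a : D => a.1) g →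
          ∀ c < t, ∃ e : Fin k → D, Injective e ∧ pull S (fun j => (e j).1) = pull S u ∧
            col (g ∘ e) = c := by
    intro k T
    by_cases hT : ∃ u : Fin k → M, Injective u ∧ pull S u = T
    · obtain ⟨u, hu, huT⟩ := hT
      obtain ⟨t, ht, col, hcol, D, hD⟩ := exists_synd hu (h k u hu)
      refine ⟨col, fun u' hu' huT' => ⟨t, ?_, hcol, D, ?_⟩⟩
      · intro V hV v hv κ hκ χ
        obtain ⟨g, hg, hgt⟩ := ht V hV v hv κ hκ χ
        refine ⟨g, hg, ?_⟩
        have : Seen S u' v g χ = Seen S u v g χ := by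
          unfold Seen
          rw [huT, huT']
        rw [this]
        exact hgt
      · rw [huT', ← huT]
        exact hD
    · exact ⟨fun _ => 0, fun u hu huT => absurd ⟨u, hu, huT⟩ hT⟩
  choose col hcol using h1
  refine ⟨fun k x => col k (pull S x) x, fun k u hu => ?_⟩
  obtain ⟨t, ht, h2, D, hD⟩ := hcol k (pull S u) u hu rfl
  refine ⟨t, ht, fun x _ hx => ?_, D, fun g hg c hc => ?_⟩
  · show col k (pull S x) x < t
    rw [hx]
    exact h2 x
  obtain ⟨e, h3, h4, h5⟩ := hD g hg c hc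
  refine ⟨e, h3, h4, ?_⟩
  have h6 : pull S (g ∘ e) = pull S u := by
    rw [pull_comp, hg.2, ← pull_comp]
    exact h4
  show col k (pull S (g ∘ e)) (g ∘ e) = c
  rw [h6]
  exact h5

/-- The function property of colours on the tuples of the type of `u` in `B`, moved by `h`. -/
def FunProp (S : RS I ar M) (C : ∀ k : ℕ, (Fin k → M) → ℕ) {k : ℕ} (u : Fin k → M)
    (B : Finset M) (h : M → M) : Prop :=
  ∀ x y : Fin k → M, Injective x → Injective y → (∀ j, x j ∈ B) → (∀ j, y j ∈ B) →
    pull S x = pull S u → pull S y = pull S u → C k (h ∘ x) = C k (h ∘ y) →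
    ∀ (j : ℕ) (s : Fin j → Fin k), Injective s → C j (h ∘ x ∘ s) = C j (h ∘ y ∘ s)

/-- bounded colours -/
def BddCol (C : ∀ k : ℕ, (Fin k → M) → ℕ) : Prop :=
  ∃ T : ℕ → ℕ, ∀ (k : ℕ) (x : Fin k → M), Injective x → C k x < T k

theorem bddCol_of {S : RS I ar M} {C : ∀ k : ℕ, (Fin k → M) → ℕ} (hS : FinTypes S)
    (hC : Synd S C) : BddCol C := by
  classical
  have h1 : ∀ k : ℕ, ∃ T : ℕ, ∀ x : Fin k → M, Injective x → C k x < T := by
    intro k
    have h2 : ∀ P : {P : RS I ar (Fin k) | ∃ x : Fin k → M, Injective x ∧ pull S x = P},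
        ∃ t : ℕ, ∀ x : Fin k → M, Injective x → pull S x = P.1 → C k x < t := by
      rintro ⟨P, u, hu, rfl⟩
      obtain ⟨t, -, ht, -⟩ := hC k u hu
      exact ⟨t, ht⟩
    choose t ht using h2
    have hfin := (hS k).to_subtype
    obtain ⟨T, hT⟩ := (Set.finite_range t).bddAbove
    refine ⟨T + 1, fun x hx => ?_⟩
    have h3 := ht ⟨pull S x, x, hx, rfl⟩ x hx rfl
    have h4 : t ⟨pull S x, x, hx, rfl⟩ ≤ T := hT ⟨_, rfl⟩
    omega
  choose T hT using h1
  exact ⟨T, hT⟩

/-- restriction of copies of finite sets -/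
theorem Copy.restrict {S : RS I ar M} {F : Finset M} {h : M → M}
    (hh : Copy S (fun a : F => a.1) (fun a : F => h a)) {V : Type} {f : V → M}
    (hf : ∀ v, f v ∈ F) (hfi : Injective f) : Copy S f (h ∘ f) := by
  have h1 := hh.comp (fun v : V => (⟨f v, hf v⟩ : F)) (fun a a' hab => hfi (congrArg Subtype.val hab))
  exact h1

theorem funProp_list {S : RS I ar M} {C : ∀ k : ℕ, (Fin k → M) → ℕ} (hC : Synd S C)
    (hB : BddCol C) (ℓ : List (Σ k : ℕ, {u : Fin k → M // Injective u})) :
    ∀ B : Finset M, ∃ F : Finset M, ∀ h : M → M, Copy S (fun a : F => a.1) (fun a : F => h a) →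
      ∃ g : M → M, Copy S (fun a : B => a.1) (fun a : B => g a) ∧ (∀ b ∈ B, g b ∈ F) ∧
        ∀ p ∈ ℓ, FunProp S C p.2.1 B (h ∘ g) := by
  classical
  obtain ⟨T, hT⟩ := hB
  induction ℓ with
  | nil =>
    intro B
    exact ⟨B, fun h _ => ⟨id, Copy.refl Subtype.val_injective, fun b hb => hb, by simp⟩⟩
  | cons p ℓ ih =>
    obtain ⟨k, u, hu⟩ := p
    intro B
    obtain ⟨t, ht, htC, D, hD⟩ := hC k u hu
    let B₁ : Finset M := B ∪ D
    let κ : Type := (j : Fin (k + 1)) → (Fin j → Fin k) → Fin (T j + 1)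
    obtain ⟨C₁, hC₁⟩ := ht.fin (fun a : B₁ => a.1) Subtype.val_injective κ
    obtain ⟨F, hF⟩ := ih C₁
    refine ⟨F, fun h hh => ?_⟩
    obtain ⟨g', hg'1, hg'2, hg'3⟩ := hF h hh
    let H : M → M := h ∘ g'
    have hH : Copy S (fun a : C₁ => a.1) (fun a : C₁ => H a) := by
      have h1 : Copy S (g' ∘ fun a : C₁ => a.1) (h ∘ (g' ∘ fun a : C₁ => a.1)) :=
        hh.restrict (fun a => hg'2 a a.2) hg'1.1
      exact ⟨h1.1, h1.2.trans hg'1.2⟩
    let χ : (Fin k → M) → κ := fun x j s =>
      ⟨min (C j (H ∘ x ∘ s)) (T j), by omega⟩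
    obtain ⟨g₁, hg₁F, hg₁, hg₁t⟩ := hC₁ χ
    let g₁' : M → M := fun m => if hm : m ∈ B₁ then g₁ ⟨m, hm⟩ else m
    have hg₁' : ∀ (m : M) (hm : m ∈ B₁), g₁' m = g₁ ⟨m, hm⟩ := fun m hm => by simp [g₁', hm]
    have hBB₁ : ∀ b ∈ B, b ∈ B₁ := fun b hb => Finset.mem_union_left _ hb
    have hDB₁ : ∀ b ∈ D, b ∈ B₁ := fun b hb => Finset.mem_union_right _ hb
    -- the copy of `B₁` given by `H ∘ g₁`
    have hHg : Copy S (fun a : B₁ => a.1) (fun a : B₁ => H (g₁ a)) := by
      have h1 : Copy S g₁ (H ∘ g₁) := hH.restrict (fun a => hg₁F a) hg₁.1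
      exact ⟨h1.1, h1.2.trans hg₁.2⟩
    have hcopyD : Copy S (fun a : D => a.1) (fun a : D => H (g₁ ⟨a.1, hDB₁ _ a.2⟩)) := by
      have h1 := hHg.comp (fun a : D => (⟨a.1, hDB₁ _ a.2⟩ : B₁))
        (fun a a' haa => Subtype.ext (congrArg (fun z : B₁ => z.1) haa))
      exact h1
    -- colours determine the whole colour function
    have key : ∀ x y : Fin k → B₁, Injective x → Injective y →
        pull S (fun j => (x j).1) = pull S u → pull S (fun j => (y j).1) = pull S u →
        C k (H ∘ g₁ ∘ x) = C k (H ∘ g₁ ∘ y) → χ (g₁ ∘ x) = χ (g₁ ∘ y) := by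
      -- the set of colours
      let P : Set κ := Seen S u (fun a : B₁ => a.1) g₁ χ
      have hPt : P.ncard ≤ t := hg₁t
      -- the last coordinate of the colour
      let π : κ → ℕ := fun c => (c ⟨k, by omega⟩ id : ℕ)
      have hπ : ∀ x : Fin k → B₁, Injective x → π (χ (g₁ ∘ x)) = C k (H ∘ g₁ ∘ x) := by
        intro x hx
        show min (C k (H ∘ (g₁ ∘ x) ∘ id)) (T k) = _
        have h1 : C k (H ∘ g₁ ∘ x) < T k := hT k _ (hHg.1.comp hx)
        have h2 : H ∘ (g₁ ∘ x) ∘ id = H ∘ g₁ ∘ x := rfl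
        rw [h2]
        omega
      have hsurj : ∀ c < t, ∃ p ∈ P, π p = c := by
        intro c hc
        obtain ⟨e, he1, he2, he3⟩ := hD _ hcopyD c hc
        refine ⟨χ (g₁ ∘ fun j => ⟨(e j).1, hDB₁ _ (e j).2⟩),
          ⟨fun j => ⟨(e j).1, hDB₁ _ (e j).2⟩, ?_, he2, rfl⟩, ?_⟩
        · intro i j hij
          exact he1 (Subtype.ext (congrArg (fun z : B₁ => z.1) hij))
        · rw [hπ _ (fun i j hij => he1 (Subtype.ext (congrArg (fun z : B₁ => z.1) hij)))]
          exact he3
      have hinj : Set.InjOn π P := by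
        -- `π` maps `P` onto `{c | c < t}`
        have h1 : (Set.Iio t : Set ℕ) ⊆ π '' P := by
          intro c hc
          obtain ⟨p, hp, hpc⟩ := hsurj c hc
          exact ⟨p, hp, hpc⟩
        have h2 : t ≤ (π '' P).ncard := by
          have h3 := Set.ncard_le_ncard h1 ((Set.toFinite P).image π)
          have h4 : (Set.Iio t : Set ℕ).ncard = t := by
            rw [Set.ncard_eq_toFinset_card']
            simp
          omega
        have h3 : (π '' P).ncard = P.ncard :=
          le_antisymm (Set.ncard_image_le (Set.toFinite P)) (hPt.trans h2)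
        exact (Set.ncard_image_iff (Set.toFinite P)).1 h3
      intro x y hx hy hxu hyu hxy
      refine hinj ⟨x, hx, hxu, rfl⟩ ⟨y, hy, hyu, rfl⟩ ?_
      rw [hπ x hx, hπ y hy, hxy]
    refine ⟨g' ∘ g₁', ?_, ?_, ?_⟩
    · have h1 : Copy S (fun a : B => a.1) (fun a : B => g₁ ⟨a.1, hBB₁ _ a.2⟩) := by
        have h2 := hg₁.comp (fun a : B => (⟨a.1, hBB₁ _ a.2⟩ : B₁))
          (fun a a' haa => Subtype.ext (congrArg (fun z : B₁ => z.1) haa))
        exact h2
      have h2 : Copy S (fun a : B => g₁ ⟨a.1, hBB₁ _ a.2⟩)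
          (g' ∘ fun a : B => g₁ ⟨a.1, hBB₁ _ a.2⟩) := hg'1.restrict (fun a => hg₁F _) h1.1
      have h3 : (fun a : B => (g' ∘ g₁') a.1) = g' ∘ fun a : B => g₁ ⟨a.1, hBB₁ _ a.2⟩ := by
        funext a
        simp only [comp_apply]
        rw [hg₁' _ (hBB₁ _ a.2)]
      rw [h3]
      exact ⟨h2.1, h2.2.trans h1.2⟩
    · intro b hb
      simp only [comp_apply]
      rw [hg₁' _ (hBB₁ _ hb)]
      exact hg'2 _ (hg₁F _)
    · intro p hp
      rcases List.mem_cons.1 hp with rfl | hp
      · intro x y hx hy hxB hyB hxu hyu hxy j s hs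
        let x' : Fin k → B₁ := fun i => ⟨x i, hBB₁ _ (hxB i)⟩
        let y' : Fin k → B₁ := fun i => ⟨y i, hBB₁ _ (hyB i)⟩
        have ex : (h ∘ g' ∘ g₁') ∘ x = H ∘ g₁ ∘ x' := by
          funext i
          simp only [comp_apply]
          rw [hg₁' _ (hBB₁ _ (hxB i))]
          rfl
        have ey : (h ∘ g' ∘ g₁') ∘ y = H ∘ g₁ ∘ y' := by
          funext i
          simp only [comp_apply]
          rw [hg₁' _ (hBB₁ _ (hyB i))]
          rfl
        have hx' : Injective x' := fun a b hab => hx (congrArg Subtype.val hab)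
        have hy' : Injective y' := fun a b hab => hy (congrArg Subtype.val hab)
        have h1 := key x' y' hx' hy' hxu hyu (by
          rw [← ex, ← ey]
          exact hxy)
        have hjk : j ≤ k := by
          have := Fintype.card_le_of_injective s hs
          simpa using this
        have h2 := congrFun (congrFun h1 ⟨j, by omega⟩) s
        have h3 : min (C j (H ∘ (g₁ ∘ x') ∘ s)) (T j) = min (C j (H ∘ (g₁ ∘ y') ∘ s)) (T j) :=
          congrArg Fin.val h2
        have h4 : C j (H ∘ (g₁ ∘ x') ∘ s) < T j := hT j _ ((hHg.1.comp hx').comp hs)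
        have h5 : C j (H ∘ (g₁ ∘ y') ∘ s) < T j := hT j _ ((hHg.1.comp hy').comp hs)
        have h6 : C j (H ∘ (g₁ ∘ x') ∘ s) = C j (H ∘ (g₁ ∘ y') ∘ s) := by omega
        have e1 : (h ∘ g' ∘ g₁') ∘ x ∘ s = H ∘ (g₁ ∘ x') ∘ s := by
          rw [← comp_assoc, ex]
          rfl
        have e2 : (h ∘ g' ∘ g₁') ∘ y ∘ s = H ∘ (g₁ ∘ y') ∘ s := by
          rw [← comp_assoc, ey]
          rfl
        rw [e1, e2, h6]
      · have h1 := hg'3 p hp
        obtain ⟨k', u', hu'⟩ := p
        intro x y hx hy hxB hyB hxu hyu hxy j s hs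
        have a1 : ∀ z : Fin k' → M, Injective z → (∀ i, z i ∈ B) → pull S z = pull S u' →
            Injective (g₁' ∘ z) ∧ (∀ i, (g₁' ∘ z) i ∈ C₁) ∧ pull S (g₁' ∘ z) = pull S u' := by
          intro z hz hzB hzu
          let z' : Fin k' → B₁ := fun i => ⟨z i, hBB₁ _ (hzB i)⟩
          have ez : g₁' ∘ z = g₁ ∘ z' := by
            funext i
            simp only [comp_apply]
            rw [hg₁' _ (hBB₁ _ (hzB i))]
          have hz' : Injective z' := fun a b hab => hz (congrArg Subtype.val hab)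
          rw [ez]
          refine ⟨hg₁.1.comp hz', fun i => hg₁F _, ?_⟩
          rw [pull_comp, hg₁.2, ← pull_comp]
          exact hzu
        obtain ⟨b1, b2, b3⟩ := a1 x hx hxB hxu
        obtain ⟨c1, c2, c3⟩ := a1 y hy hyB hyu
        exact h1 (g₁' ∘ x) (g₁' ∘ y) b1 c1 b2 c2 b3 c3 hxy j s hs

end

end Run7.h77
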