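import Pool.Agent.Run7.h77.Gen

/-!
# The combined structure

The expansion of `(M, S)` by the pull back of `b` along a generic injection has one point
extensions and the Ramsey property.
-/

set_option autoImplicit false

namespace Run7.h77

open Function

section

variable {I : Type} {ar : I → ℕ} {I₀ : Type} {ar₀ : I₀ → ℕ} {I₂ : Type} {ar₂ : I₂ → ℕ}
variable {M N : Type} {S : RS I ar M} {b : RS I₀ ar₀ N} {c : RS I₂ ar₂ M} {d : RS I₂ ar₂ N}

/-- The arities of the combined structure. -/
abbrev arc (ar₀ : I₀ → ℕ) (ar : I → ℕ) : I₀ ⊕ I → ℕ := Sum.elim ar₀ ar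

/-- The combined structure. -/
def comb (S : RS I ar M) (b : RS I₀ ar₀ N) (g : M → N) : RS (I₀ ⊕ I) (arc ar₀ ar) M
  | Sum.inl i => fun t => b i (g ∘ t)
  | Sum.inr i => fun t => S i t

theorem pull_comb {g : M → N} {A : Type} {f f' : A → M} :
    pull (comb S b g) f = pull (comb S b g) f' ↔
      pull b (g ∘ f) = pull b (g ∘ f') ∧ pull S f = pull S f' := by
  constructor
  · intro h
    constructor
    · funext i t
      exact congrFun (congrFun h (Sum.inl i)) t
    · funext i t
      exact congrFun (congrFun h (Sum.inr i)) t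
  · rintro ⟨h1, h2⟩
    funext i
    cases i with
    | inl i =>
      funext t
      exact congrFun (congrFun h1 i) t
    | inr i =>
      funext t
      exact congrFun (congrFun h2 i) t

theorem isEmb_comb {g : M → N} {A B : Type} {f : A → M} {f' : B → M} {e : A → B} :
    IsEmb (pull (comb S b g) f) (pull (comb S b g) f') e ↔
      IsEmb (pull b (g ∘ f)) (pull b (g ∘ f')) e ∧ IsEmb (pull S f) (pull S f') e := by
  constructor
  · intro h
    exact ⟨⟨h.1, fun i y => h.2 (Sum.inl i) y⟩, ⟨h.1, fun i y => h.2 (Sum.inr i) y⟩⟩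
  · rintro ⟨h1, h2⟩
    refine ⟨h1.1, fun i => ?_⟩
    cases i with
    | inl i => exact h1.2 i
    | inr i => exact h2.2 i

theorem comb_ext {g : M → N} (hg : Injective g)
    (hgc : ∀ (V : Type) (f : V → M), pull c f = pull d (g ∘ f)) (hG : Generic S b c d g) :
    ExtT (comb S b g) := by
  intro k w x hw hx hwx F
  rw [pull_comb] at hwx
  obtain ⟨y, h1, h2, h3, h4⟩ := hG k w x (g ∘ x) F hw hx (hg.comp hx) hwx.2 hwx.1 (hgc _ x)
  exact ⟨y, h1, h2, pull_comb.2 ⟨h4, h3⟩⟩

theorem snoc_injective {X : Type} {k : ℕ} {w : Fin k → X} {y : X} (hw : Injective w)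
    (hy : ∀ j, w j ≠ y) : Injective (Fin.snoc (α := fun _ => X) w y) := by
  intro i j hij
  induction i using Fin.lastCases with
  | last =>
    induction j using Fin.lastCases with
    | last => rfl
    | cast j =>
      simp only [Fin.snoc_last, Fin.snoc_castSucc] at hij
      exact absurd hij.symm (hy j)
  | cast i =>
    induction j using Fin.lastCases with
    | last =>
      simp only [Fin.snoc_last, Fin.snoc_castSucc] at hij
      exact absurd hij (hy i)
    | cast j =>
      simp only [Fin.snoc_castSucc] at hij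
      rw [hw hij]

/-- Universality of the generic expansion, with relations of arity zero treated separately. -/
theorem univ_fin {g : M → N} (hG : Generic S b c d g) :
    ∀ (k : ℕ) (f : Fin k → M) (ι : Fin k → N), Injective f → Injective ι →
      pull c f = pull d ι → ∃ w : Fin k → M, Injective w ∧ pull S w = pull S f ∧
        pull b (g ∘ w) = pull b ι := by
  intro k
  induction k with
  | zero =>
    intro f ι _ _ _
    refine ⟨f, fun a => Fin.elim0 a, rfl, ?_⟩
    have : g ∘ f = ι := funext fun a => Fin.elim0 a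
    rw [this]
  | succ k ih =>
    intro f ι hf hι hfι
    have hcs : Injective (Fin.castSucc : Fin k → Fin (k + 1)) := Fin.castSucc_injective k
    obtain ⟨w, hw, hwS, hwb⟩ := ih (f ∘ Fin.castSucc) (ι ∘ Fin.castSucc) (hf.comp hcs)
      (hι.comp hcs) (by rw [pull_comp, pull_comp, hfι])
    obtain ⟨y, -, hy, hyS, hyb⟩ := hG k w f ι ∅ hw hf hι hwS hwb hfι
    exact ⟨Fin.snoc (α := fun _ => M) w y, snoc_injective hw hy, hyS, hyb⟩

theorem univ {g : M → N} (hG : Generic S b c d g) {V : Type} [Finite V] (f : V → M) (ι : V → N) (hf : Injective f) (hι : Injective ι)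
    (hfι : pull c f = pull d ι) : ∃ w : V → M, Injective w ∧ pull S w = pull S f ∧
        pull b (g ∘ w) = pull b ι := by
  obtain ⟨k, ⟨e⟩⟩ := Finite.exists_equiv_fin V
  obtain ⟨w, hw, hwS, hwb⟩ := univ_fin hG k (f ∘ e.symm) (ι ∘ e.symm)
    (hf.comp e.symm.injective) (hι.comp e.symm.injective) (by rw [pull_comp, pull_comp, hfι])
  refine ⟨w ∘ e, hw.comp e.injective, ?_, ?_⟩
  · rw [pull_comp, hwS, ← pull_comp]
    congr 1
    funext v
    simp
  · rw [← comp_assoc, pull_comp, hwb, ← pull_comp]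
    congr 1
    funext v
    simp

/-- The Ramsey property of the combined structure. -/
theorem comb_ramsey {g : M → N} (hR : RamseyF b) (hb : ExtT b) (hC : Compl S c d) (hbd : Det b d)
    (hg : Injective g)
    (hgc : ∀ (V : Type) (f : V → M), pull c f = pull d (g ∘ f)) (hG : Generic S b c d g) :
    RamseyF (comb S b g) := by
  classical
  intro A B hA hB u v hu hv κ hκ hκ'
  rcases isEmpty_or_nonempty M with hM | hM
  · -- trivial case
    have hA' : IsEmpty A := ⟨fun a => isEmptyElim (u a)⟩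
    have hB' : IsEmpty B := ⟨fun a => isEmptyElim (v a)⟩
    refine ⟨B, hB, v, hv, fun χ => ⟨id, ⟨injective_id, fun i y => Iff.rfl⟩, χ isEmptyElim,
      fun e _ => ?_⟩⟩
    congr 1
    funext a
    exact isEmptyElim a
  obtain ⟨V, hV, ι, E, T, hι, hEs, hEi, hcl, hram⟩ := nr hR (blowUp_of_ext hb) (hg.comp hu)
    (hg.comp hv) (pull S u) (pull S v) κ
  obtain ⟨f, hf, hfc, hfS⟩ := hC V hV ι E T hι hEs hEi (by
    intro J y hy hyE
    have hJ : Finite J := Finite.of_injective y hy
    obtain ⟨h, hh, hb', hS'⟩ := hcl J y hy hyE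
    refine ⟨v ∘ h, hv.comp hh, ?_, ?_⟩
    · rw [hgc]
      refine hbd J hJ _ _ (hg.comp (hv.comp hh)) (hι.comp hy) ?_
      funext i t
      exact propext (hb' i t).symm
    · funext i t
      exact propext (hS' i t).symm)
  obtain ⟨w, hw, hwS, hwb⟩ := univ hG f ι hf hι hfc
  refine ⟨V, hV, w, hw, fun χ => ?_⟩
  obtain ⟨g₁, hg₁E, hg₁b, hg₁S, col, hcol⟩ := hram χ
  refine ⟨g₁, isEmb_comb.2 ⟨?_, ?_⟩, col, fun e he => ?_⟩
  · rw [hwb]
    exact hg₁b
  · refine ⟨hg₁S.1, fun i y => ?_⟩
    rw [hwS]
    refine (hfS i (g₁ ∘ y) ?_).trans (hg₁S.2 i y)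
    intro j k hjk
    exact hg₁E _ _ (fun h => hjk (by simp only [comp_apply, h]))
  · obtain ⟨he1, he2⟩ := isEmb_comb.1 he
    exact hcol e he1 he2

end

end Run7.h77
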