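import Pool.Agent.Run7.h77.Sup

/-!
# Finite Ramsey degrees from completions
-/

set_option autoImplicit false

namespace Run7.h77

open Function

section

variable {I : Type} {ar : I → ℕ} {I₀ : Type} {ar₀ : I₀ → ℕ} {I₂ : Type} {ar₂ : I₂ → ℕ}
variable {M N : Type} {S : RS I ar M} {b : RS I₀ ar₀ N} {c : RS I₂ ar₂ M} {d : RS I₂ ar₂ N}

theorem compl_list (hR : RamseyF b) (hB : BlowUp b) (hbd : Det b d) (hC : Compl S c d)
    {k : ℕ} (u : Fin k → M) (κ : Type) [Finite κ] [Nonempty κ]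
    (ℓ : List {x : Fin k → N // Injective x}) :
    ∀ (V : Type) (_ : Finite V) (v : V → M) (ι : V → N), Injective v → Injective ι →
      pull c v = pull d ι → ∃ (C : Type) (_ : Finite C) (w : C → M) (ι' : C → N), Injective w ∧
        Injective ι' ∧ pull c w = pull d ι' ∧ ∀ χ : (Fin k → C) → κ, ∃ g : V → C,
          IsEmb (pull S v) (pull S w) g ∧ IsEmb (pull b ι) (pull b ι') g ∧
          ∀ x ∈ ℓ, ∃ col : κ, ∀ e : Fin k → V, IsEmb (pull S u) (pull S v) e →
            IsEmb (pull b x.1) (pull b ι) e → χ (g ∘ e) = col := by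
  classical
  induction ℓ with
  | nil =>
    intro V hV v ι hv hι hp
    exact ⟨V, hV, v, ι, hv, hι, hp, fun χ => ⟨id, ⟨injective_id, fun i y => Iff.rfl⟩,
      ⟨injective_id, fun i y => Iff.rfl⟩, by simp⟩⟩
  | cons x ℓ ih =>
    intro V hV v ι hv hι hp
    obtain ⟨C', hC', w', ι', hw', hι', hp', h'⟩ := ih V hV v ι hv hι hp
    obtain ⟨C, hCf, ι₁, E, T, hι₁, hEs, hEi, hcl, hram⟩ := nr hR hB x.2 hι' (pull S u)
      (pull S w') κ
    obtain ⟨f, hf, hfc, hfS⟩ := hC C hCf ι₁ E T hι₁ hEs hEi (by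
      intro J y hy hyE
      have hJ : Finite J := Finite.of_injective y hy
      obtain ⟨h, hh, hb', hS'⟩ := hcl J y hy hyE
      refine ⟨w' ∘ h, hw'.comp hh, ?_, ?_⟩
      · rw [pull_comp, hp', ← pull_comp]
        refine hbd J hJ _ _ (hι'.comp hh) (hι₁.comp hy) ?_
        funext i t
        exact propext (hb' i t).symm
      · funext i t
        exact propext (hS' i t).symm)
    refine ⟨C, hCf, f, ι₁, hf, hι₁, hfc, fun χ => ?_⟩
    obtain ⟨g', hg'E, hg'b, hg'S, col, hcol⟩ := hram χ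
    have hg'S' : IsEmb (pull S w') (pull S f) g' := by
      refine ⟨hg'S.1, fun i y => (hfS i (g' ∘ y) ?_).trans (hg'S.2 i y)⟩
      intro j l hjl
      exact hg'E _ _ (fun h => hjl (by simp only [comp_apply, h]))
    obtain ⟨g, hgS, hgb, hℓ⟩ := h' (fun e => χ (g' ∘ e))
    refine ⟨g' ∘ g, hg'S'.comp' hgS, hg'b.comp' hgb, fun x' hx' => ?_⟩
    rcases List.mem_cons.1 hx' with rfl | hx'
    · exact ⟨col, fun e heS heb => hcol (g ∘ e) (hgb.comp' heb) (hgS.comp' heS)⟩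
    · obtain ⟨col', hcol'⟩ := hℓ x' hx'
      exact ⟨col', fun e heS heb => hcol' e heS heb⟩

/-- Finite Ramsey degrees from completions relative to a Ramsey structure with finitely many
types. -/
theorem fd_of_compl (hR : RamseyF b) (hB : BlowUp b) (hT : FinTypes b) (hbd : Det b d)
    (hM : ∀ (V : Type) (_ : Finite V) (v : V → M), Injective v → ∃ ι : V → N, Injective ι ∧
      pull c v = pull d ι) (hC : Compl S c d) : FD S := by
  classical
  intro k u hu
  obtain ⟨ℓ, hℓ⟩ := exists_reps hT k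
  refine ⟨ℓ.length, ?_⟩
  intro V hV v hv κ hκ χ
  have : Nonempty κ := ⟨χ u⟩
  obtain ⟨ι, hι, hp⟩ := hM V hV v hv
  obtain ⟨C, hC', w, ι', hw, hι', hp', hram⟩ := compl_list hR hB hbd hC u κ ℓ V hV v ι hv hι hp
  obtain ⟨g, hgS, hgb, hcol⟩ := hram (fun x => χ (w ∘ x))
  refine ⟨w ∘ g, ⟨hw.comp hgS.1, (isEmb_pull.1 hgS).2⟩, ?_⟩
  choose col hcol using hcol
  let f : Fin ℓ.length → κ := fun i => col (ℓ.get i) (List.get_mem ℓ i)
  have hsub : Seen S u v (w ∘ g) χ ⊆ f '' Set.univ := by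
    rintro c ⟨e, he, hes, rfl⟩
    obtain ⟨x, hx, hxp⟩ := hℓ (ι ∘ e) (hι.comp he)
    obtain ⟨i, hi⟩ := List.get_of_mem hx
    refine ⟨i, trivial, ?_⟩
    have h2 := hcol (ℓ.get i) (List.get_mem ℓ i) e (isEmb_pull.2 ⟨he, hes⟩)
      (isEmb_pull.2 ⟨he, by rw [hi]; exact hxp.symm⟩)
    exact h2.symm
  refine (Set.ncard_le_ncard hsub (Set.toFinite _)).trans ((Set.ncard_image_le
    (Set.toFinite _)).trans ?_)
  rw [Set.ncard_univ, Nat.card_fin]

end

end Run7.h77
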