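import Mathlib

/-!
# The partite construction, abstract form

`Sys X I ar` : finite `X`-partite graphs carrying relations indexed by `I` (of arity `ar i`).
`step` : the partite lemma together with one amalgamation step.
-/

set_option autoImplicit false

namespace Run7.h77

open Function

/-- A finite `X`-partite graph carrying a family of relations. -/
structure Sys (X : Type) (I : Type) (ar : I → ℕ) where
  V : Type
  fin : Finite V
  π : V → X
  E : V → V → Prop
  symm : ∀ v w, E v w → E w v
  ne : ∀ v w, E v w → π v ≠ π w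
  S : ∀ i : I, (Fin (ar i) → V) → Prop

namespace Sys

variable {X : Type} {I : Type} {ar : I → ℕ}

/-- A family of vertices is a clique. -/
def Cl (P : Sys X I ar) {J : Type} (y : J → P.V) : Prop := ∀ a b, y a ≠ y b → P.E (y a) (y b)

/-- Embeddings: preserve the parts and the edges, and the relations on cliques. -/
structure Emb (P P' : Sys X I ar) where
  f : P.V → P'.V
  inj : Injective f
  π : ∀ v, P'.π (f v) = P.π v
  E : ∀ v w, P'.E (f v) (f w) ↔ P.E v w
  S : ∀ i (y : Fin (ar i) → P.V), P.Cl y → (P'.S i (f ∘ y) ↔ P.S i y)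

/-- `p` is a copy of `(A, SA)` over `α`. -/
def Point (P : Sys X I ar) {A : Type} (α : A → X) (SA : ∀ i : I, (Fin (ar i) → A) → Prop)
    (p : A → P.V) : Prop :=
  (∀ a, P.π (p a) = α a) ∧ (∀ a b, a ≠ b → P.E (p a) (p b)) ∧
    ∀ i (y : Fin (ar i) → A), P.S i (p ∘ y) ↔ SA i y

/-- Every clique (with one relation) of `P'` is, part by part, a clique of `P`. -/
def Inv (P P' : Sys X I ar) : Prop :=
  (∀ (J : Type) (y : J → P'.V), P'.Cl y → ∃ x : J → P.V, P.Cl x ∧ ∀ a, P.π (x a) = P'.π (y a)) ∧
  (∀ i (y : Fin (ar i) → P'.V), P'.Cl y → ∃ x : Fin (ar i) → P.V, P.Cl x ∧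
    (∀ a, P.π (x a) = P'.π (y a)) ∧ (P'.S i y ↔ P.S i x))

theorem Inv.refl (P : Sys X I ar) : Inv P P :=
  ⟨fun _ y hy => ⟨y, hy, fun _ => rfl⟩, fun _ y hy => ⟨y, hy, fun _ => rfl, Iff.rfl⟩⟩

theorem Inv.trans {P Q R : Sys X I ar} (h₁ : Inv P Q) (h₂ : Inv Q R) : Inv P R := by
  refine ⟨fun J y hy => ?_, fun i y hy => ?_⟩
  · obtain ⟨x, hx, hx'⟩ := h₂.1 J y hy
    obtain ⟨z, hz, hz'⟩ := h₁.1 J x hx
    exact ⟨z, hz, fun a => (hz' a).trans (hx' a)⟩
  · obtain ⟨x, hx, hx', hxS⟩ := h₂.2 i y hy
    obtain ⟨z, hz, hz', hzS⟩ := h₁.2 i x hx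
    exact ⟨z, hz, fun a => (hz' a).trans (hx' a), hxS.trans hzS⟩

theorem E_irrefl (P : Sys X I ar) (v : P.V) : ¬ P.E v v := fun h => P.ne v v h rfl

/-- The identity embedding. -/
def Emb.refl (P : Sys X I ar) : Emb P P :=
  ⟨id, injective_id, fun _ => rfl, fun _ _ => Iff.rfl, fun _ _ _ => Iff.rfl⟩

theorem Emb.cl {P P' : Sys X I ar} (e : Emb P P') {J : Type} {y : J → P.V} (hy : P.Cl y) :
    P'.Cl (e.f ∘ y) := by
  intro a b hab
  exact (e.E _ _).2 (hy a b fun h => hab (congrArg e.f h))

/-- Composition of embeddings. -/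
def Emb.comp {P Q R : Sys X I ar} (g : Emb Q R) (f : Emb P Q) : Emb P R where
  f := g.f ∘ f.f
  inj := g.inj.comp f.inj
  π := fun v => (g.π _).trans (f.π v)
  E := fun v w => (g.E _ _).trans (f.E v w)
  S := fun i y hy => (g.S i (f.f ∘ y) (f.cl hy)).trans (f.S i y hy)

theorem Point.cl {P : Sys X I ar} {A : Type} {α : A → X} {SA : ∀ i : I, (Fin (ar i) → A) → Prop}
    {p : A → P.V} (h : P.Point α SA p) {J : Type} (s : J → A) : P.Cl (p ∘ s) := by
  intro a b hab
  exact h.2.1 _ _ fun h' => hab (congrArg p h')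

theorem Emb.point {P P' : Sys X I ar} (e : Emb P P') {A : Type} {α : A → X}
    {SA : ∀ i : I, (Fin (ar i) → A) → Prop} {p : A → P.V} (h : P.Point α SA p) :
    P'.Point α SA (e.f ∘ p) := by
  refine ⟨fun a => (e.π _).trans (h.1 a), fun a b hab => (e.E _ _).2 (h.2.1 a b hab),
    fun i y => ?_⟩
  exact (e.S i (p ∘ y) (h.cl y)).trans (h.2.2 i y)

section Step

variable (P : Sys X I ar) {A : Type} (α : A → X) (SA : ∀ i : I, (Fin (ar i) → A) → Prop)

/-- the copies over `α` -/
abbrev Pts : Type := {p : A → P.V // P.Point α SA p}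

variable {ι : Type}

/-- product vertices -/
abbrev W (ι : Type) : Type := {w : A × (ι → P.V) // ∀ i, P.π (w.2 i) = α w.1}

/-- the new vertex set -/
abbrev NV (ι : Type) : Type :=
  W P α ι ⊕ (Combinatorics.Line (Pts P α SA) ι × {v : P.V // v ∉ P.π ⁻¹' (Set.range α)})

open Classical in
/-- the index in `A` of a vertex lying over the range of `α` -/
noncomputable def idx (v : P.V) (h : v ∈ P.π ⁻¹' (Set.range α)) : A := Classical.choose h

theorem idx_spec (v : P.V) (h : v ∈ P.π ⁻¹' (Set.range α)) : α (idx P α v h) = P.π v :=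
  Classical.choose_spec h

/-- the coordinates of the image of `v` -/
def coord (l : Combinatorics.Line (Pts P α SA) ι) (a : A) (v : P.V) : ι → P.V :=
  fun i => (l.idxFun i).elim v (fun p => p.1 a)

theorem coord_none {l : Combinatorics.Line (Pts P α SA) ι} {a : A} {v : P.V} {i : ι}
    (h : l.idxFun i = none) : coord P α SA l a v i = v := by
  simp [coord, h]

theorem coord_some {l : Combinatorics.Line (Pts P α SA) ι} {a : A} {v : P.V} {i : ι}
    {p : Pts P α SA} (h : l.idxFun i = some p) : coord P α SA l a v i = p.1 a := by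
  simp [coord, h]

open Classical in
/-- the copy of `P` attached to the line `l` -/
noncomputable def cp (l : Combinatorics.Line (Pts P α SA) ι) (v : P.V) : NV P α SA ι :=
  if h : v ∈ P.π ⁻¹' (Set.range α) then
    Sum.inl ⟨(idx P α v h, coord P α SA l (idx P α v h) v), fun i => by
      show P.π (coord P α SA l (idx P α v h) v i) = α (idx P α v h)
      cases hi : l.idxFun i with
      | none => rw [coord_none P α SA hi]; exact (idx_spec P α v h).symm
      | some p => rw [coord_some P α SA hi]; exact p.2.1 _⟩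
  else Sum.inr (l, ⟨v, h⟩)

theorem cp_pos (l : Combinatorics.Line (Pts P α SA) ι) (v : P.V)
    (h : v ∈ P.π ⁻¹' (Set.range α)) :
    ∃ hw, cp P α SA l v = Sum.inl ⟨(idx P α v h, coord P α SA l (idx P α v h) v), hw⟩ := by
  unfold cp
  rw [dif_pos h]
  exact ⟨_, rfl⟩

theorem cp_neg (l : Combinatorics.Line (Pts P α SA) ι) (v : P.V)
    (h : v ∉ P.π ⁻¹' (Set.range α)) : cp P α SA l v = Sum.inr (l, ⟨v, h⟩) := by
  unfold cp
  rw [dif_neg h]

/-- Two copies meet only in product vertices, and there only in prescribed copies of `A`. -/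
theorem cp_eq {l l' : Combinatorics.Line (Pts P α SA) ι} {J : Type} {x x' : J → P.V}
    (h : ∀ j, cp P α SA l (x j) = cp P α SA l' (x' j)) :
    x = x' ∨ ∃ (p p' : Pts P α SA) (s : J → A), x = p.1 ∘ s ∧ x' = p'.1 ∘ s := by
  by_cases hD : ∀ j, x j ∈ P.π ⁻¹' (Set.range α)
  · have hD' : ∀ j, x' j ∈ P.π ⁻¹' (Set.range α) := by
      intro j
      by_contra hj
      have := h j
      rw [cp_neg P α SA l' _ hj] at this
      obtain ⟨hw, hw'⟩ := cp_pos P α SA l (x j) (hD j)
      rw [hw'] at this
      cases this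
    have key : ∀ j, idx P α (x j) (hD j) = idx P α (x' j) (hD' j) ∧
        ∀ i, coord P α SA l (idx P α (x j) (hD j)) (x j) i =
          coord P α SA l' (idx P α (x' j) (hD' j)) (x' j) i := by
      intro j
      have := h j
      obtain ⟨hw, hw'⟩ := cp_pos P α SA l (x j) (hD j)
      obtain ⟨hw1, hw1'⟩ := cp_pos P α SA l' (x' j) (hD' j)
      rw [hw', hw1'] at this
      have h2 := congrArg Subtype.val (Sum.inl.inj this)
      exact ⟨congrArg Prod.fst h2, fun i => congrFun (congrArg Prod.snd h2) i⟩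
    obtain ⟨i, hi⟩ := l.proper
    obtain ⟨i', hi'⟩ := l'.proper
    cases hli : l'.idxFun i with
    | none =>
      left
      funext j
      have := (key j).2 i
      rwa [coord_none P α SA hi, coord_none P α SA hli] at this
    | some p =>
      cases hli' : l.idxFun i' with
      | none =>
        left
        funext j
        have := (key j).2 i'
        rwa [coord_none P α SA hi', coord_none P α SA hli'] at this
      | some p' =>
        right
        refine ⟨p, p', fun j => idx P α (x j) (hD j), ?_, ?_⟩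
        · funext j
          have := (key j).2 i
          rw [coord_none P α SA hi, coord_some P α SA hli] at this
          rw [this]
          exact congrArg p.1 (key j).1.symm
        · funext j
          have := (key j).2 i'
          rw [coord_none P α SA hi', coord_some P α SA hli'] at this
          rw [← this]
          rfl
  · left
    push Not at hD
    obtain ⟨j₀, hj₀⟩ := hD
    have hj₀' : x' j₀ ∉ P.π ⁻¹' (Set.range α) := by
      intro hj
      have := h j₀
      rw [cp_neg P α SA l _ hj₀] at this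
      obtain ⟨hw, hw'⟩ := cp_pos P α SA l' (x' j₀) hj
      rw [hw'] at this
      cases this
    have h0 := h j₀
    rw [cp_neg P α SA l _ hj₀, cp_neg P α SA l' _ hj₀'] at h0
    have hl : l = l' := congrArg Prod.fst (Sum.inr.inj h0)
    subst hl
    funext j
    have hj := h j
    by_cases hx : x j ∈ P.π ⁻¹' (Set.range α)
    · by_cases hx' : x' j ∈ P.π ⁻¹' (Set.range α)
      · obtain ⟨hw, hw'⟩ := cp_pos P α SA l (x j) hx
        obtain ⟨hw1, hw1'⟩ := cp_pos P α SA l (x' j) hx'
        rw [hw', hw1'] at hj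
        have h2 := congrArg Subtype.val (Sum.inl.inj hj)
        obtain ⟨i, hi⟩ := l.proper
        have h3 := congrFun (congrArg Prod.snd h2) i
        simp only at h3
        rwa [coord_none P α SA hi, coord_none P α SA hi] at h3
      · rw [cp_neg P α SA l _ hx'] at hj
        obtain ⟨hw, hw'⟩ := cp_pos P α SA l (x j) hx
        rw [hw'] at hj
        cases hj
    · by_cases hx' : x' j ∈ P.π ⁻¹' (Set.range α)
      · rw [cp_neg P α SA l _ hx] at hj
        obtain ⟨hw, hw'⟩ := cp_pos P α SA l (x' j) hx'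
        rw [hw'] at hj
        cases hj
      · rw [cp_neg P α SA l _ hx, cp_neg P α SA l _ hx'] at hj
        have := congrArg Prod.snd (Sum.inr.inj hj)
        exact congrArg Subtype.val this

theorem cp_inj (l : Combinatorics.Line (Pts P α SA) ι) : Injective (cp P α SA l) := by
  intro u v huv
  rcases cp_eq P α SA (l := l) (l' := l) (x := fun _ : Unit => u) (x' := fun _ => v)
    (fun _ => huv) with h | ⟨p, p', s, h1, h2⟩
  · exact congrFun h ()
  · -- both are in the product part
    by_cases hu : u ∈ P.π ⁻¹' (Set.range α)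
    · have hv : v ∈ P.π ⁻¹' (Set.range α) := by
        have := congrFun h2 ()
        simp only [comp_apply] at this
        rw [this]
        exact ⟨s (), (p'.2.1 _).symm⟩
      obtain ⟨hw, hw'⟩ := cp_pos P α SA l u hu
      obtain ⟨hw1, hw1'⟩ := cp_pos P α SA l v hv
      rw [hw', hw1'] at huv
      have h2 := congrArg Subtype.val (Sum.inl.inj huv)
      obtain ⟨i, hi⟩ := l.proper
      have h3 := congrFun (congrArg Prod.snd h2) i
      simp only at h3
      rwa [coord_none P α SA hi, coord_none P α SA hi] at h3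
    · exfalso
      apply hu
      have := congrFun h1 ()
      simp only [comp_apply] at this
      rw [this]
      exact ⟨s (), (p.2.1 _).symm⟩

/-- product adjacency -/
def prodE (w w' : W P α ι) : Prop := w.1.1 ≠ w'.1.1 ∧ ∀ i, P.E (w.1.2 i) (w'.1.2 i)

/-- adjacency inherited from the copies -/
def lineE (a b : NV P α SA ι) : Prop :=
  ∃ (l : Combinatorics.Line (Pts P α SA) ι) (u v : P.V),
    a = cp P α SA l u ∧ b = cp P α SA l v ∧ P.E u v

/-- the projection -/
def nπ : NV P α SA ι → X
  | Sum.inl w => α w.1.1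
  | Sum.inr x => P.π x.2.1

theorem nπ_cp (l : Combinatorics.Line (Pts P α SA) ι) (v : P.V) :
    nπ P α SA (cp P α SA l v) = P.π v := by
  by_cases h : v ∈ P.π ⁻¹' (Set.range α)
  · obtain ⟨hw, hw'⟩ := cp_pos P α SA l v h
    rw [hw']
    exact idx_spec P α v h
  · rw [cp_neg P α SA l _ h]
    rfl

/-- adjacency of the new system -/
def nE (a b : NV P α SA ι) : Prop :=
  (∃ w w' : W P α ι, a = Sum.inl w ∧ b = Sum.inl w' ∧ prodE P α w w') ∨ lineE P α SA a b

/-- relations of the new system -/
def nS (i₀ : ι) (i : I) (y : Fin (ar i) → NV P α SA ι) : Prop :=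
  (∃ (l : Combinatorics.Line (Pts P α SA) ι) (x : Fin (ar i) → P.V),
      (∀ j, y j = cp P α SA l (x j)) ∧ P.S i x) ∨
  ((¬ ∃ (l : Combinatorics.Line (Pts P α SA) ι) (x : Fin (ar i) → P.V),
      ∀ j, y j = cp P α SA l (x j)) ∧
    ∃ w : Fin (ar i) → W P α ι, (∀ j, y j = Sum.inl (w j)) ∧ P.S i (fun j => (w j).1.2 i₀))

/-- edges inside a copy, in product coordinates -/
theorem coord_E {l : Combinatorics.Line (Pts P α SA) ι} {u v : P.V}
    (hα : Injective α)
    (hu : u ∈ P.π ⁻¹' (Set.range α)) (hv : v ∈ P.π ⁻¹' (Set.range α)) (huv : P.E u v) (i : ι) :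
    P.E (coord P α SA l (idx P α u hu) u i) (coord P α SA l (idx P α v hv) v i) := by
  cases hi : l.idxFun i with
  | none => rw [coord_none P α SA hi, coord_none P α SA hi]; exact huv
  | some p =>
    rw [coord_some P α SA hi, coord_some P α SA hi]
    apply p.2.2.1
    intro h
    apply P.ne u v huv
    rw [← idx_spec P α u hu, ← idx_spec P α v hv, h]

theorem nE_cp (hα : Injective α) (l : Combinatorics.Line (Pts P α SA) ι) (u v : P.V) :
    nE P α SA (cp P α SA l u) (cp P α SA l v) ↔ P.E u v := by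
  constructor
  · rintro (⟨w, w', h1, h2, h3⟩ | ⟨l', u', v', h1, h2, h3⟩)
    · by_cases hu : u ∈ P.π ⁻¹' (Set.range α)
      · by_cases hv : v ∈ P.π ⁻¹' (Set.range α)
        · obtain ⟨hw, hw'⟩ := cp_pos P α SA l u hu
          obtain ⟨hw1, hw1'⟩ := cp_pos P α SA l v hv
          rw [hw'] at h1
          rw [hw1'] at h2
          have e1 := (Sum.inl.inj h1)
          have e2 := (Sum.inl.inj h2)
          subst e1
          subst e2
          obtain ⟨i, hi⟩ := l.proper
          have := h3.2 i
          simp only at this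
          rwa [coord_none P α SA hi, coord_none P α SA hi] at this
        · rw [cp_neg P α SA l _ hv] at h2
          cases h2
      · rw [cp_neg P α SA l _ hu] at h1
        cases h1
    · rcases cp_eq P α SA (l := l) (l' := l') (x := fun b : Bool => if b then u else v)
        (x' := fun b : Bool => if b then u' else v')
        (by rintro (_ | _) <;> simp [h1, h2]) with h | ⟨p, p', s, e1, e2⟩
      · have hu := congrFun h true
        have hv := congrFun h false
        simp only [if_true] at hu
        simp only [Bool.false_eq_true, if_false] at hv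
        rw [hu, hv]
        exact h3
      · have a1 := congrFun e1 true
        have a2 := congrFun e1 false
        have b1 := congrFun e2 true
        have b2 := congrFun e2 false
        simp only [if_true, Bool.false_eq_true, if_false, comp_apply] at a1 a2 b1 b2
        rw [a1, a2]
        apply p.2.2.1
        intro hs
        rw [b1, b2, hs] at h3
        exact P.E_irrefl _ h3
  · intro h
    exact Or.inr ⟨l, u, v, rfl, rfl, h⟩

/-- the new system -/
noncomputable def NS [Finite A] (hα : Injective α) (i₀ : ι) [Finite ι] : Sys X I ar where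
  V := NV P α SA ι
  fin := by
    have := P.fin
    have : Finite (Combinatorics.Line (Pts P α SA) ι) := by
      apply Finite.of_injective (fun l : Combinatorics.Line (Pts P α SA) ι => l.idxFun)
      rintro ⟨f, hf⟩ ⟨g, hg⟩ h
      simp only at h
      subst h
      rfl
    infer_instance
  π := nπ P α SA
  E := nE P α SA
  symm := by
    rintro a b (⟨w, w', h1, h2, h3⟩ | ⟨l, u, v, h1, h2, h3⟩)
    · exact Or.inl ⟨w', w, h2, h1, h3.1.symm, fun i => P.symm _ _ (h3.2 i)⟩
    · exact Or.inr ⟨l, v, u, h2, h1, P.symm _ _ h3⟩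
  ne := by
    rintro a b (⟨w, w', rfl, rfl, h3⟩ | ⟨l, u, v, rfl, rfl, h3⟩)
    · intro h
      exact h3.1 (hα h)
    · rw [nπ_cp, nπ_cp]
      exact P.ne _ _ h3
  S := nS P α SA i₀

theorem nS_cp (i₀ : ι) (l : Combinatorics.Line (Pts P α SA) ι) (i : I)
    (x : Fin (ar i) → P.V) : nS P α SA i₀ i (fun j => cp P α SA l (x j)) ↔ P.S i x := by
  constructor
  · rintro (⟨l', x', h1, h2⟩ | ⟨h1, -⟩)
    · rcases cp_eq P α SA (l := l) (l' := l') (x := x) (x' := x') h1 with h | ⟨p, p', s, e1, e2⟩
      · rw [h]; exact h2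
      · rw [e2] at h2
        rw [e1]
        exact (p.2.2.2 i s).2 ((p'.2.2.2 i s).1 h2)
    · exact absurd ⟨l, x, fun _ => rfl⟩ h1
  · intro h
    exact Or.inl ⟨l, x, fun _ => rfl, h⟩

/-- the embedding of `P` attached to a line -/
noncomputable def cpEmb [Finite A] (hα : Injective α) (i₀ : ι) [Finite ι]
    (l : Combinatorics.Line (Pts P α SA) ι) : Emb P (NS P α SA hα i₀) where
  f := cp P α SA l
  inj := cp_inj P α SA l
  π := nπ_cp P α SA l
  E := nE_cp P α SA hα l
  S := fun i y _ => nS_cp P α SA i₀ l i y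

/-- A clique meeting the outer part lies in one copy; otherwise it consists of product vertices. -/
theorem clique_cases [Finite A] (hα : Injective α) (i₀ : ι) [Finite ι] {J : Type}
    (y : J → (NS P α SA hα i₀).V) (hy : (NS P α SA hα i₀).Cl y) :
    (∃ (l : Combinatorics.Line (Pts P α SA) ι) (x : J → P.V), (∀ j, y j = cp P α SA l (x j)) ∧
      P.Cl x) ∨
    (∃ w : J → W P α ι, (∀ j, y j = Sum.inl (w j)) ∧ P.Cl (fun j => (w j).1.2 i₀)) := by
  by_cases h : ∃ j₀ x, y j₀ = Sum.inr x
  · left
    obtain ⟨j₀, ⟨l, v⟩, hv⟩ := h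
    have hv' : y j₀ = cp P α SA l v.1 := by
      rw [hv, cp_neg P α SA l v.1 v.2]
    have hall : ∀ j, ∃ x, y j = cp P α SA l x := by
      intro j
      by_cases hj : y j = y j₀
      · exact ⟨v.1, hj.trans hv'⟩
      · rcases hy j j₀ hj with ⟨w, w', h1, h2, h3⟩ | ⟨l', u, u', h1, h2, h3⟩
        · rw [hv] at h2
          cases h2
        · have : l = l' := by
            rw [hv] at h2
            by_cases hu' : u' ∈ P.π ⁻¹' (Set.range α)
            · obtain ⟨hw, hw'⟩ := cp_pos P α SA l' u' hu'
              rw [hw'] at h2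
              cases h2
            · rw [cp_neg P α SA l' _ hu'] at h2
              exact congrArg Prod.fst (Sum.inr.inj h2)
          subst this
          exact ⟨u, h1⟩
    choose x hx using hall
    refine ⟨l, x, hx, ?_⟩
    intro a b hab
    have : y a ≠ y b := by
      rw [hx a, hx b]
      exact fun h' => hab (cp_inj P α SA l h')
    have h2 := hy a b this
    rw [hx a, hx b] at h2
    exact (nE_cp P α SA hα l _ _).1 h2
  · right
    have hall : ∀ j, ∃ w, y j = Sum.inl w := by
      intro j
      cases hj : y j with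
      | inl w => exact ⟨w, rfl⟩
      | inr x => exact absurd ⟨j, x, hj⟩ h
    choose w hw using hall
    refine ⟨w, hw, ?_⟩
    intro a b hab
    show P.E ((w a).1.2 i₀) ((w b).1.2 i₀)
    have hne : y a ≠ y b := by
      rw [hw a, hw b]
      intro h'
      apply hab
      show (w a).1.2 i₀ = (w b).1.2 i₀
      rw [Sum.inl.inj h']
    rcases hy a b hne with ⟨w1, w2, h1, h2, h3⟩ | ⟨l, u, v, h1, h2, h3⟩
    · rw [hw a] at h1
      rw [hw b] at h2
      rw [Sum.inl.inj h1, Sum.inl.inj h2]
      exact h3.2 i₀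
    · rw [hw a] at h1
      rw [hw b] at h2
      by_cases hu : u ∈ P.π ⁻¹' (Set.range α)
      · by_cases hv : v ∈ P.π ⁻¹' (Set.range α)
        · obtain ⟨hc, hc'⟩ := cp_pos P α SA l u hu
          obtain ⟨hd, hd'⟩ := cp_pos P α SA l v hv
          rw [hc'] at h1
          rw [hd'] at h2
          rw [Sum.inl.inj h1, Sum.inl.inj h2]
          exact coord_E P α SA hα hu hv h3 i₀
        · rw [cp_neg P α SA l _ hv] at h2
          cases h2
      · rw [cp_neg P α SA l _ hu] at h1
        cases h1

theorem inv_NS [Finite A] (hα : Injective α) (i₀ : ι) [Finite ι] :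
    Inv P (NS P α SA hα i₀) := by
  refine ⟨fun J y hy => ?_, fun i y hy => ?_⟩
  · rcases clique_cases P α SA hα i₀ y hy with ⟨l, x, h1, h2⟩ | ⟨w, h1, h2⟩
    · refine ⟨x, h2, fun a => ?_⟩
      rw [h1 a]
      exact (nπ_cp P α SA l (x a)).symm
    · refine ⟨_, h2, fun a => ?_⟩
      rw [h1 a]
      exact (w a).2 i₀
  · by_cases hc : ∃ (l : Combinatorics.Line (Pts P α SA) ι) (x : Fin (ar i) → P.V),
      ∀ j, y j = cp P α SA l (x j)
    · obtain ⟨l, x, h1⟩ := hc
      have hyx : y = fun j => cp P α SA l (x j) := funext h1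
      refine ⟨x, ?_, fun a => ?_, ?_⟩
      · intro a b hab
        have : y a ≠ y b := by
          rw [h1 a, h1 b]
          exact fun h' => hab (cp_inj P α SA l h')
        have h2 := hy a b this
        rw [h1 a, h1 b] at h2
        exact (nE_cp P α SA hα l _ _).1 h2
      · rw [h1 a]
        exact (nπ_cp P α SA l (x a)).symm
      · subst hyx
        exact nS_cp P α SA i₀ l i x
    · rcases clique_cases P α SA hα i₀ y hy with ⟨l, x, h1, h2⟩ | ⟨w, h1, h2⟩
      · exact absurd ⟨l, x, h1⟩ hc
      · refine ⟨_, h2, fun a => ?_, ?_⟩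
        · rw [h1 a]
          exact (w a).2 i₀
        · constructor
          · rintro (⟨l, x, h3, -⟩ | ⟨-, w', h3, h4⟩)
            · exact absurd ⟨l, x, h3⟩ hc
            · have : w' = w := by
                funext j
                have := h3 j
                rw [h1 j] at this
                exact (Sum.inl.inj this).symm
              rw [this] at h4
              exact h4
          · intro h3
            exact Or.inr ⟨hc, w, h1, h3⟩

end Step

/-- The partite lemma plus one amalgamation step. -/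
theorem step (P : Sys X I ar) {A : Type} [Finite A] (α : A → X) (hα : Injective α)
    (SA : ∀ i : I, (Fin (ar i) → A) → Prop) (κ : Type) [Finite κ] [Nonempty κ] :
    ∃ P' : Sys X I ar, Inv P P' ∧ ∀ χ : (A → P'.V) → κ, ∃ (f : Emb P P') (col : κ),
      ∀ p, P.Point α SA p → χ (f.f ∘ p) = col := by
  classical
  by_cases hΛ : Nonempty (Pts P α SA)
  · have := P.fin
    obtain ⟨ι, hι, hHJ⟩ := Combinatorics.Line.exists_mono_in_high_dimension (Pts P α SA) κ
    obtain ⟨l₀, -⟩ := hHJ (fun _ => Classical.arbitrary κ)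
    obtain ⟨i₀, -⟩ := l₀.proper
    refine ⟨NS P α SA hα i₀, inv_NS P α SA hα i₀, fun χ => ?_⟩
    obtain ⟨l, col, hl⟩ := hHJ (fun w => χ (fun a =>
      (Sum.inl ⟨(a, fun i => (w i).1 a), fun i => (w i).2.1 a⟩ : NV P α SA ι)))
    refine ⟨cpEmb P α SA hα i₀ l, col, fun p hp => ?_⟩
    rw [← hl ⟨p, hp⟩]
    congr 1
    funext a
    show cp P α SA l (p a) = _
    have hmem : p a ∈ P.π ⁻¹' (Set.range α) := ⟨a, (hp.1 a).symm⟩
    obtain ⟨hw, hw'⟩ := cp_pos P α SA l (p a) hmem
    rw [hw']
    have hidx : idx P α (p a) hmem = a := hα ((idx_spec P α (p a) hmem).trans (hp.1 a))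
    congr 1
    apply Subtype.ext
    show (idx P α (p a) hmem, coord P α SA l (idx P α (p a) hmem) (p a)) = (a, _)
    rw [hidx]
    congr 1
    funext i
    simp only [Combinatorics.Line.coe_apply]
    cases hi : l.idxFun i with
    | none => rw [coord_none P α SA hi]; simp
    | some q => rw [coord_some P α SA hi]; simp
  · refine ⟨P, Inv.refl P, fun χ => ⟨Emb.refl P, Classical.arbitrary κ, fun p hp => ?_⟩⟩
    exact absurd ⟨⟨p, hp⟩⟩ hΛ

/-- Iteration of `step` over a list of positions. -/
theorem iter (P : Sys X I ar) {A : Type} [Finite A]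
    (SA : ∀ i : I, (Fin (ar i) → A) → Prop) (κ : Type) [Finite κ] [Nonempty κ]
    (l : List (A → X)) (hl : ∀ α ∈ l, Injective α) :
    ∃ P' : Sys X I ar, Inv P P' ∧ ∀ χ : (A → P'.V) → κ, ∃ (f : Emb P P') (col : (A → X) → κ),
      ∀ α ∈ l, ∀ p, P.Point α SA p → χ (f.f ∘ p) = col α := by
  classical
  induction l with
  | nil =>
    exact ⟨P, Inv.refl P, fun χ => ⟨Emb.refl P, fun _ => Classical.arbitrary κ, by simp⟩⟩
  | cons α₀ l ih =>
    obtain ⟨P₁, hP₁, h₁⟩ := ih fun α hα => hl α (List.mem_cons_of_mem _ hα)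
    obtain ⟨P₂, hP₂, h₂⟩ := step P₁ α₀ (hl α₀ (List.mem_cons_self ..)) SA κ
    refine ⟨P₂, hP₁.trans hP₂, fun χ => ?_⟩
    obtain ⟨g, c₀, hg⟩ := h₂ χ
    obtain ⟨f, col, hf⟩ := h₁ (fun p => χ (g.f ∘ p))
    refine ⟨g.comp f, fun α => if α = α₀ then c₀ else col α, fun α hα p hp => ?_⟩
    by_cases h : α = α₀
    · subst h
      simp only [if_true]
      exact hg (f.f ∘ p) (f.point hp)
    · simp only [if_neg h]
      rcases List.mem_cons.1 hα with h' | h'
      · exact absurd h' h
      · exact hf α h' p hp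

end Sys

end Run7.h77
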