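import Pool.Agent.Run7.h77.Lang

/-!
# Finite Ramsey degrees and syndetic colourings
-/

set_option autoImplicit false

namespace Run7.h77

open Function

section

variable {I : Type} {ar : I → ℕ} {M : Type}

/-- `g` is a copy of the family `v`. -/
def Copy (S : RS I ar M) {V : Type} (v g : V → M) : Prop := Injective g ∧ pull S g = pull S v

/-- The colours seen by the copies of `u` inside the copy `g` of `v`. -/
def Seen (S : RS I ar M) {k : ℕ} (u : Fin k → M) {V : Type} (v g : V → M) {κ : Type}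
    (χ : (Fin k → M) → κ) : Set κ :=
  {c | ∃ e : Fin k → V, Injective e ∧ pull S (v ∘ e) = pull S u ∧ χ (g ∘ e) = c}

/-- The Ramsey degree of `u` is at most `t`. -/
def DegLE (S : RS I ar M) {k : ℕ} (u : Fin k → M) (t : ℕ) : Prop :=
  ∀ (V : Type) (_ : Finite V) (v : V → M), Injective v → ∀ (κ : Type) (_ : Finite κ)
    (χ : (Fin k → M) → κ), ∃ g : V → M, Copy S v g ∧ (Seen S u v g χ).ncard ≤ t

theorem Copy.refl {S : RS I ar M} {V : Type} {v : V → M} (hv : Injective v) : Copy S v v :=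
  ⟨hv, rfl⟩

theorem Copy.comp {S : RS I ar M} {V W : Type} {v g : V → M} (h : Copy S v g) (f : W → V)
    (hf : Injective f) : Copy S (v ∘ f) (g ∘ f) :=
  ⟨h.1.comp hf, by rw [pull_comp, h.2, pull_comp]⟩

/-- limits along ultrafilters in finite types -/
theorem ulim {α κ : Type} [Finite κ] (𝒰 : Ultrafilter α) (f : α → κ) :
    ∃ c, ∀ᶠ a in (𝒰 : Filter α), f a = c :=
  (Ultrafilter.eventually_exists_iff (P := fun c a => f a = c)).1
    (Filter.Eventually.of_forall fun a => ⟨f a, rfl⟩)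

/-- an ultrafilter on the finite subsets of `M` -/
noncomputable def uf (M : Type) : Ultrafilter (Finset M) := Ultrafilter.of Filter.atTop

theorem uf_mem {M : Type} (m : M) : ∀ᶠ F in (uf M : Filter (Finset M)), m ∈ F := by
  have h : ∀ᶠ F in (Filter.atTop : Filter (Finset M)), m ∈ F := by
    filter_upwards [Filter.eventually_ge_atTop ({m} : Finset M)] with F hF
    exact hF (Finset.mem_singleton_self m)
  exact Ultrafilter.of_le _ h

theorem uf_mem_all {M : Type} {V : Type} [Finite V] (f : V → M) :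
    ∀ᶠ F in (uf M : Filter (Finset M)), ∀ v, f v ∈ F :=
  Filter.eventually_all.2 fun v => uf_mem (f v)

theorem seen_congr {S : RS I ar M} {k : ℕ} {u : Fin k → M} {V : Type} {v g g' : V → M} {κ : Type}
    {χ χ' : (Fin k → M) → κ} (h : ∀ e : Fin k → V, χ (g ∘ e) = χ' (g' ∘ e)) :
    Seen S u v g χ = Seen S u v g' χ' := by
  ext c
  constructor
  · rintro ⟨e, h1, h2, h3⟩
    exact ⟨e, h1, h2, by rw [← h]; exact h3⟩
  · rintro ⟨e, h1, h2, h3⟩
    exact ⟨e, h1, h2, by rw [h]; exact h3⟩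

/-- The finite version of the degree bound. -/
theorem DegLE.fin {S : RS I ar M} {k : ℕ} {u : Fin k → M} {t : ℕ} (h : DegLE S u t) {V : Type}
    [Finite V] (v : V → M) (hv : Injective v) (κ : Type) [Finite κ] :
    ∃ F : Finset M, ∀ χ : (Fin k → M) → κ, ∃ g : V → M, (∀ a, g a ∈ F) ∧ Copy S v g ∧
      (Seen S u v g χ).ncard ≤ t := by
  by_contra hcon
  push Not at hcon
  choose χ hχ using hcon
  choose χ' hχ' using fun x : Fin k → M => ulim (uf M) (fun F => χ F x)
  obtain ⟨g, hg, hgt⟩ := h V ‹_› v hv κ ‹_› χ'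
  have h1 : ∀ᶠ F in (uf M : Filter (Finset M)), ∀ e : Fin k → V, χ F (g ∘ e) = χ' (g ∘ e) :=
    Filter.eventually_all.2 fun e => hχ' (g ∘ e)
  obtain ⟨F, hF1, hF2⟩ := (h1.and (uf_mem_all g)).exists
  have h2 := hχ F g hF2 hg
  rw [seen_congr (χ' := χ') (g' := g) hF1] at h2
  omega

/-- A syndetic colouring with as many colours as the degree. -/
theorem exists_synd {S : RS I ar M} {k : ℕ} {u : Fin k → M} (hu : Injective u)
    (h : ∃ t, DegLE S u t) :
    ∃ t : ℕ, DegLE S u t ∧ ∃ col : (Fin k → M) → ℕ, (∀ x, col x < t) ∧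
      ∃ D : Finset M, ∀ g : D → M, Copy S (fun a : D => a.1) g → ∀ c < t, ∃ e : Fin k → D,
        Injective e ∧ pull S (fun j => (e j).1) = pull S u ∧ col (g ∘ e) = c := by
  classical
  let t := Nat.find h
  have ht : DegLE S u t := Nat.find_spec h
  have htpos : 0 < t := by
    by_contra h0
    have h0' : t = 0 := by omega
    rw [h0'] at ht
    obtain ⟨g, hg, hgt⟩ := ht (Fin k) inferInstance u hu Unit inferInstance (fun _ => ())
    have hne : (Seen S u u g (fun _ => ())).Nonempty := ⟨(), id, injective_id, rfl, rfl⟩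
    have := (Set.ncard_pos (Set.toFinite _)).2 hne
    omega
  have hmin : ¬ DegLE S u (t - 1) := Nat.find_min h (by omega)
  simp only [DegLE, not_forall] at hmin
  obtain ⟨V, hV, v, hv, κ, hκ, χ, hmin⟩ := hmin
  push Not at hmin
  -- copies of finite subsets with few colours
  have hF : ∀ F : Finset M, ∃ g : F → M, Copy S (fun a : F => a.1) g ∧
      (Seen S u (fun a : F => a.1) g χ).ncard ≤ t := fun F =>
    ht F inferInstance (fun a : F => a.1) Subtype.val_injective κ hκ χ
  choose g hg hgt using hF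
  obtain ⟨C, hC⟩ := ulim (uf M) (fun F => Seen S u (fun a : F => a.1) (g F) χ)
  have hCt : C.ncard ≤ t := by
    obtain ⟨F, hF⟩ := hC.exists
    rw [← hF]
    exact hgt F
  -- the limit colouring
  let f : Finset M → (Fin k → M) → κ := fun F x =>
    if hx : ∀ j, x j ∈ F then χ (g F ∘ fun j => ⟨x j, hx j⟩) else χ x
  choose χ' hχ' using fun x : Fin k → M => ulim (uf M) (fun F => f F x)
  have hχC : ∀ x, Injective x → pull S x = pull S u → χ' x ∈ C := by
    intro x hx hxu
    obtain ⟨F, ⟨h1, h2⟩, h3⟩ := ((hC.and (hχ' x)).and (uf_mem_all x)).exists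
    rw [← h1, ← h2]
    simp only [f, dif_pos h3]
    exact ⟨fun j => ⟨x j, h3 j⟩, fun i j hij => hx (congrArg Subtype.val hij), hxu, rfl⟩
  have hall : ∀ w : V → M, Copy S v w → Seen S u v w χ' = C := by
    intro w hw
    have h1 : ∀ᶠ F in (uf M : Filter (Finset M)), ∀ e : Fin k → V, f F (w ∘ e) = χ' (w ∘ e) :=
      Filter.eventually_all.2 fun e => hχ' (w ∘ e)
    obtain ⟨F, h2, h3⟩ := (h1.and (uf_mem_all w)).exists
    have h4 : Copy S v (g F ∘ fun a => ⟨w a, h3 a⟩) := by
      refine ⟨(hg F).1.comp (fun a a' h => hw.1 (congrArg Subtype.val h)), ?_⟩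
      rw [pull_comp, (hg F).2, ← pull_comp]
      exact hw.2
    have h5 := hmin _ h4
    have h6 : Seen S u v (g F ∘ fun a => ⟨w a, h3 a⟩) χ = Seen S u v w χ' := by
      apply seen_congr
      intro e
      rw [← h2 e]
      have h7 : ∀ j, (w ∘ e) j ∈ F := fun j => h3 (e j)
      simp only [f, dif_pos h7]
      rfl
    rw [h6] at h5
    apply Set.eq_of_subset_of_ncard_le _ _ (Set.toFinite _)
    · rintro c ⟨e, h8, h9, rfl⟩
      refine hχC _ (hw.1.comp h8) ?_
      rw [pull_comp, hw.2, ← pull_comp, h9]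
    · omega
  have hCt' : C.ncard = t := by
    have h1 := hmin v (Copy.refl hv)
    have h2 : ∀ w : V → M, Copy S v w → t - 1 < (Seen S u v w χ').ncard := by
      intro w hw
      have h1 : ∀ᶠ F in (uf M : Filter (Finset M)), ∀ e : Fin k → V, f F (w ∘ e) = χ' (w ∘ e) :=
        Filter.eventually_all.2 fun e => hχ' (w ∘ e)
      obtain ⟨F, h2, h3⟩ := (h1.and (uf_mem_all w)).exists
      have h4 : Copy S v (g F ∘ fun a => ⟨w a, h3 a⟩) := by
        refine ⟨(hg F).1.comp (fun a a' h => hw.1 (congrArg Subtype.val h)), ?_⟩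
        rw [pull_comp, (hg F).2, ← pull_comp]
        exact hw.2
      have h5 := hmin _ h4
      have h6 : Seen S u v (g F ∘ fun a => ⟨w a, h3 a⟩) χ = Seen S u v w χ' := by
        apply seen_congr
        intro e
        rw [← h2 e]
        have h7 : ∀ j, (w ∘ e) j ∈ F := fun j => h3 (e j)
        simp only [f, dif_pos h7]
        rfl
      rw [h6] at h5
      exact h5
    have h3 := h2 v (Copy.refl hv)
    rw [hall v (Copy.refl hv)] at h3
    omega
  -- enumerate `C`
  have hcard : Nat.card C = t := hCt'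
  have : Finite C := Set.toFinite C
  let en : C ≃ Fin t := Finite.equivFinOfCardEq hcard
  refine ⟨t, ht, fun x => if hx : χ' x ∈ C then (en ⟨χ' x, hx⟩ : ℕ) else 0, ?_, ?_⟩
  · intro x
    by_cases hx : χ' x ∈ C
    · simp only [dif_pos hx]
      exact (en ⟨χ' x, hx⟩).2
    · simp only [dif_neg hx]
      exact htpos
  · let D : Finset M := (Set.finite_range v).toFinset
    have hD : ∀ a, v a ∈ D := fun a => by simp [D]
    refine ⟨D, fun w hw c hc => ?_⟩
    have h1 : Copy S v (w ∘ fun a => ⟨v a, hD a⟩) := by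
      refine ⟨hw.1.comp (fun a a' h => hv (congrArg Subtype.val h)), ?_⟩
      rw [pull_comp, hw.2]
      rfl
    have h2 := hall _ h1
    have h3 : (en.symm ⟨c, hc⟩ : κ) ∈ Seen S u v (w ∘ fun a => ⟨v a, hD a⟩) χ' := by
      rw [h2]
      exact (en.symm ⟨c, hc⟩).2
    obtain ⟨e, h4, h5, h6⟩ := h3
    refine ⟨fun j => ⟨v (e j), hD _⟩, fun i j hij => h4 (hv (congrArg Subtype.val hij)), h5, ?_⟩
    have h7 : χ' (w ∘ fun j => (⟨v (e j), hD _⟩ : D)) = (en.symm ⟨c, hc⟩ : κ) := h6
    have h8 : χ' (w ∘ fun j => (⟨v (e j), hD _⟩ : D)) ∈ C := by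
      rw [h7]
      exact (en.symm ⟨c, hc⟩).2
    simp only [dif_pos h8]
    have h9 : (⟨_, h8⟩ : C) = en.symm ⟨c, hc⟩ := Subtype.ext h7
    rw [h9]
    simp

end

end Run7.h77
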