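import Pool.Agent.Run7.h901.Main
import Pool.Agent.Run7.h901.Univ

/-!
Existence of the countable generic `K_m`-free graphs and of the random graph.
-/

open scoped Classical

namespace Run7.h77.EX

open Run7.h901

/-- add the edges from `n` to the members of `A`. -/
def addV (H : SimpleGraph ℕ) (n : ℕ) (A : Finset ℕ) : SimpleGraph ℕ where
  Adj i j := H.Adj i j ∨ (i = n ∧ j ∈ A ∧ j ≠ n) ∨ (j = n ∧ i ∈ A ∧ i ≠ n)
  symm := ⟨fun i j h => by
    rcases h with h | h | h
    · exact Or.inl h.symm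
    · exact Or.inr (Or.inr h)
    · exact Or.inr (Or.inl h)⟩
  loopless := ⟨fun i h => by
    rcases h with h | h | h
    · exact H.irrefl h
    · exact h.2.2 h.1
    · exact h.2.2 h.1⟩

/-- an enumeration of the finite sets. -/
noncomputable def en (n : ℕ) : Finset ℕ :=
  ((Encodable.decode n : Option (ℕ × Finset ℕ)).getD (0, ∅)).2

theorem en_inf (A : Finset ℕ) (N : ℕ) : ∃ n, N ≤ n ∧ en n = A := by
  have hinj : Function.Injective (fun k : ℕ => Encodable.encode ((k, A) : ℕ × Finset ℕ)) := by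
    intro k l h
    exact (congrArg Prod.fst (Encodable.encode_injective h) :)
  obtain ⟨n, hn, hN⟩ := (Set.infinite_range_of_injective hinj).exists_gt N
  obtain ⟨k, rfl⟩ := hn
  refine ⟨_, hN.le, ?_⟩
  simp only [en, Encodable.encodek, Option.getD_some]

/-- the set of earlier neighbours of `n`. -/
noncomputable def nb (ok : SimpleGraph ℕ → Finset ℕ → Prop) (H : SimpleGraph ℕ) (n : ℕ) :
    Finset ℕ :=
  if ok H ((en n).filter (fun i => i < n)) then (en n).filter (fun i => i < n) else ∅

/-- the stages. -/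
noncomputable def stage (ok : SimpleGraph ℕ → Finset ℕ → Prop) : ℕ → SimpleGraph ℕ
  | 0 => ⊥
  | n + 1 => addV (stage ok n) n (nb ok (stage ok n) n)

variable {ok : SimpleGraph ℕ → Finset ℕ → Prop}

theorem nb_lt {H : SimpleGraph ℕ} {n i : ℕ} (h : i ∈ nb ok H n) : i < n := by
  unfold nb at h
  split_ifs at h
  · exact (Finset.mem_filter.1 h).2
  · simp at h

theorem stage_lt (n : ℕ) : ∀ {i j}, (stage ok n).Adj i j → i < n ∧ j < n := by
  induction n with
  | zero => intro i j h; simp [stage] at h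
  | succ n ih =>
    intro i j h
    rcases h with h | ⟨rfl, h, -⟩ | ⟨rfl, h, -⟩
    · exact ⟨(ih h).1.trans (Nat.lt_succ_self n), (ih h).2.trans (Nat.lt_succ_self n)⟩
    · exact ⟨Nat.lt_succ_self _, (nb_lt h).trans (Nat.lt_succ_self _)⟩
    · exact ⟨(nb_lt h).trans (Nat.lt_succ_self _), Nat.lt_succ_self _⟩

theorem stage_succ {n i j : ℕ} (hi : i < n) (hj : j < n) :
    (stage ok (n + 1)).Adj i j ↔ (stage ok n).Adj i j := by
  constructor
  · rintro (h | ⟨rfl, h, -⟩ | ⟨rfl, h, -⟩)
    · exact h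
    · exact absurd hi (lt_irrefl _)
    · exact absurd hj (lt_irrefl _)
  · exact fun h => Or.inl h

theorem stage_le {n k i j : ℕ} (hi : i < n) (hj : j < n) (hk : n ≤ k) :
    (stage ok k).Adj i j ↔ (stage ok n).Adj i j := by
  induction k, hk using Nat.le_induction with
  | base => exact Iff.rfl
  | succ k hk ih => rw [stage_succ (hi.trans_le hk) (hj.trans_le hk), ih]

/-- the limit graph. -/
noncomputable def lim (ok : SimpleGraph ℕ → Finset ℕ → Prop) : SimpleGraph ℕ where
  Adj i j := (stage ok (i + j + 1)).Adj i j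
  symm := ⟨fun i j h => by rw [add_comm j i]; exact h.symm⟩
  loopless := ⟨fun i h => (stage ok _).irrefl h⟩

theorem lim_adj {n i j : ℕ} (hi : i < n) (hj : j < n) :
    (lim ok).Adj i j ↔ (stage ok n).Adj i j := by
  show (stage ok (i + j + 1)).Adj i j ↔ _
  rcases le_total n (i + j + 1) with h | h
  · exact stage_le hi hj h
  · exact (stage_le (by omega) (by omega) h).symm

theorem lim_nb {n i : ℕ} (hi : i < n) : (lim ok).Adj n i ↔ i ∈ nb ok (stage ok n) n := by
  rw [lim_adj (n := n + 1) (Nat.lt_succ_self n) (by omega)]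
  constructor
  · rintro (h | ⟨-, h, -⟩ | ⟨h, -, -⟩)
    · exact absurd (stage_lt n h).1 (lt_irrefl _)
    · exact h
    · omega
  · intro h
    exact Or.inr (Or.inl ⟨rfl, h, by omega⟩)

theorem lim_ext (A B : Finset ℕ) (hAB : Disjoint A B)
    (hok : ∀ n, (∀ a ∈ A, a < n) → ok (stage ok n) A) :
    ∃ v, v ∉ A ∧ v ∉ B ∧ (∀ a ∈ A, (lim ok).Adj v a) ∧ ∀ b ∈ B, ¬ (lim ok).Adj v b := by
  obtain ⟨n, hn, he⟩ := en_inf A ((A ∪ B).sup id + 1)
  have hlt : ∀ a ∈ A ∪ B, a < n := fun a ha =>
    lt_of_lt_of_le (Nat.lt_succ_of_le (Finset.le_sup (f := id) ha)) hn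
  have hA : ∀ a ∈ A, a < n := fun a ha => hlt a (Finset.mem_union_left _ ha)
  have hB : ∀ a ∈ B, a < n := fun a ha => hlt a (Finset.mem_union_right _ ha)
  have hf : (en n).filter (fun i => i < n) = A := by
    rw [he, Finset.filter_true_of_mem hA]
  have hnb : nb ok (stage ok n) n = A := by
    unfold nb
    rw [hf, if_pos (hok n hA)]
  refine ⟨n, fun h => lt_irrefl _ (hA n h), fun h => lt_irrefl _ (hB n h), fun a ha => ?_,
    fun b hb => ?_⟩
  · rw [lim_nb (hA a ha), hnb]; exact ha
  · rw [lim_nb (hB b hb), hnb]; exact Finset.disjoint_right.1 hAB hb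

theorem exists_rado : RadoExt (lim (fun _ _ => True)) :=
  fun A B hAB => lim_ext A B hAB (fun _ _ => trivial)

theorem exists_gen (m : ℕ) (hm : 2 ≤ m) :
    GenericCliqueFree (lim (fun H A => H.CliqueFreeOn (A : Set ℕ) (m - 1))) m := by
  constructor
  · intro t ht
    have hne : t.Nonempty := by rw [← Finset.card_pos, ht.2]; omega
    set n := t.max' hne with hn
    have hnt : n ∈ t := t.max'_mem hne
    have hlt : ∀ a ∈ t.erase n, a < n := by
      intro a ha
      exact lt_of_le_of_ne (t.le_max' a (Finset.mem_of_mem_erase ha)) (Finset.ne_of_mem_erase ha)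
    have hsub : ∀ a ∈ t.erase n, a ∈ nb (fun H A => H.CliqueFreeOn (A : Set ℕ) (m - 1))
        (stage (fun H A => H.CliqueFreeOn (A : Set ℕ) (m - 1)) n) n := by
      intro a ha
      rw [← lim_nb (hlt a ha)]
      exact ht.1 hnt (Finset.mem_of_mem_erase ha) (Finset.ne_of_mem_erase ha).symm
    have hcl : (stage (fun H A => H.CliqueFreeOn (A : Set ℕ) (m - 1)) n).IsNClique (m - 1)
        (t.erase n) := by
      constructor
      · intro a ha b hb hab
        rw [← lim_adj (hlt a ha) (hlt b hb)]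
        exact ht.1 (Finset.mem_of_mem_erase ha) (Finset.mem_of_mem_erase hb) hab
      · rw [Finset.card_erase_of_mem hnt, ht.2]
    unfold nb at hsub
    split_ifs at hsub with h
    · exact h (fun a ha => hsub a ha) hcl
    · have h0 : (t.erase n).Nonempty := by rw [← Finset.card_pos, hcl.2]; omega
      obtain ⟨a, ha⟩ := h0
      have := hsub a ha
      simp at this
  · intro A B hAB hA
    refine lim_ext A B hAB (fun n hn => ?_)
    intro t ht hc
    refine hA ht ⟨?_, hc.2⟩
    intro a ha b hb hab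
    rw [lim_adj (hn a (ht ha)) (hn b (ht hb))]
    exact hc.1 ha hb hab

end Run7.h77.EX
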