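import Pool.Agent.Run7.h77.Homog
import Pool.Agent.Run7.h77.Comb

/-!
# Finite Ramsey degrees and homogeneous Ramsey expansions with finitely many types
-/

set_option autoImplicit false

namespace Run7.h77

open Function

section

variable {I : Type} {ar : I → ℕ} {I₀ : Type} {ar₀ : I₀ → ℕ} {M N : Type}

/-- transfer of the Ramsey property between structures with the same age -/
theorem ramseyF_transfer {Ψ : RS I₀ ar₀ M} {b : RS I₀ ar₀ N}
    (h1 : ∀ (V : Type) (_ : Finite V) (f : V → M), Injective f → ∃ h : V → N, Injective h ∧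
      pull Ψ f = pull b h)
    (h2 : ∀ (V : Type) (_ : Finite V) (h : V → N), Injective h → ∃ f : V → M, Injective f ∧
      pull Ψ f = pull b h)
    (hR : RamseyF b) : RamseyF Ψ := by
  intro A B hA hB u v hu hv κ hκ hκ'
  obtain ⟨u', hu', hu''⟩ := h1 A hA u hu
  obtain ⟨v', hv', hv''⟩ := h1 B hB v hv
  obtain ⟨C, hC, w', hw', hram⟩ := hR A B hA hB u' v' hu' hv' κ hκ hκ'
  obtain ⟨w, hw, hw''⟩ := h2 C hC w' hw'
  refine ⟨C, hC, w, hw, fun χ => ?_⟩
  rw [hu'', hv'', hw'']
  exact hram χ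

theorem univ_of_ext0 {Ψ : RS I₀ ar₀ M} {b : RS I₀ ar₀ M}
    (h1 : ∀ (V : Type) (_ : Finite V) (f : V → M), Injective f → ∃ h : V → M, Injective h ∧
      pull Ψ f = pull b h)
    (h2 : ∀ (k : ℕ) (w : Fin k → M) (z : Fin (k + 1) → M), Injective w → Injective z →
        pull Ψ w = pull b (z ∘ Fin.castSucc) → ∃ y, (∀ j, w j ≠ y) ∧
          pull Ψ (Fin.snoc (α := fun _ => M) w y) = pull b z) :
    ∀ (V : Type) (_ : Finite V) (h : V → M), Injective h → ∃ f : V → M, Injective f ∧
      pull Ψ f = pull b h := by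
  have main : ∀ (k : ℕ) (z : Fin k → M), Injective z → ∃ f : Fin k → M, Injective f ∧
      pull Ψ f = pull b z := by
    intro k
    induction k with
    | zero =>
      intro z hz
      obtain ⟨h, hh, hp⟩ := h1 (Fin 0) inferInstance z hz
      refine ⟨z, hz, ?_⟩
      rw [hp]
      have : h = z := funext fun a => Fin.elim0 a
      rw [this]
    | succ k ih =>
      intro z hz
      obtain ⟨w, hw, hwz⟩ := ih (z ∘ Fin.castSucc) (hz.comp (Fin.castSucc_injective k))
      obtain ⟨y, hy, hyz⟩ := h2 k w z hw hz hwz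
      exact ⟨Fin.snoc (α := fun _ => M) w y, snoc_injective hw hy, hyz⟩
  intro V hV h hh
  obtain ⟨k, ⟨e⟩⟩ := Finite.exists_equiv_fin V
  obtain ⟨f, hf, hfz⟩ := main k (h ∘ e.symm) (hh.comp e.symm.injective)
  refine ⟨f ∘ e, hf.comp e.injective, ?_⟩
  rw [pull_comp, hfz, ← pull_comp]
  congr 1
  funext a
  simp

theorem ext1_of_ext0 {Ψ : RS I₀ ar₀ M}
    (h2 : ∀ (k : ℕ) (w : Fin k → M) (x : Fin (k + 1) → M), Injective w → Injective x →
        pull Ψ w = pull Ψ (x ∘ Fin.castSucc) → ∃ y, (∀ j, w j ≠ y) ∧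
          pull Ψ (Fin.snoc (α := fun _ => M) w y) = pull Ψ x) : Ext1 Ψ := by
  intro V hV w x x' hw hx hx' hwx
  obtain ⟨k, ⟨e⟩⟩ := Finite.exists_equiv_fin V
  have hinj : Injective (Fin.snoc (α := fun _ => M) (x ∘ e.symm) x') :=
    snoc_injective (hx.comp e.symm.injective) (fun j => hx' _)
  obtain ⟨y, hy, hyb⟩ := h2 k (w ∘ e.symm) (Fin.snoc (α := fun _ => M) (x ∘ e.symm) x')
    (hw.comp e.symm.injective) hinj (by
      have : (Fin.snoc (α := fun _ => M) (x ∘ e.symm) x') ∘ Fin.castSucc = x ∘ e.symm := by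
        funext i
        simp
      rw [this, pull_comp, pull_comp, hwx])
  refine ⟨y, fun v => ?_, ?_⟩
  · have := hy (e v)
    simpa using this
  · let s : Option V → Fin (k + 1) := fun o => o.elim (Fin.last k) (fun v => (e v).castSucc)
    have h3 : opt y w = (Fin.snoc (α := fun _ => M) (w ∘ e.symm) y) ∘ s := by
      funext o
      cases o with
      | none => simp [s, opt]
      | some v => simp [s, opt]
    have h4 : opt x' x = (Fin.snoc (α := fun _ => M) (x ∘ e.symm) x') ∘ s := by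
      funext o
      cases o with
      | none => simp [s, opt]
      | some v => simp [s, opt]
    rw [h3, h4, pull_comp, pull_comp, hyb]

theorem finTypes_star {S : RS I ar M} {C : ∀ k : ℕ, (Fin k → M) → ℕ} (hS : FinTypes S)
    (hF : FullCol S C) (hB : BddCol C) : FinTypes (star S C) := by
  classical
  intro k
  obtain ⟨T, hT⟩ := hB
  have hfin := (hS k).to_subtype
  let X := {P : RS I ar (Fin k) | ∃ x : Fin k → M, Injective x ∧ pull S x = P} × Fin (T k + 1)
  let G : X → RS (I ⊕ (ℕ × ℕ)) (arStar ar) (Fin k) := fun p =>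
    if h : ∃ x : Fin k → M, Injective x ∧ pull S x = p.1.1 ∧ C k x = p.2.1 then
      pull (star S C) h.choose else fun _ _ => False
  refine (Set.finite_range G).subset ?_
  rintro P ⟨x, hx, rfl⟩
  refine ⟨⟨⟨pull S x, x, hx, rfl⟩, ⟨C k x, by have := hT k x hx; omega⟩⟩, ?_⟩
  have h : ∃ x' : Fin k → M, Injective x' ∧ pull S x' = pull S x ∧ C k x' = C k x :=
    ⟨x, hx, rfl, rfl⟩
  show (if h : ∃ x' : Fin k → M, Injective x' ∧ pull S x' = pull S x ∧ C k x' = C k x then
      pull (star S C) h.choose else fun _ _ => False) = _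
  rw [dif_pos h]
  obtain ⟨h1, h2, h3⟩ := h.choose_spec
  exact hF.star_eq h1 hx h2 h3

theorem det_star (S : RS I ar M) (C : ∀ k : ℕ, (Fin k → M) → ℕ) : Det (star S C) S := by
  intro V hV f f' hf hf' h
  exact ((pull_star_eq hf hf').1 h).1

/-- A structure all of whose finite substructures have finite Ramsey degree has a homogeneous
expansion with finitely many types, with the Ramsey property and the expansion property. -/
theorem frd [Countable M] {S : RS I ar M} (hE : Ext1 S) (hFD : FD S) (hT : FinTypes S) :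
    ∃ Ψ : RS (I ⊕ (ℕ × ℕ)) (arStar ar) M, (∀ i, Ψ (Sum.inl i) = S i) ∧ Ext1 Ψ ∧ FinTypes Ψ ∧
      RamseyF Ψ ∧ Det Ψ S ∧
      (∀ (V : Type) (_ : Finite V) (v : V → M), Injective v → ∃ D : Finset M, ∀ g : D → M,
        Copy S (fun a : D => a.1) g → ∃ e : V → D, Injective e ∧
          pull Ψ (g ∘ e) = pull Ψ v) := by
  obtain ⟨C₀, hC₀⟩ := exists_synd_all hFD
  obtain ⟨C, hC, hB, hF⟩ := exists_full hC₀ (bddCol_of hT hC₀)
  let b := star S C
  have hRb : RamseyF b := ramsey_star hF hC hB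
  obtain ⟨Ψ, h1, h2⟩ := homog hE (det_star S C) (ap_of_ramsey hRb)
  have h1' : ∀ (V : Type) (_ : Finite V) (f : V → M), Injective f → ∃ h : V → M, Injective h ∧
      pull Ψ f = pull b h := fun V hV f hf => by
    obtain ⟨h, hh, hp, -⟩ := h1 V hV f hf
    exact ⟨h, hh, hp⟩
  have hinl : ∀ i, Ψ (Sum.inl i) = S i := by
    intro i
    funext t
    apply propext
    -- factor `t` through its range
    let f : Set.range t → M := Subtype.val
    let s : Fin (ar i) → Set.range t := fun j => ⟨t j, j, rfl⟩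
    obtain ⟨h, hh, hp, hS⟩ := h1 (Set.range t) (Set.finite_range t).to_subtype f
      Subtype.val_injective
    have h3 := pull_iff hp (Sum.inl i) s
    have h4 := pull_iff hS i s
    exact h3.trans h4.symm
  have huniv := univ_of_ext0 h1' h2
  have hDet : Det Ψ S := by
    intro V hV f f' hf hf' hff
    funext i t
    have h3 := congrFun (congrFun hff (Sum.inl i)) t
    simp only [pull] at h3 ⊢
    rw [hinl i] at h3
    exact h3
  refine ⟨Ψ, hinl, ?_, ?_, ramseyF_transfer h1' huniv hRb, hDet, ?_⟩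
  · apply ext1_of_ext0
    intro k w x hw hx hwx
    obtain ⟨z, hz, hp⟩ := h1' (Fin (k + 1)) inferInstance x hx
    obtain ⟨y, hy, hyz⟩ := h2 k w z hw hz (by rw [hwx, pull_comp, pull_comp, hp])
    exact ⟨y, hy, by rw [hyz, hp]⟩
  · intro k
    refine (finTypes_star hT hF hB k).subset ?_
    rintro P ⟨x, hx, rfl⟩
    obtain ⟨z, hz, hp⟩ := h1' (Fin k) inferInstance x hx
    exact ⟨z, hz, hp.symm⟩
  · intro V hV v hv
    obtain ⟨v', hv', hp⟩ := h1' V hV v hv
    obtain ⟨D, hD⟩ := expansion_property hF hC v' hv'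
    refine ⟨D, fun g hg => ?_⟩
    -- `Ψ` on `g` agrees with `b` on some `h` which is a copy as well
    obtain ⟨h, hh, hp', hS⟩ := h1 D inferInstance g hg.1
    obtain ⟨e, he, hpe⟩ := hD h ⟨hh, by rw [← hS]; exact hg.2⟩
    refine ⟨e, he, ?_⟩
    rw [pull_comp, hp', ← pull_comp, hp]
    exact hpe

end

end Run7.h77
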