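import Pool.Agent.Run7.h77.FRD

/-!
# Ramsey expansions with finitely many types give finite Ramsey degrees
-/

set_option autoImplicit false

namespace Run7.h77

open Function

section

variable {I : Type} {ar : I → ℕ} {I₀ : Type} {ar₀ : I₀ → ℕ} {M N : Type}

theorem IsEmb.comp' {A B C : Type} {SA : RS I ar A} {SB : RS I ar B} {SC : RS I ar C} {f : A → B}
    {g : B → C} (hg : IsEmb SB SC g) (hf : IsEmb SA SB f) : IsEmb SA SC (g ∘ f) :=
  ⟨hg.1.comp hf.1, fun i y => (hg.2 i (f ∘ y)).trans (hf.2 i y)⟩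

/-- The Ramsey property for finitely many types simultaneously. -/
theorem ramsey_list {b : RS I₀ ar₀ M} (hR : RamseyF b) {k : ℕ} (κ : Type) [Finite κ] [Nonempty κ]
    (ℓ : List {u : Fin k → M // Injective u}) :
    ∀ (V : Type) (_ : Finite V) (v : V → M), Injective v → ∃ (C : Type) (_ : Finite C)
      (w : C → M), Injective w ∧ ∀ χ : (Fin k → C) → κ, ∃ g : V → C,
        IsEmb (pull b v) (pull b w) g ∧ ∀ u ∈ ℓ, ∃ col : κ, ∀ e : Fin k → V,
          IsEmb (pull b u.1) (pull b v) e → χ (g ∘ e) = col := by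
  induction ℓ with
  | nil =>
    intro V hV v hv
    exact ⟨V, hV, v, hv, fun χ => ⟨id, ⟨injective_id, fun i y => Iff.rfl⟩, by simp⟩⟩
  | cons u ℓ ih =>
    intro V hV v hv
    obtain ⟨C', hC', w', hw', h'⟩ := ih V hV v hv
    obtain ⟨C, hC, w, hw, h⟩ := hR (Fin k) C' inferInstance hC' u.1 w' u.2 hw' κ inferInstance
      inferInstance
    refine ⟨C, hC, w, hw, fun χ => ?_⟩
    obtain ⟨g', hg', col, hcol⟩ := h χ
    obtain ⟨g, hg, hℓ⟩ := h' (fun x => χ (g' ∘ x))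
    refine ⟨g' ∘ g, hg'.comp' hg, fun u' hu' => ?_⟩
    rcases List.mem_cons.1 hu' with rfl | hu'
    · exact ⟨col, fun e he => hcol (g ∘ e) (hg.comp' he)⟩
    · obtain ⟨col', hcol'⟩ := hℓ u' hu'
      exact ⟨col', fun e he => hcol' e he⟩

theorem fd_of_ramsey {S : RS I ar M} {b : RS I₀ ar₀ M} (hR : RamseyF b) (hT : FinTypes b)
    (hD : Det b S) : FD S := by
  classical
  intro k u hu
  have hrep : ∀ P : {P : RS I₀ ar₀ (Fin k) | ∃ x : Fin k → M, Injective x ∧ pull b x = P},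
      ∃ x : {u : Fin k → M // Injective u}, pull b x.1 = P.1 := by
    rintro ⟨P, x, hx, rfl⟩
    exact ⟨⟨x, hx⟩, rfl⟩
  choose rep hrep using hrep
  have hfin := (hT k).to_subtype
  let ℓ : List {u : Fin k → M // Injective u} := (Set.finite_range rep).toFinset.toList
  refine ⟨ℓ.length, ?_⟩
  intro V hV v hv κ hκ χ
  have : Nonempty κ := ⟨χ u⟩
  obtain ⟨C, hC, w, hw, hram⟩ := ramsey_list hR κ ℓ V hV v hv
  obtain ⟨g, hg, hcol⟩ := hram (fun x => χ (w ∘ x))
  refine ⟨w ∘ g, ⟨hw.comp hg.1, hD _ hV _ _ (hw.comp hg.1) hv (isEmb_pull.1 hg).2⟩, ?_⟩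
  choose col hcol using hcol
  let f : Fin ℓ.length → κ := fun i => col (ℓ.get i) (List.get_mem ℓ i)
  have hsub : Seen S u v (w ∘ g) χ ⊆ f '' Set.univ := by
    rintro c ⟨e, he, hes, rfl⟩
    have hve : Injective (v ∘ e) := hv.comp he
    have hmem : rep ⟨pull b (v ∘ e), v ∘ e, hve, rfl⟩ ∈ ℓ := by
      simp [ℓ]
    obtain ⟨i, hi⟩ := List.get_of_mem hmem
    refine ⟨i, trivial, ?_⟩
    have h1 : IsEmb (pull b (ℓ.get i).1) (pull b v) e := by
      rw [isEmb_pull]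
      refine ⟨he, ?_⟩
      rw [hi, hrep]
    have h2 := hcol (ℓ.get i) (List.get_mem ℓ i) e h1
    exact h2.symm
  refine (Set.ncard_le_ncard hsub (Set.toFinite _)).trans ((Set.ncard_image_le
    (Set.toFinite _)).trans ?_)
  rw [Set.ncard_univ, Nat.card_fin]

end

end Run7.h77
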