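import Pool.Agent.Run7.h77.Can

/-!
# Full syndetic colourings and their Ramsey property
-/

set_option autoImplicit false

namespace Run7.h77

open Function

section

variable {I : Type} {ar : I → ℕ} {M : Type}

/-- The colour of a tuple determines the colours of its subtuples. -/
def FullCol (S : RS I ar M) (C : ∀ k : ℕ, (Fin k → M) → ℕ) : Prop :=
  ∀ (k : ℕ) (x y : Fin k → M), Injective x → Injective y → pull S x = pull S y →
    C k x = C k y → ∀ (j : ℕ) (s : Fin j → Fin k), Injective s → C j (x ∘ s) = C j (y ∘ s)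

theorem exists_full {S : RS I ar M} {C : ∀ k : ℕ, (Fin k → M) → ℕ} (hC : Synd S C)
    (hB : BddCol C) : ∃ C' : ∀ k : ℕ, (Fin k → M) → ℕ, Synd S C' ∧ BddCol C' ∧ FullCol S C' := by
  classical
  -- good maps on finite sets
  have h1 : ∀ F : Finset M, ∃ g : M → M, Copy S (fun a : F => a.1) (fun a : F => g a) ∧
      ∀ (k : ℕ) (u : Fin k → M), Injective u → (∀ j, u j ∈ F) → FunProp S C u F g := by
    intro F
    let X := Σ k : Fin (F.card + 1), {u : Fin k → F // Injective u}
    have : Finite X := inferInstance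
    let toP : X → (Σ k : ℕ, {u : Fin k → M // Injective u}) := fun p =>
      ⟨p.1, fun j => (p.2.1 j).1, fun a b hab => p.2.2 (Subtype.ext hab)⟩
    obtain ⟨F', hF'⟩ := funProp_list hC hB ((Set.finite_range toP).toFinset.toList) F
    obtain ⟨g, hg1, -, hg3⟩ := hF' id (Copy.refl Subtype.val_injective)
    refine ⟨g, hg1, fun k u hu huF => ?_⟩
    have hk : k ≤ F.card := by
      have := Fintype.card_le_of_injective (fun j => (⟨u j, huF j⟩ : F))
        (fun a b hab => hu (congrArg Subtype.val hab))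
      simpa using this
    have h2 := hg3 ⟨k, u, hu⟩ (by
      simp only [Finset.mem_toList, Set.Finite.mem_toFinset, Set.mem_range]
      exact ⟨⟨⟨k, by omega⟩, fun j => ⟨u j, huF j⟩, fun a b hab => hu (congrArg Subtype.val hab)⟩,
        rfl⟩)
    exact h2
  choose g hg1 hg2 using h1
  obtain ⟨T, hT⟩ := hB
  -- the limit colouring
  have hlim : ∀ (k : ℕ) (x : Fin k → M), ∃ c : ℕ, c < T k + 1 ∧ (Injective x →
      ∀ᶠ F in (uf M : Filter (Finset M)), C k (g F ∘ x) = c) := by
    intro k x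
    by_cases hx : Injective x
    · obtain ⟨c, hc⟩ := ulim (uf M) (fun F => (⟨min (C k (g F ∘ x)) (T k), by omega⟩ : Fin (T k + 1)))
      refine ⟨c, c.2, fun _ => ?_⟩
      filter_upwards [hc, uf_mem_all x] with F h3 h4
      have h5 : Injective (g F ∘ x) := ((hg1 F).restrict h4 hx).1
      have h6 := hT k _ h5
      have h7 := congrArg Fin.val h3
      simp only at h7
      omega
    · exact ⟨0, by omega, fun h => absurd h hx⟩
  choose C' hC'1 hC'2 using hlim
  refine ⟨C', ?_, ⟨fun k => T k + 1, fun k x _ => hC'1 k x⟩, ?_⟩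
  · intro k u hu
    obtain ⟨t, ht, htC, D, hD⟩ := hC k u hu
    refine ⟨t, ht, fun x hx hxu => ?_, D, fun w hw c hc => ?_⟩
    · obtain ⟨F, h3, h4⟩ := ((hC'2 k x hx).and (uf_mem_all x)).exists
      rw [← h3]
      have h5 := (hg1 F).restrict h4 hx
      exact htC _ h5.1 (h5.2.trans hxu)
    · -- for many `F` there is a tuple of colour `c` in the copy `g F ∘ w`
      have h3 : ∀ᶠ F in (uf M : Filter (Finset M)), ∃ e : Fin k → D, Injective e ∧
          pull S (fun j => (e j).1) = pull S u ∧ C k (g F ∘ w ∘ e) = c := by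
        filter_upwards [uf_mem_all w] with F h4
        have h5 := (hg1 F).restrict h4 hw.1
        obtain ⟨e, h6, h7, h8⟩ := hD (g F ∘ w) ⟨h5.1, h5.2.trans hw.2⟩ c hc
        exact ⟨e, h6, h7, h8⟩
      rw [Ultrafilter.eventually_exists_iff] at h3
      obtain ⟨e, he⟩ := h3
      obtain ⟨F₀, h4, h5, -⟩ := he.exists
      refine ⟨e, h4, h5, ?_⟩
      obtain ⟨F, h6, h7⟩ := (he.and (hC'2 k (w ∘ e) (hw.1.comp h4))).exists
      rw [← h7]
      exact h6.2.2
  · intro k x y hx hy hxy hcol j s hs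
    obtain ⟨F, ⟨⟨⟨⟨h3, h4⟩, h5⟩, h6⟩, h7⟩, h8⟩ := (((((hC'2 k x hx).and (hC'2 k y hy)).and
      (hC'2 j (x ∘ s) (hx.comp hs))).and (hC'2 j (y ∘ s) (hy.comp hs))).and
      (uf_mem_all x)).and (uf_mem_all y) |>.exists
    rw [← h5, ← h6]
    exact hg2 F k x hx h7 x y hx hy h7 h8 rfl hxy.symm (by rw [h3, h4, hcol]) j s hs

theorem FullCol.star_eq {S : RS I ar M} {C : ∀ k : ℕ, (Fin k → M) → ℕ} (h : FullCol S C) {k : ℕ}
    {x y : Fin k → M} (hx : Injective x) (hy : Injective y) (hS : pull S x = pull S y)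
    (hC : C k x = C k y) : pull (star S C) x = pull (star S C) y :=
  (pull_star_eq hx hy).2 ⟨hS, fun j s hs => h k x y hx hy hS hC j s hs⟩

/-- The expansion property. -/
theorem expansion_property {S : RS I ar M} {C : ∀ k : ℕ, (Fin k → M) → ℕ} (hF : FullCol S C)
    (hC : Synd S C) {V : Type} [Finite V] (v : V → M) (hv : Injective v) :
    ∃ D : Finset M, ∀ g : D → M, Copy S (fun a : D => a.1) g → ∃ e : V → D, Injective e ∧
      pull (star S C) (g ∘ e) = pull (star S C) v := by
  obtain ⟨k, ⟨en⟩⟩ := Finite.exists_equiv_fin V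
  obtain ⟨t, -, htC, D, hD⟩ := hC k (v ∘ en.symm) (hv.comp en.symm.injective)
  refine ⟨D, fun g hg => ?_⟩
  obtain ⟨e, h1, h2, h3⟩ := hD g hg (C k (v ∘ en.symm))
    (htC _ (hv.comp en.symm.injective) rfl)
  have h4 : pull S (g ∘ e) = pull S (v ∘ en.symm) := by
    rw [pull_comp, hg.2, ← pull_comp]
    exact h2
  have h5 := hF.star_eq (hg.1.comp h1) (hv.comp en.symm.injective) h4 h3
  refine ⟨e ∘ en, h1.comp en.injective, ?_⟩
  rw [← comp_assoc, pull_comp, h5, ← pull_comp]
  congr 1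
  funext a
  simp

/-- The Ramsey property of the expansion by a full syndetic colouring. -/
theorem ramsey_star {S : RS I ar M} {C : ∀ k : ℕ, (Fin k → M) → ℕ} (hF : FullCol S C)
    (hC : Synd S C) (hB : BddCol C) : RamseyF (star S C) := by
  classical
  intro A B hA hB' u v hu hv κ hκ hκ'
  obtain ⟨T, hT⟩ := hB
  obtain ⟨k, ⟨en⟩⟩ := Finite.exists_equiv_fin A
  let u' : Fin k → M := u ∘ en.symm
  have hu' : Injective u' := hu.comp en.symm.injective
  obtain ⟨t, ht, htC, D, hD⟩ := hC k u' hu'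
  obtain ⟨D₂, hD₂⟩ := expansion_property hF hC v hv
  let W : Finset M := D ∪ D₂
  have hDW : ∀ b ∈ D, b ∈ W := fun b hb => Finset.mem_union_left _ hb
  have hD₂W : ∀ b ∈ D₂, b ∈ W := fun b hb => Finset.mem_union_right _ hb
  let κ' : Type := Fin (T k + 1) × κ
  obtain ⟨F, hFW⟩ := ht.fin (fun a : W => a.1) Subtype.val_injective κ'
  refine ⟨F, inferInstance, fun a => a.1, Subtype.val_injective, fun χ => ?_⟩
  let χ' : (Fin k → M) → κ' := fun x => (⟨min (C k x) (T k), by omega⟩,
    if hx : ∀ j, x j ∈ F then χ (fun a => ⟨x (en a), hx _⟩) else Classical.arbitrary κ)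
  obtain ⟨g, hgF, hg, hgt⟩ := hFW χ'
  let P : Set κ' := Seen S u' (fun a : W => a.1) g χ'
  let π : κ' → ℕ := fun c => c.1
  have hπ : ∀ x : Fin k → W, Injective x → π (χ' (g ∘ x)) = C k (g ∘ x) := by
    intro x hx
    show min (C k (g ∘ x)) (T k) = _
    have h1 : C k (g ∘ x) < T k := hT k _ (hg.1.comp hx)
    omega
  have hcopyD : Copy S (fun a : D => a.1) (fun a : D => g ⟨a.1, hDW _ a.2⟩) := by
    have h1 := hg.comp (fun a : D => (⟨a.1, hDW _ a.2⟩ : W))
      (fun a a' haa => Subtype.ext (congrArg (fun z : W => z.1) haa))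
    exact h1
  have hcopyD₂ : Copy S (fun a : D₂ => a.1) (fun a : D₂ => g ⟨a.1, hD₂W _ a.2⟩) := by
    have h1 := hg.comp (fun a : D₂ => (⟨a.1, hD₂W _ a.2⟩ : W))
      (fun a a' haa => Subtype.ext (congrArg (fun z : W => z.1) haa))
    exact h1
  have hinj : Set.InjOn π P := by
    have hsurj : ∀ c < t, ∃ p ∈ P, π p = c := by
      intro c hc
      obtain ⟨e, he1, he2, he3⟩ := hD _ hcopyD c hc
      have he1' : Injective (fun j => (⟨(e j).1, hDW _ (e j).2⟩ : W)) := fun i j hij =>
        he1 (Subtype.ext (congrArg (fun z : W => z.1) hij))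
      refine ⟨χ' (g ∘ fun j => ⟨(e j).1, hDW _ (e j).2⟩),
        ⟨fun j => ⟨(e j).1, hDW _ (e j).2⟩, he1', he2, rfl⟩, ?_⟩
      rw [hπ _ he1']
      exact he3
    have h1 : (Set.Iio t : Set ℕ) ⊆ π '' P := by
      intro c hc
      obtain ⟨p, hp, hpc⟩ := hsurj c hc
      exact ⟨p, hp, hpc⟩
    have h2 : t ≤ (π '' P).ncard := by
      have h3 := Set.ncard_le_ncard h1 ((Set.toFinite P).image π)
      have h4 : (Set.Iio t : Set ℕ).ncard = t := by
        rw [Set.ncard_eq_toFinset_card']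
        simp
      omega
    have h3 : (π '' P).ncard = P.ncard :=
      le_antisymm (Set.ncard_image_le (Set.toFinite P)) (hgt.trans h2)
    exact (Set.ncard_image_iff (Set.toFinite P)).1 h3
  obtain ⟨e, he1, he2⟩ := hD₂ _ hcopyD₂
  -- the copy of `B`
  let e' : B → W := fun b => ⟨(e b).1, hD₂W _ (e b).2⟩
  have he' : Injective e' := fun a b hab => he1 (Subtype.ext (congrArg (fun z : W => z.1) hab))
  have hge : pull (star S C) (g ∘ e') = pull (star S C) v := he2
  have hS : ∀ {X : Type} {f f' : X → M}, Injective f → Injective f' →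
      pull (star S C) f = pull (star S C) f' → pull S f = pull S f' := fun h1 h2 h3 =>
    ((pull_star_eq h1 h2).1 h3).1
  -- the colour
  have hcol : ∀ f f' : A → B, IsEmb (pull (star S C) u) (pull (star S C) v) f →
      IsEmb (pull (star S C) u) (pull (star S C) v) f' →
      χ (fun a => ⟨g (e' (f a)), hgF _⟩) = χ (fun a => ⟨g (e' (f' a)), hgF _⟩) := by
    have h1 : ∀ f : A → B, IsEmb (pull (star S C) u) (pull (star S C) v) f →
        χ' (g ∘ e' ∘ f ∘ en.symm) ∈ P ∧ π (χ' (g ∘ e' ∘ f ∘ en.symm)) = C k u' ∧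
        (χ' (g ∘ e' ∘ f ∘ en.symm)).2 = χ (fun a => ⟨g (e' (f a)), hgF _⟩) := by
      intro f hf
      rw [isEmb_pull] at hf
      have hinj : Injective (e' ∘ f ∘ en.symm) := (he'.comp hf.1).comp en.symm.injective
      have htype : pull (star S C) (g ∘ e' ∘ f ∘ en.symm) = pull (star S C) u' := by
        have h2 : g ∘ e' ∘ f ∘ en.symm = ((g ∘ e') ∘ f) ∘ en.symm := rfl
        have h3 : pull (star S C) ((g ∘ e') ∘ f) = pull (star S C) u := by
          rw [pull_comp, hge, ← pull_comp]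
          exact hf.2
        rw [h2, pull_comp, h3]
        rfl
      refine ⟨⟨e' ∘ f ∘ en.symm, hinj, ?_, rfl⟩, ?_, ?_⟩
      · have h2 := hS (hg.1.comp hinj) hu' htype
        rw [← h2]
        have h3 : pull S g = pull S (fun a : W => a.1) := hg.2
        rw [pull_comp S (fun a : W => a.1), ← h3]
        rfl
      · rw [hπ _ hinj]
        have h2 := ((pull_star_eq (hg.1.comp hinj) hu').1 htype).2 k id injective_id
        exact h2
      · have h2 : ∀ j, (g ∘ e' ∘ f ∘ en.symm) j ∈ F := fun j => hgF _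
        simp only [χ', dif_pos h2]
        congr 1
        funext a
        apply Subtype.ext
        simp
    intro f f' hf hf'
    obtain ⟨a1, a2, a3⟩ := h1 f hf
    obtain ⟨b1, b2, b3⟩ := h1 f' hf'
    rw [← a3, ← b3, hinj a1 b1 (a2.trans b2.symm)]
  have hgemb : IsEmb (pull (star S C) v) (pull (star S C) (fun a : F => a.1))
      (fun b => ⟨g (e' b), hgF _⟩) := by
    rw [isEmb_pull]
    exact ⟨fun a b hab => he' (hg.1 (congrArg Subtype.val hab)), hge⟩
  by_cases hex : ∃ f : A → B, IsEmb (pull (star S C) u) (pull (star S C) v) f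
  · obtain ⟨f, hf⟩ := hex
    exact ⟨fun b => ⟨g (e' b), hgF _⟩, hgemb, χ (fun a => ⟨g (e' (f a)), hgF _⟩),
      fun f' hf' => hcol f' f hf' hf⟩
  · exact ⟨fun b => ⟨g (e' b), hgF _⟩, hgemb, Classical.arbitrary κ,
      fun f' hf' => absurd ⟨f', hf'⟩ hex⟩

end

end Run7.h77
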