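import Pool.Agent.Run7.h77.RelBase

/-!
# Generic expansions

Given a homogeneous structure `(M, S)` and a base `(N, b)`, both with a common quantifier free
definable reduct (`c` on `M`, `d` on `N`), and completions of partial structures, there is a generic
injection `g : M → N` preserving the reduct.  The expansion of `(M, S)` by the pull back of `b`
along `g` has one point extensions and the Ramsey property.
-/

set_option autoImplicit false

namespace Run7.h77

open Function

section

variable {I : Type} {ar : I → ℕ} {I₀ : Type} {ar₀ : I₀ → ℕ} {I₂ : Type} {ar₂ : I₂ → ℕ}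
variable {M N : Type} (S : RS I ar M) (b : RS I₀ ar₀ N) (c : RS I₂ ar₂ M) (d : RS I₂ ar₂ N)

/-- add a point to a family -/
def opt {V X : Type} (x : X) (f : V → X) : Option V → X := fun o => o.elim x f

/-- `c` is determined by `S` on finite sets -/
def Det {I I₂ : Type} {ar : I → ℕ} {ar₂ : I₂ → ℕ} {M : Type} (S : RS I ar M)
    (c : RS I₂ ar₂ M) : Prop :=
  ∀ (V : Type) (_ : Finite V) (f f' : V → M), Injective f → Injective f' →
    pull S f = pull S f' → pull c f = pull c f'

/-- One point extension property without avoidance. -/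
def Ext1 {I : Type} {ar : I → ℕ} {M : Type} (S : RS I ar M) : Prop :=
  ∀ (V : Type) (_ : Finite V) (w x : V → M) (x' : M), Injective w → Injective x →
    (∀ v, x v ≠ x') → pull S w = pull S x →
    ∃ y, (∀ v, w v ≠ y) ∧ pull S (opt y w) = pull S (opt x' x)

/-- The reducts can be matched point by point. -/
def Match {I₂ : Type} {ar₂ : I₂ → ℕ} {M N : Type} (c : RS I₂ ar₂ M) (d : RS I₂ ar₂ N) : Prop :=
  ∀ (V : Type) (_ : Finite V) (f : V → M) (ι : V → N), Injective f → Injective ι →
    pull c f = pull d ι → ∀ x, (∀ v, f v ≠ x) →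
    ∃ n, (∀ v, ι v ≠ n) ∧ pull c (opt x f) = pull d (opt n ι)

/-- Relative completion property: a finite set with full base structure (through `ι`), a graph `E`,
and an `S`-structure `T` such that every clique embeds into `(M, S)` compatibly with the base,
has a completion embedded in `(M, S)`. -/
def Compl {I I₂ : Type} {ar : I → ℕ} {ar₂ : I₂ → ℕ} {M N : Type} (S : RS I ar M)
    (c : RS I₂ ar₂ M) (d : RS I₂ ar₂ N) : Prop :=
  ∀ (V : Type) (_ : Finite V) (ι : V → N) (E : V → V → Prop) (T : RS I ar V), Injective ι →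
    (∀ x y, E x y → E y x) → (∀ x, ¬ E x x) →
    (∀ (J : Type) (y : J → V), Injective y → (∀ a a', a ≠ a' → E (y a) (y a')) →
      ∃ h : J → M, Injective h ∧ pull c h = pull d (ι ∘ y) ∧ pull S h = pull T y) →
    ∃ f : V → M, Injective f ∧ pull c f = pull d ι ∧
      ∀ i (t : Fin (ar i) → V), (∀ j k, t j ≠ t k → E (t j) (t k)) → (S i (f ∘ t) ↔ T i t)

/-- The genericity property of `g`. -/
def Generic (g : M → N) : Prop :=
  ∀ (k : ℕ) (w : Fin k → M) (x : Fin (k + 1) → M) (z : Fin (k + 1) → N) (F : Finset M),
    Injective w → Injective x → Injective z → pull S w = pull S (x ∘ Fin.castSucc) →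
    pull b (g ∘ w) = pull b (z ∘ Fin.castSucc) → pull c x = pull d z →
    ∃ y, y ∉ F ∧ (∀ j, w j ≠ y) ∧ pull S (Fin.snoc (α := fun _ => M) w y) = pull S x ∧
      pull b (g ∘ Fin.snoc (α := fun _ => M) w y) = pull b z

/-- Forcing conditions. -/
structure Cond where
  s : Finset (M × N)
  i₁ : Injective (fun x : s => x.1.1)
  i₂ : Injective (fun x : s => x.1.2)
  r : pull c (fun x : s => x.1.1) = pull d (fun x : s => x.1.2)

instance : Preorder (Cond c d) where
  le p q := p.s ⊆ q.s
  le_refl p := Finset.Subset.refl _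
  le_trans p q r h₁ h₂ := Finset.Subset.trans h₁ h₂

variable {S b c d}

theorem Cond.fun_eq {p : Cond c d} {m : M} {n n' : N} (h : (m, n) ∈ p.s) (h' : (m, n') ∈ p.s) :
    n = n' := by
  have := p.i₁ (a₁ := ⟨_, h⟩) (a₂ := ⟨_, h'⟩) rfl
  exact congrArg (fun x : p.s => x.1.2) this

theorem Cond.inj_eq {p : Cond c d} {m m' : M} {n : N} (h : (m, n) ∈ p.s) (h' : (m', n) ∈ p.s) :
    m = m' := by
  have := p.i₂ (a₁ := ⟨_, h⟩) (a₂ := ⟨_, h'⟩) rfl
  exact congrArg (fun x : p.s => x.1.1) this

/-- adding a pair to a condition -/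
theorem Cond.insert (p : Cond c d) (m : M) (n : N) (hm : ∀ x : p.s, x.1.1 ≠ m)
    (hn : ∀ x : p.s, x.1.2 ≠ n)
    (h : pull c (opt m (fun x : p.s => x.1.1)) = pull d (opt n (fun x : p.s => x.1.2))) :
    ∃ q : Cond c d, p ≤ q ∧ (m, n) ∈ q.s := by
  classical
  have hsur : ∀ x : ((Insert.insert (m, n) p.s : Finset (M × N)) : Type), ∃ o : Option p.s,
      x.1 = (opt m (fun x : p.s => x.1.1) o, opt n (fun x : p.s => x.1.2) o) := by
    rintro ⟨x, hx⟩
    rcases Finset.mem_insert.1 hx with rfl | hx
    · exact ⟨none, rfl⟩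
    · exact ⟨some ⟨x, hx⟩, rfl⟩
  choose o ho using hsur
  have hi : Injective (opt m (fun x : p.s => x.1.1)) := by
    intro a a' haa
    cases a with
    | none =>
      cases a' with
      | none => rfl
      | some a' => exact absurd haa.symm (hm a')
    | some a =>
      cases a' with
      | none => exact absurd haa (hm a)
      | some a' => rw [p.i₁ haa]
  have hi' : Injective (opt n (fun x : p.s => x.1.2)) := by
    intro a a' haa
    cases a with
    | none =>
      cases a' with
      | none => rfl
      | some a' => exact absurd haa.symm (hn a')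
    | some a =>
      cases a' with
      | none => exact absurd haa (hn a)
      | some a' => rw [p.i₂ haa]
  refine ⟨⟨Insert.insert (m, n) p.s, ?_, ?_, ?_⟩, Finset.subset_insert _ _,
    Finset.mem_insert_self _ _⟩
  · intro x x' hxx
    simp only at hxx
    rw [ho x, ho x'] at hxx
    have := hi hxx
    apply Subtype.ext
    rw [ho x, ho x', this]
  · intro x x' hxx
    simp only at hxx
    rw [ho x, ho x'] at hxx
    have := hi' hxx
    apply Subtype.ext
    rw [ho x, ho x', this]
  · have e1 : (fun x : ((Insert.insert (m, n) p.s : Finset (M × N)) : Type) => x.1.1) =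
        (opt m (fun x : p.s => x.1.1)) ∘ o := by
      funext x
      exact congrArg Prod.fst (ho x)
    have e2 : (fun x : ((Insert.insert (m, n) p.s : Finset (M × N)) : Type) => x.1.2) =
        (opt n (fun x : p.s => x.1.2)) ∘ o := by
      funext x
      exact congrArg Prod.snd (ho x)
    rw [e1, e2, pull_comp, pull_comp, h]

theorem Cond.ext_dom (hM : Match c d) (p : Cond c d) (m : M) :
    ∃ q : Cond c d, p ≤ q ∧ ∃ n, (m, n) ∈ q.s := by
  by_cases h : ∃ n, (m, n) ∈ p.s
  · exact ⟨p, le_refl p, h⟩
  · have hm : ∀ x : p.s, x.1.1 ≠ m := by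
      rintro ⟨⟨m', n⟩, hx⟩ hmm
      simp only at hmm
      subst hmm
      exact h ⟨n, hx⟩
    obtain ⟨n, hn, hcd⟩ := hM p.s inferInstance _ _ p.i₁ p.i₂ p.r m hm
    obtain ⟨q, hq, hq'⟩ := p.insert m n hm hn hcd
    exact ⟨q, hq, n, hq'⟩

theorem Cond.ext_dom_finset (hM : Match c d) (p : Cond c d) (F : Finset M) :
    ∃ q : Cond c d, p ≤ q ∧ ∀ m ∈ F, ∃ n, (m, n) ∈ q.s := by
  classical
  induction F using Finset.induction_on with
  | empty => exact ⟨p, le_refl p, by simp⟩
  | insert m F hm ih =>
    obtain ⟨q, hq, hqF⟩ := ih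
    obtain ⟨r, hr, n, hn⟩ := q.ext_dom hM m
    refine ⟨r, le_trans hq hr, fun m' hm' => ?_⟩
    rcases Finset.mem_insert.1 hm' with rfl | h
    · exact ⟨n, hn⟩
    · obtain ⟨n', hn'⟩ := hqF m' h
      exact ⟨n', hr hn'⟩

theorem opt_eq_snoc {X : Type} {k : ℕ} (x : X) (w : Fin k → X) :
    opt x w = (Fin.snoc (α := fun _ => X) w x) ∘
      (fun o : Option (Fin k) => o.elim (Fin.last k) Fin.castSucc) := by
  funext o
  cases o with
  | none => simp [opt]
  | some j => simp [opt]

/-- the main extension step -/
theorem Cond.ext_gen (hb : ExtT b) (hS : Ext1 S) (hSc : Det S c) (hbd : Det b d)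
    (hC : Compl S c d) (p : Cond c d) {k : ℕ} (w : Fin k → M) (ι : Fin k → N)
    (x : Fin (k + 1) → M) (z : Fin (k + 1) → N) (hwι : ∀ j, (w j, ι j) ∈ p.s)
    (hw : Injective w) (hx : Injective x) (hz : Injective z)
    (h1 : pull S w = pull S (x ∘ Fin.castSucc)) (h2 : pull b ι = pull b (z ∘ Fin.castSucc))
    (h3 : pull c x = pull d z) :
    ∃ (q : Cond c d) (y : M) (n : N), p ≤ q ∧ (y, n) ∈ q.s ∧ (∀ x : p.s, x.1.1 ≠ y) ∧
      pull S (Fin.snoc (α := fun _ => M) w y) = pull S x ∧
      pull b (Fin.snoc (α := fun _ => N) ι n) = pull b z := by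
  classical
  have hι : Injective ι := by
    intro j j' hjj
    have := p.inj_eq (hwι j) (by rw [hjj]; exact hwι j')
    exact hw this
  -- choose `n`
  obtain ⟨n, hnF, hnι, hnb⟩ := hb k ι z hι hz h2 (p.s.image Prod.snd)
  have hn : ∀ x : p.s, x.1.2 ≠ n := by
    intro x hxn
    apply hnF
    rw [← hxn]
    exact Finset.mem_image_of_mem _ x.2
  -- the partial structure on `Option p.s`
  let e : Fin k → p.s := fun j => ⟨(w j, ι j), hwι j⟩
  have he : Injective e := fun j j' h => hw (congrArg (fun x : p.s => x.1.1) h)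
  let emb : Fin (k + 1) → Option p.s := Fin.snoc (α := fun _ => Option p.s) (fun j => some (e j)) none
  have emb_last : emb (Fin.last k) = none := by simp [emb]
  have emb_cast : ∀ j : Fin k, emb j.castSucc = some (e j) := fun j => by simp [emb]
  have hemb : Injective emb := by
    intro i j hij
    induction i using Fin.lastCases with
    | last =>
      induction j using Fin.lastCases with
      | last => rfl
      | cast j =>
        rw [emb_last, emb_cast] at hij
        cases hij
    | cast i =>
      induction j using Fin.lastCases with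
      | last =>
        rw [emb_last, emb_cast] at hij
        cases hij
      | cast j =>
        rw [emb_cast, emb_cast] at hij
        rw [he (Option.some.inj hij)]
  let ιV : Option p.s → N := opt n (fun x : p.s => x.1.2)
  have hιV : Injective ιV := by
    intro a a' haa
    cases a with
    | none =>
      cases a' with
      | none => rfl
      | some a' => exact absurd haa.symm (hn a')
    | some a =>
      cases a' with
      | none => exact absurd haa (hn a)
      | some a' => rw [p.i₂ haa]
  let E : Option p.s → Option p.s → Prop := fun a a' => a ≠ a' ∧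
    ((a ≠ none ∧ a' ≠ none) ∨ (a ∈ Set.range emb ∧ a' ∈ Set.range emb))
  let T : RS I ar (Option p.s) := fun i t =>
    (∃ t' : Fin (ar i) → p.s, t = some ∘ t' ∧ S i (fun j => (t' j).1.1)) ∨
    (¬ (∃ t' : Fin (ar i) → p.s, t = some ∘ t') ∧ ∃ s : Fin (ar i) → Fin (k + 1),
      t = emb ∘ s ∧ S i (x ∘ s))
  have T1 : ∀ i (t' : Fin (ar i) → p.s), T i (some ∘ t') ↔ S i (fun j => (t' j).1.1) := by
    intro i t'
    constructor
    · rintro (⟨t'', h, h'⟩ | ⟨h, -⟩)
      · have : t' = t'' := by
          funext j
          exact Option.some.inj (congrFun h j)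
        rw [this]
        exact h'
      · exact absurd ⟨t', rfl⟩ h
    · intro h
      exact Or.inl ⟨t', rfl, h⟩
  have T2 : ∀ i (s : Fin (ar i) → Fin (k + 1)), T i (emb ∘ s) ↔ S i (x ∘ s) := by
    intro i s
    by_cases hs : ∃ t' : Fin (ar i) → p.s, emb ∘ s = some ∘ t'
    · obtain ⟨t', ht'⟩ := hs
      rw [ht', T1]
      have hcast : ∀ j, ∃ l : Fin k, s j = l.castSucc := by
        intro j
        have := congrFun ht' j
        simp only [comp_apply] at this
        generalize s j = r at this ⊢
        induction r using Fin.lastCases with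
        | last =>
          rw [emb_last] at this
          cases this
        | cast l => exact ⟨l, rfl⟩
      choose l hl using hcast
      have e1 : (fun j => (t' j).1.1) = w ∘ l := by
        funext j
        have := congrFun ht' j
        simp only [comp_apply, hl, emb_cast] at this
        rw [← Option.some.inj this]
        rfl
      have e2 : x ∘ s = (x ∘ Fin.castSucc) ∘ l := by
        funext j
        simp only [comp_apply, hl]
      rw [e1, e2]
      exact pull_iff h1 i l
    · constructor
      · rintro (⟨t', h, -⟩ | ⟨-, s', h, h'⟩)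
        · exact absurd ⟨t', h⟩ hs
        · have : s = s' := by
            funext j
            exact hemb (congrFun h j)
          rw [this]
          exact h'
      · intro h
        exact Or.inr ⟨hs, s, rfl, h⟩
  obtain ⟨f, hf, hfc, hfS⟩ := hC (Option p.s) inferInstance ιV E T hιV
    (fun a a' h => ⟨h.1.symm, h.2.imp (fun h => ⟨h.2, h.1⟩) (fun h => ⟨h.2, h.1⟩)⟩)
    (fun a h => h.1 rfl) (by
      intro J y hy hyE
      by_cases hnone : ∃ a, y a = none
      · obtain ⟨a₀, ha₀⟩ := hnone
        have hall : ∀ a, ∃ s : Fin (k + 1), emb s = y a := by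
          intro a
          by_cases haa : a = a₀
          · subst haa
            exact ⟨Fin.last k, by rw [emb_last, ha₀]⟩
          · rcases (hyE a a₀ haa).2 with h | h
            · exact absurd ha₀ h.2
            · exact h.1
        choose s hs using hall
        refine ⟨x ∘ s, ?_, ?_, ?_⟩
        · intro a a' haa
          apply hy
          rw [← hs a, ← hs a', hx haa]
        · rw [pull_comp, h3]
          have h4 : pull d z = pull d (Fin.snoc (α := fun _ => N) ι n) := by
            refine hbd _ inferInstance _ _ hz ?_ hnb.symm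
            intro i j hij
            induction i using Fin.lastCases with
            | last =>
              induction j using Fin.lastCases with
              | last => rfl
              | cast j =>
                simp only [Fin.snoc_last, Fin.snoc_castSucc] at hij
                exact absurd hij.symm (hnι j)
            | cast i =>
              induction j using Fin.lastCases with
              | last =>
                simp only [Fin.snoc_last, Fin.snoc_castSucc] at hij
                exact absurd hij (hnι i)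
              | cast j =>
                simp only [Fin.snoc_castSucc] at hij
                rw [hι hij]
          rw [h4, ← pull_comp]
          congr 1
          funext a
          simp only [comp_apply]
          rw [← hs a]
          induction s a using Fin.lastCases with
          | last => rw [emb_last]; simp [ιV, opt]
          | cast l => rw [emb_cast]; simp [ιV, opt, e]
        · funext i t
          apply propext
          show S i (x ∘ (s ∘ t)) ↔ T i (y ∘ t)
          rw [← T2]
          have e1 : emb ∘ (s ∘ t) = y ∘ t := by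
            funext j
            simp only [comp_apply, hs]
          rw [e1]
      · push Not at hnone
        have hall : ∀ a, ∃ s : p.s, some s = y a := fun a => by
          cases hya : y a with
          | none => exact absurd hya (hnone a)
          | some s => exact ⟨s, rfl⟩
        choose s hs using hall
        refine ⟨fun a => (s a).1.1, ?_, ?_, ?_⟩
        · intro a a' haa
          apply hy
          rw [← hs a, ← hs a', p.i₁ haa]
        · have e1 : (fun a => (s a).1.1) = (fun x : p.s => x.1.1) ∘ s := rfl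
          rw [e1, pull_comp, p.r, ← pull_comp]
          congr 1
          funext a
          simp only [comp_apply]
          rw [← hs a]
          rfl
        · funext i t
          apply propext
          show S i (fun j => (s (t j)).1.1) ↔ T i (y ∘ t)
          refine (T1 i (s ∘ t)).symm.trans ?_
          have e1 : some ∘ (s ∘ t) = y ∘ t := by
            funext j
            simp only [comp_apply, hs]
          rw [e1])
  have hfp : pull S (fun x : p.s => x.1.1) = pull S (f ∘ some) := by
    funext i t
    apply propext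
    show S i (fun j => (t j).1.1) ↔ S i (f ∘ (some ∘ t))
    rw [← T1 i t]
    refine (hfS i (some ∘ t) ?_).symm
    intro j l hjl
    exact ⟨hjl, Or.inl ⟨by simp, by simp⟩⟩
  obtain ⟨y, hy, hyS⟩ := hS p.s inferInstance (fun x : p.s => x.1.1) (f ∘ some) (f none) p.i₁
    (hf.comp (Option.some_injective _)) (fun v h => by
      have := hf h
      cases this) hfp
  have hfopt : opt (f none) (f ∘ some) = f := by
    funext o
    cases o with
    | none => rfl
    | some v => rfl
  rw [hfopt] at hyS
  have hyinj : Injective (opt y (fun x : p.s => x.1.1)) := by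
    intro a a' haa
    cases a with
    | none =>
      cases a' with
      | none => rfl
      | some a' => exact absurd haa.symm (hy a')
    | some a =>
      cases a' with
      | none => exact absurd haa (hy a)
      | some a' => rw [p.i₁ haa]
  obtain ⟨q, hq, hq'⟩ := p.insert y n hy hn (by
    rw [hSc _ inferInstance _ _ hyinj hf hyS, hfc])
  refine ⟨q, y, n, hq, hq', hy, ?_, hnb⟩
  have e1 : (Fin.snoc (α := fun _ => M) w y) = (opt y (fun x : p.s => x.1.1)) ∘ emb := by
    funext j
    induction j using Fin.lastCases with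
    | last => simp [emb_last, opt]
    | cast j => simp [emb_cast, opt, e]
  rw [e1, pull_comp, hyS]
  funext i s
  apply propext
  show S i (f ∘ (emb ∘ s)) ↔ S i (x ∘ s)
  rw [← T2 i s]
  apply hfS
  intro j l hjl
  exact ⟨hjl, Or.inr ⟨⟨_, rfl⟩, ⟨_, rfl⟩⟩⟩

/-- Existence of the generic injection. -/
theorem exists_generic [Countable M] [Countable N] (hb : ExtT b) (hS : Ext1 S) (hSc : Det S c)
    (hbd : Det b d) (hC : Compl S c d) (hM : Match c d)
    (h0 : ∀ i (t : Fin (ar₂ i) → (∅ : Finset (M × N))), c i (fun j => (t j).1.1) ↔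
      d i (fun j => (t j).1.2)) :
    ∃ g : M → N, Injective g ∧ (∀ (V : Type) (f : V → M), pull c f = pull d (g ∘ f)) ∧
      Generic S b c d g := by
  classical
  let Idx := M ⊕ (Σ k : ℕ, (Fin k → M) × (Fin (k + 1) → M) × (Fin (k + 1) → N) × Finset M)
  have hcount : Countable Idx := inferInstance
  have henc : Encodable Idx := Encodable.ofCountable Idx
  let 𝒟 : Idx → Order.Cofinal (Cond c d) := fun j =>
    match j with
    | Sum.inl m => ⟨{p | ∃ n, (m, n) ∈ p.s}, fun p => by
        obtain ⟨q, hq, hn⟩ := p.ext_dom hM m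
        exact ⟨q, hn, hq⟩⟩
    | Sum.inr ⟨k, w, x, z, F⟩ => ⟨{p | (∃ ι : Fin k → N, ∀ j, (w j, ι j) ∈ p.s) ∧
        ∀ ι : Fin k → N, (∀ j, (w j, ι j) ∈ p.s) → Injective w → Injective x → Injective z →
          pull S w = pull S (x ∘ Fin.castSucc) → pull b ι = pull b (z ∘ Fin.castSucc) →
          pull c x = pull d z → ∃ y n, (y, n) ∈ p.s ∧ y ∉ F ∧ (∀ j, w j ≠ y) ∧
            pull S (Fin.snoc (α := fun _ => M) w y) = pull S x ∧
            pull b (Fin.snoc (α := fun _ => N) ι n) = pull b z}, fun p => by
        obtain ⟨p₁, hp₁, hF⟩ := p.ext_dom_finset hM (F ∪ Finset.univ.image w)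
        have hwd : ∀ j, ∃ n, (w j, n) ∈ p₁.s := fun j => hF _ (by simp)
        choose ι hι using hwd
        by_cases hcond : Injective w ∧ Injective x ∧ Injective z ∧
          pull S w = pull S (x ∘ Fin.castSucc) ∧ pull b ι = pull b (z ∘ Fin.castSucc) ∧
          pull c x = pull d z
        · obtain ⟨g1, g2, g3, g4, g5, g6⟩ := hcond
          obtain ⟨q, y, n, hq, hyn, hy, hyS, hyb⟩ :=
            p₁.ext_gen hb hS hSc hbd hC w ι x z hι g1 g2 g3 g4 g5 g6
          refine ⟨q, ⟨⟨ι, fun j => hq (hι j)⟩, fun ι' hι' _ _ _ _ _ _ => ?_⟩, le_trans hp₁ hq⟩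
          have hιι : ι' = ι := funext fun j => q.fun_eq (hι' j) (hq (hι j))
          subst hιι
          refine ⟨y, n, hyn, ?_, ?_, hyS, hyb⟩
          · intro hyF
            obtain ⟨n', hn'⟩ := hF y (Finset.mem_union_left _ hyF)
            exact hy ⟨_, hn'⟩ rfl
          · intro j hj
            exact hy ⟨_, hι j⟩ hj
        · refine ⟨p₁, ⟨⟨ι, hι⟩, fun ι' hι' g1 g2 g3 g4 g5 g6 => ?_⟩, hp₁⟩
          have hιι : ι' = ι := funext fun j => p₁.fun_eq (hι' j) (hι j)
          subst hιι
          exact absurd ⟨g1, g2, g3, g4, g5, g6⟩ hcond⟩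
  let p₀ : Cond c d := ⟨∅, fun x => absurd x.2 (Finset.notMem_empty _),
    fun x => absurd x.2 (Finset.notMem_empty _), by
    funext i t
    exact propext (h0 i t)⟩
  let Id := Order.idealOfCofinals p₀ 𝒟
  have hdir : ∀ p ∈ Id, ∀ q ∈ Id, ∃ r ∈ Id, p ≤ r ∧ q ≤ r := by
    intro p hp q hq
    obtain ⟨r, hr, h1, h2⟩ := Id.directed p hp q hq
    exact ⟨r, hr, h1, h2⟩
  have hdom : ∀ m, ∃ n, ∃ p ∈ Id, (m, n) ∈ p.s := by
    intro m
    obtain ⟨p, hp, hpI⟩ := Order.cofinal_meets_idealOfCofinals p₀ 𝒟 (Sum.inl m)
    obtain ⟨n, hn⟩ := hp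
    exact ⟨n, p, hpI, hn⟩
  choose g pg hpg hg using hdom
  have hmany : ∀ (V : Type) (_ : Finite V) (f : V → M), ∃ q ∈ Id, ∀ v, (f v, g (f v)) ∈ q.s := by
    intro V _ f
    have := Fintype.ofFinite V
    have key : ∀ s : Finset V, ∃ q ∈ Id, ∀ v ∈ s, (f v, g (f v)) ∈ q.s := by
      intro s
      induction s using Finset.induction_on with
      | empty => exact ⟨p₀, Order.mem_idealOfCofinals _ _, by simp⟩
      | insert v s hv ih =>
        obtain ⟨q, hq, hqs⟩ := ih
        obtain ⟨r, hr, h1, h2⟩ := hdir q hq (pg (f v)) (hpg (f v))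
        refine ⟨r, hr, fun v' hv' => ?_⟩
        rcases Finset.mem_insert.1 hv' with rfl | h
        · exact h2 (hg _)
        · exact h1 (hqs v' h)
    obtain ⟨q, hq, hqs⟩ := key Finset.univ
    exact ⟨q, hq, fun v => hqs v (Finset.mem_univ v)⟩
  refine ⟨g, ?_, ?_, ?_⟩
  · intro m m' hmm
    obtain ⟨r, -, h1, h2⟩ := hdir _ (hpg m) _ (hpg m')
    exact r.inj_eq (h1 (hg m)) (by rw [hmm]; exact h2 (hg m'))
  · intro V f
    funext i t
    apply propext
    obtain ⟨q, -, hq⟩ := hmany (Fin (ar₂ i)) inferInstance (f ∘ t)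
    exact pull_iff q.r i (fun j => (⟨_, hq j⟩ : q.s))
  · intro k w x z F g1 g2 g3 g4 g5 g6
    obtain ⟨p, hp, hpI⟩ := Order.cofinal_meets_idealOfCofinals p₀ 𝒟 (Sum.inr ⟨k, w, x, z, F⟩)
    obtain ⟨⟨ι, hι⟩, hp'⟩ := hp
    have hgι : ∀ m n, (m, n) ∈ p.s → n = g m := by
      intro m n hmn
      obtain ⟨r, -, h1, h2⟩ := hdir _ hpI _ (hpg m)
      exact r.fun_eq (h1 hmn) (h2 (hg m))
    have hιg : ι = g ∘ w := funext fun j => hgι _ _ (hι j)
    subst hιg
    obtain ⟨y, n, hyn, hyF, hyw, hyS, hyb⟩ := hp' (g ∘ w) hι g1 g2 g3 g4 g5 g6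
    refine ⟨y, hyF, hyw, hyS, ?_⟩
    rw [← hyb]
    congr 1
    funext j
    induction j using Fin.lastCases with
    | last => simp [hgι _ _ hyn]
    | cast j => simp

end

end Run7.h77
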