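import Pool.Agent.Run7.h77.Full

/-!
# Amalgamation and homogeneous expansions
-/

set_option autoImplicit false

namespace Run7.h77

open Function

section

variable {I : Type} {ar : I → ℕ} {I₀ : Type} {ar₀ : I₀ → ℕ} {M : Type}

/-- Amalgamation in the age of `(M, b)`. -/
def AP (b : RS I₀ ar₀ M) : Prop :=
  ∀ (V X Y : Type) (_ : Finite V) (_ : Finite X) (_ : Finite Y) (i : V → X) (j : V → Y)
    (f₁ : X → M) (f₂ : Y → M), Injective i → Injective j → Injective f₁ → Injective f₂ →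
    pull b (f₁ ∘ i) = pull b (f₂ ∘ j) →
    ∃ (f₁' : X → M) (f₂' : Y → M), Injective f₁' ∧ Injective f₂' ∧ pull b f₁' = pull b f₁ ∧
      pull b f₂' = pull b f₂ ∧ f₁' ∘ i = f₂' ∘ j

theorem ap_of_ramsey {b : RS I₀ ar₀ M} (h : RamseyF b) : AP b := by
  classical
  intro V X Y hV hX hY i j f₁ f₂ hi hj hf₁ hf₂ hij
  let D : Finset M := (Set.finite_range f₁).toFinset ∪ (Set.finite_range f₂).toFinset
  have hD₁ : ∀ x, f₁ x ∈ D := fun x => by simp [D]
  have hD₂ : ∀ x, f₂ x ∈ D := fun x => by simp [D]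
  obtain ⟨C, hC, w, hw, hram⟩ := h V D hV inferInstance (f₁ ∘ i) (fun a => a.1) (hf₁.comp hi)
    Subtype.val_injective (Bool × Bool) inferInstance inferInstance
  obtain ⟨g, hg, col, hcol⟩ := hram (fun e =>
    (decide (∃ f : X → M, Injective f ∧ pull b f = pull b f₁ ∧ f ∘ i = w ∘ e),
      decide (∃ f : Y → M, Injective f ∧ pull b f = pull b f₂ ∧ f ∘ j = w ∘ e)))
  obtain ⟨hg1, hg2⟩ := isEmb_pull.1 hg
  have h1 := hcol (fun a => ⟨f₁ (i a), hD₁ _⟩) (isEmb_pull.2
    ⟨fun a a' haa => (hf₁.comp hi) (congrArg Subtype.val haa), rfl⟩)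
  have h2 := hcol (fun a => ⟨f₂ (j a), hD₂ _⟩) (isEmb_pull.2
    ⟨fun a a' haa => (hf₂.comp hj) (congrArg Subtype.val haa), hij.symm⟩)
  have e1 : ∃ f : X → M, Injective f ∧ pull b f = pull b f₁ ∧
      f ∘ i = w ∘ (g ∘ fun a => ⟨f₁ (i a), hD₁ _⟩) := by
    refine ⟨w ∘ g ∘ fun x => ⟨f₁ x, hD₁ x⟩, (hw.comp hg1).comp
      (fun a a' haa => hf₁ (congrArg Subtype.val haa)), ?_, rfl⟩
    rw [← comp_assoc, pull_comp, hg2]
    rfl
  have e2 : ∃ f : Y → M, Injective f ∧ pull b f = pull b f₂ ∧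
      f ∘ j = w ∘ (g ∘ fun a => ⟨f₂ (j a), hD₂ _⟩) := by
    refine ⟨w ∘ g ∘ fun x => ⟨f₂ x, hD₂ x⟩, (hw.comp hg1).comp
      (fun a a' haa => hf₂ (congrArg Subtype.val haa)), ?_, rfl⟩
    rw [← comp_assoc, pull_comp, hg2]
    rfl
  have h3 : col.2 = true := by
    rw [← h2]
    simp only [decide_eq_true_eq]
    exact e2
  have h4 : decide (∃ f : Y → M, Injective f ∧ pull b f = pull b f₂ ∧
      f ∘ j = w ∘ (g ∘ fun a => ⟨f₁ (i a), hD₁ _⟩)) = true := by
    rw [← h3, ← h1]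
  rw [decide_eq_true_eq] at h4
  obtain ⟨f₁', a1, a2, a3⟩ := e1
  obtain ⟨f₂', b1, b2, b3⟩ := h4
  exact ⟨f₁', f₂', a1, b1, a2, b2, a3.trans b3.symm⟩

/-- Conditions for the construction of homogeneous expansions. -/
structure HCond (S : RS I ar M) (b : RS I₀ ar₀ M) where
  F : Finset M
  h : M → M
  c : Copy S (fun a : F => a.1) (fun a : F => h a)

instance (S : RS I ar M) (b : RS I₀ ar₀ M) : Preorder (HCond S b) where
  le p q := p.F ⊆ q.F ∧ pull b (fun a : p.F => q.h a) = pull b (fun a : p.F => p.h a)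
  le_refl p := ⟨Finset.Subset.refl _, rfl⟩
  le_trans p q r h₁ h₂ := ⟨Finset.Subset.trans h₁.1 h₂.1, by
    have h3 : pull b (fun a : p.F => r.h a) = pull b (fun a : p.F => q.h a) := by
      have h4 := congrArg (fun T => pull T (fun a : p.F => (⟨a.1, h₁.1 a.2⟩ : q.F))) h₂.2
      exact h4
    exact h3.trans h₁.2⟩

variable {S : RS I ar M} {b : RS I₀ ar₀ M}

theorem HCond.mk' (F : Finset M) (m : M) (hm : m ∉ F) (f : F → M) (y : M)
    (hinj : Injective (opt y f)) (hp : pull S (opt y f) = pull S (opt m (fun a : F => a.1))) :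
    ∃ q : HCond S b, (∀ a ∈ F, a ∈ q.F) ∧ m ∈ q.F ∧ (∀ a : F, q.h a = f a) ∧ q.h m = y := by
  classical
  let h : M → M := fun z => if z = m then y else if hz : z ∈ F then f ⟨z, hz⟩ else z
  have hF : ∀ a : F, h a = f a := fun a => by
    have h1 : (a : M) ≠ m := fun h => hm (h ▸ a.2)
    simp [h, h1]
  have hmy : h m = y := by simp [h]
  have hsur : ∀ x : ((insert m F : Finset M) : Type), ∃ o : Option F,
      opt m (fun a : F => a.1) o = x.1 ∧ opt y f o = h x.1 := by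
    rintro ⟨x, hx⟩
    rcases Finset.mem_insert.1 hx with rfl | hx
    · exact ⟨none, rfl, hmy.symm⟩
    · exact ⟨some ⟨x, hx⟩, rfl, (hF ⟨x, hx⟩).symm⟩
  choose o ho ho' using hsur
  refine ⟨⟨insert m F, h, ?_, ?_⟩, fun a ha => Finset.mem_insert_of_mem ha,
    Finset.mem_insert_self _ _, hF, hmy⟩
  · intro x x' hxx
    simp only at hxx
    rw [← ho' x, ← ho' x'] at hxx
    apply Subtype.ext
    rw [← ho x, ← ho x', hinj hxx]
  · have e1 : (fun a : ((insert m F : Finset M) : Type) => h a.1) = opt y f ∘ o := by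
      funext x
      exact (ho' x).symm
    have e2 : (fun a : ((insert m F : Finset M) : Type) => a.1) =
        opt m (fun a : F => a.1) ∘ o := by
      funext x
      exact (ho x).symm
    rw [e1, e2, pull_comp, pull_comp, hp]

theorem opt_inj {V X : Type} {y : X} {w : V → X} (hw : Injective w) (hy : ∀ v, w v ≠ y) :
    Injective (opt y w) := by
  intro a a' haa
  cases a with
  | none =>
    cases a' with
    | none => rfl
    | some a' => exact absurd haa.symm (hy a')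
  | some a =>
    cases a' with
    | none => exact absurd haa (hy a)
    | some a' => rw [hw haa]

theorem HCond.ext_dom (hE : Ext1 S) (p : HCond S b) (m : M) : ∃ q : HCond S b, p ≤ q ∧ m ∈ q.F := by
  by_cases hm : m ∈ p.F
  · exact ⟨p, le_refl p, hm⟩
  · obtain ⟨y, hy, hyp⟩ := hE p.F inferInstance (fun a : p.F => p.h a) (fun a : p.F => a.1) m
      p.c.1 Subtype.val_injective (fun v hv => hm (hv ▸ v.2)) p.c.2
    obtain ⟨q, hq1, hq2, hq3, -⟩ := HCond.mk' (b := b) p.F m hm (fun a : p.F => p.h a) y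
      (opt_inj p.c.1 hy) hyp
    refine ⟨q, ⟨hq1, ?_⟩, hq2⟩
    have : (fun a : p.F => q.h a) = (fun a : p.F => p.h a) := funext hq3
    rw [this]

theorem HCond.ext_dom_finset (hE : Ext1 S) (p : HCond S b) (G : Finset M) :
    ∃ q : HCond S b, p ≤ q ∧ G ⊆ q.F := by
  classical
  induction G using Finset.induction_on with
  | empty => exact ⟨p, le_refl p, by simp⟩
  | insert m G hm ih =>
    obtain ⟨q, hq, hqG⟩ := ih
    obtain ⟨r, hr, hrm⟩ := q.ext_dom hE m
    exact ⟨r, le_trans hq hr, Finset.insert_subset hrm (hqG.trans hr.1)⟩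

theorem HCond.ext_type (hE : Ext1 S) (hbS : Det b S) (hAP : AP b) (p : HCond S b) {k : ℕ}
    (w : Fin k → M) (z : Fin (k + 1) → M) (hwF : ∀ j, w j ∈ p.F) (hw : Injective w)
    (hz : Injective z) (hwz : pull b (p.h ∘ w) = pull b (z ∘ Fin.castSucc)) :
    ∃ (q : HCond S b) (y : M), p ≤ q ∧ y ∈ q.F ∧ (∀ j, w j ≠ y) ∧
      pull b (q.h ∘ Fin.snoc (α := fun _ => M) w y) = pull b z := by
  classical
  let i : Fin k → p.F := fun j => ⟨w j, hwF j⟩
  have hi : Injective i := fun a a' haa => hw (congrArg Subtype.val haa)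
  obtain ⟨f₁, f₂, hf₁, hf₂, h1, h2, h3⟩ := hAP (Fin k) p.F (Fin (k + 1)) inferInstance
    inferInstance inferInstance i Fin.castSucc (fun a : p.F => p.h a) z hi
    (Fin.castSucc_injective k) p.c.1 hz hwz
  by_cases hn : ∃ y : p.F, f₁ y = f₂ (Fin.last k)
  · obtain ⟨y, hy⟩ := hn
    refine ⟨p, y.1, le_refl p, y.2, fun j hj => ?_, ?_⟩
    · have h4 : i j = y := Subtype.ext hj
      have h5 : f₁ (i j) = f₂ j.castSucc := congrFun h3 j
      rw [h4, hy] at h5
      exact absurd (hf₂ h5).symm (Fin.castSucc_lt_last j).ne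
    · have h4 : Fin.snoc (α := fun _ => M) w y.1 =
          (fun a : p.F => a.1) ∘ Fin.snoc (α := fun _ => p.F) i y := by
        funext j
        induction j using Fin.lastCases with
        | last => simp
        | cast j => simp [i]
      have h5 : f₁ ∘ Fin.snoc (α := fun _ => p.F) i y = f₂ := by
        funext j
        induction j using Fin.lastCases with
        | last => simp [hy]
        | cast j =>
          simp only [comp_apply, Fin.snoc_castSucc]
          exact congrFun h3 j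
      rw [h4, ← h2, ← h5, ← comp_assoc]
      show pull b ((fun a : p.F => p.h a) ∘ _) = _
      rw [pull_comp, ← h1, ← pull_comp]
  · push Not at hn
    have h4 : pull S (fun a : p.F => a.1) = pull S f₁ := by
      rw [hbS _ inferInstance _ _ hf₁ p.c.1 h1]
      exact p.c.2.symm
    obtain ⟨y, hy, hyp⟩ := hE p.F inferInstance (fun a : p.F => a.1) f₁ (f₂ (Fin.last k))
      Subtype.val_injective hf₁ hn h4
    have hyF : y ∉ p.F := fun h => hy ⟨y, h⟩ rfl
    obtain ⟨q, hq1, hq2, hq3, hq4⟩ := HCond.mk' (S := S) (b := b) p.F y hyF f₁ (f₂ (Fin.last k))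
      (opt_inj hf₁ hn) hyp.symm
    have hqf : (fun a : p.F => q.h a) = f₁ := funext hq3
    refine ⟨q, y, ⟨hq1, by rw [hqf, h1]⟩, hq2, fun j hj => hy ⟨w j, hwF j⟩ hj, ?_⟩
    have h5 : q.h ∘ Fin.snoc (α := fun _ => M) w y = f₂ := by
      funext j
      induction j using Fin.lastCases with
      | last => simp [hq4]
      | cast j =>
        simp only [comp_apply, Fin.snoc_castSucc]
        exact (hq3 ⟨w j, hwF j⟩).trans (congrFun h3 j)
    rw [h5, h2]

/-- Existence of homogeneous expansions. -/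
theorem homog [Countable M] (hE : Ext1 S) (hbS : Det b S) (hAP : AP b) :
    ∃ Ψ : RS I₀ ar₀ M,
      (∀ (V : Type) (_ : Finite V) (f : V → M), Injective f → ∃ h : V → M, Injective h ∧
        pull Ψ f = pull b h ∧ pull S f = pull S h) ∧
      (∀ (k : ℕ) (w : Fin k → M) (z : Fin (k + 1) → M), Injective w → Injective z →
        pull Ψ w = pull b (z ∘ Fin.castSucc) → ∃ y, (∀ j, w j ≠ y) ∧
          pull Ψ (Fin.snoc (α := fun _ => M) w y) = pull b z) := by
  classical
  let Idx := M ⊕ (Σ k : ℕ, (Fin k → M) × (Fin (k + 1) → M))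
  have hcount : Countable Idx := inferInstance
  have henc : Encodable Idx := Encodable.ofCountable Idx
  let 𝒟 : Idx → Order.Cofinal (HCond S b) := fun j =>
    match j with
    | Sum.inl m => ⟨{p | m ∈ p.F}, fun p => by
        obtain ⟨q, hq, hn⟩ := p.ext_dom hE m
        exact ⟨q, hn, hq⟩⟩
    | Sum.inr ⟨k, w, z⟩ => ⟨{p | (∀ j, w j ∈ p.F) ∧ (Injective w → Injective z →
        pull b (p.h ∘ w) = pull b (z ∘ Fin.castSucc) → ∃ y ∈ p.F, (∀ j, w j ≠ y) ∧
          pull b (p.h ∘ Fin.snoc (α := fun _ => M) w y) = pull b z)}, fun p => by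
        obtain ⟨p₁, hp₁, hF⟩ := p.ext_dom_finset hE (Finset.univ.image w)
        have hwF : ∀ j, w j ∈ p₁.F := fun j => hF (by simp)
        by_cases hcond : Injective w ∧ Injective z ∧
          pull b (p₁.h ∘ w) = pull b (z ∘ Fin.castSucc)
        · obtain ⟨g1, g2, g3⟩ := hcond
          obtain ⟨q, y, hq, hyq, hy, hyb⟩ := p₁.ext_type hE hbS hAP w z hwF g1 g2 g3
          exact ⟨q, ⟨fun j => hq.1 (hwF j), fun _ _ _ => ⟨y, hyq, hy, hyb⟩⟩, le_trans hp₁ hq⟩
        · exact ⟨p₁, ⟨hwF, fun g1 g2 g3 => absurd ⟨g1, g2, g3⟩ hcond⟩, hp₁⟩⟩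
  let p₀ : HCond S b := ⟨∅, id, ⟨fun x => absurd x.2 (Finset.notMem_empty _), rfl⟩⟩
  let Id := Order.idealOfCofinals p₀ 𝒟
  have hdir : ∀ p ∈ Id, ∀ q ∈ Id, ∃ r ∈ Id, p ≤ r ∧ q ≤ r := by
    intro p hp q hq
    obtain ⟨r, hr, h1, h2⟩ := Id.directed p hp q hq
    exact ⟨r, hr, h1, h2⟩
  let Ψ : RS I₀ ar₀ M := fun i t => ∃ p ∈ Id, (∀ j, t j ∈ p.F) ∧ b i (p.h ∘ t)
  -- evaluation of `Ψ`
  have hev : ∀ p ∈ Id, ∀ (V : Type) (f : V → M), (∀ v, f v ∈ p.F) →
      pull Ψ f = pull b (p.h ∘ f) := by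
    intro p hp V f hf
    funext i t
    apply propext
    constructor
    · rintro ⟨q, hq, hqF, hqb⟩
      obtain ⟨r, hr, h1, h2⟩ := hdir p hp q hq
      have h3 := pull_iff h1.2 i (fun j => ⟨f (t j), hf _⟩)
      have h4 := pull_iff h2.2 i (fun j => ⟨f (t j), hqF _⟩)
      exact h3.1 (h4.2 hqb)
    · intro h
      exact ⟨p, hp, fun j => hf _, h⟩
  have hmany : ∀ G : Finset M, ∃ q ∈ Id, G ⊆ q.F := by
    intro G
    induction G using Finset.induction_on with
    | empty => exact ⟨p₀, Order.mem_idealOfCofinals _ _, by simp⟩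
    | insert m G hm ih =>
      obtain ⟨q, hq, hqs⟩ := ih
      obtain ⟨p, hp, hpI⟩ := Order.cofinal_meets_idealOfCofinals p₀ 𝒟 (Sum.inl m)
      obtain ⟨r, hr, h1, h2⟩ := hdir q hq p hpI
      exact ⟨r, hr, Finset.insert_subset (h2.1 hp) (hqs.trans h1.1)⟩
  refine ⟨Ψ, ?_, ?_⟩
  · intro V hV f hf
    obtain ⟨q, hq, hqF⟩ := hmany (Set.finite_range f).toFinset
    have hfF : ∀ v, f v ∈ q.F := fun v => hqF (by simp)
    have h1 := q.c.restrict hfF hf
    exact ⟨q.h ∘ f, h1.1, hev q hq V f hfF, h1.2.symm⟩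
  · intro k w z hw hz hwz
    obtain ⟨p, hp, hpI⟩ := Order.cofinal_meets_idealOfCofinals p₀ 𝒟 (Sum.inr ⟨k, w, z⟩)
    obtain ⟨hwF, hp'⟩ := hp
    rw [hev p hpI _ w hwF] at hwz
    obtain ⟨y, hyF, hy, hyb⟩ := hp' hw hz hwz
    refine ⟨y, hy, ?_⟩
    rw [hev p hpI, hyb]
    intro j
    induction j using Fin.lastCases with
    | last => simpa using hyF
    | cast j => simpa using hwF j

end

end Run7.h77
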