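import Pool.Agent.Run7.h77.Lang

/-!
# `H₄`-free 3-hypertournaments: adding one edge
-/

set_option autoImplicit false

namespace Run7.h77

open Function

/-- `R` is a 3-hypertournament on `A`. -/
structure HT3 {A : Type} (R : A → A → A → Prop) : Prop where
  ne : ∀ x y z, R x y z → x ≠ y ∧ y ≠ z ∧ x ≠ z
  cyc : ∀ x y z, R x y z → R y z x
  one : ∀ x y z, x ≠ y → y ≠ z → x ≠ z → (R x y z ↔ ¬ R x z y)

/-- `R` has no copy of `H₄`. -/
def NoH4 {A : Type} (R : A → A → A → Prop) : Prop :=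
  ∀ v : Fin 4 → A, Injective v →
    ¬ (R (v 0) (v 1) (v 3) ∧ R (v 1) (v 2) (v 3) ∧ R (v 2) (v 0) (v 3) ∧ R (v 0) (v 2) (v 1))

/-- the ternary relation of a relational structure -/
def tr3 {A : Type} (T : RS Unit (fun _ => 3) A) (x y z : A) : Prop := T () ![x, y, z]

theorem tr3_pull {A B : Type} (T : RS Unit (fun _ => 3) B) (f : A → B) (x y z : A) :
    tr3 (pull T f) x y z ↔ tr3 T (f x) (f y) (f z) := by
  show T () (f ∘ ![x, y, z]) ↔ T () ![f x, f y, f z]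
  have : f ∘ ![x, y, z] = ![f x, f y, f z] := by
    funext j
    fin_cases j <;> rfl
  rw [this]

theorem tr3_vec {A : Type} (T : RS Unit (fun _ => 3) A) (t : Fin 3 → A) :
    T () t ↔ tr3 T (t 0) (t 1) (t 2) := by
  have : t = ![t 0, t 1, t 2] := by
    funext j
    fin_cases j <;> rfl
  show T () t ↔ T () ![t 0, t 1, t 2]
  rw [← this]

/-- The class of `H₄`-free 3-hypertournaments. -/
def K3 {A : Type} (T : RS Unit (fun _ => 3) A) : Prop := HT3 (tr3 T) ∧ NoH4 (tr3 T)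

/-- The new relation after adding the edge `x y`. -/
def rule3 {V : Type} (x y : V) (R : V → V → V → Prop) (a b c : V) : Prop :=
  (a ≠ x ∧ a ≠ y ∧ b = x ∧ c = y) ∨ (b ≠ x ∧ b ≠ y ∧ c = x ∧ a = y) ∨
    (c ≠ x ∧ c ≠ y ∧ a = x ∧ b = y) ∨
    (¬ ((a = x ∨ b = x ∨ c = x) ∧ (a = y ∨ b = y ∨ c = y)) ∧ R a b c)

section rule

variable {V : Type} {x y : V} {R : V → V → V → Prop}

theorem rule3_old {u v w : V} (key : ¬ ((u = x ∨ v = x ∨ w = x) ∧ (u = y ∨ v = y ∨ w = y))) :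
    rule3 x y R u v w ↔ R u v w := by
  constructor
  · rintro (h | h | h | h)
    · exact absurd ⟨Or.inr (Or.inl h.2.2.1), Or.inr (Or.inr h.2.2.2)⟩ key
    · exact absurd ⟨Or.inr (Or.inr h.2.2.1), Or.inl h.2.2.2⟩ key
    · exact absurd ⟨Or.inl h.2.2.1, Or.inr (Or.inl h.2.2.2)⟩ key
    · exact h.2
  · intro h
    exact Or.inr (Or.inr (Or.inr ⟨key, h⟩))

theorem rule3_cyc {u v w : V} (hh : ¬ ((u = x ∨ v = x ∨ w = x) ∧ (u = y ∨ v = y ∨ w = y)) →
    R u v w → R v w u) (h : rule3 x y R u v w) : rule3 x y R v w u := by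
  by_cases key : ((u = x ∨ v = x ∨ w = x) ∧ (u = y ∨ v = y ∨ w = y))
  · rcases h with h | h | h | h
    · exact Or.inr (Or.inr (Or.inl h))
    · exact Or.inl h
    · exact Or.inr (Or.inl h)
    · exact absurd key h.1
  · have key' : ¬ ((v = x ∨ w = x ∨ u = x) ∧ (v = y ∨ w = y ∨ u = y)) := by tauto
    exact (rule3_old key').2 (hh key ((rule3_old key).1 h))

theorem rule3_one_aux (hxy : x ≠ y) {u v w : V} (h1 : u ≠ v) (h2 : v ≠ w) (h3 : u ≠ w)
    (key : ((u = x ∨ v = x ∨ w = x) ∧ (u = y ∨ v = y ∨ w = y))) :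
    rule3 x y R u v w ↔ ¬ rule3 x y R u w v := by
  have h1' := h1.symm
  have h2' := h2.symm
  have h3' := h3.symm
  have hyx := hxy.symm
  rcases key with ⟨rfl | rfl | rfl, rfl | rfl | rfl⟩ <;> simp_all [rule3]

theorem rule3_one (hxy : x ≠ y) {u v w : V} (h1 : u ≠ v) (h2 : v ≠ w) (h3 : u ≠ w)
    (hh : ¬ ((u = x ∨ v = x ∨ w = x) ∧ (u = y ∨ v = y ∨ w = y)) → (R u v w ↔ ¬ R u w v)) :
    rule3 x y R u v w ↔ ¬ rule3 x y R u w v := by
  by_cases key : ((u = x ∨ v = x ∨ w = x) ∧ (u = y ∨ v = y ∨ w = y))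
  · exact rule3_one_aux hxy h1 h2 h3 key
  · have key' : ¬ ((u = x ∨ w = x ∨ v = x) ∧ (u = y ∨ w = y ∨ v = y)) := by tauto
    rw [rule3_old key, rule3_old key']
    exact hh key

theorem rule3_ne (hxy : x ≠ y) {u v w : V}
    (hh : ¬ ((u = x ∨ v = x ∨ w = x) ∧ (u = y ∨ v = y ∨ w = y)) → R u v w →
      u ≠ v ∧ v ≠ w ∧ u ≠ w) (h : rule3 x y R u v w) : u ≠ v ∧ v ≠ w ∧ u ≠ w := by
  rcases h with h | h | h | h
  · obtain ⟨g1, g2, g3, g4⟩ := h
    rw [g3, g4]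
    exact ⟨g1, hxy, g2⟩
  · obtain ⟨g1, g2, g3, g4⟩ := h
    rw [g3, g4]
    exact ⟨g2.symm, g1, hxy.symm⟩
  · obtain ⟨g1, g2, g3, g4⟩ := h
    rw [g3, g4]
    exact ⟨hxy, g2.symm, g1.symm⟩
  · exact hh h.1 h.2

theorem rule3_no1 (hxy : x ≠ y) {a : V} (h1 : a ≠ x) (h2 : a ≠ y) : ¬ rule3 x y R a y x := by
  rintro (h | h | h | h)
  · exact hxy h.2.2.1.symm
  · exact h2 h.2.2.2
  · exact h1 h.2.2.1
  · exact h.1 ⟨Or.inr (Or.inr rfl), Or.inr (Or.inl rfl)⟩

theorem rule3_no2 (hxy : x ≠ y) {a : V} (h1 : a ≠ x) (h2 : a ≠ y) : ¬ rule3 x y R y x a := by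
  rintro (h | h | h | h)
  · exact h2 h.2.2.2
  · exact h1 h.2.2.1
  · exact hxy h.2.2.1.symm
  · exact h.1 ⟨Or.inr (Or.inl rfl), Or.inl rfl⟩

theorem rule3_no3 (hxy : x ≠ y) {a : V} (h1 : a ≠ x) (h2 : a ≠ y) : ¬ rule3 x y R x a y := by
  rintro (h | h | h | h)
  · exact h1 h.2.2.1
  · exact hxy h.2.2.2
  · exact h2 h.2.2.2
  · exact h.1 ⟨Or.inl rfl, Or.inr (Or.inr rfl)⟩

theorem noH4_pair (R : V → V → V → Prop) (v : Fin 4 → V) (hv : Injective v) (i j : Fin 4)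
    (hij : i ≠ j) (no1 : ∀ a, a ≠ v i → a ≠ v j → ¬ R a (v j) (v i))
    (no2 : ∀ a, a ≠ v i → a ≠ v j → ¬ R (v j) (v i) a)
    (no3 : ∀ a, a ≠ v i → a ≠ v j → ¬ R (v i) a (v j)) :
    ¬ (R (v 0) (v 1) (v 3) ∧ R (v 1) (v 2) (v 3) ∧ R (v 2) (v 0) (v 3) ∧
      R (v 0) (v 2) (v 1)) := by
  rintro ⟨h1, h2, h3, h4⟩
  fin_cases i <;> fin_cases j
  · exact hij rfl
  · exact no3 _ (hv.ne (by decide)) (hv.ne (by decide)) h4
  · exact no2 _ (hv.ne (by decide)) (hv.ne (by decide)) h3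
  · exact no3 _ (hv.ne (by decide)) (hv.ne (by decide)) h1
  · exact no2 _ (hv.ne (by decide)) (hv.ne (by decide)) h1
  · exact hij rfl
  · exact no1 _ (hv.ne (by decide)) (hv.ne (by decide)) h4
  · exact no3 _ (hv.ne (by decide)) (hv.ne (by decide)) h2
  · exact no2 _ (hv.ne (by decide)) (hv.ne (by decide)) h4
  · exact no2 _ (hv.ne (by decide)) (hv.ne (by decide)) h2
  · exact hij rfl
  · exact no3 _ (hv.ne (by decide)) (hv.ne (by decide)) h3
  · exact no1 _ (hv.ne (by decide)) (hv.ne (by decide)) h3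
  · exact no1 _ (hv.ne (by decide)) (hv.ne (by decide)) h1
  · exact no1 _ (hv.ne (by decide)) (hv.ne (by decide)) h2
  · exact hij rfl

end rule

theorem edge3 {V : Type} (E : V → V → Prop) (T : RS Unit (fun _ => 3) V)
    (hEs : ∀ x y, E x y → E y x)
    (hcl : ∀ (J : Type) (y : J → V), Injective y → (∀ a a', a ≠ a' → E (y a) (y a')) →
      K3 (pull T y)) (x y : V) (hxy : x ≠ y) (hE : ¬ E x y) :
    ∃ T' : RS Unit (fun _ => 3) V,
      (∀ i (t : Fin 3 → V), (∀ j k, t j ≠ t k → E (t j) (t k)) → (T' i t ↔ T i t)) ∧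
      (∀ (J : Type) (y' : J → V), Injective y' →
        (∀ a a', a ≠ a' → (E (y' a) (y' a') ∨ (y' a = x ∧ y' a' = y) ∨ (y' a = y ∧ y' a' = x))) →
      K3 (pull T' y')) := by
  classical
  have hE' : ¬ E y x := fun h => hE (hEs _ _ h)
  -- local form of the hypothesis
  have loc : ∀ a b c : V, (a ≠ b → E a b) → (b ≠ c → E b c) → (a ≠ c → E a c) →
      (tr3 T a b c → a ≠ b ∧ b ≠ c ∧ a ≠ c) ∧ (tr3 T a b c → tr3 T b c a) ∧
      (a ≠ b → b ≠ c → a ≠ c → (tr3 T a b c ↔ ¬ tr3 T a c b)) := by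
    intro a b c h1 h2 h3
    let J := {v : V // v = a ∨ v = b ∨ v = c}
    have hJ := hcl J Subtype.val Subtype.val_injective (by
      rintro ⟨u, hu⟩ ⟨v, hv⟩ huv
      have huv' : u ≠ v := fun h => huv (Subtype.ext h)
      show E u v
      rcases hu with rfl | rfl | rfl <;> rcases hv with rfl | rfl | rfl <;>
        first
        | exact absurd rfl huv'
        | exact h1 huv'
        | exact h2 huv'
        | exact h3 huv'
        | exact hEs _ _ (h1 huv'.symm)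
        | exact hEs _ _ (h2 huv'.symm)
        | exact hEs _ _ (h3 huv'.symm))
    let a' : J := ⟨a, Or.inl rfl⟩
    let b' : J := ⟨b, Or.inr (Or.inl rfl)⟩
    let c' : J := ⟨c, Or.inr (Or.inr rfl)⟩
    refine ⟨fun h => ?_, fun h => ?_, fun g1 g2 g3 => ?_⟩
    · have := hJ.1.ne a' b' c' ((tr3_pull T _ _ _ _).2 h)
      exact ⟨fun h => this.1 (Subtype.ext h), fun h => this.2.1 (Subtype.ext h),
        fun h => this.2.2 (Subtype.ext h)⟩
    · exact (tr3_pull T _ _ _ _).1 (hJ.1.cyc a' b' c' ((tr3_pull T _ _ _ _).2 h))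
    · have := hJ.1.one a' b' c' (fun h => g1 (congrArg Subtype.val h))
        (fun h => g2 (congrArg Subtype.val h)) (fun h => g3 (congrArg Subtype.val h))
      rw [tr3_pull, tr3_pull] at this
      exact this
  have loc4 : ∀ v : Fin 4 → V, Injective v → (∀ i j, i ≠ j → E (v i) (v j)) →
      ¬ (tr3 T (v 0) (v 1) (v 3) ∧ tr3 T (v 1) (v 2) (v 3) ∧ tr3 T (v 2) (v 0) (v 3) ∧
        tr3 T (v 0) (v 2) (v 1)) := by
    intro v hv hvE h
    have := (hcl (Fin 4) v hv hvE).2 id injective_id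
    simp only [tr3_pull, id] at this
    exact this h
  let T' : RS Unit (fun _ => 3) V := fun _ t => rule3 x y (tr3 T) (t 0) (t 1) (t 2)
  refine ⟨T', ?_, ?_⟩
  · rintro ⟨⟩ t ht
    rw [tr3_vec T]
    refine rule3_old ?_
    rintro ⟨h1, h2⟩
    obtain ⟨j, hj⟩ : ∃ j, t j = x := by
      rcases h1 with h | h | h
      · exact ⟨0, h⟩
      · exact ⟨1, h⟩
      · exact ⟨2, h⟩
    obtain ⟨k, hk⟩ : ∃ k, t k = y := by
      rcases h2 with h | h | h
      · exact ⟨0, h⟩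
      · exact ⟨1, h⟩
      · exact ⟨2, h⟩
    exact hE (hj ▸ hk ▸ ht j k (by rw [hj, hk]; exact hxy))
  · intro J y' hy' hcl'
    -- adjacency in `E` unless the pair is `{x, y}`
    have adj : ∀ a b : J, a ≠ b → ¬ (y' a = x ∧ y' b = y) → ¬ (y' a = y ∧ y' b = x) →
        E (y' a) (y' b) := by
      intro a b hab h1 h2
      rcases hcl' a b hab with h | h | h
      · exact h
      · exact absurd h h1
      · exact absurd h h2
    have hpair : ∀ u v w : J, ¬ ((y' u = x ∨ y' v = x ∨ y' w = x) ∧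
        (y' u = y ∨ y' v = y ∨ y' w = y)) →
        (y' u ≠ y' v → E (y' u) (y' v)) ∧ (y' v ≠ y' w → E (y' v) (y' w)) ∧
        (y' u ≠ y' w → E (y' u) (y' w)) := by
      intro u v w key
      refine ⟨fun h => adj _ _ (fun h' => h (by rw [h'])) ?_ ?_,
        fun h => adj _ _ (fun h' => h (by rw [h'])) ?_ ?_,
        fun h => adj _ _ (fun h' => h (by rw [h'])) ?_ ?_⟩ <;> tauto
    have e0 : ∀ a b c : J, tr3 (pull T' y') a b c ↔ rule3 x y (tr3 T) (y' a) (y' b) (y' c) :=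
      fun a b c => Iff.rfl
    refine ⟨⟨fun u v w h => ?_, fun u v w h => ?_, fun u v w h1 h2 h3 => ?_⟩, ?_⟩
    · have goal : y' u ≠ y' v ∧ y' v ≠ y' w ∧ y' u ≠ y' w := by
        refine rule3_ne hxy (fun key h => ?_) ((e0 _ _ _).1 h)
        obtain ⟨p1, p2, p3⟩ := hpair u v w key
        exact (loc _ _ _ p1 p2 p3).1 h
      exact ⟨fun h => goal.1 (by rw [h]), fun h => goal.2.1 (by rw [h]),
        fun h => goal.2.2 (by rw [h])⟩
    · refine rule3_cyc (fun key => ?_) h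
      obtain ⟨p1, p2, p3⟩ := hpair u v w key
      exact (loc _ _ _ p1 p2 p3).2.1
    · refine rule3_one hxy (hy'.ne h1) (hy'.ne h2) (hy'.ne h3) (fun key => ?_)
      obtain ⟨p1, p2, p3⟩ := hpair u v w key
      exact (loc _ _ _ p1 p2 p3).2.2 (hy'.ne h1) (hy'.ne h2) (hy'.ne h3)
    · intro v hv h
      have hinj : Injective (fun i => y' (v i)) := hy'.comp hv
      simp only [e0] at h
      by_cases key : (∃ i, y' (v i) = x) ∧ (∃ j, y' (v j) = y)
      · obtain ⟨⟨i, rfl⟩, ⟨j, rfl⟩⟩ := key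
        exact noH4_pair _ (fun i => y' (v i)) hinj i j (fun h => hxy (by rw [h]))
          (fun a h1 h2 => rule3_no1 hxy h1 h2) (fun a h1 h2 => rule3_no2 hxy h1 h2)
          (fun a h1 h2 => rule3_no3 hxy h1 h2) h
      · have hE4 : ∀ i j, i ≠ j → E (y' (v i)) (y' (v j)) := by
          intro i j hij
          refine adj _ _ (fun h => hij (hv h)) ?_ ?_
          · rintro ⟨h1, h2⟩
            exact key ⟨⟨i, h1⟩, ⟨j, h2⟩⟩
          · rintro ⟨h1, h2⟩
            exact key ⟨⟨j, h2⟩, ⟨i, h1⟩⟩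
        have key' : ∀ i j k, ¬ ((y' (v i) = x ∨ y' (v j) = x ∨ y' (v k) = x) ∧
            (y' (v i) = y ∨ y' (v j) = y ∨ y' (v k) = y)) := by
          rintro i j k ⟨h1, h2⟩
          apply key
          constructor
          · rcases h1 with h | h | h
            · exact ⟨_, h⟩
            · exact ⟨_, h⟩
            · exact ⟨_, h⟩
          · rcases h2 with h | h | h
            · exact ⟨_, h⟩
            · exact ⟨_, h⟩
            · exact ⟨_, h⟩
        rw [rule3_old (key' _ _ _), rule3_old (key' _ _ _), rule3_old (key' _ _ _),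
          rule3_old (key' _ _ _)] at h
        exact loc4 (fun i => y' (v i)) hinj hE4 h

end Run7.h77
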