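import Pool.Agent.Run7.h77.Edge
import Pool.Agent.V1130.RelStr

/-!
# First order language versions
-/

set_option autoImplicit false

namespace Run7.h77

open Function FirstOrder Language Structure CategoryTheory
open Pool.Agent.V1130.RelStr

/-- Ramsey property of a class of structures, for colourings of embeddings. -/
def EmbRamsey (L : FirstOrder.Language.{0, 0}) (K : Set (Bundled.{0} L.Structure)) : Prop :=
  ∀ A ∈ K, ∀ B ∈ K, ∀ k : ℕ, 1 ≤ k → ∃ C ∈ K, ∀ χ : (A ↪[L] C) → Fin k,
    ∃ g : B ↪[L] C, ∃ i : Fin k, ∀ f : A ↪[L] B, χ (g.comp f) = i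

/-- Ramsey property of a class of structures, for colourings of substructures. -/
def CopyRamsey (L : FirstOrder.Language.{0, 0}) (K : Set (Bundled.{0} L.Structure)) : Prop :=
  ∀ A ∈ K, ∀ B ∈ K, ∀ k : ℕ, 1 ≤ k → ∃ C ∈ K, ∀ χ : L.Substructure C → Fin k,
    ∃ B' : L.Substructure C, Nonempty (B' ≃[L] B) ∧ ∃ i : Fin k,
      ∀ A' : L.Substructure C, A' ≤ B' → Nonempty (A' ≃[L] A) → χ A' = i

theorem copyRamsey_of_embRamsey {L : FirstOrder.Language.{0, 0}}
    {K : Set (Bundled.{0} L.Structure)} (h : EmbRamsey L K) : CopyRamsey L K := by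
  intro A hA B hB k hk
  obtain ⟨C, hC, hram⟩ := h A hA B hB k hk
  refine ⟨C, hC, fun χ => ?_⟩
  obtain ⟨g, i, hg⟩ := hram (fun e => χ e.toHom.range)
  refine ⟨g.toHom.range, ⟨g.equivRange.symm⟩, i, ?_⟩
  rintro A' hA' ⟨θ⟩
  let f : A ↪[L] B := g.equivRange.symm.toEmbedding.comp
    ((Substructure.inclusion hA').comp θ.symm.toEmbedding)
  have hf : ∀ a, g (f a) = θ.symm a := by
    intro a
    have h1 : g.equivRange (f a) = Substructure.inclusion hA' (θ.symm a) := by
      simp [f]
    have h2 := congrArg Subtype.val h1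
    simpa using h2
  rw [← hg f]
  congr 1
  ext x
  constructor
  · intro hx
    refine ⟨θ ⟨x, hx⟩, ?_⟩
    show g (f (θ ⟨x, hx⟩)) = x
    rw [hf]
    simp
  · rintro ⟨a, rfl⟩
    show g (f a) ∈ A'
    rw [hf]
    exact (θ.symm a).2

section

variable {I : Type} {ar : I → ℕ}

/-- The relational structure of an `L`-structure. -/
def rs (L : FirstOrder.Language.{0, 0}) (M : Type) [L.Structure M] :
    RS (Σ n, L.Relations n) (fun r => r.1) M := fun r y => RelMap r.2 y

/-- `S` and `T` have the same isomorphism types of finite injective families. -/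
def SameType {J : Type} {ar' : J → ℕ} {M : Type} (S : RS I ar M) (T : RS J ar' M) : Prop :=
  ∀ (V : Type) (_ : Finite V) (f f' : V → M), Injective f → Injective f' →
    (pull S f = pull S f' ↔ pull T f = pull T f')

theorem pull_rs_eq {L : FirstOrder.Language.{0, 0}} {M : Type} [L.Structure M] {A : Type}
    [L.Structure A] (f : A ↪[L] M) : pull (rs L M) f = rs L A := by
  funext r y
  exact propext (f.map_rel r.2 y)

theorem isEmb_pull {M : Type} {S : RS I ar M} {A C : Type} {u : A → M} {w : C → M} {e : A → C} :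
    IsEmb (pull S u) (pull S w) e ↔ Injective e ∧ pull S (w ∘ e) = pull S u := by
  constructor
  · intro h
    exact ⟨h.1, funext fun i => funext fun y => propext (h.2 i y)⟩
  · intro h
    exact ⟨h.1, fun i y => iff_of_eq (congrFun (congrFun h.2 i) y)⟩

theorem extAvoid_of_extT {L : FirstOrder.Language.{0, 0}} {M : Type} [L.Structure M]
    [DecidableEq M] {S : RS I ar M} (hS : ExtT S) (h : SameType S (rs L M)) : ExtAvoid L M := by
  intro A f hf x hx F
  obtain ⟨y, hyF, hyw, hy⟩ := hS.gen (V := A) (fun a => f a.1) (fun a => a.1) x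
    (fun a a' haa => Subtype.ext (hf.inj a.2 a'.2 haa)) Subtype.val_injective
    (fun v hv => hx (hv ▸ v.2)) ((h _ inferInstance _ _
      (fun a a' haa => Subtype.ext (hf.inj a.2 a'.2 haa)) Subtype.val_injective).2 (by
        funext r t
        exact propext (hf.rel r.2 (fun j => (t j).1) (fun j => (t j).2)))) F
  have hi1 : Injective (fun o : Option A => o.elim y (fun a => f a.1)) := by
    intro a a' haa
    cases a with
    | none =>
      cases a' with
      | none => rfl
      | some a' => exact absurd haa.symm (hyw a')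
    | some a =>
      cases a' with
      | none => exact absurd haa (hyw a)
      | some a' => rw [Subtype.ext (hf.inj a.2 a'.2 haa)]
  have hi2 : Injective (fun o : Option A => o.elim x (fun a => a.1)) := by
    intro a a' haa
    cases a with
    | none =>
      cases a' with
      | none => rfl
      | some a' => exact absurd a'.2 (by rw [← show x = a'.1 from haa]; exact hx)
    | some a =>
      cases a' with
      | none => exact absurd a.2 (by rw [show a.1 = x from haa]; exact hx)
      | some a' => rw [Subtype.ext haa]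
  have hy' := (h _ inferInstance _ _ hi1 hi2).1 hy
  have hsur : ∀ z ∈ insert x A, ∃ o : Option A, o.elim x (fun a => a.1) = z ∧
      o.elim y (fun a => f a.1) = update f x y z := by
    intro z hz
    by_cases hzx : z = x
    · subst hzx
      exact ⟨none, rfl, by simp⟩
    · have hzA : z ∈ A := (Finset.mem_insert.1 hz).resolve_left hzx
      exact ⟨some ⟨z, hzA⟩, rfl, by simp [hzx]⟩
  refine ⟨y, hyF, ?_, ?_⟩
  · intro z hz z' hz' hzz
    obtain ⟨o, ho, ho'⟩ := hsur z (by exact_mod_cast hz)
    obtain ⟨o', hoo, hoo'⟩ := hsur z' (by exact_mod_cast hz')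
    rw [← ho, ← hoo]
    rw [← ho', ← hoo'] at hzz
    rw [hi1 hzz]
  · intro n R v hv
    choose o ho ho' using fun j => hsur (v j) (hv j)
    have e1 : v = (fun o : Option A => o.elim x (fun a => a.1)) ∘ o := funext fun j => (ho j).symm
    have e2 : update f x y ∘ v = (fun o : Option A => o.elim y (fun a => f a.1)) ∘ o :=
      funext fun j => (ho' j).symm
    rw [e2]
    conv_rhs => rw [e1]
    exact pull_iff hy' ⟨n, R⟩ o

theorem ext1_of_ultra {L : FirstOrder.Language.{0, 0}} [L.IsRelational] {M : Type}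
    [L.Structure M] {S : RS I ar M} (hu : L.IsUltrahomogeneous M) (h : SameType S (rs L M)) :
    Ext1 S := by
  classical
  intro V hV w x x' hw hx hx' hp
  have hp' := (h V hV w x hw hx).1 hp
  let A : Finset M := (Set.finite_range x).toFinset
  have hA : ∀ m, m ∈ A ↔ ∃ v, x v = m := fun m => by simp [A]
  let f : M → M := fun m => if hm : ∃ v, x v = m then w hm.choose else m
  have hf : ∀ v, f (x v) = w v := by
    intro v
    have hm : ∃ v', x v' = x v := ⟨v, rfl⟩
    simp only [f, dif_pos hm]
    rw [hx hm.choose_spec]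
  have hpi : PIso L A f := by
    refine ⟨?_, ?_⟩
    · intro a ha b hb hab
      obtain ⟨v, rfl⟩ := (hA a).1 (by exact_mod_cast ha)
      obtain ⟨v', rfl⟩ := (hA b).1 (by exact_mod_cast hb)
      rw [hf, hf] at hab
      rw [hw hab]
    · intro n R t ht
      choose s hs using fun j => (hA (t j)).1 (ht j)
      have e1 : t = x ∘ s := funext fun j => (hs j).symm
      have e2 : f ∘ t = w ∘ s := by
        funext j
        simp only [comp_apply]
        rw [← hs j, hf]
      rw [e2, e1]
      exact pull_iff hp' ⟨n, R⟩ s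
  obtain ⟨γ, hγ⟩ := PIso.exists_equiv hu hpi
  have hγx : ∀ v, γ (x v) = w v := fun v => by
    rw [hγ _ ((hA _).2 ⟨v, rfl⟩), hf]
  have e3 : opt (γ x') w = γ ∘ opt x' x := by
    funext o
    cases o with
    | none => rfl
    | some v => exact (hγx v).symm
  have hox : Injective (opt x' x) := by
    intro a a' haa
    cases a with
    | none =>
      cases a' with
      | none => rfl
      | some a' => exact absurd haa.symm (hx' a')
    | some a =>
      cases a' with
      | none => exact absurd haa (hx' a)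
      | some a' => rw [hx haa]
  refine ⟨γ x', fun v hv => hx' v (γ.injective ((hγx v).trans hv)), ?_⟩
  rw [e3]
  refine (h _ inferInstance _ _ (γ.injective.comp hox) hox).2 ?_
  funext r t
  exact propext (γ.map_rel r.2 (opt x' x ∘ t))

theorem ultrahomogeneous_of_extT {L : FirstOrder.Language.{0, 0}} [L.IsRelational] {M : Type}
    [L.Structure M] [Countable M] {S : RS I ar M} (hS : ExtT S) (h : SameType S (rs L M)) :
    L.IsUltrahomogeneous M := by
  classical
  exact isUltrahomogeneous_of_ext (extAvoid_of_extT hS h)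

theorem embRamsey_of_ramseyF {L : FirstOrder.Language.{0, 0}} [L.IsRelational] {M : Type}
    [L.Structure M] {S : RS I ar M} (hS : RamseyF S) (h : SameType S (rs L M)) :
    EmbRamsey L (L.age M) := by
  classical
  rintro A ⟨hAfg, ⟨u⟩⟩ B ⟨hBfg, ⟨v⟩⟩ k hk
  have hA : Finite A := Structure.fg_iff_finite.1 hAfg
  have hB : Finite B := Structure.fg_iff_finite.1 hBfg
  obtain ⟨C, hC, w, hw, hram⟩ := hS A B hA hB u v u.injective v.injective (Fin k) inferInstance
    ⟨⟨0, hk⟩⟩
  letI sC : L.Structure C :=
    { funMap := fun f => isEmptyElim f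
      RelMap := fun r y => RelMap r (w ∘ y) }
  let wE : C ↪[L] M :=
    { toFun := w
      inj' := hw
      map_fun' := fun {n} f => isEmptyElim f
      map_rel' := fun {n} r y => Iff.rfl }
  -- translation between embeddings
  have tr : ∀ {X : Type} [L.Structure X] (x : X ↪[L] M) (_ : Finite X) (e : X → C),
      IsEmb (pull S x) (pull S w) e ↔ ∃ e' : X ↪[L] C, ⇑e' = e := by
    intro X _ x hX e
    rw [isEmb_pull]
    constructor
    · rintro ⟨he, hp⟩
      have h1 := (h X hX _ _ (hw.comp he) x.injective).1 hp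
      refine ⟨⟨⟨e, he⟩, fun {n} f => isEmptyElim f, fun {n} r y => ?_⟩, rfl⟩
      exact (pull_iff h1 ⟨n, r⟩ y).trans (x.map_rel r y)
    · rintro ⟨e', rfl⟩
      refine ⟨e'.injective, (h X hX _ _ (hw.comp e'.injective) x.injective).2 ?_⟩
      have h1 := pull_rs_eq (wE.comp e')
      have h2 := pull_rs_eq x
      exact h1.trans h2.symm
  refine ⟨Bundled.of C, ⟨Structure.fg_iff_finite.2 hC, ⟨wE⟩⟩, fun χ => ?_⟩
  obtain ⟨g, hg, col, hcol⟩ := hram (fun e => if he : ∃ e' : A ↪[L] C, ⇑e' = e then
    χ he.choose else ⟨0, hk⟩)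
  obtain ⟨g', rfl⟩ := (tr v hB g).1 hg
  refine ⟨g', col, fun f => ?_⟩
  have hf : IsEmb (pull S u) (pull S v) f := by
    rw [isEmb_pull]
    refine ⟨f.injective, (h A hA _ _ (v.injective.comp f.injective) u.injective).2 ?_⟩
    exact (pull_rs_eq (v.comp f)).trans (pull_rs_eq u).symm
  have h1 := hcol f hf
  have hex : ∃ e' : A ↪[L] C, ⇑e' = g' ∘ f := ⟨g'.comp f, rfl⟩
  rw [dif_pos hex] at h1
  rw [← h1]
  congr 1
  exact DFunLike.coe_injective hex.choose_spec.symm


end

end Run7.h77
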