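import Pool.Agent.Run7.h77.Core

/-!
# Ramsey theorem for structures over a base class

`full` : all expansions of the structures of a Ramsey class with blow-ups form a Ramsey class.
`nr` : moreover the target can be chosen with a graph such that every clique of the graph comes
from the given structure `B` (Nešetřil-Rödl type theorem over a base class).
-/

set_option autoImplicit false

namespace Run7.h77

open Function

/-- Relational structures on `V`. -/
abbrev RS (I : Type) (ar : I → ℕ) (V : Type) : Type := ∀ i : I, (Fin (ar i) → V) → Prop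

section

variable {I : Type} {ar : I → ℕ} {I₀ : Type} {ar₀ : I₀ → ℕ}

/-- pull back of a structure -/
def pull {A B : Type} (S : RS I ar B) (f : A → B) : RS I ar A := fun i y => S i (f ∘ y)

/-- embeddings -/
def IsEmb {A B : Type} (SA : RS I ar A) (SB : RS I ar B) (e : A → B) : Prop :=
  Injective e ∧ ∀ i (y : Fin (ar i) → A), SB i (e ∘ y) ↔ SA i y

/-- Ramsey property of the finite substructures of `(N, b)`, in terms of functions. -/
def RamseyF {N : Type} (b : RS I₀ ar₀ N) : Prop :=
  ∀ (A B : Type) (_ : Finite A) (_ : Finite B) (u : A → N) (v : B → N), Injective u → Injective v →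
    ∀ (κ : Type) (_ : Finite κ) (_ : Nonempty κ), ∃ (C : Type) (_ : Finite C) (w : C → N),
      Injective w ∧ ∀ χ : (A → C) → κ, ∃ g : B → C, IsEmb (pull b v) (pull b w) g ∧
        ∃ col : κ, ∀ e : A → B, IsEmb (pull b u) (pull b v) e → χ (g ∘ e) = col

/-- Finite blow-ups inside `(N, b)`. -/
def BlowUp {N : Type} (b : RS I₀ ar₀ N) : Prop :=
  ∀ (V : Type) (_ : Finite V) (π : V → N), ∃ ι : V → N, Injective ι ∧
    ∀ i (t : Fin (ar₀ i) → V), (∀ j k, π (t j) = π (t k) → t j = t k) →
      (b i (ι ∘ t) ↔ b i (π ∘ t))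

theorem full {N : Type} {b : RS I₀ ar₀ N} (hR : RamseyF b) (hB : BlowUp b)
    {A B : Type} [Finite A] [Finite B] {u : A → N} {v : B → N} (hu : Injective u)
    (hv : Injective v) (SA : RS I ar A) (SB : RS I ar B) (κ : Type) [Finite κ] [Nonempty κ] :
    ∃ (C : Type) (_ : Finite C) (w : C → N) (SC : RS I ar C), Injective w ∧
      ∀ χ : (A → C) → κ, ∃ g : B → C, IsEmb (pull b v) (pull b w) g ∧ IsEmb SB SC g ∧
        ∃ col : κ, ∀ e : A → B, IsEmb (pull b u) (pull b v) e → IsEmb SA SB e →
          χ (g ∘ e) = col := by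
  classical
  obtain ⟨C₀, hC₀, w₀, hw₀, hram⟩ := hR A B inferInstance inferInstance u v hu hv κ inferInstance
    inferInstance
  let P₀ : Sys C₀ I ar :=
    { V := {t : B → C₀ // IsEmb (pull b v) (pull b w₀) t} × B
      fin := inferInstance
      π := fun x => x.1.1 x.2
      E := fun x y => x.1 = y.1 ∧ x.2 ≠ y.2
      symm := fun x y h => ⟨h.1.symm, h.2.symm⟩
      ne := fun x y h h' => by
        apply h.2
        apply y.1.2.1
        rw [← h', h.1]
      S := fun i y => SB i (fun j => (y j).2) }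
  obtain ⟨P', hInv, hP'⟩ := Sys.iter P₀ SA κ
    (Set.toFinite {α : A → C₀ | Injective α}).toFinset.toList (by simp)
  have hfin := P'.fin
  obtain ⟨ι, hι, hι'⟩ := hB P'.V hfin (w₀ ∘ P'.π)
  refine ⟨P'.V, hfin, ι, P'.S, hι, fun χ => ?_⟩
  obtain ⟨f, col, hf⟩ := hP' χ
  obtain ⟨t, ht, c, hc⟩ := hram col
  have hπ : ∀ x, P'.π (f.f (⟨t, ht⟩, x)) = t x := fun x => f.π _
  refine ⟨fun x => f.f (⟨t, ht⟩, x), ⟨?_, ?_⟩, ⟨?_, ?_⟩, c, ?_⟩
  · intro x y hxy
    exact congrArg Prod.snd (f.inj hxy)
  · intro i y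
    have h1 := hι' i (fun j => f.f (⟨t, ht⟩, y j)) (by
      intro j k hjk
      simp only [comp_apply, hπ] at hjk
      rw [ht.1 (hw₀ hjk)])
    have h2 := ht.2 i y
    refine Iff.trans h1 ?_
    have h3 : (w₀ ∘ P'.π) ∘ (fun j => f.f (⟨t, ht⟩, y j)) = w₀ ∘ (t ∘ y) := by
      funext j
      simp only [comp_apply, hπ]
    rw [h3]
    exact h2
  · intro x y hxy
    exact congrArg Prod.snd (f.inj hxy)
  · intro i y
    exact f.S i (fun j => ((⟨t, ht⟩, y j) : P₀.V)) (fun a a' haa => ⟨rfl, fun h => haa (by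
      show ((⟨t, ht⟩, y a) : P₀.V) = (⟨t, ht⟩, y a')
      rw [show y a = y a' from h])⟩)
  · intro e he₀ he
    rw [← hc e he₀]
    refine hf (t ∘ e) ?_ (fun a => (⟨t, ht⟩, e a)) ⟨fun a => rfl, fun a a' haa => ⟨rfl, ?_⟩, ?_⟩
    · simp only [Finset.mem_toList, Set.Finite.mem_toFinset, Set.mem_setOf_eq]
      exact ht.1.comp he₀.1
    · exact fun h => haa (he.1 h)
    · intro i y
      exact he.2 i y

/-- The conclusion of the relative Nešetřil–Rödl theorem. -/
theorem nr {N : Type} {b : RS I₀ ar₀ N} (hR : RamseyF b) (hB : BlowUp b)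
    {A B : Type} [Finite A] [Finite B] {u : A → N} {v : B → N} (hu : Injective u)
    (hv : Injective v) (SA : RS I ar A) (SB : RS I ar B) (κ : Type) [Finite κ] [Nonempty κ] :
    ∃ (V : Type) (_ : Finite V) (ι : V → N) (E : V → V → Prop) (S : RS I ar V), Injective ι ∧
      (∀ x y, E x y → E y x) ∧ (∀ x, ¬ E x x) ∧
      (∀ (J : Type) (y : J → V), Injective y → (∀ a a', a ≠ a' → E (y a) (y a')) →
        ∃ h : J → B, Injective h ∧
          (∀ i (t : Fin (ar₀ i) → J), b i (ι ∘ y ∘ t) ↔ b i (v ∘ h ∘ t)) ∧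
          (∀ i (t : Fin (ar i) → J), S i (y ∘ t) ↔ SB i (h ∘ t))) ∧
      ∀ χ : (A → V) → κ, ∃ g : B → V, (∀ x x', x ≠ x' → E (g x) (g x')) ∧
        IsEmb (pull b v) (pull b ι) g ∧ IsEmb SB S g ∧
        ∃ col : κ, ∀ e : A → B, IsEmb (pull b u) (pull b v) e → IsEmb SA SB e →
          χ (g ∘ e) = col := by
  classical
  obtain ⟨C, hC, w, SC, hw, hram⟩ := full hR hB hu hv SA SB κ
  let P₀ : Sys C I ar :=
    { V := {t : B → C // IsEmb (pull b v) (pull b w) t ∧ IsEmb SB SC t} × B
      fin := inferInstance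
      π := fun x => x.1.1 x.2
      E := fun x y => x.1 = y.1 ∧ x.2 ≠ y.2
      symm := fun x y h => ⟨h.1.symm, h.2.symm⟩
      ne := fun x y h h' => by
        apply h.2
        apply y.1.2.1.1
        rw [← h', h.1]
      S := fun i y => SC i (fun j => (y j).1.1 (y j).2) }
  obtain ⟨P', hInv, hP'⟩ := Sys.iter P₀ SA κ
    (Set.toFinite {α : A → C | Injective α}).toFinset.toList (by simp)
  have hfin := P'.fin
  obtain ⟨ι, hι, hι'⟩ := hB P'.V hfin (w ∘ P'.π)
  refine ⟨P'.V, hfin, ι, P'.E, P'.S, hι, P'.symm, P'.E_irrefl, ?_, fun χ => ?_⟩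
  · intro J y hy hyE
    have hcl : P'.Cl y := fun a a' haa => hyE a a' (fun h => haa (by rw [h]))
    obtain ⟨x, hx, hxπ⟩ := hInv.1 J y hcl
    rcases isEmpty_or_nonempty J with hJ | ⟨⟨a₀⟩⟩
    · refine ⟨isEmptyElim, fun a => isEmptyElim a, fun i t => ?_, fun i t => ?_⟩
      · have h1 := hι' i (y ∘ t) (fun j => isEmptyElim (t j))
        refine h1.trans ?_
        have : IsEmpty (Fin (ar₀ i)) := ⟨fun j => isEmptyElim (t j)⟩
        have e1 : (w ∘ P'.π) ∘ y ∘ t = v ∘ isEmptyElim ∘ t := funext fun j => isEmptyElim j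
        rw [e1]
      · have : IsEmpty (Fin (ar i)) := ⟨fun j => isEmptyElim (t j)⟩
        obtain ⟨x', hx', hxπ', hS⟩ := hInv.2 i (y ∘ t) (fun j => isEmptyElim j)
        refine hS.trans ?_
        -- the relation of arity zero: use any embedding of `B`
        obtain ⟨g, -, hg, -⟩ := hram (fun _ => Classical.arbitrary κ)
        have h2 := hg.2 i (isEmptyElim)
        refine Iff.trans ?_ (h2.trans ?_)
        · show SC i _ ↔ SC i _
          have e1 : (fun j => (x' j).1.1 (x' j).2) = g ∘ isEmptyElim := funext fun j => isEmptyElim j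
          rw [e1]
        · have e1 : (isEmptyElim : Fin (ar i) → B) = isEmptyElim ∘ t :=
            funext fun j => isEmptyElim j
          rw [← e1]
    · -- all `x a` lie in one block
      have hblock : ∀ a, (x a).1 = (x a₀).1 := by
        intro a
        by_cases h : x a = x a₀
        · rw [h]
        · exact (hx a a₀ h).1
      obtain ⟨t₀, ht₀⟩ : ∃ t₀, t₀ = (x a₀).1 := ⟨_, rfl⟩
      have hπ' : ∀ a, P'.π (y a) = t₀.1 (x a).2 := by
        intro a
        rw [← hxπ a]
        show (x a).1.1 (x a).2 = _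
        rw [hblock a, ← ht₀]
      have hinj : Injective fun a => (x a).2 := by
        intro a a' h
        by_contra hne
        apply P'.ne _ _ (hyE a a' hne)
        rw [hπ' a, hπ' a']
        exact congrArg t₀.1 h
      refine ⟨fun a => (x a).2, hinj, fun i t => ?_, fun i t => ?_⟩
      · have h1 := hι' i (y ∘ t) (by
          intro j k hjk
          simp only [comp_apply, hπ'] at hjk
          have := t₀.2.1.1 (hw hjk)
          have := hinj this
          simp only [comp_apply, this])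
        refine h1.trans ?_
        have h2 := t₀.2.1.2 i ((fun a => (x a).2) ∘ t)
        have e1 : (w ∘ P'.π) ∘ y ∘ t = w ∘ (t₀.1 ∘ ((fun a => (x a).2) ∘ t)) := by
          funext j
          simp only [comp_apply, hπ']
        rw [e1]
        exact h2
      · obtain ⟨x', hx', hxπ', hS⟩ := hInv.2 i (y ∘ t) (fun a a' haa => hcl _ _ haa)
        refine hS.trans ?_
        have h2 := t₀.2.2.2 i ((fun a => (x a).2) ∘ t)
        have e1 : (fun j => (x' j).1.1 (x' j).2) = t₀.1 ∘ ((fun a => (x a).2) ∘ t) := by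
          funext j
          have := hxπ' j
          simp only [comp_apply, hπ'] at this
          exact this
        show SC i _ ↔ _
        rw [e1]
        exact h2
  · obtain ⟨f, col, hf⟩ := hP' χ
    obtain ⟨t, ht, ht', c, hc⟩ := hram col
    have hπ : ∀ x, P'.π (f.f (⟨t, ht, ht'⟩, x)) = t x := fun x => f.π _
    refine ⟨fun x => f.f (⟨t, ht, ht'⟩, x), ?_, ⟨?_, ?_⟩, ⟨?_, ?_⟩, c, ?_⟩
    · intro x x' hxx
      exact (f.E _ _).2 ⟨rfl, hxx⟩
    · intro x y hxy
      exact congrArg Prod.snd (f.inj hxy)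
    · intro i y
      have h1 := hι' i (fun j => f.f (⟨t, ht, ht'⟩, y j)) (by
        intro j k hjk
        simp only [comp_apply, hπ] at hjk
        rw [ht.1 (hw hjk)])
      have h2 := ht.2 i y
      refine Iff.trans h1 ?_
      have h3 : (w ∘ P'.π) ∘ (fun j => f.f (⟨t, ht, ht'⟩, y j)) = w ∘ (t ∘ y) := by
        funext j
        simp only [comp_apply, hπ]
      rw [h3]
      exact h2
    · intro x y hxy
      exact congrArg Prod.snd (f.inj hxy)
    · intro i y
      refine Iff.trans (f.S i (fun j => ((⟨t, ht, ht'⟩, y j) : P₀.V)) (fun a a' haa =>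
        ⟨rfl, fun h => haa (by
          show ((⟨t, ht, ht'⟩, y a) : P₀.V) = (⟨t, ht, ht'⟩, y a')
          rw [show y a = y a' from h])⟩)) ?_
      exact ht'.2 i y
    · intro e he₀ he
      rw [← hc e he₀ he]
      refine hf (t ∘ e) ?_ (fun a => (⟨t, ht, ht'⟩, e a)) ⟨fun a => rfl,
        fun a a' haa => ⟨rfl, ?_⟩, ?_⟩
      · simp only [Finset.mem_toList, Set.Finite.mem_toFinset, Set.mem_setOf_eq]
        exact ht.1.comp he₀.1
      · exact fun h => haa (he.1 h)
      · intro i y
        exact (ht'.2 i (e ∘ y)).trans (he.2 i y)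

end

end Run7.h77
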