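import Pool.Agent.Run7.h77.FRD2
import Pool.Agent.Run7.h77.Lang
import Pool.Agent.Run7.h77.PREDefs

/-!
# Precompact Ramsey expansions and finite Ramsey degrees, language version
-/

set_option autoImplicit false

namespace Run7.h77

open Function FirstOrder Language Structure CategoryTheory
open Pool.Agent.V1130.RelStr

section

variable {I : Type} {ar : I → ℕ}

theorem exists_aut {L : FirstOrder.Language.{0, 0}} [L.IsRelational] {M : Type}
    [L.Structure M] (hu : L.IsUltrahomogeneous M) {V : Type} [Finite V] {f f' : V → M}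
    (hf : Injective f) (hf' : Injective f') (h : pull (rs L M) f = pull (rs L M) f') :
    ∃ σ : M ≃[L] M, ∀ v, σ (f v) = f' v := by
  classical
  let A : Finset M := (Set.finite_range f).toFinset
  have hA : ∀ m, m ∈ A ↔ ∃ v, f v = m := fun m => by simp [A]
  let F : M → M := fun m => if hm : ∃ v, f v = m then f' hm.choose else m
  have hF : ∀ v, F (f v) = f' v := by
    intro v
    have hm : ∃ v', f v' = f v := ⟨v, rfl⟩
    simp only [F, dif_pos hm]
    rw [hf hm.choose_spec]
  have hpi : PIso L A F := by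
    refine ⟨?_, ?_⟩
    · intro a ha b hb hab
      obtain ⟨v, rfl⟩ := (hA a).1 (by exact_mod_cast ha)
      obtain ⟨v', rfl⟩ := (hA b).1 (by exact_mod_cast hb)
      rw [hF, hF] at hab
      rw [hf' hab]
    · intro n R t ht
      choose s hs using fun j => (hA (t j)).1 (ht j)
      have e1 : t = f ∘ s := funext fun j => (hs j).symm
      have e2 : F ∘ t = f' ∘ s := by
        funext j
        simp only [comp_apply]
        rw [← hs j, hF]
      rw [e2, e1]
      exact (pull_iff h ⟨n, R⟩ s).symm
  obtain ⟨γ, hγ⟩ := PIso.exists_equiv hu hpi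
  exact ⟨γ, fun v => by rw [hγ _ ((hA _).2 ⟨v, rfl⟩), hF]⟩

theorem ultrahomogeneous_of_ext1 {L : FirstOrder.Language.{0, 0}} [L.IsRelational] {M : Type}
    [L.Structure M] [Countable M] {S : RS I ar M} (hS : Ext1 S) (h : SameType S (rs L M)) :
    L.IsUltrahomogeneous M := by
  classical
  have hcg : CG L M := Structure.cg_of_countable
  rw [isUltrahomogeneous_iff_IsExtensionPair hcg]
  rintro ⟨f, f_FG⟩ m
  have hfin : Finite f.dom := Substructure.fg_iff_finite.1 f_FG
  by_cases hm : m ∈ f.dom
  · exact ⟨⟨f, f_FG⟩, hm, le_refl _⟩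
  · have hfin' : (f.dom : Set M).Finite := hfin
    -- the two families
    let w : f.dom → M := fun x => f.toEquiv x
    let x : f.dom → M := fun x => x
    have hw : Injective w := fun a a' haa => f.toEquiv.injective (Subtype.ext haa)
    have hx : Injective x := Subtype.val_injective
    have hmx : ∀ v, x v ≠ m := fun v hv => hm (hv ▸ v.2)
    have hp : pull (rs L M) w = pull (rs L M) x := by
      funext r t
      exact propext (f.toEquiv.map_rel r.2 t)
    obtain ⟨y, hy, hyp⟩ := hS f.dom hfin w x m hw hx hmx ((h _ hfin _ _ hw hx).2 hp)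
    have hw' : Injective (opt y w) := opt_inj hw hy
    have hx' : Injective (opt m x) := opt_inj hx hmx
    have hyp' := (h _ inferInstance _ _ hw' hx').1 hyp
    let S' : L.Substructure M := subOf (insert m (f.dom : Set M))
    have hsur : ∀ z : S', ∃ o : Option f.dom, opt m x o = z.1 := by
      rintro ⟨z, hz⟩
      rcases hz with rfl | hz
      · exact ⟨none, rfl⟩
      · exact ⟨some ⟨z, hz⟩, rfl⟩
    choose o ho using hsur
    have ho_some : ∀ z : f.dom, ∀ hz : (z : M) ∈ S', o ⟨z, hz⟩ = some z := by
      intro z hz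
      apply hx'
      rw [ho]
      rfl
    let e : S' ↪[L] M :=
      { toFun := fun z => opt y w (o z)
        inj' := fun a a' haa => by
          have h1 : o a = o a' := hw' haa
          apply Subtype.ext
          rw [← ho a, ← ho a', h1]
        map_fun' := fun {n} g => isEmptyElim g
        map_rel' := fun {n} R v => by
          have h1 := pull_iff hyp' ⟨n, R⟩ (fun j => o (v j))
          have h2 : (opt m x ∘ fun j => o (v j)) = fun j => (v j : M) := funext fun j => ho _
          rw [h2] at h1
          exact h1 }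
    have hSle : f.dom ≤ S' := fun x hx => Set.mem_insert_of_mem _ hx
    have hSfin : Finite S' := (hfin'.insert m)
    refine ⟨⟨⟨S', e.toHom.range, e.equivRange⟩, Substructure.fg_iff_finite.2 hSfin⟩,
      Set.mem_insert _ _, ⟨hSle, ?_⟩⟩
    ext z
    simp only [Embedding.comp_apply, Equiv.coe_toEmbedding, Substructure.coe_subtype,
      Embedding.equivRange_apply, Substructure.coe_inclusion]
    show opt y w (o ⟨z, hSle z.2⟩) = _
    rw [ho_some z (hSle z.2)]
    rfl

theorem orbits_of_finTypes {L : FirstOrder.Language.{0, 0}} [L.IsRelational] {M : Type}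
    [L.Structure M] (hu : L.IsUltrahomogeneous M) (hT : FinTypes (rs L M)) (n : ℕ) :
    ∃ F : Finset (Fin n → M), ∀ x : Fin n → M,
        ∃ y ∈ F, ∃ σ : M ≃[L] M, ∀ i, σ (y i) = x i := by
  classical
  let Ty : ℕ → Type := fun k =>
    {P : RS (Σ n, L.Relations n) (fun r => r.1) (Fin k) | ∃ x : Fin k → M, Injective x ∧
      pull (rs L M) x = P}
  have hTy : ∀ k, Finite (Ty k) := fun k => (hT k).to_subtype
  let X := Σ k : Fin (n + 1), (Fin n → Fin k) × Ty k
  have hX : Finite X := inferInstance
  let rep : X → (Fin n → M) := fun p => p.2.2.2.choose ∘ p.2.1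
  refine ⟨(Set.finite_range rep).toFinset, fun x => ?_⟩
  have hr : Finite (Set.range x) := (Set.finite_range x).to_subtype
  obtain ⟨k, ⟨e⟩⟩ := Finite.exists_equiv_fin (Set.range x)
  have hk : k ≤ n := by
    have h1 : Nat.card (Set.range x) = k := by
      rw [Nat.card_congr e, Nat.card_fin]
    have h2 : Nat.card (Set.range x) ≤ Nat.card (Fin n) :=
      Nat.card_le_card_of_surjective (Set.rangeFactorization x) Set.rangeFactorization_surjective
    rw [Nat.card_fin] at h2
    omega
  let f : Fin k → M := fun j => (e.symm j).1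
  have hf : Injective f := fun a a' haa => e.symm.injective (Subtype.ext haa)
  let s : Fin n → Fin k := fun i => e ⟨x i, i, rfl⟩
  have hfs : ∀ i, f (s i) = x i := fun i => by simp [f, s]
  let p : X := ⟨⟨k, by omega⟩, s, ⟨pull (rs L M) f, f, hf, rfl⟩⟩
  have hp : ∃ x : Fin k → M, Injective x ∧ pull (rs L M) x = pull (rs L M) f := ⟨f, hf, rfl⟩
  obtain ⟨σ, hσ⟩ := exists_aut hu hp.choose_spec.1 hf hp.choose_spec.2
  refine ⟨rep p, by simp, σ, fun i => ?_⟩
  rw [← hfs i, ← hσ]
  rfl

/-- The Ramsey property for substructures of `M`. -/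
def RamseyForm (L : FirstOrder.Language.{0, 0}) (M : Type) [L.Structure M] : Prop :=
  ∀ (A B : L.Substructure M), A.FG → B.FG → ∀ k : ℕ,
        ∃ C : L.Substructure M, C.FG ∧ ∀ c : (A ↪[L] C) → Fin k,
          ∃ g : B ↪[L] C, ∃ i : Fin k, ∀ f : A ↪[L] B, c (g.comp f) = i

theorem ramseyForm_of_embRamsey {L : FirstOrder.Language.{0, 0}} [L.IsRelational] {M : Type}
    [L.Structure M] (h : EmbRamsey L (L.age M)) : RamseyForm L M := by
  intro A B hA hB k
  rcases Nat.eq_zero_or_pos k with rfl | hk
  · exact ⟨A, hA, fun c => (c (Embedding.refl L A)).elim0⟩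
  · have mem : ∀ X : L.Substructure M, X.FG → (⟨X, inferInstance⟩ : Bundled.{0} L.Structure) ∈
        L.age M := fun X hX =>
      ⟨Structure.fg_iff_finite.2 (Substructure.fg_iff_finite.1 hX), ⟨X.subtype⟩⟩
    obtain ⟨C, ⟨hCfg, ⟨w⟩⟩, hram⟩ := h ⟨A, inferInstance⟩ (mem A hA) ⟨B, inferInstance⟩
      (mem B hB) k hk
    have hCfin : Finite C := Structure.fg_iff_finite.1 hCfg
    refine ⟨w.toHom.range, Substructure.fg_iff_finite.2 (Set.finite_range w), fun c => ?_⟩
    obtain ⟨g, i, hg⟩ := hram (fun e => c (w.equivRange.toEmbedding.comp e))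
    exact ⟨w.equivRange.toEmbedding.comp g, i, fun f => hg f⟩

theorem ramseyF_of_form {L : FirstOrder.Language.{0, 0}} [L.IsRelational] {M : Type}
    [L.Structure M] (h : RamseyForm L M) : RamseyF (rs L M) := by
  classical
  intro A B hA hB u v hu hv κ hκ hκ'
  let A' : L.Substructure M := subOf (Set.range u)
  let B' : L.Substructure M := subOf (Set.range v)
  have hA' : A'.FG := Substructure.fg_iff_finite.2 (Set.finite_range u)
  have hB' : B'.FG := Substructure.fg_iff_finite.2 (Set.finite_range v)
  obtain ⟨k, ⟨e⟩⟩ := Finite.exists_equiv_fin κ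
  obtain ⟨C, hC, hram⟩ := h A' B' hA' hB' k
  refine ⟨C, Substructure.fg_iff_finite.1 hC, Subtype.val, Subtype.val_injective, fun χ => ?_⟩
  obtain ⟨g, i, hg⟩ := hram (fun e' => e (χ fun a => e' ⟨u a, a, rfl⟩))
  refine ⟨fun b => g ⟨v b, b, rfl⟩, ⟨fun a b hab => hv (congrArg Subtype.val (g.injective hab)),
    fun r y => ?_⟩, e.symm i, fun f hf => ?_⟩
  · exact g.map_rel r.2 (fun j => (⟨v (y j), y j, rfl⟩ : B'))
  · let eu := Equiv.ofInjective u hu
    let f' : A' ↪[L] B' :=
      { toFun := fun x => ⟨v (f (eu.symm x)), _, rfl⟩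
        inj' := fun a a' haa => eu.symm.injective (hf.1 (hv (congrArg Subtype.val haa)))
        map_fun' := fun {n} g => isEmptyElim g
        map_rel' := fun {n} r y => by
          have h1 := hf.2 ⟨n, r⟩ (fun j => eu.symm (y j))
          have h2 : (u ∘ fun j => eu.symm (y j)) = fun j => (y j : M) := by
            funext j
            exact congrArg Subtype.val (eu.apply_symm_apply (y j))
          have h3 : (pull (rs L M) u) ⟨n, r⟩ (fun j => eu.symm (y j)) ↔
              RelMap r (fun j => (y j : M)) := by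
            rw [← h2]
            rfl
          exact h1.trans h3 }
    have h1 : e (χ fun a => (g.comp f') ⟨u a, a, rfl⟩) = i := hg f'
    have h2 : (fun a => (g.comp f') ⟨u a, a, rfl⟩) = (fun b => g ⟨v b, b, rfl⟩) ∘ f := by
      funext a
      have h3 : eu.symm ⟨u a, a, rfl⟩ = a := Equiv.ofInjective_symm_apply hu a
      have h4 : f' ⟨u a, a, rfl⟩ = ⟨v (f a), f a, rfl⟩ := by
        apply Subtype.ext
        show v (f (eu.symm ⟨u a, a, rfl⟩)) = v (f a)
        rw [h3]
      show g (f' ⟨u a, a, rfl⟩) = g ⟨v (f a), f a, rfl⟩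
      rw [h4]
    rw [← h1, Equiv.symm_apply_apply, h2]

theorem fd_of_hasPRE {L : FirstOrder.Language.{0, 0}} [L.IsRelational] {M : Type}
    [L.Structure M] (h : HasPRE L M) : FD (rs L M) := by
  obtain ⟨L', hL', φ, sM, hφ, hu, horb, hram⟩ := h
  have : L'.IsRelational := hL'
  refine fd_of_ramsey (ramseyF_of_form hram) ?_ ?_
  · intro k
    obtain ⟨F, hF⟩ := horb k
    refine ((Finset.finite_toSet F).image (fun y => pull (rs L' M) y)).subset ?_
    rintro P ⟨x, hx, rfl⟩
    obtain ⟨y, hy, σ, hσ⟩ := hF x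
    refine ⟨y, hy, ?_⟩
    have h1 : x = σ ∘ y := funext fun i => (hσ i).symm
    rw [h1]
    funext r t
    exact propext (σ.map_rel r.2 (y ∘ t)).symm
  · intro V hV f f' hf hf' hff
    funext r t
    have h1 := congrFun (congrFun hff ⟨r.1, φ.onRelation r.2⟩) t
    have h2 : ∀ x : Fin r.1 → M, RelMap (φ.onRelation r.2) x = RelMap r.2 x := fun x =>
      hφ.map_onRelation r.2 x
    have h3 : RelMap (φ.onRelation r.2) (f ∘ t) = RelMap (φ.onRelation r.2) (f' ∘ t) := h1
    rw [h2, h2] at h3
    exact h3

theorem hasPRE_of_rs {L : FirstOrder.Language.{0, 0}} [L.IsRelational] {M : Type}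
    [L.Structure M] [Countable M] {Ψ : RS ((Σ n, L.Relations n) ⊕ (ℕ × ℕ)) (arStar fun r => r.1) M}
    (hinl : ∀ i, Ψ (Sum.inl i) = rs L M i) (hE : Ext1 Ψ) (hT : FinTypes Ψ) (hR : RamseyF Ψ) :
    HasPRE L M := by
  classical
  let L' : FirstOrder.Language.{0, 0} := ⟨fun _ => Empty, fun n => L.Relations n ⊕ ℕ⟩
  have hL' : ∀ n, IsEmpty (L'.Functions n) := fun n => inferInstanceAs (IsEmpty Empty)
  have hrel : L'.IsRelational := hL'
  let φ : L →ᴸ L' :=
    { onFunction := fun {n} f => isEmptyElim f
      onRelation := fun {n} r => Sum.inl r }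
  let sM : L'.Structure M :=
    { funMap := fun {n} f => Empty.elim f
      RelMap := fun {n} r x => Sum.elim (fun r => RelMap r x) (fun c => Ψ (Sum.inr (n, c)) x) r }
  have hsame : SameType Ψ (rs L' M) := by
    intro V hV f f' hf hf'
    constructor
    · intro h
      funext r t
      obtain ⟨n, r⟩ := r
      rcases r with r | c
      · have h1 := congrFun (congrFun h (Sum.inl ⟨n, r⟩)) t
        simp only [pull] at h1
        rw [hinl] at h1
        exact h1
      · exact congrFun (congrFun h (Sum.inr (n, c))) t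
    · intro h
      funext r t
      rcases r with r | c
      · have h1 := congrFun (congrFun h ⟨r.1, Sum.inl r.2⟩) t
        simp only [pull]
        rw [hinl]
        exact h1
      · obtain ⟨n, c⟩ := c
        exact congrFun (congrFun h ⟨n, Sum.inr c⟩) t
  have hu : L'.IsUltrahomogeneous M := ultrahomogeneous_of_ext1 hE hsame
  have hT' : FinTypes (rs L' M) := by
    intro k
    have h1 : ∀ P : {P : RS ((Σ n, L.Relations n) ⊕ (ℕ × ℕ)) (arStar fun r => r.1) (Fin k) |
        ∃ x : Fin k → M, Injective x ∧ pull Ψ x = P}, ∃ x : Fin k → M, Injective x ∧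
          pull Ψ x = P.1 := fun P => P.2
    choose x hx hxP using h1
    have hfin := (hT k).to_subtype
    refine (Set.finite_range (fun P => pull (rs L' M) (x P))).subset ?_
    rintro Q ⟨z, hz, rfl⟩
    refine ⟨⟨pull Ψ z, z, hz, rfl⟩, ?_⟩
    exact (hsame _ inferInstance _ _ (hx _) hz).1 (hxP _)
  refine ⟨L', hL', φ, sM, ?_, hu, fun n => orbits_of_finTypes hu hT' n, ?_⟩
  · constructor
    · intro n f x
      exact isEmptyElim f
    · intro n R x
      rfl
  · exact ramseyForm_of_embRamsey (embRamsey_of_ramseyF hR hsame)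

theorem finTypes_rs {L : FirstOrder.Language.{0, 0}} [Finite (Σ n, L.Relations n)] {M : Type}
    [L.Structure M] : FinTypes (rs L M) := fun k => Set.toFinite _

/-- For a countable ultrahomogeneous structure in a finite relational language, a precompact Ramsey
expansion exists if and only if all finite substructures have finite Ramsey degree. -/
theorem hasPRE_iff_fd {L : FirstOrder.Language.{0, 0}} [L.IsRelational]
    [Finite (Σ n, L.Relations n)] {M : Type} [L.Structure M] [Countable M]
    (hu : L.IsUltrahomogeneous M) : HasPRE L M ↔ FD (rs L M) := by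
  constructor
  · exact fd_of_hasPRE
  · intro h
    obtain ⟨Ψ, h1, h2, h3, h4, -, -⟩ := frd (ext1_of_ultra hu (fun V hV f f' hf hf' => Iff.rfl)) h
      finTypes_rs
    exact hasPRE_of_rs h1 h2 h3 h4

end

end Run7.h77
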