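import Pool.Agent.Run7.h77.ComplDefs

/-!
# Amalgamation patterns
-/

set_option autoImplicit false

namespace Run7.h77

open FirstOrder FirstOrder.Language FirstOrder.Language.Structure

/-- The structure `V` without the point `x` embeds into `M`. -/
def EmbedsWithout (L : FirstOrder.Language.{0, 0}) {V : Type} (M : Type) [L.Structure V]
    [L.Structure M] (x : V) : Prop :=
  ∃ f : V → M, Set.InjOn f {x}ᶜ ∧ ∀ (n : ℕ) (t : Fin n → V), (∀ j, t j ≠ x) → Faithful L f t

/-- The structure `P` with two distinguished points `p`, `q` is an amalgamation pattern for `M`: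
a finite structure `V` with two points `x ≠ y` embeds into `M` as soon as `V` without `x` and `V`
without `y` embed into `M`, and some injective map `V → P` with `x ↦ p`, `y ↦ q` is faithful on
all tuples of `V` that contain both `x` and `y`. -/
def AmalgPattern (L : FirstOrder.Language.{0, 0}) (M P : Type) [L.Structure M] [L.Structure P]
    (p q : P) : Prop :=
  ∀ (V : Type) [Finite V] [L.Structure V] (x y : V) (o : V → P), x ≠ y → Function.Injective o →
    o x = p → o y = q →
    (∀ (n : ℕ) (t : Fin n → V), x ∈ Set.range t → y ∈ Set.range t → Faithful L o t) →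
    EmbedsWithout L M x → EmbedsWithout L M y → Nonempty (V ↪[L] M)

/-- `M` is ultrahomogeneous, its automorphism group has finitely many orbits on `n`-tuples for
every `n`, and its finite substructures have the Ramsey property for embeddings. -/
def IsPrecompactRamsey (L : FirstOrder.Language.{0, 0}) (M : Type) [L.Structure M] : Prop :=
  L.IsUltrahomogeneous M ∧
    (∀ n : ℕ, ∃ F : Finset (Fin n → M), ∀ x : Fin n → M,
      ∃ y ∈ F, ∃ σ : M ≃[L] M, ∀ i, σ (y i) = x i) ∧
    (∀ (A B : L.Substructure M), A.FG → B.FG → ∀ k : ℕ,
      ∃ C : L.Substructure M, C.FG ∧ ∀ c : (A ↪[L] C) → Fin k,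
        ∃ g : B ↪[L] C, ∃ i : Fin k, ∀ f : A ↪[L] B, c (g.comp f) = i)

/-- `M` has a linear order such that the expansion of `M` by this order is ultrahomogeneous, has
finitely many orbits on `n`-tuples for every `n`, and has the Ramsey property. -/
def RamseyByOrder (L : FirstOrder.Language.{0, 0}) (M : Type) [L.Structure M] : Prop :=
  ∃ _ : LinearOrder M, letI : Language.order.Structure M := orderStructure M
    IsPrecompactRamsey (L.sum Language.order) M

end Run7.h77
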