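import Pool.Agent.Run7.h901.Main4

/-!
Rich set-homogeneous graphs: shared definitions (independent families and traces).
-/

open scoped Classical

namespace Run7.h77.RR

open Run7.h901

universe u v w
variable {V : Type u} {G : SimpleGraph V}

/-- injective families without edges. -/
structure IFam (G : SimpleGraph V) {ι : Type v} (f : ι → V) : Prop where
  inj : Function.Injective f
  ind : ∀ i j, ¬ G.Adj (f i) (f j)

/-- `x` is not a member of the family `f` and has trace `T` over it. -/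
def Trc (G : SimpleGraph V) {ι : Type v} (f : ι → V) (T : ι → Prop) (x : V) : Prop :=
  ∀ i, x ≠ f i ∧ (G.Adj x (f i) ↔ T i)

theorem IFam.comp {ι : Type v} {κ : Type w} {f : ι → V} (h : IFam G f) {g : κ → ι}
    (hg : Function.Injective g) : IFam G (f ∘ g) :=
  ⟨h.inj.comp hg, fun _ _ => h.ind _ _⟩

theorem IFam.map {ι : Type v} {f : ι → V} (h : IFam G f) (φ : G ≃g G) :
    IFam G (fun i => φ (f i)) :=
  ⟨fun _ _ hij => h.inj (φ.injective hij), fun i j hij => h.ind i j (φ.map_adj_iff.1 hij)⟩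

theorem Trc.comp {ι : Type v} {κ : Type w} {f : ι → V} {T : ι → Prop} {x : V}
    (h : Trc G f T x) (g : κ → ι) : Trc G (f ∘ g) (T ∘ g) x := fun i => h (g i)

theorem Trc.map {ι : Type v} {f : ι → V} {T : ι → Prop} {x : V} (h : Trc G f T x) (φ : G ≃g G) :
    Trc G (fun i => φ (f i)) T (φ x) :=
  fun i => ⟨fun he => (h i).1 (φ.injective he), φ.map_adj_iff.trans (h i).2⟩

theorem IFam.sym (h : Rich G) {ι : Type v} [Finite ι] {f g : ι → V} (hf : IFam G f)
    (hg : IFam G g) : ∃ φ : G ≃g G, ∀ i, φ (f i) = g i :=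
  sym_fam h f g hf.inj hg.inj hf.ind hg.ind

theorem IFam.trace (h : Rich G) {ι : Type v} [Finite ι] {f : ι → V} (hf : IFam G f)
    (T : ι → Prop) : ∃ x, Trc G f T x := by
  obtain ⟨x, h1, h2⟩ := Run7.h901.trace h f hf.inj hf.ind T
  exact ⟨x, fun i => ⟨h1 i, h2 i⟩⟩

theorem exists_ifam (h : Rich G) (ι : Type v) [Finite ι] : ∃ f : ι → V, IFam G f := by
  have := Fintype.ofFinite ι
  obtain ⟨I, hI, hIc⟩ := h.ind (Fintype.card ι)
  let e : ι ≃ I := Fintype.equivOfCardEq (by rw [Fintype.card_coe, hIc])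
  exact ⟨fun i => (e i).1, ⟨fun p q hpq => e.injective (Subtype.ext hpq),
    fun p q => hI _ (e p).2 _ (e q).2⟩⟩

end Run7.h77.RR
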