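import Pool.Agent.Run7.h901.Basics

/-!
Limits of common non-neighbourhoods of large connected finite subgraphs of a set-homogeneous graph.
-/

open scoped Classical
open Filter

namespace Run7.h77.RR

open Run7.h901

universe u v w
variable {V : Type u} {G : SimpleGraph V}

/-- an induced copy of `A` with all vertices in `T`. -/
def EmbIn {α : Type v} (A : SimpleGraph α) (G : SimpleGraph V) (T : Set V) : Prop :=
  ∃ f : α → V, Function.Injective f ∧ (∀ a b, G.Adj (f a) (f b) ↔ A.Adj a b) ∧ ∀ a, f a ∈ T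

/-- connectedness of a finite set of vertices, in terms of cuts. -/
def Conn (G : SimpleGraph V) (X : Finset V) : Prop :=
  ∀ S : Finset V, S ⊆ X → S.Nonempty → S ≠ X → ∃ x ∈ S, ∃ y ∈ X, y ∉ S ∧ G.Adj x y

theorem compl_cn_image (φ : G ≃g G) {X : Finset V} (h : X.image φ = X) {v : V}
    (hv : v ∈ cn Gᶜ X) : φ v ∈ cn Gᶜ X := by
  intro x hx
  rw [← h, Finset.mem_image] at hx
  obtain ⟨y, hy, rfl⟩ := hx
  exact (compl_adj_map φ).2 (hv y hy)

theorem image_symm_eq (φ : G ≃g G) {X : Finset V} (h : X.image φ = X) : X.image φ.symm = X := by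
  ext v
  rw [Finset.mem_image]
  constructor
  · rintro ⟨x, hx, rfl⟩
    rw [← h, Finset.mem_image] at hx
    obtain ⟨y, hy, rfl⟩ := hx
    simpa using hy
  · intro hv
    refine ⟨φ v, ?_, by simp⟩
    rw [← h]
    exact Finset.mem_image_of_mem _ hv

/-- (T0) for families in the common non-neighbourhood of a large connected set. -/
theorem key (hG : SetHomogeneous G) {X : Finset V} (hX : Conn G X) {ι : Type v} [Fintype ι]
    (hk : Fintype.card ι < X.card) {a b : ι → V} (ha : Function.Injective a)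
    (hb : Function.Injective b) (hab : ∀ i j, G.Adj (a i) (a j) ↔ G.Adj (b i) (b j))
    (haX : ∀ i, a i ∈ cn Gᶜ X) (hbX : ∀ i, b i ∈ cn Gᶜ X) :
    ∃ (φ : G ≃g G) (τ : Equiv.Perm ι), X.image φ = X ∧ ∀ i, φ (a i) = b (τ i) := by
  let y : ι ⊕ X → V := Sum.elim a (fun x => x.1)
  let y' : ι ⊕ X → V := Sum.elim b (fun x => x.1)
  have hinj : ∀ (c : ι → V), Function.Injective c → (∀ i, c i ∈ cn Gᶜ X) →
      Function.Injective (Sum.elim c (fun x : X => x.1)) := by
    intro c hc hcX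
    rintro (i | x) (j | z) hij
    · simp only [Sum.elim_inl] at hij; rw [hc hij]
    · simp only [Sum.elim_inl, Sum.elim_inr] at hij
      exact absurd hij (hcX i z.1 z.2).1
    · simp only [Sum.elim_inl, Sum.elim_inr] at hij
      exact absurd hij.symm (hcX j x.1 x.2).1
    · simp only [Sum.elim_inr] at hij; rw [Subtype.ext hij]
  obtain ⟨φ, σ, hσ⟩ := T0 hG (y := y) (y' := y') (hinj a ha haX) (hinj b hb hbX) (by
    rintro (i | x) (j | z)
    · exact hab i j
    · exact ⟨fun h => absurd h (haX i z.1 z.2).2, fun h => absurd h (hbX i z.1 z.2).2⟩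
    · exact ⟨fun h => absurd h.symm (haX j x.1 x.2).2, fun h => absurd h.symm (hbX j x.1 x.2).2⟩
    · exact Iff.rfl)
  have hstep : ∀ (x z : X) (t : X) (i : ι), G.Adj x.1 z.1 → σ (Sum.inr x) = Sum.inr t →
      σ (Sum.inr z) = Sum.inl i → False := by
    intro x z t i hadj h1 h2
    have h3 := hσ (Sum.inr x)
    have h4 := hσ (Sum.inr z)
    rw [h1] at h3
    rw [h2] at h4
    have h5 : G.Adj (φ x.1) (φ z.1) := φ.map_adj_iff.2 hadj
    have h6 : φ x.1 = t.1 := h3
    have h7 : φ z.1 = b i := h4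
    rw [h6, h7] at h5
    exact (hbX i t.1 t.2).2 h5.symm
  let S : Finset V := X.filter (fun x => ∃ h : x ∈ X, ∃ t, σ (Sum.inr ⟨x, h⟩) = Sum.inr t)
  have hSX : S ⊆ X := Finset.filter_subset _ _
  have hSne : S.Nonempty := by
    by_contra hne
    rw [Finset.not_nonempty_iff_eq_empty] at hne
    have h1 : ∀ x : X, ∃ i, σ (Sum.inr x) = Sum.inl i := by
      intro x
      rcases h2 : σ (Sum.inr x) with i | t
      · exact ⟨i, rfl⟩
      · exfalso
        have : x.1 ∈ S := Finset.mem_filter.2 ⟨x.2, x.2, t, h2⟩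
        rw [hne] at this
        simp at this
    choose g hg using h1
    have hginj : Function.Injective g := by
      intro x z hxz
      have : σ (Sum.inr x) = σ (Sum.inr z) := by rw [hg, hg, hxz]
      exact Sum.inr_injective (σ.injective this)
    have := Fintype.card_le_of_injective g hginj
    rw [Fintype.card_coe] at this
    omega
  have hSeq : S = X := by
    by_contra hne
    obtain ⟨x, hx, z, hz, hzS, hadj⟩ := hX S hSX hSne hne
    obtain ⟨hxX, _, t, ht⟩ := Finset.mem_filter.1 hx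
    rcases h2 : σ (Sum.inr ⟨z, hz⟩) with i | t'
    · exact hstep ⟨x, hxX⟩ ⟨z, hz⟩ t i hadj ht h2
    · exact hzS (Finset.mem_filter.2 ⟨hz, hz, t', h2⟩)
  have hinr : ∀ x : X, ∃ t, σ (Sum.inr x) = Sum.inr t := by
    intro x
    have hx : x.1 ∈ S := by rw [hSeq]; exact x.2
    exact (Finset.mem_filter.1 hx).2.2
  choose g hg using hinr
  have hginj : Function.Injective g := by
    intro x z hxz
    have : σ (Sum.inr x) = σ (Sum.inr z) := by rw [hg, hg, hxz]
    exact Sum.inr_injective (σ.injective this)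
  have hgsurj : Function.Surjective g := Finite.injective_iff_surjective.1 hginj
  have hinl : ∀ i : ι, ∃ j, σ (Sum.inl i) = Sum.inl j := by
    intro i
    rcases h2 : σ (Sum.inl i) with j | t
    · exact ⟨j, rfl⟩
    · obtain ⟨x, rfl⟩ := hgsurj t
      rw [← hg] at h2
      exact absurd (σ.injective h2) (by simp)
  choose s hs using hinl
  have hsinj : Function.Injective s := by
    intro i j hij
    have : σ (Sum.inl i) = σ (Sum.inl j) := by rw [hs, hs, hij]
    exact Sum.inl_injective (σ.injective this)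
  refine ⟨φ, Equiv.ofBijective s (Finite.injective_iff_bijective.1 hsinj), ?_, fun i => ?_⟩
  · apply Finset.eq_of_subset_of_card_le
    · intro v hv
      rw [Finset.mem_image] at hv
      obtain ⟨x, hx, rfl⟩ := hv
      have := hσ (Sum.inr ⟨x, hx⟩)
      rw [hg] at this
      have h4 : φ x = (g ⟨x, hx⟩).1 := this
      rw [h4]; exact (g ⟨x, hx⟩).2
    · rw [Finset.card_image_of_injective _ φ.injective]
  · have := hσ (Sum.inl i)
    rw [hs i] at this
    exact this

/-! ### the limit -/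

/-- the ultrafilter. -/
noncomputable abbrev UF : Ultrafilter ℕ := Filter.hyperfilter ℕ

/-- vertices of the limit. -/
def LV (G : SimpleGraph V) (X : ℕ → Finset V) : Type u :=
  {x : Germ (UF : Filter ℕ) V // ∃ f : ℕ → V, (f : Germ (UF : Filter ℕ) V) = x ∧
    ∀ᶠ n in (UF : Filter ℕ), f n ∈ cn Gᶜ (X n)}

/-- the limit graph. -/
def LG (G : SimpleGraph V) (X : ℕ → Finset V) : SimpleGraph (LV G X) where
  Adj a b := Germ.LiftRel G.Adj a.1 b.1
  symm := ⟨by
    rintro ⟨a, fa, rfl, ha⟩ ⟨b, fb, rfl, hb⟩ hab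
    simp only [Germ.liftRel_coe] at hab ⊢
    exact hab.mono (fun n hn => hn.symm)⟩
  loopless := ⟨by
    rintro ⟨a, fa, rfl, ha⟩ hab
    simp only [Germ.liftRel_coe] at hab
    obtain ⟨n, hn⟩ := hab.exists
    exact G.irrefl hn⟩

variable {X : ℕ → Finset V}

/-- members of the limit from sequences. -/
noncomputable def mkL (f : ℕ → V) (hf : ∀ᶠ n in (UF : Filter ℕ), f n ∈ cn Gᶜ (X n)) : LV G X :=
  ⟨(f : Germ (UF : Filter ℕ) V), f, rfl, hf⟩

theorem mkL_eq {f g : ℕ → V} {hf : ∀ᶠ n in (UF : Filter ℕ), f n ∈ cn Gᶜ (X n)}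
    {hg : ∀ᶠ n in (UF : Filter ℕ), g n ∈ cn Gᶜ (X n)} :
    mkL f hf = mkL g hg ↔ ∀ᶠ n in (UF : Filter ℕ), f n = g n := by
  exact ⟨fun h => Germ.coe_eq.1 (congrArg Subtype.val h), fun h => Subtype.ext (Germ.coe_eq.2 h)⟩

theorem mkL_adj {f g : ℕ → V} {hf : ∀ᶠ n in (UF : Filter ℕ), f n ∈ cn Gᶜ (X n)}
    {hg : ∀ᶠ n in (UF : Filter ℕ), g n ∈ cn Gᶜ (X n)} :
    (LG G X).Adj (mkL f hf) (mkL g hg) ↔ ∀ᶠ n in (UF : Filter ℕ), G.Adj (f n) (g n) := by
  exact Germ.liftRel_coe

theorem exists_mkL (a : LV G X) : ∃ (f : ℕ → V) (hf : ∀ᶠ n in (UF : Filter ℕ), f n ∈ cn Gᶜ (X n)),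
    a = mkL f hf := by
  obtain ⟨a, f, rfl, hf⟩ := a
  exact ⟨f, hf, rfl⟩

theorem mapAux (φ : ℕ → G ≃g G) (hφ : ∀ᶠ n in (UF : Filter ℕ), (X n).image (φ n) = X n)
    {f : ℕ → V} (hf : ∀ᶠ n in (UF : Filter ℕ), f n ∈ cn Gᶜ (X n)) :
    ∀ᶠ n in (UF : Filter ℕ), φ n (f n) ∈ cn Gᶜ (X n) := by
  filter_upwards [hφ, hf] with n h1 h2
  exact compl_cn_image _ h1 h2

/-- a sequence of automorphisms gives a map of the limit. -/
noncomputable def mapL (φ : ℕ → G ≃g G)
    (hφ : ∀ᶠ n in (UF : Filter ℕ), (X n).image (φ n) = X n) (a : LV G X) : LV G X :=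
  mkL (fun n => φ n ((exists_mkL a).choose n)) (mapAux φ hφ (exists_mkL a).choose_spec.choose)

theorem mapL_mkL (φ : ℕ → G ≃g G) (hφ : ∀ᶠ n in (UF : Filter ℕ), (X n).image (φ n) = X n)
    {f : ℕ → V} (hf : ∀ᶠ n in (UF : Filter ℕ), f n ∈ cn Gᶜ (X n)) :
    mapL φ hφ (mkL f hf) = mkL (fun n => φ n (f n)) (mapAux φ hφ hf) := by
  have h1 := (exists_mkL (mkL f hf)).choose_spec.choose_spec
  have h2 := mkL_eq.1 h1
  refine mkL_eq.2 ?_
  filter_upwards [h2] with n h3
  rw [← h3]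

/-- a sequence of automorphisms gives an automorphism of the limit. -/
theorem exists_auto (φ : ℕ → G ≃g G) (hφ : ∀ᶠ n in (UF : Filter ℕ), (X n).image (φ n) = X n) :
    ∃ Φ : LG G X ≃g LG G X, ∀ a, Φ a = mapL φ hφ a := by
  have hφ' : ∀ᶠ n in (UF : Filter ℕ), (X n).image (φ n).symm = X n := by
    filter_upwards [hφ] with n hn
    exact image_symm_eq _ hn
  refine ⟨⟨⟨mapL φ hφ, mapL (fun n => (φ n).symm) hφ', ?_, ?_⟩, ?_⟩, fun a => rfl⟩
  · intro a
    obtain ⟨f, hf, rfl⟩ := exists_mkL a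
    rw [mapL_mkL, mapL_mkL, mkL_eq]
    exact Eventually.of_forall (fun n => by simp)
  · intro a
    obtain ⟨f, hf, rfl⟩ := exists_mkL a
    rw [mapL_mkL, mapL_mkL, mkL_eq]
    exact Eventually.of_forall (fun n => by simp)
  · intro a b
    obtain ⟨f, hf, rfl⟩ := exists_mkL a
    obtain ⟨g, hg, rfl⟩ := exists_mkL b
    show (LG G X).Adj (mapL φ hφ (mkL f hf)) (mapL φ hφ (mkL g hg)) ↔ _
    rw [mapL_mkL, mapL_mkL, mkL_adj, mkL_adj]
    constructor
    · intro h
      filter_upwards [h] with n hn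
      exact (φ n).map_adj_iff.1 hn
    · intro h
      filter_upwards [h] with n hn
      exact (φ n).map_adj_iff.2 hn

theorem ev_all {ι : Type v} [Finite ι] {p : ι → ℕ → Prop}
    (h : ∀ i, ∀ᶠ n in (UF : Filter ℕ), p i n) : ∀ᶠ n in (UF : Filter ℕ), ∀ i, p i n :=
  Filter.eventually_all.2 h

/-- **The limit is set-homogeneous.** -/
theorem limit_sh (hG : SetHomogeneous G) (hX : ∀ n, Conn G (X n)) (hc : ∀ n, n ≤ (X n).card) :
    SetHomogeneous (LG G X) := by
  intro A B hA hB he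
  obtain ⟨e⟩ := he
  have := hA.fintype
  -- representatives
  have h1 : ∀ a : A, ∃ (f : ℕ → V) (hf : ∀ᶠ n in (UF : Filter ℕ), f n ∈ cn Gᶜ (X n)),
      a.1 = mkL f hf := fun a => exists_mkL a.1
  have h2 : ∀ a : A, ∃ (f : ℕ → V) (hf : ∀ᶠ n in (UF : Filter ℕ), f n ∈ cn Gᶜ (X n)),
      (e a).1 = mkL f hf := fun a => exists_mkL (e a).1
  choose f hf hfa using h1
  choose g hg hga using h2
  have e1 : ∀ᶠ n in (UF : Filter ℕ), ∀ a : A, f a n ∈ cn Gᶜ (X n) := ev_all hf
  have e2 : ∀ᶠ n in (UF : Filter ℕ), ∀ a : A, g a n ∈ cn Gᶜ (X n) := ev_all hg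
  have e3 : ∀ᶠ n in (UF : Filter ℕ), ∀ a : A, ∀ b : A, (f a n = f b n → a = b) := by
    apply ev_all; intro a; apply ev_all; intro b
    by_cases hab : a = b
    · exact Eventually.of_forall (fun n _ => hab)
    · have h3 : ¬ ∀ᶠ n in (UF : Filter ℕ), f a n = f b n := by
        intro h4
        have h5 : mkL (X := X) (G := G) (f a) (hf a) = mkL (f b) (hf b) := mkL_eq.2 h4
        rw [← hfa, ← hfa] at h5
        exact hab (Subtype.ext h5)
      rw [← Ultrafilter.eventually_not] at h3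
      filter_upwards [h3] with n hn h
      exact absurd h hn
  have e4 : ∀ᶠ n in (UF : Filter ℕ), ∀ a : A, ∀ b : A, (g a n = g b n → a = b) := by
    apply ev_all; intro a; apply ev_all; intro b
    by_cases hab : a = b
    · exact Eventually.of_forall (fun n _ => hab)
    · have h3 : ¬ ∀ᶠ n in (UF : Filter ℕ), g a n = g b n := by
        intro h4
        have h5 : mkL (X := X) (G := G) (g a) (hg a) = mkL (g b) (hg b) := mkL_eq.2 h4
        rw [← hga, ← hga] at h5
        exact hab (e.injective (Subtype.ext h5))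
      rw [← Ultrafilter.eventually_not] at h3
      filter_upwards [h3] with n hn h
      exact absurd h hn
  have e5 : ∀ᶠ n in (UF : Filter ℕ), ∀ a : A, ∀ b : A,
      (G.Adj (f a n) (f b n) ↔ G.Adj (g a n) (g b n)) := by
    apply ev_all; intro a; apply ev_all; intro b
    have h3 : (LG G X).Adj a.1 b.1 ↔ (LG G X).Adj (e a).1 (e b).1 := by
      have := e.map_adj_iff (v := a) (w := b)
      simpa [SimpleGraph.comap_adj] using this.symm
    rw [hfa, hfa, hga, hga, mkL_adj, mkL_adj] at h3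
    by_cases h4 : ∀ᶠ n in (UF : Filter ℕ), G.Adj (f a n) (f b n)
    · filter_upwards [h4, h3.1 h4] with n h5 h6
      exact ⟨fun _ => h6, fun _ => h5⟩
    · have h5 : ¬ ∀ᶠ n in (UF : Filter ℕ), G.Adj (g a n) (g b n) := fun h => h4 (h3.2 h)
      rw [← Ultrafilter.eventually_not] at h4 h5
      filter_upwards [h4, h5] with n h6 h7
      exact ⟨fun h => absurd h h6, fun h => absurd h h7⟩
  have e6 : ∀ᶠ n in (UF : Filter ℕ), Fintype.card A < (X n).card := by
    have h3 : ∀ᶠ n in (UF : Filter ℕ), Fintype.card A < n := by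
      apply Filter.hyperfilter_le_cofinite
      rw [Nat.cofinite_eq_atTop]
      exact Filter.eventually_gt_atTop _
    filter_upwards [h3] with n hn
    exact hn.trans_le (hc n)
  have hall : ∀ᶠ n in (UF : Filter ℕ), ∃ (φ : G ≃g G) (τ : Equiv.Perm A), (X n).image φ = X n ∧
      ∀ i, φ (f i n) = g (τ i) n := by
    filter_upwards [e1, e2, e3, e4, e5, e6] with n h1 h2 h3 h4 h5 h6
    exact key hG (hX n) h6 (a := fun i => f i n) (b := fun i => g i n)
      (fun i j hij => h3 i j hij) (fun i j hij => h4 i j hij) h5 h1 h2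
  have hall' : ∀ n, ∃ (φ : G ≃g G) (τ : Equiv.Perm A),
      (∃ (φ : G ≃g G) (τ : Equiv.Perm A), (X n).image φ = X n ∧
      ∀ i, φ (f i n) = g (τ i) n) → ((X n).image φ = X n ∧ ∀ i, φ (f i n) = g (τ i) n) := by
    intro n
    by_cases h : ∃ (φ : G ≃g G) (τ : Equiv.Perm A), (X n).image φ = X n ∧
      ∀ i, φ (f i n) = g (τ i) n
    · obtain ⟨φ, τ, h1⟩ := h
      exact ⟨φ, τ, fun _ => h1⟩
    · exact ⟨SimpleGraph.Iso.refl, Equiv.refl _, fun h' => absurd h' h⟩
  choose φ τ hφτ using hall'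
  obtain ⟨τ0, hτ0⟩ := Ultrafilter.eq_pure_of_finite (UF.map τ)
  have hτ : ∀ᶠ n in (UF : Filter ℕ), τ n = τ0 := by
    have h3 : {τ0} ∈ UF.map τ := by rw [hτ0]; exact Ultrafilter.mem_pure.2 rfl
    exact h3
  have hφX : ∀ᶠ n in (UF : Filter ℕ), (X n).image (φ n) = X n := by
    filter_upwards [hall] with n hn
    exact (hφτ n hn).1
  obtain ⟨Φ, hΦ⟩ := exists_auto φ hφX
  have hmap : ∀ a : A, Φ a.1 = (e (τ0 a)).1 := by
    intro a
    rw [hΦ, hfa, mapL_mkL, hga, mkL_eq]
    filter_upwards [hall, hτ] with n h1 h2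
    rw [(hφτ n h1).2 a, h2]
  refine ⟨Φ, ?_⟩
  ext b
  constructor
  · rintro ⟨a, ha, rfl⟩
    rw [hmap ⟨a, ha⟩]
    exact (e _).2
  · intro hb
    refine ⟨(τ0.symm (e.symm ⟨b, hb⟩)).1, (τ0.symm (e.symm ⟨b, hb⟩)).2, ?_⟩
    rw [hmap]
    simp

theorem limit_to {α : Type v} {A : SimpleGraph α}
    (h : ∀ n, EmbIn A G (cn Gᶜ (X n))) : EmbIn A (LG G X) Set.univ := by
  choose f hf hA hX using h
  refine ⟨fun a => mkL (fun n => f n a) (Eventually.of_forall (fun n => hX n a)), ?_, ?_,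
    fun _ => trivial⟩
  · intro a b hab
    obtain ⟨n, hn⟩ := (mkL_eq.1 hab).exists
    exact hf n hn
  · intro a b
    rw [mkL_adj]
    constructor
    · intro h
      obtain ⟨n, hn⟩ := h.exists
      exact (hA n a b).1 hn
    · intro h
      exact Eventually.of_forall (fun n => (hA n a b).2 h)

theorem limit_from {α : Type v} [Finite α] {A : SimpleGraph α}
    (h : EmbIn A (LG G X) Set.univ) (N : ℕ) : ∃ n, N ≤ n ∧ EmbIn A G (cn Gᶜ (X n)) := by
  obtain ⟨F, hF, hA, -⟩ := h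
  have h1 : ∀ a : α, ∃ (f : ℕ → V) (hf : ∀ᶠ n in (UF : Filter ℕ), f n ∈ cn Gᶜ (X n)),
      F a = mkL f hf := fun a => exists_mkL (F a)
  choose f hf hfa using h1
  have e1 : ∀ᶠ n in (UF : Filter ℕ), ∀ a, f a n ∈ cn Gᶜ (X n) := ev_all hf
  have e3 : ∀ᶠ n in (UF : Filter ℕ), ∀ a, ∀ b, (f a n = f b n → a = b) := by
    apply ev_all; intro a; apply ev_all; intro b
    by_cases hab : a = b
    · exact Eventually.of_forall (fun n _ => hab)
    · have h3 : ¬ ∀ᶠ n in (UF : Filter ℕ), f a n = f b n := by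
        intro h4
        have h5 : mkL (X := X) (G := G) (f a) (hf a) = mkL (f b) (hf b) := mkL_eq.2 h4
        rw [← hfa, ← hfa] at h5
        exact hab (hF h5)
      rw [← Ultrafilter.eventually_not] at h3
      filter_upwards [h3] with n hn h
      exact absurd h hn
  have e5 : ∀ᶠ n in (UF : Filter ℕ), ∀ a, ∀ b, (G.Adj (f a n) (f b n) ↔ A.Adj a b) := by
    apply ev_all; intro a; apply ev_all; intro b
    have h3 := hA a b
    rw [hfa, hfa, mkL_adj] at h3
    by_cases h4 : ∀ᶠ n in (UF : Filter ℕ), G.Adj (f a n) (f b n)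
    · filter_upwards [h4] with n h5
      exact ⟨fun _ => h3.1 h4, fun _ => h5⟩
    · have h5 : ¬ A.Adj a b := fun h => h4 (h3.2 h)
      rw [← Ultrafilter.eventually_not] at h4
      filter_upwards [h4] with n h6
      exact ⟨fun h => absurd h h6, fun h => absurd h h5⟩
  have e6 : ∀ᶠ n in (UF : Filter ℕ), N ≤ n := by
    apply Filter.hyperfilter_le_cofinite
    rw [Nat.cofinite_eq_atTop]
    exact Filter.eventually_ge_atTop _
  obtain ⟨n, h1, h2, h3, h4⟩ := (e1.and (e3.and (e5.and e6))).exists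
  exact ⟨n, h4, fun a => f a n, fun a b hab => h2 a b hab, h3, h1⟩

end Run7.h77.RR
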