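import Pool.Agent.Run7.h77.NR
import Pool.Agent.H152.HR.Ramsey

/-!
# One point extensions, blow-ups, and the base `(ℚ, <)`
-/

set_option autoImplicit false

namespace Run7.h77

open Function

section

variable {I : Type} {ar : I → ℕ} {I₀ : Type} {ar₀ : I₀ → ℕ}

/-- One point extension property with avoidance of finite sets. -/
def ExtT {N : Type} (b : RS I₀ ar₀ N) : Prop :=
  ∀ (k : ℕ) (w : Fin k → N) (x : Fin (k + 1) → N), Injective w → Injective x →
    pull b w = pull b (x ∘ Fin.castSucc) → ∀ F : Finset N, ∃ y, y ∉ F ∧ (∀ j, w j ≠ y) ∧
      pull b (Fin.snoc (α := fun _ => N) w y) = pull b x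

theorem pull_comp {A B C : Type} (S : RS I ar C) (f : B → C) (g : A → B) :
    pull S (f ∘ g) = pull (pull S f) g := rfl

theorem pull_iff {A B B' : Type} {S : RS I ar B} {T : RS I ar B'} {f : A → B} {g : A → B'}
    (h : pull S f = pull T g) (i : I) (y : Fin (ar i) → A) : S i (f ∘ y) ↔ T i (g ∘ y) := by
  have := congrFun (congrFun h i) y
  simp only [pull] at this
  rw [this]

/-- The extension property for an arbitrary finite index type instead of `Fin k`. -/
theorem ExtT.gen {N : Type} {b : RS I₀ ar₀ N} (h : ExtT b) {V : Type} [Finite V]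
    (w : V → N) (x : V → N) (x' : N) (hw : Injective w) (hx : Injective x)
    (hx' : ∀ v, x v ≠ x') (hwx : pull b w = pull b x) (F : Finset N) :
    ∃ y, y ∉ F ∧ (∀ v, w v ≠ y) ∧
      pull b (fun o : Option V => o.elim y w) = pull b (fun o : Option V => o.elim x' x) := by
  classical
  obtain ⟨k, ⟨e⟩⟩ := Finite.exists_equiv_fin V
  have hinj : Injective (Fin.snoc (α := fun _ => N) (x ∘ e.symm) x') := by
    intro i j hij
    induction i using Fin.lastCases with
    | last =>
      induction j using Fin.lastCases with
      | last => rfl
      | cast j =>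
        simp only [Fin.snoc_last, Fin.snoc_castSucc, comp_apply] at hij
        exact absurd hij.symm (hx' _)
    | cast i =>
      induction j using Fin.lastCases with
      | last =>
        simp only [Fin.snoc_last, Fin.snoc_castSucc, comp_apply] at hij
        exact absurd hij (hx' _)
      | cast j =>
        simp only [Fin.snoc_castSucc, comp_apply] at hij
        rw [e.symm.injective (hx hij)]
  obtain ⟨y, hyF, hy, hyb⟩ := h k (w ∘ e.symm) (Fin.snoc (α := fun _ => N) (x ∘ e.symm) x')
    (hw.comp e.symm.injective) hinj (by
      have : (Fin.snoc (α := fun _ => N) (x ∘ e.symm) x') ∘ Fin.castSucc = x ∘ e.symm := by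
        funext i
        simp
      rw [this, pull_comp, pull_comp, hwx]) F
  refine ⟨y, hyF, fun v => ?_, ?_⟩
  · have := hy (e v)
    simpa using this
  · -- transport along `Option V ≃ Fin (k+1)`
    let s : Option V → Fin (k + 1) := fun o => o.elim (Fin.last k) (fun v => (e v).castSucc)
    have h1 : (fun o : Option V => o.elim y w) =
        (Fin.snoc (α := fun _ => N) (w ∘ e.symm) y) ∘ s := by
      funext o
      cases o with
      | none => simp [s]
      | some v => simp [s]
    have h2 : (fun o : Option V => o.elim x' x) =
        (Fin.snoc (α := fun _ => N) (x ∘ e.symm) x') ∘ s := by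
      funext o
      cases o with
      | none => simp [s]
      | some v => simp [s]
    rw [h1, h2, pull_comp, pull_comp, hyb]

theorem blowUp_of_ext {N : Type} {b : RS I₀ ar₀ N} (h : ExtT b) : BlowUp b := by
  classical
  have main : ∀ (n : ℕ) (V : Type) (_ : Fintype V) (_ : Fintype.card V = n) (π : V → N),
      ∃ ι : V → N, Injective ι ∧
        ∀ i (t : Fin (ar₀ i) → V), (∀ j k, π (t j) = π (t k) → t j = t k) →
          (b i (ι ∘ t) ↔ b i (π ∘ t)) := by
    intro n
    induction n with
    | zero =>
      intro V _ hV π
      have : IsEmpty V := Fintype.card_eq_zero_iff.1 hV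
      exact ⟨π, fun a => isEmptyElim a, fun i t _ => Iff.rfl⟩
    | succ n ih =>
      intro V _ hV π
      by_cases hπ : Injective π
      · exact ⟨π, hπ, fun i t _ => Iff.rfl⟩
      · simp only [Injective, not_forall] at hπ
        obtain ⟨v, v', hvv, hne⟩ := hπ
        obtain ⟨ι₁, hι₁, hι₁'⟩ := ih {x : V // x ≠ v'} inferInstance (by
          rw [Fintype.card_subtype_compl]
          simp [hV]) (fun x => π x.1)
        -- the remaining vertices
        let R := {x : V // x ≠ v' ∧ x ≠ v}
        let w : R → N := fun x => ι₁ ⟨x.1, x.2.1⟩
        have hw : Injective w := fun x y hxy => by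
          have h' := congrArg Subtype.val (hι₁ hxy)
          apply Subtype.ext
          exact h'
        obtain ⟨y, hyF, hyw, hyb⟩ := h.gen w w (ι₁ ⟨v, hne⟩) hw hw (by
          intro x hx
          have := congrArg Subtype.val (hι₁ hx)
          exact x.2.2 this) rfl {ι₁ ⟨v, hne⟩}
        have hyF' : y ≠ ι₁ ⟨v, hne⟩ := by simpa using hyF
        let ι : V → N := fun x => if hx : x = v' then y else ι₁ ⟨x, hx⟩
        have hιv' : ι v' = y := by simp [ι]
        have hιne : ∀ x (hx : x ≠ v'), ι x = ι₁ ⟨x, hx⟩ := fun x hx => by simp [ι, hx]
        have hyall : ∀ x (hx : x ≠ v'), ι₁ ⟨x, hx⟩ ≠ y := by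
          intro x hx
          by_cases hxv : x = v
          · subst hxv
            exact hyF'.symm
          · exact hyw ⟨x, hx, hxv⟩
        refine ⟨ι, ?_, ?_⟩
        · intro x x' hxx
          by_cases hx : x = v'
          · by_cases hx' : x' = v'
            · rw [hx, hx']
            · rw [hx, hιv', hιne x' hx'] at hxx
              exact absurd hxx.symm (hyall x' hx')
          · by_cases hx' : x' = v'
            · rw [hx', hιv', hιne x hx] at hxx
              exact absurd hxx (hyall x hx)
            · rw [hιne x hx, hιne x' hx'] at hxx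
              exact congrArg Subtype.val (hι₁ hxx)
        · intro i t ht
          by_cases hmem : ∃ j₀, t j₀ = v'
          · obtain ⟨j₀, hj₀⟩ := hmem
            have hnv : ∀ j, t j ≠ v := by
              intro j hj
              have := ht j j₀ (by rw [hj, hj₀, hvv])
              rw [hj, hj₀] at this
              exact hne this
            -- replace `v'` by `v`
            let t' : Fin (ar₀ i) → {x : V // x ≠ v'} := fun j =>
              if hj : t j = v' then ⟨v, hne⟩ else ⟨t j, hj⟩
            let s : Fin (ar₀ i) → Option R := fun j =>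
              if hj : t j = v' then none else some ⟨t j, hj, hnv j⟩
            have e1 : ι ∘ t = (fun o : Option R => o.elim y w) ∘ s := by
              funext j
              by_cases hj : t j = v'
              · simp [s, hj, hιv']
              · simp only [comp_apply, s, hj, dif_neg, not_false_iff, Option.elim, w]
                rw [hιne _ hj]
            have e2 : ι₁ ∘ t' = (fun o : Option R => o.elim (ι₁ ⟨v, hne⟩) w) ∘ s := by
              funext j
              by_cases hj : t j = v'
              · simp [s, t', hj]
              · simp [s, t', hj, w]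
            have e3 : (fun x : {x : V // x ≠ v'} => π x.1) ∘ t' = π ∘ t := by
              funext j
              by_cases hj : t j = v'
              · simp [t', hj, hvv]
              · simp [t', hj]
            rw [e1]
            refine (pull_iff hyb i s).trans ?_
            rw [← e2, ← e3]
            apply hι₁'
            intro j k hjk
            have h5 : π (t j) = π (t k) := by
              have a1 := congrFun e3 j
              have a2 := congrFun e3 k
              simp only [comp_apply] at a1 a2
              rw [← a1, ← a2]
              exact hjk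
            have := ht j k h5
            simp only [t', this]
          · push Not at hmem
            have e1 : ι ∘ t = ι₁ ∘ (fun j => (⟨t j, hmem j⟩ : {x : V // x ≠ v'})) := by
              funext j
              simp only [comp_apply]
              rw [hιne _ (hmem j)]
            rw [e1]
            exact hι₁' i (fun j => ⟨t j, hmem j⟩) (fun j k hjk => Subtype.ext (ht j k hjk))
  intro V hV π
  have := Fintype.ofFinite V
  exact main _ V inferInstance rfl π

end

/-- The order structure on `ℚ`, as a relational structure with one binary relation. -/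
def ratLT : RS Unit (fun _ => 2) ℚ := fun _ y => y 0 < y 1

theorem ratLT_pull {A : Type} (u : A → ℚ) (y : Fin 2 → A) :
    ratLT () (u ∘ y) ↔ u (y 0) < u (y 1) := Iff.rfl

theorem pull_ratLT_eq {A : Type} {u v : A → ℚ} :
    pull ratLT u = pull ratLT v ↔ ∀ a a', u a < u a' ↔ v a < v a' := by
  constructor
  · intro h a a'
    exact pull_iff h () ![a, a']
  · intro h
    funext i y
    exact propext (h (y 0) (y 1))

theorem ratLT_ext : ExtT ratLT := by
  classical
  intro k w x hw hx hwx F
  have hwx' : ∀ i j, w i < w j ↔ x i.castSucc < x j.castSucc := by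
    rw [pull_ratLT_eq] at hwx
    exact hwx
  let lo : Finset ℚ := (Finset.univ.filter (fun i : Fin k => x i.castSucc < x (Fin.last k))).image w
  let hi : Finset ℚ := (Finset.univ.filter (fun i : Fin k => x (Fin.last k) < x i.castSucc)).image w
  obtain ⟨m, hm1, hm2⟩ := Order.exists_between_finsets lo hi (by
    intro a ha c hc
    simp only [lo, hi, Finset.mem_image, Finset.mem_filter, Finset.mem_univ, true_and] at ha hc
    obtain ⟨i, hi1, rfl⟩ := ha
    obtain ⟨j, hj1, rfl⟩ := hc
    exact (hwx' i j).2 (hi1.trans hj1))
  obtain ⟨y, hy1, hy2⟩ := Order.exists_between_finsets (lo ∪ F.filter (fun z => z ≤ m))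
    (hi ∪ F.filter (fun z => m < z)) (by
      intro a ha c hc
      simp only [Finset.mem_union, Finset.mem_filter] at ha hc
      rcases ha with ha | ha
      · rcases hc with hc | hc
        · exact (hm1 a ha).trans (hm2 c hc)
        · exact (hm1 a ha).trans hc.2
      · rcases hc with hc | hc
        · exact lt_of_le_of_lt ha.2 (hm2 c hc)
        · exact lt_of_le_of_lt ha.2 hc.2)
  have hlow : ∀ i : Fin k, x i.castSucc < x (Fin.last k) → w i < y := by
    intro i hi'
    apply hy1
    simp only [lo, Finset.mem_union, Finset.mem_image, Finset.mem_filter, Finset.mem_univ, true_and]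
    exact Or.inl ⟨i, hi', rfl⟩
  have hhigh : ∀ i : Fin k, x (Fin.last k) < x i.castSucc → y < w i := by
    intro i hi'
    apply hy2
    simp only [hi, Finset.mem_union, Finset.mem_image, Finset.mem_filter, Finset.mem_univ, true_and]
    exact Or.inl ⟨i, hi', rfl⟩
  have hne : ∀ i : Fin k, x i.castSucc ≠ x (Fin.last k) := by
    intro i h
    have := hx h
    exact absurd this (Fin.castSucc_lt_last i).ne
  refine ⟨y, ?_, ?_, ?_⟩
  · intro hyF
    rcases le_or_gt y m with h | h
    · have := hy1 y (by simp [hyF, h])
      exact lt_irrefl _ this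
    · have := hy2 y (by simp [hyF, h])
      exact lt_irrefl _ this
  · intro i h
    rcases lt_or_gt_of_ne (hne i) with h' | h'
    · exact absurd h (hlow i h').ne
    · exact absurd h (hhigh i h').ne'
  · rw [pull_ratLT_eq]
    intro a a'
    induction a using Fin.lastCases with
    | last =>
      induction a' using Fin.lastCases with
      | last => simp
      | cast a' =>
        simp only [Fin.snoc_last, Fin.snoc_castSucc]
        constructor
        · intro h
          rcases lt_or_gt_of_ne (hne a') with h' | h'
          · exact absurd h (lt_asymm (hlow a' h'))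
          · exact h'
        · exact hhigh a'
    | cast a =>
      induction a' using Fin.lastCases with
      | last =>
        simp only [Fin.snoc_last, Fin.snoc_castSucc]
        constructor
        · intro h
          rcases lt_or_gt_of_ne (hne a) with h' | h'
          · exact h'
          · exact absurd h (lt_asymm (hhigh a h'))
        · exact hlow a
      | cast a' =>
        simp only [Fin.snoc_castSucc]
        exact hwx' a a'

/-- increasing enumeration of a set of naturals by an ordered set of labels -/
theorem exists_incr {A : Type} [Fintype A] (u : A → ℚ) (hu : Injective u) (J : Finset ℕ)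
    (hJ : J.card = Fintype.card A) :
    ∃ φ : A → ℕ, (∀ a, φ a ∈ J) ∧ (∀ a a', u a < u a' ↔ φ a < φ a') ∧
      ∀ ψ : A → ℕ, (∀ a, ψ a ∈ J) → (∀ a a', u a < u a' → ψ a < ψ a') → ψ = φ := by
  classical
  let s : Finset ℚ := Finset.univ.image u
  have hs : s.card = Fintype.card A := by
    rw [Finset.card_image_of_injective _ hu, Finset.card_univ]
  let r : A → Fin (Fintype.card A) := fun a =>
    (s.orderIsoOfFin hs).symm ⟨u a, Finset.mem_image_of_mem _ (Finset.mem_univ a)⟩
  have hr : ∀ a a', u a < u a' ↔ r a < r a' := by
    intro a a'
    simp only [r, OrderIso.lt_iff_lt, Subtype.mk_lt_mk]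
  have hrs : Surjective r := by
    intro i
    have h1 := (s.orderIsoOfFin hs i).2
    obtain ⟨a, -, ha⟩ := Finset.mem_image.1 h1
    refine ⟨a, ?_⟩
    simp only [r]
    rw [OrderIso.symm_apply_eq]
    exact Subtype.ext ha
  have hri : Injective r := fun a a' h => by
    by_contra hne
    rcases lt_or_gt_of_ne (fun h' => hne (hu h')) with h' | h'
    · exact absurd h ((hr _ _).1 h').ne
    · exact absurd h ((hr _ _).1 h').ne'
  refine ⟨fun a => J.orderEmbOfFin hJ (r a), fun a => Finset.orderEmbOfFin_mem _ _ _,
    fun a a' => ?_, fun ψ hψ hψ' => ?_⟩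
  · rw [hr]
    exact (J.orderEmbOfFin hJ).lt_iff_lt.symm
  · let e : A ≃ Fin (Fintype.card A) := Equiv.ofBijective r ⟨hri, hrs⟩
    have h2 : (ψ ∘ e.symm) = J.orderEmbOfFin hJ := by
      apply Finset.orderEmbOfFin_unique
      · intro i
        exact hψ _
      · intro i j hij
        apply hψ'
        rw [hr]
        have e1 : ∀ i, r (e.symm i) = i := fun i => e.apply_symm_apply i
        rw [e1, e1]
        exact hij
    funext a
    have := congrFun h2 (e a)
    simp only [comp_apply, Equiv.symm_apply_apply] at this
    exact this

theorem ratLT_ramsey : RamseyF ratLT := by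
  classical
  intro A B hA hB u v hu hv κ hκ hκ'
  have := Fintype.ofFinite A
  have := Fintype.ofFinite B
  have := Fintype.ofFinite κ
  obtain ⟨n, hn⟩ := H152HR.ramsey κ (Fintype.card A) (Fintype.card B)
  refine ⟨Fin n, inferInstance, fun i => (i : ℚ), fun i j h => Fin.ext (by
    have h' : (i : ℚ) = (j : ℚ) := h
    exact_mod_cast h'),
    fun χ => ?_⟩
  -- the induced colouring of sets
  let c : Finset ℕ → κ := fun J =>
    if h : ∃ φ : A → Fin n, (Finset.univ.image fun a => (φ a : ℕ)) = J ∧
      (∀ a a', u a < u a' → φ a < φ a') then χ h.choose else Classical.arbitrary κ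
  obtain ⟨Q, hQ, hQc, col, hcol⟩ := hn c (Finset.range n) (by simp)
  obtain ⟨g, hg1, hg2, -⟩ := exists_incr v hv Q hQc
  have hgn : ∀ x, g x < n := fun x => Finset.mem_range.1 (hQ (hg1 x))
  have hginj : Injective g := fun x y h => by
    by_contra hne
    rcases lt_or_gt_of_ne (fun h' => hne (hv h')) with h' | h'
    · exact absurd h ((hg2 _ _).1 h').ne
    · exact absurd h ((hg2 _ _).1 h').ne'
  refine ⟨fun x => ⟨g x, hgn x⟩, ⟨fun x y h => hginj (congrArg Fin.val h), fun i y => ?_⟩, col,
    fun e he => ?_⟩
  · show ((g (y 0) : ℚ) < (g (y 1) : ℚ)) ↔ v (y 0) < v (y 1)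
    rw [hg2]
    exact_mod_cast Iff.rfl
  · have hemono : ∀ a a', u a < u a' → v (e a) < v (e a') := by
      intro a a' h
      have := (he.2 () ![a, a']).2
      exact this h
    let J : Finset ℕ := Finset.univ.image fun a => g (e a)
    have hJcard : J.card = Fintype.card A :=
      (Finset.card_image_of_injective Finset.univ (hginj.comp he.1)).trans Finset.card_univ
    have hJQ : J ⊆ Q := by
      intro x hx
      obtain ⟨a, -, rfl⟩ := Finset.mem_image.1 hx
      exact hg1 _
    have h1 := hcol J hJQ hJcard
    have hex : ∃ φ : A → Fin n, (Finset.univ.image fun a => (φ a : ℕ)) = J ∧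
        (∀ a a', u a < u a' → φ a < φ a') :=
      ⟨fun a => ⟨g (e a), hgn _⟩, rfl, fun a a' h => (hg2 _ _).1 (hemono a a' h)⟩
    simp only [c] at h1
    rw [dif_pos hex] at h1
    rw [← h1]
    congr 1
    -- uniqueness
    obtain ⟨φ₀, -, -, huniq⟩ := exists_incr u hu J hJcard
    have a1 := huniq (fun a => g (e a)) (fun a => Finset.mem_image_of_mem _ (Finset.mem_univ a))
      (fun a a' h => (hg2 _ _).1 (hemono a a' h))
    have a2 := huniq (fun a => (hex.choose a : ℕ)) (fun a => by
      have h3 := hex.choose_spec.1
      have h4 : (hex.choose a : ℕ) ∈ Finset.univ.image (fun a => (hex.choose a : ℕ)) :=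
        Finset.mem_image_of_mem _ (Finset.mem_univ a)
      exact h3.subset h4)
      (fun a a' h => hex.choose_spec.2 a a' h)
    funext a
    apply Fin.ext
    show g (e a) = _
    have := congrFun (a1.trans a2.symm) a
    exact this

end Run7.h77
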