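import Pool.Agent.Run7.h77.FRD2

/-!
# Product Ramsey theorem and superpositions
-/

set_option autoImplicit false

namespace Run7.h77

open Function

section

variable {I₁ : Type} {ar₁ : I₁ → ℕ} {I₂ : Type} {ar₂ : I₂ → ℕ} {N₁ N₂ : Type}

/-- The Ramsey property of pairs of maps. -/
theorem ramsey2 {b₁ : RS I₁ ar₁ N₁} {b₂ : RS I₂ ar₂ N₂} (hR₁ : RamseyF b₁) (hR₂ : RamseyF b₂)
    (hB₁ : BlowUp b₁) (hB₂ : BlowUp b₂) {A B : Type} [Finite A] [Finite B] {u₁ : A → N₁}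
    {u₂ : A → N₂} {v₁ : B → N₁} {v₂ : B → N₂} (hu₁ : Injective u₁) (hu₂ : Injective u₂)
    (hv₁ : Injective v₁) (hv₂ : Injective v₂) (κ : Type) [Finite κ] [Nonempty κ] :
    ∃ (C : Type) (_ : Finite C) (w₁ : C → N₁) (w₂ : C → N₂), Injective w₁ ∧ Injective w₂ ∧
      ∀ χ : (A → C) → κ, ∃ g : B → C, IsEmb (pull b₁ v₁) (pull b₁ w₁) g ∧
        IsEmb (pull b₂ v₂) (pull b₂ w₂) g ∧ ∃ col : κ, ∀ e : A → B,
          IsEmb (pull b₁ u₁) (pull b₁ v₁) e → IsEmb (pull b₂ u₂) (pull b₂ v₂) e →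
            χ (g ∘ e) = col := by
  classical
  obtain ⟨C₂, hC₂, w₂, hw₂, h₂⟩ := hR₂ A B inferInstance inferInstance u₂ v₂ hu₂ hv₂ κ
    inferInstance inferInstance
  obtain ⟨C₁, hC₁, w₁, hw₁, h₁⟩ := hR₁ A B inferInstance inferInstance u₁ v₁ hu₁ hv₁
    ((A → C₂) → κ) inferInstance inferInstance
  obtain ⟨ι₁, hι₁, hb₁⟩ := hB₁ (C₁ × C₂) inferInstance (fun z => w₁ z.1)
  obtain ⟨ι₂, hι₂, hb₂⟩ := hB₂ (C₁ × C₂) inferInstance (fun z => w₂ z.2)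
  refine ⟨C₁ × C₂, inferInstance, ι₁, ι₂, hι₁, hι₂, fun χ => ?_⟩
  obtain ⟨g₁, hg₁, col₁, hcol₁⟩ := h₁ (fun e₁ e₂ => χ (fun a => (e₁ a, e₂ a)))
  obtain ⟨g₂, hg₂, col, hcol⟩ := h₂ col₁
  refine ⟨fun b => (g₁ b, g₂ b), ⟨fun b b' hbb => hg₁.1 (congrArg Prod.fst hbb), ?_⟩,
    ⟨fun b b' hbb => hg₁.1 (congrArg Prod.fst hbb), ?_⟩, col, fun e he₁ he₂ => ?_⟩
  · intro i y
    refine Iff.trans (hb₁ i (fun j => (g₁ (y j), g₂ (y j))) ?_) (hg₁.2 i y)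
    intro j k hjk
    have : y j = y k := hg₁.1 (hw₁ hjk)
    show (g₁ (y j), g₂ (y j)) = (g₁ (y k), g₂ (y k))
    rw [this]
  · intro i y
    refine Iff.trans (hb₂ i (fun j => (g₁ (y j), g₂ (y j))) ?_) (hg₂.2 i y)
    intro j k hjk
    have : y j = y k := hg₂.1 (hw₂ hjk)
    show (g₁ (y j), g₂ (y j)) = (g₁ (y k), g₂ (y k))
    rw [this]
  · have h3 := congrFun (hcol₁ e he₁) (g₂ ∘ e)
    exact h3.trans (hcol e he₂)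

/-- The list version. -/
theorem ramsey2_list {b₁ : RS I₁ ar₁ N₁} {b₂ : RS I₂ ar₂ N₂} (hR₁ : RamseyF b₁)
    (hR₂ : RamseyF b₂) (hB₁ : BlowUp b₁) (hB₂ : BlowUp b₂) {k : ℕ} (κ : Type) [Finite κ]
    [Nonempty κ] (ℓ : List ({u : Fin k → N₁ // Injective u} × {u : Fin k → N₂ // Injective u})) :
    ∀ (V : Type) (_ : Finite V) (v₁ : V → N₁) (v₂ : V → N₂), Injective v₁ → Injective v₂ →
      ∃ (C : Type) (_ : Finite C) (w₁ : C → N₁) (w₂ : C → N₂), Injective w₁ ∧ Injective w₂ ∧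
        ∀ χ : (Fin k → C) → κ, ∃ g : V → C, IsEmb (pull b₁ v₁) (pull b₁ w₁) g ∧
          IsEmb (pull b₂ v₂) (pull b₂ w₂) g ∧ ∀ u ∈ ℓ, ∃ col : κ, ∀ e : Fin k → V,
            IsEmb (pull b₁ u.1.1) (pull b₁ v₁) e → IsEmb (pull b₂ u.2.1) (pull b₂ v₂) e →
              χ (g ∘ e) = col := by
  induction ℓ with
  | nil =>
    intro V hV v₁ v₂ hv₁ hv₂
    exact ⟨V, hV, v₁, v₂, hv₁, hv₂, fun χ => ⟨id, ⟨injective_id, fun i y => Iff.rfl⟩,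
      ⟨injective_id, fun i y => Iff.rfl⟩, by simp⟩⟩
  | cons u ℓ ih =>
    intro V hV v₁ v₂ hv₁ hv₂
    obtain ⟨C', hC', w₁', w₂', hw₁', hw₂', h'⟩ := ih V hV v₁ v₂ hv₁ hv₂
    obtain ⟨C, hC, w₁, w₂, hw₁, hw₂, h⟩ := ramsey2 hR₁ hR₂ hB₁ hB₂ u.1.2 u.2.2 hw₁' hw₂' κ
    refine ⟨C, hC, w₁, w₂, hw₁, hw₂, fun χ => ?_⟩
    obtain ⟨g', hg₁', hg₂', col, hcol⟩ := h χ
    obtain ⟨g, hg₁, hg₂, hℓ⟩ := h' (fun x => χ (g' ∘ x))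
    refine ⟨g' ∘ g, hg₁'.comp' hg₁, hg₂'.comp' hg₂, fun u' hu' => ?_⟩
    rcases List.mem_cons.1 hu' with rfl | hu'
    · exact ⟨col, fun e he₁ he₂ => hcol (g ∘ e) (hg₁.comp' he₁) (hg₂.comp' he₂)⟩
    · obtain ⟨col', hcol'⟩ := hℓ u' hu'
      exact ⟨col', fun e he₁ he₂ => hcol' e he₁ he₂⟩

/-- list of representatives of types -/
theorem exists_reps {b : RS I₁ ar₁ N₁} (hT : FinTypes b) (k : ℕ) :
    ∃ ℓ : List {u : Fin k → N₁ // Injective u}, ∀ x : Fin k → N₁, Injective x →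
      ∃ u ∈ ℓ, pull b u.1 = pull b x := by
  classical
  have hrep : ∀ P : {P : RS I₁ ar₁ (Fin k) | ∃ x : Fin k → N₁, Injective x ∧ pull b x = P},
      ∃ x : {u : Fin k → N₁ // Injective u}, pull b x.1 = P.1 := by
    rintro ⟨P, x, hx, rfl⟩
    exact ⟨⟨x, hx⟩, rfl⟩
  choose rep hrep using hrep
  have hfin := (hT k).to_subtype
  refine ⟨(Set.finite_range rep).toFinset.toList, fun x hx => ⟨rep ⟨pull b x, x, hx, rfl⟩, ?_, ?_⟩⟩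
  · simp
  · exact hrep _

theorem fd_superposition {J₁ : Type} {a₁ : J₁ → ℕ} {J₂ : Type} {a₂ : J₂ → ℕ} {M : Type}
    {I : Type} {ar : I → ℕ} {S : RS I ar M}
    {S₁ : RS J₁ a₁ M} {S₂ : RS J₂ a₂ M} {c₁ : RS J₁ a₁ N₁} {c₂ : RS J₂ a₂ N₂}
    {b₁ : RS I₁ ar₁ N₁} {b₂ : RS I₂ ar₂ N₂} (hR₁ : RamseyF b₁) (hR₂ : RamseyF b₂)
    (hB₁ : BlowUp b₁) (hB₂ : BlowUp b₂) (hT₁ : FinTypes b₁) (hT₂ : FinTypes b₂)
    (hD₁ : Det b₁ c₁) (hD₂ : Det b₂ c₂)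
    (h1 : ∀ (V : Type) (_ : Finite V) (v : V → M), Injective v → ∃ v₁ : V → N₁, Injective v₁ ∧
      pull c₁ v₁ = pull S₁ v)
    (h2 : ∀ (V : Type) (_ : Finite V) (v : V → M), Injective v → ∃ v₂ : V → N₂, Injective v₂ ∧
      pull c₂ v₂ = pull S₂ v)
    (h3 : ∀ (V : Type) (_ : Finite V) (w₁ : V → N₁) (w₂ : V → N₂), Injective w₁ →
      Injective w₂ → ∃ w : V → M, Injective w ∧ pull S₁ w = pull c₁ w₁ ∧ pull S₂ w = pull c₂ w₂)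
    (hS : ∀ (V : Type) (_ : Finite V) (f f' : V → M), Injective f → Injective f' →
      pull S₁ f = pull S₁ f' → pull S₂ f = pull S₂ f' → pull S f = pull S f') : FD S := by
  classical
  intro k u hu
  obtain ⟨ℓ₁, hℓ₁⟩ := exists_reps hT₁ k
  obtain ⟨ℓ₂, hℓ₂⟩ := exists_reps hT₂ k
  let ℓ := ℓ₁.product ℓ₂
  refine ⟨ℓ.length, ?_⟩
  intro V hV v hv κ hκ χ
  have : Nonempty κ := ⟨χ u⟩
  obtain ⟨v₁, hv₁, hvp₁⟩ := h1 V hV v hv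
  obtain ⟨v₂, hv₂, hvp₂⟩ := h2 V hV v hv
  obtain ⟨C, hC, w₁, w₂, hw₁, hw₂, hram⟩ := ramsey2_list hR₁ hR₂ hB₁ hB₂ κ ℓ V hV v₁ v₂ hv₁ hv₂
  obtain ⟨w, hw, hwp₁, hwp₂⟩ := h3 C hC w₁ w₂ hw₁ hw₂
  obtain ⟨g, hg₁, hg₂, hcol⟩ := hram (fun x => χ (w ∘ x))
  refine ⟨w ∘ g, ⟨hw.comp hg₁.1, hS V hV _ _ (hw.comp hg₁.1) hv ?_ ?_⟩, ?_⟩
  · rw [pull_comp, hwp₁, ← pull_comp, ← hvp₁]
    exact hD₁ _ hV _ _ (hw₁.comp hg₁.1) hv₁ (isEmb_pull.1 hg₁).2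
  · rw [pull_comp, hwp₂, ← pull_comp, ← hvp₂]
    exact hD₂ _ hV _ _ (hw₂.comp hg₁.1) hv₂ (isEmb_pull.1 hg₂).2
  choose col hcol using hcol
  let f : Fin ℓ.length → κ := fun i => col (ℓ.get i) (List.get_mem ℓ i)
  have hsub : Seen S u v (w ∘ g) χ ⊆ f '' Set.univ := by
    rintro c ⟨e, he, hes, rfl⟩
    obtain ⟨x₁, hx₁, hp₁⟩ := hℓ₁ (v₁ ∘ e) (hv₁.comp he)
    obtain ⟨x₂, hx₂, hp₂⟩ := hℓ₂ (v₂ ∘ e) (hv₂.comp he)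
    have hmem : (x₁, x₂) ∈ ℓ := List.mem_product.2 ⟨hx₁, hx₂⟩
    obtain ⟨i, hi⟩ := List.get_of_mem hmem
    refine ⟨i, trivial, ?_⟩
    have h2 := hcol (ℓ.get i) (List.get_mem ℓ i) e
      (isEmb_pull.2 ⟨he, by rw [hi]; exact hp₁.symm⟩)
      (isEmb_pull.2 ⟨he, by rw [hi]; exact hp₂.symm⟩)
    exact h2.symm
  refine (Set.ncard_le_ncard hsub (Set.toFinite _)).trans ((Set.ncard_image_le
    (Set.toFinite _)).trans ?_)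
  rw [Set.ncard_univ, Nat.card_fin]

end

end Run7.h77
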