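import Pool.Agent.Run7.h77.T1a

/-!
Blow-ups by disjoint unions of complete graphs: if those of `P₃` and `K₁ + K₂` embed in a
set-homogeneous graph then so do those of `2K₂`.
-/

namespace Run7.h77.BL

open Run7.h901 Run7.h77.LW

universe u v w

variable {V : Type u} {G : SimpleGraph V}

theorem blow_of {τ : Type} {T : SimpleGraph τ} (F : T ↪g G) {N M : ℕ} (hN : 0 < N) (hM : 0 < M)
    (pos : ℕ → Fin N × Fin M → τ) (E : List (ℕ × ℕ)) (S : Finset ℕ) (c : ℕ → M1)
    (hc : ∀ a ∈ S, (c a).1.1 ≤ N ∧ (c a).1.2 ≤ M)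
    (p1 : ∀ a ∈ S, ∀ v w, pos a v = pos a w → v = w)
    (p2 : ∀ a ∈ S, ∀ v w, T.Adj (pos a v) (pos a w) ↔ (KK N M).Adj v w)
    (p3 : ∀ a ∈ S, ∀ b ∈ S, a ≠ b → ∀ v w, pos a v ≠ pos b w ∧
      (T.Adj (pos a v) (pos b w) ↔ (mkG E).Adj a b)) : Blow gr1 G (mkG E) S c := by
  refine ⟨fun a v => F (pos a (embN (a := (c a).1.1) (b := (c a).1.2) hN hM v)), ?_, ?_, ?_⟩
  · intro a ha v w h
    exact embN_inj hN hM (hc a ha).1 (hc a ha).2 (p1 a ha _ _ (F.injective h))
  · intro a ha v w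
    rw [F.map_adj_iff, p2 a ha]
    exact embN_adj hN hM (hc a ha).1 (hc a ha).2 v w
  · intro a ha b hb hab v w
    rw [F.map_adj_iff]
    exact ⟨fun h => (p3 a ha b hb hab _ _).1 (F.injective h), (p3 a ha b hb hab _ _).2⟩

theorem bnd (c : ℕ → M1) (S : Finset ℕ) : ∃ N M, 0 < N ∧ 0 < M ∧
    ∀ a ∈ S, (c a).1.1 ≤ N ∧ (c a).1.2 ≤ M :=
  ⟨S.sup (fun a => (c a).1.1) + 1, S.sup (fun a => (c a).1.2) + 1, Nat.succ_pos _, Nat.succ_pos _,
    fun a ha => ⟨(Finset.le_sup (f := fun a => (c a).1.1) ha).trans (Nat.le_succ _),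
      (Finset.le_sup (f := fun a => (c a).1.2) ha).trans (Nat.le_succ _)⟩⟩

/-- **T1** -/
theorem T1 (hG : SetHomogeneous G)
    (h1 : ∀ n m, Nonempty (jn (KK n m) (dsum (KK n m) (KK n m)) ↪g G))
    (h2 : ∀ n m, Nonempty (dsum (KK n m) (jn (KK n m) (KK n m)) ↪g G)) (n m : ℕ) :
    Nonempty (dsum (jn (KK n m) (KK n m)) (jn (KK n m) (KK n m)) ↪g G) := by
  have hne : Nonempty V := by
    obtain ⟨e⟩ := h1 1 1
    exact ⟨e (Sum.inl (0, 0))⟩
  have g1 : CC G [(0, 1), (1, 2)] {0, 1, 2} := by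
    intro c
    obtain ⟨N, M, hN, hM, hc⟩ := bnd c {0, 1, 2}
    obtain ⟨F⟩ := h1 N M
    refine blow_of F hN hM (fun a v => if a = 1 then Sum.inl v else if a = 0 then
      Sum.inr (Sum.inl v) else Sum.inr (Sum.inr v)) _ _ c hc ?_ ?_ ?_
    · intro a ha v w
      simp only [Finset.mem_insert, Finset.mem_singleton] at ha
      rcases ha with rfl | rfl | rfl <;> simp
    · intro a ha v w
      simp only [Finset.mem_insert, Finset.mem_singleton] at ha
      rcases ha with rfl | rfl | rfl <;> simp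
    · intro a ha b hb hab v w
      simp only [Finset.mem_insert, Finset.mem_singleton] at ha hb
      rcases ha with rfl | rfl | rfl <;> rcases hb with rfl | rfl | rfl <;> simp [mkG] at hab ⊢
  have g2 : CC G [(0, 1)] {0, 1, 2} := by
    intro c
    obtain ⟨N, M, hN, hM, hc⟩ := bnd c {0, 1, 2}
    obtain ⟨F⟩ := h2 N M
    refine blow_of F hN hM (fun a v => if a = 2 then Sum.inl v else if a = 0 then
      Sum.inr (Sum.inl v) else Sum.inr (Sum.inr v)) _ _ c hc ?_ ?_ ?_
    · intro a ha v w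
      simp only [Finset.mem_insert, Finset.mem_singleton] at ha
      rcases ha with rfl | rfl | rfl <;> simp
    · intro a ha v w
      simp only [Finset.mem_insert, Finset.mem_singleton] at ha
      rcases ha with rfl | rfl | rfl <;> simp
    · intro a ha b hb hab v w
      simp only [Finset.mem_insert, Finset.mem_singleton] at ha hb
      rcases ha with rfl | rfl | rfl <;> rcases hb with rfl | rfl | rfl <;> simp [mkG] at hab ⊢
  obtain ⟨f, q1, q2, q3⟩ := twoK2 hG g1 g2 (fun _ => ⟨(n + 2, m + 1), by simp, by simp⟩)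
  change ℕ → Fin (n + 2) × Fin (m + 1) → V at f
  have q1' : ∀ a ∈ ({0, 1, 2, 3} : Finset ℕ), ∀ v w, f a v = f a w → v = w := q1
  have q2' : ∀ a ∈ ({0, 1, 2, 3} : Finset ℕ), ∀ v w, G.Adj (f a v) (f a w) ↔
    (KK (n + 2) (m + 1)).Adj v w := q2
  have hle1 : n ≤ n + 2 := by omega
  have hle2 : m ≤ m + 1 := by omega
  let e : Fin n × Fin m → Fin (n + 2) × Fin (m + 1) := embN (by omega) (by omega)
  have he : Function.Injective e := embN_inj _ _ hle1 hle2
  have hea : ∀ v w, (KK (n + 2) (m + 1)).Adj (e v) (e w) ↔ (KK n m).Adj v w :=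
    embN_adj _ _ hle1 hle2
  let r : (Fin n × Fin m ⊕ Fin n × Fin m) ⊕ (Fin n × Fin m ⊕ Fin n × Fin m) →
      ℕ × (Fin n × Fin m) := fun p => match p with
    | Sum.inl (Sum.inl v) => (0, v)
    | Sum.inl (Sum.inr v) => (1, v)
    | Sum.inr (Sum.inl v) => (2, v)
    | Sum.inr (Sum.inr v) => (3, v)
  have hr1 : Function.Injective r := by
    rintro ((v | v) | (v | v)) ((w | w) | (w | w)) h
    all_goals first
      | (have h' : v = w := congrArg Prod.snd h
         rw [h']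
         done)
      | (have h3 := congrArg Prod.fst h
         simp only [r] at h3
         exact absurd h3 (by decide))
  have hr2 : ∀ p, (r p).1 ∈ ({0, 1, 2, 3} : Finset ℕ) := by
    rintro ((v | v) | (v | v))
    · exact (by decide : (0 : ℕ) ∈ ({0, 1, 2, 3} : Finset ℕ))
    · exact (by decide : (1 : ℕ) ∈ ({0, 1, 2, 3} : Finset ℕ))
    · exact (by decide : (2 : ℕ) ∈ ({0, 1, 2, 3} : Finset ℕ))
    · exact (by decide : (3 : ℕ) ∈ ({0, 1, 2, 3} : Finset ℕ))
  have hr3 : ∀ p q, (dsum (jn (KK n m) (KK n m)) (jn (KK n m) (KK n m))).Adj p q ↔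
      ((r p).1 = (r q).1 ∧ (KK n m).Adj (r p).2 (r q).2) ∨
      (mkG [(0, 1), (2, 3)]).Adj (r p).1 (r q).1 := by
    have same : ∀ (i : ℕ) (P : Prop), P ↔ (i = i ∧ P) ∨ (mkG [(0, 1), (2, 3)]).Adj i i :=
      fun i P => ⟨fun h => Or.inl ⟨rfl, h⟩,
        fun h => h.elim (fun h => h.2) (fun h => absurd h (SimpleGraph.irrefl _))⟩
    have cross : ∀ (i j : ℕ) (P Q : Prop), i ≠ j → ¬ (mkG [(0, 1), (2, 3)]).Adj i j → ¬ Q →
        (Q ↔ (i = j ∧ P) ∨ (mkG [(0, 1), (2, 3)]).Adj i j) := fun i j P Q h1 h2 h3 =>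
      ⟨fun h => absurd h h3, fun h => h.elim (fun h => absurd h.1 h1) (fun h => absurd h h2)⟩
    have joined : ∀ (i j : ℕ) (P Q : Prop), (mkG [(0, 1), (2, 3)]).Adj i j → Q →
        (Q ↔ (i = j ∧ P) ∨ (mkG [(0, 1), (2, 3)]).Adj i j) := fun i j P Q h1 h2 =>
      ⟨fun _ => Or.inr h1, fun _ => h2⟩
    rintro ((v | v) | (v | v)) ((w | w) | (w | w))
    · exact (jn_ll).trans (same 0 _)
    · exact joined 0 1 _ _ (by decide) jn_lr
    · exact cross 0 2 _ _ (by decide) (by decide) (fun h => h)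
    · exact cross 0 3 _ _ (by decide) (by decide) (fun h => h)
    · exact joined 1 0 _ _ (by decide) jn_rl
    · exact (jn_rr).trans (same 1 _)
    · exact cross 1 2 _ _ (by decide) (by decide) (fun h => h)
    · exact cross 1 3 _ _ (by decide) (by decide) (fun h => h)
    · exact cross 2 0 _ _ (by decide) (by decide) (fun h => h)
    · exact cross 2 1 _ _ (by decide) (by decide) (fun h => h)
    · exact (jn_ll).trans (same 2 _)
    · exact joined 2 3 _ _ (by decide) jn_lr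
    · exact cross 3 0 _ _ (by decide) (by decide) (fun h => h)
    · exact cross 3 1 _ _ (by decide) (by decide) (fun h => h)
    · exact joined 3 2 _ _ (by decide) jn_rl
    · exact (jn_rr).trans (same 3 _)
  refine ⟨⟨⟨fun p => f (r p).1 (e (r p).2), ?_⟩, ?_⟩⟩
  · intro p q hpq
    apply hr1
    by_cases h : (r p).1 = (r q).1
    · have h3 : f (r p).1 (e (r p).2) = f (r p).1 (e (r q).2) := by
        have h4 : f (r p).1 (e (r p).2) = f (r q).1 (e (r q).2) := hpq
        rw [← h] at h4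
        exact h4
      exact Prod.ext h (he (q1' _ (hr2 p) _ _ h3))
    · exact absurd hpq (q3 _ (hr2 p) _ (hr2 q) h _ _).1
  · intro p q
    show G.Adj (f (r p).1 (e (r p).2)) (f (r q).1 (e (r q).2)) ↔ _
    rw [hr3]
    by_cases h : (r p).1 = (r q).1
    · rw [← h, q2' _ (hr2 p), hea]
      simp
    · have := (q3 _ (hr2 p) _ (hr2 q) h (e (r p).2) (e (r q).2)).2
      rw [this]
      simp [h]

end Run7.h77.BL
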