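import Pool.Agent.Run7.h77.BlobAP

/-!
Blow-ups by disjoint unions of complete graphs: if those of `P₃` and `K₁ + K₂` embed in a
set-homogeneous graph then so do those of `2K₂`.
-/

namespace Run7.h77.BL

open Run7.h901 Run7.h77.LW

universe u v w

/-- the graph with a given list of edges. -/
def mkG (E : List (ℕ × ℕ)) : SimpleGraph ℕ where
  Adj a b := a ≠ b ∧ ((a, b) ∈ E ∨ (b, a) ∈ E)
  symm := ⟨fun _ _ h => ⟨h.1.symm, h.2.symm⟩⟩
  loopless := ⟨fun _ h => h.1 rfl⟩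

instance (E : List (ℕ × ℕ)) : DecidableRel (mkG E).Adj := fun a b =>
  inferInstanceAs (Decidable (a ≠ b ∧ ((a, b) ∈ E ∨ (b, a) ∈ E)))

/-- sizes -/
def M1 : Type := {p : ℕ × ℕ // 2 ≤ p.1 ∧ 1 ≤ p.2}

/-- vertices -/
def ty1 (p : M1) : Type := Fin p.1.1 × Fin p.1.2

/-- graphs -/
def gr1 (p : M1) : SimpleGraph (ty1 p) := KK p.1.1 p.1.2

/-- a map of the vertices. -/
def embN {a b N M : ℕ} (hN : 0 < N) (hM : 0 < M) (v : Fin a × Fin b) : Fin N × Fin M :=
  (⟨v.1.1 % N, Nat.mod_lt _ hN⟩, ⟨v.2.1 % M, Nat.mod_lt _ hM⟩)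

theorem embN_inj {a b N M : ℕ} (hN : 0 < N) (hM : 0 < M) (ha : a ≤ N) (hb : b ≤ M) :
    Function.Injective (embN (a := a) (b := b) hN hM) := by
  rintro ⟨v, w⟩ ⟨v', w'⟩ h
  simp only [embN, Prod.mk.injEq, Fin.mk.injEq] at h
  rw [Nat.mod_eq_of_lt (v.2.trans_le ha), Nat.mod_eq_of_lt (v'.2.trans_le ha),
    Nat.mod_eq_of_lt (w.2.trans_le hb), Nat.mod_eq_of_lt (w'.2.trans_le hb)] at h
  rw [Prod.mk.injEq]
  exact ⟨Fin.ext h.1, Fin.ext h.2⟩

theorem embN_adj {a b N M : ℕ} (hN : 0 < N) (hM : 0 < M) (ha : a ≤ N) (hb : b ≤ M)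
    (v w : Fin a × Fin b) : (KK N M).Adj (embN hN hM v) (embN hN hM w) ↔ (KK a b).Adj v w := by
  rw [KK_adj, KK_adj, ne_eq, ne_eq, (embN_inj hN hM ha hb).eq_iff]
  have : (embN hN hM v).1 = (embN (N := N) (M := M) hN hM w).1 ↔ v.1 = w.1 := by
    simp only [embN, Fin.mk.injEq]
    rw [Nat.mod_eq_of_lt (v.1.2.trans_le ha), Nat.mod_eq_of_lt (w.1.2.trans_le ha)]
    exact Fin.ext_iff.symm
  rw [this]

/-- embeddings -/
def embK {a b N M : ℕ} (hN : 0 < N) (hM : 0 < M) (ha : a ≤ N) (hb : b ≤ M) : KK a b ↪g KK N M :=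
  ⟨⟨embN hN hM, embN_inj hN hM ha hb⟩, embN_adj hN hM ha hb _ _⟩

theorem KK_eq (n m : ℕ) : KK n m = lex ⊥ ⊤ := by
  ext ⟨a, b⟩ ⟨c, d⟩
  simp only [KK_adj, lex_adj, SimpleGraph.bot_adj, SimpleGraph.top_adj, ne_eq, Prod.mk.injEq,
    false_or]
  tauto

theorem ph (k : ℕ) (χ : Fin (2 * k) → Prop) : ∃ e : Fin k → Fin (2 * k), Function.Injective e ∧
    ((∀ i, χ (e i)) ∨ ∀ i, ¬ χ (e i)) := by
  classical
  have h := Finset.card_filter_add_card_filter_not (s := Finset.univ) χ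
  rw [Finset.card_univ, Fintype.card_fin] at h
  have h' : k ≤ (Finset.univ.filter χ).card ∨ k ≤ (Finset.univ.filter (fun a => ¬ χ a)).card := by
    omega
  rcases h' with h' | h'
  · obtain ⟨T, hT, hTc⟩ := Finset.exists_subset_card_eq h'
    refine ⟨T.orderEmbOfFin hTc, (T.orderEmbOfFin hTc).injective, Or.inl (fun i => ?_)⟩
    exact (Finset.mem_filter.1 (hT (T.orderEmbOfFin_mem hTc i))).2
  · obtain ⟨T, hT, hTc⟩ := Finset.exists_subset_card_eq h'
    refine ⟨T.orderEmbOfFin hTc, (T.orderEmbOfFin hTc).injective, Or.inr (fun i => ?_)⟩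
    exact (Finset.mem_filter.1 (hT (T.orderEmbOfFin_mem hTc i))).2

theorem fml1 : Fml ty1 gr1 where
  fin := fun m => inferInstanceAs (Finite (Fin m.1.1 × Fin m.1.2))
  ne := by
    rintro ⟨⟨n, m⟩, h1, h2⟩
    exact ⟨((⟨0, lt_of_lt_of_le Nat.zero_lt_two h1⟩ : Fin n), (⟨0, h2⟩ : Fin m))⟩
  dir := by
    rintro ⟨⟨n, m⟩, h1, h2⟩ ⟨⟨n', m'⟩, h1', h2'⟩
    simp only at h1 h2 h1' h2'
    have k1 : 0 < max n n' := lt_of_lt_of_le (by omega) (le_max_left n n')
    have k2 : 0 < max m m' := lt_of_lt_of_le (by omega) (le_max_left m m')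
    exact ⟨⟨(max n n', max m m'), le_max_of_le_left h1, le_max_of_le_left h2⟩,
      ⟨embK k1 k2 (le_max_left _ _) (le_max_left _ _)⟩,
      ⟨embK k1 k2 (le_max_right _ _) (le_max_right _ _)⟩⟩
  ram := by
    rintro ⟨⟨n, m⟩, h1, h2⟩
    simp only at h1 h2
    refine ⟨⟨(2 * n, 2 * m), by simp only; omega, by simp only; omega⟩, fun χ => ?_⟩
    change Fin (2 * n) × Fin (2 * m) → Prop at χ
    have he := fun i => ph m (fun j => χ (i, j))
    choose e he1 he2 using he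
    obtain ⟨f, hf1, hf2⟩ := ph n (fun i => ∀ j, χ (i, e i j))
    refine ⟨⟨⟨fun v => ((f v.1, e (f v.1) v.2) : Fin (2 * n) × Fin (2 * m)), ?_⟩, ?_⟩, ?_⟩
    · rintro ⟨a, b⟩ ⟨c, d⟩ h
      have h3 := hf1 (congrArg Prod.fst h :)
      simp only at h3
      subst h3
      have h4 := he1 _ (congrArg Prod.snd h :)
      simp only at h4
      subst h4
      rfl
    · rintro ⟨a, b⟩ ⟨c, d⟩
      show (KK (2 * n) (2 * m)).Adj (f a, e (f a) b) (f c, e (f c) d) ↔ (KK n m).Adj (a, b) (c, d)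
      rw [KK_adj, KK_adj]
      simp only [ne_eq, Prod.mk.injEq, hf1.eq_iff]
      constructor
      · rintro ⟨h3, rfl⟩
        exact ⟨fun h => h3 ⟨rfl, by rw [h.2]⟩, rfl⟩
      · rintro ⟨h3, rfl⟩
        exact ⟨fun h => h3 ⟨rfl, he1 _ h.2⟩, rfl⟩
    · rcases hf2 with hf2 | hf2
      · left
        rintro ⟨a, b⟩
        exact hf2 a b
      · right
        rintro ⟨a, b⟩
        rcases he2 (f a) with h3 | h3
        · exact absurd h3 (hf2 a)
        · exact h3 b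
  uni := by
    rintro ⟨⟨n, m⟩, h1, h2⟩
    simp only at h1 h2
    refine ⟨m, fun k hk => ?_⟩
    have k1 : 0 < n := by omega
    have k2 : 0 < k := by omega
    refine ⟨⟨(n, k), h1, h2.trans hk⟩, ⟨embK k1 k2 le_rfl hk⟩, ?_⟩
    show Uni (KK n k) k
    rw [KK_eq]
    apply uni_lex
    · intro v w h; simp at h
    · intro v
      refine ⟨if v.1 = 0 then ⟨1, by omega⟩ else ⟨0, by omega⟩, ?_, by simp⟩
      intro h
      have h3 := congrArg Fin.val h
      split_ifs at h3 with h4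
      · simp only at h3; omega
      · simp only at h3; omega

variable {V : Type u} {G : SimpleGraph V}

/-- all blow-ups embed. -/
abbrev CC (G : SimpleGraph V) (E : List (ℕ × ℕ)) (S : Finset ℕ) : Prop := QB gr1 G ℕ (mkG E) S

theorem CC.her [Nonempty V] {E E' : List (ℕ × ℕ)} {S S' : Finset ℕ} (f : ℕ → ℕ) (h : CC G E' S')
    (hf : ∀ a ∈ S, f a ∈ S')
    (hfa : ∀ a ∈ S, ∀ b ∈ S, a ≠ b → f a ≠ f b ∧ ((mkG E').Adj (f a) (f b) ↔ (mkG E).Adj a b)) :
    CC G E S := Run7.h77.BL.her _ _ _ _ f hf hfa h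

theorem apL (hG : SetHomogeneous G) [Nonempty V] (E : List (ℕ × ℕ)) (S : Finset ℕ) (x y : ℕ)
    (hx : x ∈ S) (hy : y ∈ S) (hxy : x ≠ y)
    (hd : ∃ z ∈ S, z ≠ x ∧ z ≠ y ∧ ¬ ((mkG E).Adj x z ↔ (mkG E).Adj y z))
    (hn : ¬ (mkG E).Adj x y) (T1 T2 : Finset ℕ) (hT1 : ∀ a ∈ S, a ≠ x → a ∈ T1)
    (hT2 : ∀ a ∈ S, a ≠ y → a ∈ T2) (h1 : CC G E T1) (h2 : CC G E T2) :
    CC G E S ∨ CC G ((x, y) :: E) S := by
  rcases ap hG fml1 (mkG E) S x y hx hy hxy hd
    (Run7.h77.BL.her _ _ _ _ id (fun a ha => hT1 a (mem_del.1 ha).1 (mem_del.1 ha).2)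
      (fun a _ b _ hab => ⟨hab, Iff.rfl⟩) h1)
    (Run7.h77.BL.her _ _ _ _ id (fun a ha => hT2 a (mem_del.1 ha).1 (mem_del.1 ha).2)
      (fun a _ b _ hab => ⟨hab, Iff.rfl⟩) h2) with h | h
  · exact Or.inl h
  · right
    refine Run7.h77.BL.her _ _ _ _ id (fun a ha => ha) (fun a _ b _ hab => ⟨hab, ?_⟩) h
    simp only [id]
    have hE : ¬ ((x, y) ∈ E ∨ (y, x) ∈ E) := fun h => hn ⟨hxy, h⟩
    by_cases hp : (a = x ∧ b = y) ∨ (a = y ∧ b = x)
    · rcases hp with ⟨rfl, rfl⟩ | ⟨rfl, rfl⟩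
      · rw [tog_self _ hxy]
        exact ⟨fun _ => ⟨hab, Or.inl (by simp)⟩, fun _ => hn⟩
      · rw [SimpleGraph.adj_comm, tog_self _ hxy]
        exact ⟨fun _ => ⟨hab, Or.inr (by simp)⟩, fun _ => hn⟩
    · rw [tog_other _ hp]
      constructor
      · rintro ⟨h3, h4⟩
        exact ⟨h3, h4.imp (List.mem_cons_of_mem _) (List.mem_cons_of_mem _)⟩
      · rintro ⟨h3, h4⟩
        refine ⟨h3, ?_⟩
        rcases h4 with h4 | h4
        · rcases List.mem_cons.1 h4 with h5 | h5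
          · exact absurd (Or.inl ⟨congrArg Prod.fst h5, congrArg Prod.snd h5⟩) hp
          · exact Or.inl h5
        · rcases List.mem_cons.1 h4 with h5 | h5
          · exact absurd (Or.inr ⟨congrArg Prod.snd h5, congrArg Prod.fst h5⟩) hp
          · exact Or.inr h5

theorem p4 (hG : SetHomogeneous G) [Nonempty V] (h1 : CC G [(0, 1), (1, 2)] {0, 1, 2})
    (h2 : CC G [(0, 1)] {0, 1, 2}) : CC G [(0, 1), (1, 2), (2, 3)] {0, 1, 2, 3} := by
  rcases apL hG [(0, 2), (0, 3), (1, 3)] {0, 1, 2, 3} 2 3 (by decide +kernel) (by decide +kernel) (by decide +kernel)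
    (by decide +kernel) (by decide +kernel) {0, 1, 3} {0, 1, 2} (by decide +kernel) (by decide +kernel)
    (h1.her (fun n => if n = 0 then 0 else if n = 3 then 1 else 2) (by decide +kernel) (by decide +kernel))
    (h2.her (fun n => if n = 0 then 0 else if n = 2 then 1 else 2) (by decide +kernel) (by decide +kernel))
    with h | h
  · exact h.her (fun n => if n = 0 then 2 else if n = 1 then 0 else if n = 2 then 3 else 1)
      (by decide +kernel) (by decide +kernel)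
  · rcases apL hG [(0, 1), (0, 2), (1, 2), (0, 3), (1, 4)] {0, 1, 2, 3, 4} 3 4 (by decide +kernel)
      (by decide +kernel) (by decide +kernel) (by decide +kernel) (by decide +kernel) {0, 1, 2, 4} {0, 1, 2, 3} (by decide +kernel)
      (by decide +kernel)
      (h.her (fun n => if n = 0 then 0 else if n = 1 then 3 else if n = 2 then 2 else 1)
        (by decide +kernel) (by decide +kernel))
      (h.her (fun n => if n = 0 then 3 else if n = 1 then 0 else if n = 2 then 2 else 1)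
        (by decide +kernel) (by decide +kernel)) with h' | h'
    · exact h'.her (fun n => if n = 0 then 3 else if n = 1 then 0 else if n = 2 then 1 else 4)
        (by decide +kernel) (by decide +kernel)
    · exact h'.her (fun n => if n = 0 then 3 else if n = 1 then 4 else if n = 2 then 1 else 2)
        (by decide +kernel) (by decide +kernel)

theorem fork (hG : SetHomogeneous G) [Nonempty V] (h1 : CC G [(0, 1), (1, 2)] {0, 1, 2})
    (h2 : CC G [(0, 1)] {0, 1, 2}) :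
    CC G [(0, 1), (1, 2), (2, 3), (2, 4)] {0, 1, 2, 3, 4} := by
  refine tw_step False ?_ (mkG [(0, 1), (1, 2), (2, 3), (2, 4)]) {0, 1, 2, 3, 4} 4 3 (by decide +kernel)
    (by decide +kernel) (by decide +kernel) (by decide +kernel) (by decide +kernel) ?_
  · rintro ⟨⟨n, m⟩, a1, a2⟩ ⟨⟨n', m'⟩, b1, b2⟩
    simp only at a1 a2 b1 b2
    refine ⟨⟨(n + n', m + m'), by simp only; omega, by simp only; omega⟩,
      ⟨⟨fun v => ((Fin.castAdd n' v.1, Fin.castAdd m' v.2) : Fin (n + n') × Fin (m + m')), ?_⟩, ?_⟩,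
      ⟨⟨fun v => ((Fin.natAdd n v.1, Fin.natAdd m v.2) : Fin (n + n') × Fin (m + m')), ?_⟩, ?_⟩, ?_⟩
    · rintro ⟨a, b⟩ ⟨c, d⟩ h
      have h3 := Fin.castAdd_injective _ _ (congrArg Prod.fst h :)
      have h4 := Fin.castAdd_injective _ _ (congrArg Prod.snd h :)
      simp only at h3 h4
      rw [h3, h4]
    · rintro ⟨a, b⟩ ⟨c, d⟩
      show (KK (n + n') (m + m')).Adj (Fin.castAdd n' a, Fin.castAdd m' b)
        (Fin.castAdd n' c, Fin.castAdd m' d) ↔ (KK n m).Adj (a, b) (c, d)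
      rw [KK_adj, KK_adj]
      simp [Prod.ext_iff, Fin.ext_iff]
    · rintro ⟨a, b⟩ ⟨c, d⟩ h
      have h3 := Fin.natAdd_injective _ _ (congrArg Prod.fst h :)
      have h4 := Fin.natAdd_injective _ _ (congrArg Prod.snd h :)
      simp only at h3 h4
      rw [h3, h4]
    · rintro ⟨a, b⟩ ⟨c, d⟩
      show (KK (n + n') (m + m')).Adj (Fin.natAdd n a, Fin.natAdd m b)
        (Fin.natAdd n c, Fin.natAdd m d) ↔ (KK n' m').Adj (a, b) (c, d)
      rw [KK_adj, KK_adj]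
      simp [Prod.ext_iff, Fin.ext_iff]
    · rintro ⟨a, b⟩ ⟨c, d⟩
      have ha : a.1 < n := a.2
      constructor
      · intro h
        have h3 : a.1 = n + c.1 := congrArg (fun p => p.1.1) h
        omega
      · refine ⟨fun h => ?_, False.elim⟩
        have h3 : a.1 = n + c.1 := congrArg Fin.val h.2
        omega
  · refine Run7.h77.BL.her (mkG [(0, 1), (1, 2), (2, 3), (2, 4)]) (mkG [(0, 1), (1, 2), (2, 3)])
      _ {0, 1, 2, 3} id ?_ ?_ (p4 hG h1 h2)
    · intro a ha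
      have h3 := mem_del.1 ha
      have h4 : ∀ a ∈ ({0, 1, 2, 3, 4} : Finset ℕ), a ≠ 4 → id a ∈ ({0, 1, 2, 3} : Finset ℕ) := by
        decide
      exact h4 a h3.1 h3.2
    · intro a ha b hb
      have h4 : ∀ a ∈ ({0, 1, 2, 3, 4} : Finset ℕ), a ≠ 4 → ∀ b ∈ ({0, 1, 2, 3, 4} : Finset ℕ),
          b ≠ 4 → a ≠ b → id a ≠ id b ∧ ((mkG [(0, 1), (1, 2), (2, 3)]).Adj (id a) (id b) ↔
          (mkG [(0, 1), (1, 2), (2, 3), (2, 4)]).Adj a b) := by decide +kernel
      exact h4 a (mem_del.1 ha).1 (mem_del.1 ha).2 b (mem_del.1 hb).1 (mem_del.1 hb).2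

theorem twoK2 (hG : SetHomogeneous G) [Nonempty V] (h1 : CC G [(0, 1), (1, 2)] {0, 1, 2})
    (h2 : CC G [(0, 1)] {0, 1, 2}) : CC G [(0, 1), (2, 3)] {0, 1, 2, 3} := by
  have hf := fork hG h1 h2
  rcases apL hG [(0, 1), (0, 2), (0, 3), (1, 4), (2, 5)] {0, 1, 2, 3, 4, 5} 4 5 (by decide +kernel)
      (by decide +kernel) (by decide +kernel) (by decide +kernel) (by decide +kernel) {0, 1, 2, 3, 5} {0, 1, 2, 3, 4} (by decide +kernel)
      (by decide +kernel)
      (hf.her (fun n => if n = 0 then 2 else if n = 1 then 3 else if n = 3 then 4 else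
        if n = 2 then 1 else 0) (by decide +kernel) (by decide +kernel))
      (hf.her (fun n => if n = 0 then 2 else if n = 2 then 3 else if n = 3 then 4 else
        if n = 1 then 1 else 0) (by decide +kernel) (by decide +kernel)) with h' | h'
  · exact h'.her (fun n => if n = 0 then 1 else if n = 1 then 4 else if n = 2 then 2 else 5)
      (by decide +kernel) (by decide +kernel)
  · exact h'.her (fun n => if n = 0 then 4 else if n = 1 then 5 else if n = 2 then 0 else 3)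
      (by decide +kernel) (by decide +kernel)

end Run7.h77.BL
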