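import Pool.Agent.Run7.h77.BlobAP

/-!
If all cographs embed in a set-homogeneous graph then all finite graphs do.
-/

open scoped Classical

namespace Run7.h77.BL

open Run7.h901 Run7.h77.LW

universe u v w

/-- isomorphic to a cograph. -/
def IsC {α : Type} (A : SimpleGraph α) : Prop :=
  ∃ (β : Type) (B : SimpleGraph β), Cog β B ∧ Nonempty (A ≃g B)

theorem cog_fin {α : Type} {A : SimpleGraph α} (h : Cog α A) : Finite α ∧ Nonempty α := by
  induction h with
  | one => exact ⟨inferInstance, ⟨()⟩⟩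
  | sum hA hB ihA ihB =>
    obtain ⟨h1, ⟨a⟩⟩ := ihA
    obtain ⟨h2, h3⟩ := ihB
    exact ⟨inferInstance, ⟨Sum.inl a⟩⟩
  | compl hA ih => exact ih

theorem IsC.iso {α β : Type} {A : SimpleGraph α} {B : SimpleGraph β} (h : IsC A) (e : A ≃g B) :
    IsC B := by
  obtain ⟨γ, C, hC, ⟨f⟩⟩ := h
  exact ⟨γ, C, hC, ⟨e.symm.trans f⟩⟩

theorem IsC.fin {α : Type} {A : SimpleGraph α} (h : IsC A) : Finite α ∧ Nonempty α := by
  obtain ⟨γ, C, hC, ⟨f⟩⟩ := h
  obtain ⟨h1, h2⟩ := cog_fin hC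
  exact ⟨Finite.of_equiv _ f.toEquiv.symm, f.toEquiv.nonempty_congr.2 h2⟩

/-- isomorphisms of disjoint unions. -/
def dsumIso {α β α' β' : Type} {A : SimpleGraph α} {B : SimpleGraph β} {A' : SimpleGraph α'}
    {B' : SimpleGraph β'} (e : A ≃g A') (f : B ≃g B') : dsum A B ≃g dsum A' B' where
  toEquiv := Equiv.sumCongr e.toEquiv f.toEquiv
  map_rel_iff' := by
    rintro (a | a) (b | b)
    · exact e.map_adj_iff
    · exact Iff.rfl
    · exact Iff.rfl
    · exact f.map_adj_iff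

/-- isomorphisms of complements. -/
def complIso {α α' : Type} {A : SimpleGraph α} {A' : SimpleGraph α'} (e : A ≃g A') :
    Aᶜ ≃g A'ᶜ where
  toEquiv := e.toEquiv
  map_rel_iff' := by
    intro a b
    show A'ᶜ.Adj (e a) (e b) ↔ Aᶜ.Adj a b
    rw [SimpleGraph.compl_adj, SimpleGraph.compl_adj, e.map_adj_iff, ne_eq, e.injective.eq_iff]

theorem IsC.dsum {α β : Type} {A : SimpleGraph α} {B : SimpleGraph β} (h : IsC A) (h' : IsC B) :
    IsC (dsum A B) := by
  obtain ⟨γ, C, hC, ⟨f⟩⟩ := h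
  obtain ⟨δ, D, hD, ⟨g⟩⟩ := h'
  exact ⟨_, _, Cog.sum hC hD, ⟨dsumIso f g⟩⟩

theorem IsC.compl {α : Type} {A : SimpleGraph α} (h : IsC A) : IsC Aᶜ := by
  obtain ⟨γ, C, hC, ⟨f⟩⟩ := h
  exact ⟨_, _, Cog.compl hC, ⟨complIso f⟩⟩

theorem IsC.jn {α β : Type} {A : SimpleGraph α} {B : SimpleGraph β} (h : IsC A) (h' : IsC B) :
    IsC (jn A B) := (h.compl.dsum h'.compl).compl

theorem lex_compl {α β : Type} (A : SimpleGraph α) (B : SimpleGraph β) :
    lex Aᶜ B = (lex A Bᶜ)ᶜ := by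
  ext ⟨a, b⟩ ⟨a', b'⟩
  simp only [lex_adj, SimpleGraph.compl_adj, ne_eq, Prod.mk.injEq]
  by_cases h : a = a'
  · subst h
    simp only [not_true_eq_false, SimpleGraph.irrefl, not_false_eq_true, and_true, true_and,
      false_or]
    by_cases hb : b = b'
    · subst hb; simp
    · simp [hb]
  · simp [h]

theorem cog_lex {α : Type} {A : SimpleGraph α} (h : Cog α A) :
    ∀ {β : Type} {B : SimpleGraph β}, IsC B → IsC (lex A B) := by
  induction h with
  | one =>
    intro β B hB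
    refine hB.iso ⟨(Equiv.punitProd β).symm, ?_⟩
    intro a b
    show (lex ⊥ B).Adj ((), a) ((), b) ↔ B.Adj a b
    simp [lex_adj]
  | @sum α β A B hA hB ihA ihB =>
    intro γ C hC
    refine ((ihA hC).dsum (ihB hC)).iso ⟨(Equiv.sumProdDistrib α β γ).symm, ?_⟩
    rintro (⟨a, c⟩ | ⟨a, c⟩) (⟨b, d⟩ | ⟨b, d⟩)
    · simp [lex_adj]
    · simp [lex_adj]
    · simp [lex_adj]
    · simp [lex_adj]
  | compl hA ih =>
    intro γ C hC
    rw [lex_compl]
    exact (ih hC.compl).compl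

theorem IsC.lex {α β : Type} {A : SimpleGraph α} {B : SimpleGraph β} (h : IsC A) (h' : IsC B) :
    IsC (lex A B) := by
  obtain ⟨γ, C, hC, ⟨f⟩⟩ := h
  refine (cog_lex hC h').iso ⟨Equiv.prodCongr f.toEquiv.symm (Equiv.refl _), ?_⟩
  rintro ⟨a, b⟩ ⟨a', b'⟩
  have h1 : A.Adj (f.symm a) (f.symm a') ↔ C.Adj a a' := f.symm.map_adj_iff
  have h2 : f.symm a = f.symm a' ↔ a = a' := f.symm.injective.eq_iff
  show A.Adj (f.symm a) (f.symm a') ∨ (f.symm a = f.symm a' ∧ B.Adj b b') ↔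
    C.Adj a a' ∨ (a = a' ∧ B.Adj b b')
  rw [h1, h2]

theorem isC_bot (n : ℕ) : IsC (⊥ : SimpleGraph (Fin (n + 1))) := by
  induction n with
  | zero =>
    refine ⟨Unit, ⊥, Cog.one, ⟨⟨⟨fun _ => (), fun _ => 0, fun x => by omega, fun _ => rfl⟩, ?_⟩⟩⟩
    intro a b
    simp
  | succ n ih =>
    refine (ih.dsum (show IsC (⊥ : SimpleGraph Unit) from ⟨Unit, ⊥, Cog.one,
      ⟨SimpleGraph.Iso.refl⟩⟩)).iso ⟨(finSuccEquivLast.trans (Equiv.optionEquivSumPUnit _)).symm, ?_⟩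
    rintro (a | a) (b | b)
    · simp
    · simp
    · simp
    · simp

theorem isC_top (n : ℕ) : IsC (⊤ : SimpleGraph (Fin (n + 1))) := by
  have := (isC_bot n).compl
  rwa [compl_bot] at this

/-- the family of the graphs isomorphic to cographs. -/
def MC : Type 1 := {p : Σ α : Type, SimpleGraph α // IsC p.2}

/-- the vertices. -/
def tyC (m : MC) : Type := m.1.1

/-- the graphs. -/
def grC (m : MC) : SimpleGraph (tyC m) := m.1.2

/-- the member given by a graph. -/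
def mkC {α : Type} (A : SimpleGraph α) (h : IsC A) : MC := ⟨⟨α, A⟩, h⟩

/-- embedding of the first summand. -/
def dsumL {α β : Type} (A : SimpleGraph α) (B : SimpleGraph β) : A ↪g dsum A B :=
  ⟨⟨Sum.inl, Sum.inl_injective⟩, Iff.rfl⟩

/-- embedding of the second summand. -/
def dsumR {α β : Type} (A : SimpleGraph α) (B : SimpleGraph β) : B ↪g dsum A B :=
  ⟨⟨Sum.inr, Sum.inr_injective⟩, Iff.rfl⟩

/-- embedding of the first summand. -/
def jnL {α β : Type} (A : SimpleGraph α) (B : SimpleGraph β) : A ↪g jn A B :=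
  ⟨⟨Sum.inl, Sum.inl_injective⟩, jn_ll⟩

/-- embedding of the second summand. -/
def jnR {α β : Type} (A : SimpleGraph α) (B : SimpleGraph β) : B ↪g jn A B :=
  ⟨⟨Sum.inr, Sum.inr_injective⟩, jn_rr⟩

theorem fmlC : Fml tyC grC where
  fin := fun m => m.2.fin.1
  ne := fun m => m.2.fin.2
  dir := by
    rintro ⟨⟨α, A⟩, hA⟩ ⟨⟨β, B⟩, hB⟩
    exact ⟨mkC (dsum A B) (hA.dsum hB), ⟨dsumL A B⟩, ⟨dsumR A B⟩⟩
  ram := by
    rintro ⟨⟨α, A⟩, hA⟩
    refine ⟨mkC (lex A A) (hA.lex hA), fun χ => ?_⟩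
    change α × α → Prop at χ
    by_cases h : ∃ i, ∀ v, χ (i, v)
    · obtain ⟨i, hi⟩ := h
      refine ⟨⟨⟨fun v => ((i, v) : α × α), fun v w hvw => (congrArg Prod.snd hvw :)⟩, ?_⟩,
        Or.inl hi⟩
      intro a b
      show (lex A A).Adj (i, a) (i, b) ↔ A.Adj a b
      simp [lex_adj]
    · push Not at h
      choose g hg using h
      refine ⟨⟨⟨fun v => ((v, g v) : α × α), fun v w hvw => (congrArg Prod.fst hvw :)⟩, ?_⟩,
        Or.inr hg⟩
      intro a b
      show (lex A A).Adj (a, g a) (b, g b) ↔ A.Adj a b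
      rw [lex_adj]
      constructor
      · rintro (h | ⟨h1, h2⟩)
        · exact h
        · simp only at h1
          subst h1
          exact absurd h2 A.irrefl
      · exact fun h => Or.inl h
  uni := by
    rintro ⟨⟨α, A⟩, hA⟩
    refine ⟨1, fun m hm => ?_⟩
    obtain ⟨m, rfl⟩ : ∃ k, m = k + 1 := ⟨m - 1, by omega⟩
    refine ⟨mkC (lex (lex A (⊥ : SimpleGraph (Fin 2))) (⊤ : SimpleGraph (Fin (m + 1))))
      ((hA.lex (isC_bot 1)).lex (isC_top m)), ?_, ?_⟩
    · refine ⟨⟨⟨fun v => (((v, 0), 0) : (α × Fin 2) × Fin (m + 1)),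
        fun v w hvw => (congrArg (fun p => p.1.1) hvw :)⟩, ?_⟩⟩
      intro a b
      show (lex (lex A (⊥ : SimpleGraph (Fin 2))) (⊤ : SimpleGraph (Fin (m + 1)))).Adj
        ((a, 0), 0) ((b, 0), 0) ↔ A.Adj a b
      simp [lex_adj]
    · apply uni_lex
      · rintro ⟨v, i⟩ ⟨w, j⟩ hvw
        have h1 : A.Adj v w := by simpa [lex_adj] using hvw
        refine ⟨(v, i + 1), ?_, ?_, ?_⟩
        · intro h
          have := congrArg Prod.snd h
          simp at this
        · intro h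
          exact h1.ne (congrArg Prod.fst h)
        · intro h
          have h2 : (lex A (⊥ : SimpleGraph (Fin 2))).Adj (w, j) (v, i + 1) :=
            Or.inl h1.symm
          have h3 := h.2 h2
          simp [lex_adj] at h3
      · rintro ⟨v, i⟩
        refine ⟨(v, i + 1), ?_, ?_⟩
        · intro h
          have := congrArg Prod.snd h
          simp at this
        · simp [lex_adj]

/-- **T2** -/
theorem T2 {V : Type u} {G : SimpleGraph V} (hG : SetHomogeneous G)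
    (h : ∀ (α : Type) (A : SimpleGraph α), Cog α A → Nonempty (A ↪g G)) (W : Type) [Finite W]
    (A : SimpleGraph W) : Nonempty (A ↪g G) := by
  have h' : ∀ m : MC, Nonempty (grC m ↪g G) := by
    rintro ⟨⟨α, B⟩, ⟨β, C, hC, ⟨f⟩⟩⟩
    obtain ⟨e⟩ := h β C hC
    exact ⟨f.toEmbedding.trans e⟩
  have hne : Nonempty V := by
    obtain ⟨e⟩ := h Unit ⊥ Cog.one
    exact ⟨e ()⟩
  have hgood : Good (QB grC G) := by
    refine ⟨?_, ?_, ?_, ?_⟩
    · intro Y Z G1 G2 S T f hf hfa hQ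
      exact her G1 G2 S T f hf hfa hQ
    · intro Y G1 a c
      refine ⟨fun y => (h' (c y)).some, ?_, ?_, ?_⟩
      · intro y _ v w hvw
        exact (h' (c y)).some.injective hvw
      · intro y _ v w
        exact (h' (c y)).some.map_adj_iff
      · intro y hy z hz hyz
        rw [Finset.mem_singleton] at hy hz
        exact absurd (hy.trans hz.symm) hyz
    · intro Y G1 S x y hx hy hxy htw hQ
      refine tw_step (G1.Adj x y) ?_ G1 S x y hx hy hxy Iff.rfl htw hQ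
      rintro ⟨⟨α, A⟩, hA⟩ ⟨⟨β, B⟩, hB⟩
      by_cases hadj : G1.Adj x y
      · refine ⟨mkC (jn A B) (hA.jn hB), jnL A B, jnR A B, fun u v => ⟨?_, ?_⟩⟩
        · exact Sum.inl_ne_inr
        · exact ⟨fun _ => hadj, fun _ => jn_lr⟩
      · refine ⟨mkC (dsum A B) (hA.dsum hB), dsumL A B, dsumR A B, fun u v => ⟨?_, ?_⟩⟩
        · exact Sum.inl_ne_inr
        · exact ⟨fun h => absurd h dsum_lr, fun h => absurd h hadj⟩
    · intro Y G1 S x y hx hy hxy hd h1 h2
      exact ap hG fmlC G1 S x y hx hy hxy hd h1 h2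
  have := Fintype.ofFinite W
  have hall := all' hgood W A Finset.univ
  obtain ⟨f, h1, h2, h3⟩ := hall (fun _ => mkC (⊥ : SimpleGraph Unit)
    ⟨Unit, ⊥, Cog.one, ⟨SimpleGraph.Iso.refl⟩⟩)
  refine ⟨⟨⟨fun w => f w (), ?_⟩, ?_⟩⟩
  · intro v w hvw
    by_contra hne
    exact (h3 v (Finset.mem_univ _) w (Finset.mem_univ _) hne () ()).1 hvw
  · intro v w
    show G.Adj (f v ()) (f w ()) ↔ A.Adj v w
    by_cases hvw : v = w
    · subst hvw; simp
    · exact (h3 v (Finset.mem_univ _) w (Finset.mem_univ _) hvw () ()).2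

end Run7.h77.BL
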