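import Pool.Agent.Run7.h901.Main
import Pool.Agent.Run7.h901.Sk
import Pool.Agent.Run7.h901.Univ

/-!
Uniqueness of the countable graphs on the list.
-/

open scoped Classical

namespace Run7.h77.UQ

open Run7.h901

universe u v
variable {V : Type u} {V' : Type v} {G : SimpleGraph V} {G' : SimpleGraph V'}

/-- compatible pairs. -/
def RR (G : SimpleGraph V) (G' : SimpleGraph V') (p q : V × V') : Prop :=
  (p.1 = q.1 ↔ p.2 = q.2) ∧ (G.Adj p.1 q.1 ↔ G'.Adj p.2 q.2)

theorem RR.swap {p q : V × V'} (h : RR G G' p q) : RR G' G p.swap q.swap := ⟨h.1.symm, h.2.symm⟩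

theorem fwd_ext (ok' : Finset V' → Prop)
    (hext : ∀ A B : Finset V', Disjoint A B → ok' A →
      ∃ v : V', v ∉ A ∧ v ∉ B ∧ (∀ a ∈ A, G'.Adj v a) ∧ ∀ b ∈ B, ¬ G'.Adj v b)
    (s : Finset (V × V')) (hs : ∀ p ∈ s, ∀ q ∈ s, RR G G' p q) (x : V)
    (hok : ok' ((s.filter (fun p => G.Adj x p.1)).image Prod.snd)) :
    ∃ y : V', ∀ p ∈ insert (x, y) s, ∀ q ∈ insert (x, y) s, RR G G' p q := by
  by_cases hx : ∃ p ∈ s, p.1 = x
  · obtain ⟨p, hp, rfl⟩ := hx
    refine ⟨p.2, ?_⟩
    rw [Finset.insert_eq_of_mem (show (p.1, p.2) ∈ s from hp)]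
    exact hs
  push Not at hx
  obtain ⟨v, h1, h2, h3, h4⟩ := hext ((s.filter (fun p => G.Adj x p.1)).image Prod.snd)
    ((s.filter (fun p => ¬ G.Adj x p.1)).image Prod.snd) (by
      rw [Finset.disjoint_left]
      intro a ha hb
      obtain ⟨p, hp, rfl⟩ := Finset.mem_image.1 ha
      obtain ⟨q, hq, hqp⟩ := Finset.mem_image.1 hb
      rw [Finset.mem_filter] at hp hq
      have := (hs q hq.1 p hp.1).1.2 hqp
      rw [this] at hq
      exact hq.2 hp.2) hok
  have key : ∀ p ∈ s, RR G G' (x, v) p := by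
    intro p hp
    by_cases hadj : G.Adj x p.1
    · have hm : p.2 ∈ (s.filter (fun p => G.Adj x p.1)).image Prod.snd :=
        Finset.mem_image_of_mem _ (Finset.mem_filter.2 ⟨hp, hadj⟩)
      exact ⟨⟨fun h => absurd h.symm (hx p hp),
        fun h => absurd (by rw [show v = p.2 from h]; exact hm) h1⟩,
        ⟨fun _ => h3 _ hm, fun _ => hadj⟩⟩
    · have hm : p.2 ∈ (s.filter (fun p => ¬ G.Adj x p.1)).image Prod.snd :=
        Finset.mem_image_of_mem _ (Finset.mem_filter.2 ⟨hp, hadj⟩)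
      exact ⟨⟨fun h => absurd h.symm (hx p hp),
        fun h => absurd (by rw [show v = p.2 from h]; exact hm) h2⟩,
        ⟨fun h => absurd h hadj, fun h => absurd h (h4 _ hm)⟩⟩
  refine ⟨v, fun p hp q hq => ?_⟩
  rcases Finset.mem_insert.1 hp with rfl | hp <;> rcases Finset.mem_insert.1 hq with rfl | hq
  · exact ⟨by simp, by simp⟩
  · exact key q hq
  · have := key p hp
    refine ⟨⟨fun h => (this.1.1 h.symm).symm, fun h => (this.1.2 h.symm).symm⟩, ?_⟩
    rw [G.adj_comm, G'.adj_comm]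
    exact this.2
  · exact hs p hp q hq

theorem iso_of (hG : Countable V) (hG' : Countable V')
    (h1 : ∀ s : Finset (V × V'), (∀ p ∈ s, ∀ q ∈ s, RR G G' p q) → ∀ x : V, ∃ y : V',
      ∀ p ∈ insert (x, y) s, ∀ q ∈ insert (x, y) s, RR G G' p q)
    (h2 : ∀ s : Finset (V' × V), (∀ p ∈ s, ∀ q ∈ s, RR G' G p q) → ∀ x : V', ∃ y : V,
      ∀ p ∈ insert (x, y) s, ∀ q ∈ insert (x, y) s, RR G' G p q) : Nonempty (G ≃g G') := by
  obtain ⟨e, he⟩ := backforth (RR G G') (fun p q h => h.1) h1 (by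
    intro s hs y
    obtain ⟨x, hx⟩ := h2 (s.image Prod.swap) (by
      intro p hp q hq
      obtain ⟨p', hp', rfl⟩ := Finset.mem_image.1 hp
      obtain ⟨q', hq', rfl⟩ := Finset.mem_image.1 hq
      exact (hs p' hp' q' hq').swap) y
    refine ⟨x, fun p hp q hq => ?_⟩
    have key : ∀ r : V × V', r ∈ insert (x, y) s → r.swap ∈ insert (y, x) (s.image Prod.swap) := by
      intro r hr
      rcases Finset.mem_insert.1 hr with rfl | hr
      · exact Finset.mem_insert_self _ _
      · exact Finset.mem_insert_of_mem (Finset.mem_image_of_mem _ hr)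
    have := (hx _ (key p hp) _ (key q hq)).swap
    simpa using this)
  exact ⟨⟨e, fun {x x'} => (he x x').2.symm⟩⟩

theorem ok_gen {m : ℕ} (hm : 1 ≤ m) (h : G.CliqueFree m) (s : Finset (V × V'))
    (hs : ∀ p ∈ s, ∀ q ∈ s, RR G G' p q) (x : V) :
    G'.CliqueFreeOn (((s.filter (fun p => G.Adj x p.1)).image Prod.snd : Finset V') : Set V')
      (m - 1) := by
  intro t ht hc
  have hex : ∀ v : t, ∃ p ∈ s, G.Adj x p.1 ∧ p.2 = v.1 := by
    intro v
    have := ht v.2
    rw [Finset.mem_coe, Finset.mem_image] at this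
    obtain ⟨p, hp, hpv⟩ := this
    rw [Finset.mem_filter] at hp
    exact ⟨p, hp.1, hp.2, hpv⟩
  choose p hp hxp hpv using hex
  have hinj : ∀ a b : t, (p a).1 = (p b).1 → a = b := by
    intro a b hab
    have := (hs _ (hp a) _ (hp b)).1.1 hab
    rw [hpv, hpv] at this
    exact Subtype.ext this
  let t0 : Finset V := Finset.univ.image (fun a : t => (p a).1)
  have ht0 : t0.card = m - 1 := by
    rw [Finset.card_image_of_injective _ (fun a b hab => hinj a b hab), Finset.card_univ,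
      Fintype.card_coe, hc.2]
  have hcl : G.IsClique (t0 : Set V) := by
    intro a ha b hb hab
    rw [Finset.mem_coe, Finset.mem_image] at ha hb
    obtain ⟨a, -, rfl⟩ := ha
    obtain ⟨b, -, rfl⟩ := hb
    rw [(hs _ (hp a) _ (hp b)).2, hpv, hpv]
    exact hc.1 a.2 b.2 (fun h => hab (by rw [Subtype.ext h]))
  have hins : G.IsNClique (m - 1 + 1) (insert x t0) := by
    apply (show G.IsNClique (m - 1) t0 from ⟨hcl, ht0⟩).insert
    intro b hb
    obtain ⟨b, -, rfl⟩ := Finset.mem_image.1 hb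
    exact hxp b
  rw [Nat.sub_add_cancel hm] at hins
  exact h _ hins

/-- (U1) -/
theorem uniq_gen [hV : Countable V] [hV' : Countable V'] {m : ℕ} (hm : 1 ≤ m)
    (h : GenericCliqueFree G m) (h' : GenericCliqueFree G' m) : Nonempty (G ≃g G') :=
  iso_of hV hV'
    (fun s hs x => fwd_ext (fun A => G'.CliqueFreeOn (A : Set V') (m - 1)) h'.2 s hs x
      (ok_gen hm h.1 s hs x))
    (fun s hs x => fwd_ext (fun A => G.CliqueFreeOn (A : Set V) (m - 1)) h.2 s hs x
      (ok_gen hm h'.1 s hs x))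

/-- (U2) -/
theorem uniq_rado [hV : Countable V] [hV' : Countable V'] (h : RadoExt G) (h' : RadoExt G') :
    Nonempty (G ≃g G') :=
  iso_of hV hV'
    (fun s hs x => fwd_ext (fun _ => True) (fun A B hAB _ => h' A B hAB) s hs x trivial)
    (fun s hs x => fwd_ext (fun _ => True) (fun A B hAB _ => h A B hAB) s hs x trivial)

/-- the disjoint union of complete graphs on `β`, one for each member of `α`. -/
def CU (α : Type u) (β : Type v) : SimpleGraph (α × β) where
  Adj p q := p.1 = q.1 ∧ p.2 ≠ q.2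
  symm := ⟨fun _ _ h => ⟨h.1.symm, h.2.symm⟩⟩
  loopless := ⟨fun _ h => h.2 rfl⟩

/-- (U3) -/
theorem equalCliques_iso [Nonempty V] (h : EqualCliques G) :
    ∃ α β : Type u, Nonempty (G ≃g CU α β) := by
  obtain ⟨htr, hau⟩ := h
  let st : Setoid V :=
    { r := fun a b => a = b ∨ G.Adj a b
      iseqv := ⟨fun a => Or.inl rfl, fun h => h.elim (fun h => Or.inl h.symm)
        (fun h => Or.inr h.symm), by
          rintro a b c (rfl | h1) (rfl | h2)
          · exact Or.inl rfl
          · exact Or.inr h2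
          · exact Or.inr h1
          · by_cases hac : a = c
            · exact Or.inl hac
            · exact Or.inr (htr a b c h1 h2 hac)⟩ }
  let o : V := Classical.arbitrary V
  have hrep : ∀ q : Quotient st, ∃ φ : G ≃g G, (⟦φ o⟧ : Quotient st) = q := by
    intro q
    obtain ⟨v, rfl⟩ := Quotient.exists_rep q
    obtain ⟨φ, hφ⟩ := hau o v
    exact ⟨φ, by rw [hφ]⟩
  choose φ hφ using hrep
  have hcls : ∀ q (x : {x : V // o = x ∨ G.Adj o x}), (⟦φ q x.1⟧ : Quotient st) = q := by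
    intro q x
    conv_rhs => rw [← hφ q]
    apply Quotient.sound
    show φ q x.1 = φ q o ∨ G.Adj (φ q x.1) (φ q o)
    rcases x.2 with h | h
    · left; rw [← h]
    · right; rw [(φ q).map_adj_iff]; exact h.symm
  have hinv : ∀ v : V, o = (φ ⟦v⟧).symm v ∨ G.Adj o ((φ ⟦v⟧).symm v) := by
    intro v
    have h1 : φ (⟦v⟧ : Quotient st) o = v ∨ G.Adj (φ (⟦v⟧ : Quotient st) o) v :=
      Quotient.exact (hφ (⟦v⟧ : Quotient st))
    rcases h1 with h1 | h1
    · left
      apply (φ ⟦v⟧).injective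
      simp [h1]
    · right
      rw [← (φ ⟦v⟧).map_adj_iff]
      simpa using h1
  let e : Quotient st × {x : V // o = x ∨ G.Adj o x} ≃ V :=
    { toFun := fun p => φ p.1 p.2.1
      invFun := fun v => (⟦v⟧, ⟨(φ ⟦v⟧).symm v, hinv v⟩)
      left_inv := by
        rintro ⟨q, x⟩
        simp only
        rw [Prod.mk.injEq]
        refine ⟨hcls q x, ?_⟩
        apply Subtype.ext
        simp only
        rw [hcls q x]
        simp
      right_inv := fun v => by simp }
  refine ⟨Quotient st, {x : V // o = x ∨ G.Adj o x}, ⟨SimpleGraph.Iso.symm ⟨e, ?_⟩⟩⟩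
  rintro ⟨q, x⟩ ⟨p, y⟩
  show G.Adj (φ q x.1) (φ p y.1) ↔ q = p ∧ x ≠ y
  constructor
  · intro hadj
    have hqp : q = p := by
      rw [← hcls q x, ← hcls p y]
      exact Quotient.sound (Or.inr hadj)
    subst hqp
    refine ⟨rfl, fun hxy => ?_⟩
    rw [hxy] at hadj
    exact G.irrefl hadj
  · rintro ⟨rfl, hxy⟩
    rw [(φ q).map_adj_iff]
    have hne : x.1 ≠ y.1 := fun h => hxy (Subtype.ext h)
    rcases x.2 with h1 | h1 <;> rcases y.2 with h2 | h2
    · exact absurd (h1.symm.trans h2) hne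
    · rw [← h1]; exact h2
    · rw [← h2]; exact h1.symm
    · exact htr _ _ _ h1.symm h2 hne

end Run7.h77.UQ
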